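import Pool.Agent.SQ.BO.Fam
import Pool.Agent.SQ.T5.Defs
import Pool.Agent.SQ.HH.TwoA
import Pool.Agent.SQ.T2.Fin2
import Pool.Agent.SQ.T3.Final

/-!
# SQ/BO: the groups with a bi-invariant order: definitions and rows

Pages: team-store MP_984acc_BIORD_h85.md, MP_984acc_BO_h90.md.
-/

set_option autoImplicit false

open scoped TensorProduct

noncomputable section

namespace SQ.BO

open Singer Singer.Ord SQ.T3 SQ.HH Pool.Agent.Helper18.SQ Pool.Agent.Helper16.Cmp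

/-- `K` has a linear order which is invariant under the left and the right multiplications -/
def BiOrd (K : Type) [Group K] : Prop :=
  ∃ _ : LinearOrder K, (∀ a b d : K, a ≤ b → d * a ≤ d * b) ∧ ∀ a b d : K, a ≤ b → a * d ≤ b * d

/-! ### projections to the subsets of the group (for series: the restriction of the support) -/

section proj
variable {K : Type} [Group K] {E : Type} [DivisionRing E]

/-- projections to the subsets of the group -/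
structure Proj (ρ : K →* Eˣ) where
  π : Set K → E →+ E
  left : ∀ (g : K) (S : Set K) (x : E), π {h | g⁻¹ * h ∈ S} (((ρ g : Eˣ) : E) * x) = ((ρ g : Eˣ) : E) * π S x
  right : ∀ (g : K) (S : Set K) (x : E), π {h | h * g⁻¹ ∈ S} (x * ((ρ g : Eˣ) : E)) = π S x * ((ρ g : Eˣ) : E)
  mem : ∀ (S : Set K) (g : K), g ∈ S → π S ((ρ g : Eˣ) : E) = ((ρ g : Eˣ) : E)
  not_mem : ∀ (S : Set K) (g : K), g ∉ S → π S ((ρ g : Eˣ) : E) = 0

/-- the homomorphism to the opposite skew field -/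
def opr (ρ : K →* Eˣ) : K →* (Eᵐᵒᵖ)ˣ where
  toFun g := ⟨MulOpposite.op ((ρ g⁻¹ : Eˣ) : E), MulOpposite.op ((ρ g : Eˣ) : E), by
      rw [← MulOpposite.op_mul, ← Units.val_mul, ← map_mul, mul_inv_cancel, map_one]
      rfl, by
      rw [← MulOpposite.op_mul, ← Units.val_mul, ← map_mul, inv_mul_cancel, map_one]
      rfl⟩
  map_one' := Units.ext (by
    show MulOpposite.op ((ρ (1 : K)⁻¹ : Eˣ) : E) = 1
    rw [inv_one, map_one]
    rfl)
  map_mul' a b := Units.ext (by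
    show MulOpposite.op ((ρ (a * b)⁻¹ : Eˣ) : E) = MulOpposite.op ((ρ a⁻¹ : Eˣ) : E) * MulOpposite.op ((ρ b⁻¹ : Eˣ) : E)
    rw [← MulOpposite.op_mul, ← Units.val_mul, ← map_mul, mul_inv_rev])

theorem opr_val (ρ : K →* Eˣ) (g : K) : ((opr ρ g : (Eᵐᵒᵖ)ˣ) : Eᵐᵒᵖ) = MulOpposite.op ((ρ g⁻¹ : Eˣ) : E) := rfl

/-- all pairs are independent -/
def AllInd (ρ : K →* Eˣ) : Prop := ∀ (H N : Subgroup K) (t : K), ZP H N t → Ind ρ N t

/-- the cosets of all subgroups are independent -/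
def AllCos (ρ : K →* Eˣ) : Prop := ∀ H' H : Subgroup K, H' ≤ H → CosInd ρ H' H

end proj

/-! ### sources -/

section src
variable {K : Type} [Group K] {E₁ E₂ : Type} [DivisionRing E₁] [DivisionRing E₂]

/-- all finite families are good -/
def AllFam (ρ₁ : K →* E₁ˣ) (ρ₂ : K →* E₂ˣ) : Prop :=
  ∀ (H : Subgroup K) (X : Finset E₁), (∀ x ∈ X, x ∈ cl ρ₁ H) → Fam ρ₁ ρ₂ H (X : Set E₁)

end src

/-! ### the 2-adic lift -/

section lift
variable {K : Type} [Group K] {D E₀ : Type} [DivisionRing D] [DivisionRing E₀]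

/-- a local ring `Λ` in `E₀` with residue field `D`, which contains the group -/
structure Lift (ρ : K →* Dˣ) (ρ₀ : K →* E₀ˣ) where
  Λ : Subring E₀
  red : Λ →+* D
  surj : Function.Surjective red
  unit : ∀ x : Λ, red x ≠ 0 → (x : E₀)⁻¹ ∈ Λ
  mem : ∀ g, ((ρ₀ g : E₀ˣ) : E₀) ∈ Λ
  red_rho : ∀ g, red ⟨_, mem g⟩ = ((ρ g : Dˣ) : D)

end lift

/-! ### rows -/

/-- **BO1** Malcev-Neumann series over the field with two elements, and over the 2-adic integers (`E₀ = Λ[1/2]`) -/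
def StmtMN : Prop :=
  ∀ (K : Type) [Group K], BiOrd K → ∃ (D E₀ : Type) (_ : DivisionRing D) (_ : DivisionRing E₀) (_ : Algebra (ZMod 2) D)
    (_ : CharZero E₀) (ρ : K →* Dˣ) (ρ₀ : K →* E₀ˣ), Nonempty (Lift ρ ρ₀) ∧ Nonempty (Proj ρ) ∧ Nonempty (Proj ρ₀)

/-- **BO2** local indicability (maximal convex subgroups; Hoelder) -/
def StmtLI : Prop :=
  ∀ (K : Type) [Group K], BiOrd K → ∀ S : Subgroup K, S.FG → S ≠ ⊥ → ∃ (N : Subgroup K) (t : K), ZP S N t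

/-- **BO3** sources (every characteristic) -/
def StmtSrc : Prop :=
  ∀ (K : Type) [Group K] (E₁ E₂ : Type) [DivisionRing E₁] [DivisionRing E₂] (ρ₁ : K →* E₁ˣ) (ρ₂ : K →* E₂ˣ),
    T5.Loc ρ₁ ρ₂ → AllCos ρ₁ → AllFam ρ₁ ρ₂

/-- **BO4** the vanishing of `H_(j+1)(L; E₁ ⊗ E₂)` -/
def StmtTorF : Prop :=
  ∀ (Γ L : Type) [Group Γ] [Group L] (l : L →* Γ), Function.Injective l → ∀ (E₁ E₂ : Type) [DivisionRing E₁]
    [DivisionRing E₂] [Algebra (ZMod 2) E₁] [Algebra (ZMod 2) E₂] (ρ₁ : L →* E₁ˣ) (ρ₂ : L →* E₂ˣ),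
    cl ρ₁ ⊤ = ⊤ → cl ρ₂ ⊤ = ⊤ → AllFam ρ₁ ρ₂ → AllCos ρ₁ →
    ∀ (R : FinRes Γ) (j : ℕ), HV l (HH.Two.ten ρ₁ ρ₂) R j

/-- **BO5** (Theorem L and the comparison of ranks for `Λ`) -/
def StmtBound : Prop :=
  ∀ (K : Type) [Group K] (D E₀ : Type) [DivisionRing D] [DivisionRing E₀] [CharZero E₀] (ρ : K →* Dˣ) (ρ₀ : K →* E₀ˣ),
    Nonempty (Lift ρ ρ₀) → AllFam ρ₀ ρ₀ → AllCos ρ₀ →
    ∀ {κ ι J : Type} [Fintype κ] [Fintype ι] [DecidableEq ι] [Fintype J] (c : κ → ι → J → ℤ) (s : J → K)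
      (W : Submodule ℂ (E K ι)), (W : Set (E K ι)) = SolL c s →
      vdim W * Module.finrank Dᵐᵒᵖ D ≤ Module.finrank Dᵐᵒᵖ (SolD c (fun j => lm (((ρ (s j) : Dˣ) : D))))

end SQ.BO
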