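import Pool.Agent.SQ.BO.Defs

/-!
# SQ/BO: groups which are residually unitriangular over the integers have a bi-invariant order

The lexicographic order on the entries of unitriangular matrices (diagonal by diagonal) is invariant.
-/

set_option autoImplicit false

open scoped BigOperators

namespace SQ.BO.Cor

section mat
variable {m : ℕ} {u a b : Matrix (Fin m) (Fin m) ℤ}

/-- upper unitriangular -/
structure UT (a : Matrix (Fin m) (Fin m) ℤ) : Prop where
  low : ∀ i j, j < i → a i j = 0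
  diag : ∀ i, a i i = 1

theorem left_entry (hu : UT u) (ha : UT a) (hb : UT b) {i j : Fin m} (h : ∀ k, i < k → k ≤ j → a k j = b k j) :
    (u * a) i j - (u * b) i j = a i j - b i j := by
  rw [Matrix.mul_apply, Matrix.mul_apply, ← Finset.sum_sub_distrib, Finset.sum_eq_single i]
  · rw [hu.diag, one_mul, one_mul]
  · intro k _ hk
    rcases lt_or_gt_of_ne hk with h1 | h1
    · rw [hu.low _ _ h1, zero_mul, zero_mul, sub_zero]
    · rcases le_or_gt k j with h2 | h2
      · rw [h k h1 h2, sub_self]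
      · rw [ha.low _ _ h2, hb.low _ _ h2, sub_self]
  · intro h1
    exact absurd (Finset.mem_univ _) h1

theorem right_entry (hu : UT u) (ha : UT a) (hb : UT b) {i j : Fin m} (h : ∀ k, i ≤ k → k < j → a i k = b i k) :
    (a * u) i j - (b * u) i j = a i j - b i j := by
  rw [Matrix.mul_apply, Matrix.mul_apply, ← Finset.sum_sub_distrib, Finset.sum_eq_single j]
  · rw [hu.diag, mul_one, mul_one]
  · intro k _ hk
    rcases lt_or_gt_of_ne hk with h1 | h1
    · rcases le_or_gt i k with h2 | h2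
      · rw [h k h2 h1, sub_self]
      · rw [ha.low _ _ h2, hb.low _ _ h2, sub_self]
    · rw [hu.low _ _ h1, mul_zero, mul_zero, sub_zero]
  · intro h1
    exact absurd (Finset.mem_univ _) h1

end mat

section ord
variable {K : Type} [Group K]

/-- an order from an injective family of functions with invariant first differences -/
theorem biOrd_of {ι : Type} [LinearOrder ι] [WellFoundedLT ι] (f : K → ι → ℤ) (hf : Function.Injective f)
    (hl : ∀ (d a b : K) (p : ι), (∀ q < p, f a q = f b q) → f (d * a) p - f (d * b) p = f a p - f b p)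
    (hr : ∀ (d a b : K) (p : ι), (∀ q < p, f a q = f b q) → f (a * d) p - f (b * d) p = f a p - f b p) : BiOrd K := by
  have hinj : Function.Injective fun a : K => toLex (f a) := fun a b h => hf (toLex.injective h)
  have key : ∀ a b : K, toLex (f a) < toLex (f b) ↔ ∃ p, (∀ q < p, f a q = f b q) ∧ f a p < f b p := fun a b => Iff.rfl
  refine ⟨LinearOrder.lift' (fun a => toLex (f a)) hinj, fun a b d h => ?_, fun a b d h => ?_⟩
  · have h1 : toLex (f a) ≤ toLex (f b) := h
    show toLex (f (d * a)) ≤ toLex (f (d * b))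
    rcases h1.eq_or_lt with h2 | h2
    · rw [hinj h2]
    · refine le_of_lt ((key _ _).2 ?_)
      obtain ⟨p, h3, h4⟩ := (key _ _).1 h2
      refine ⟨p, fun q hq => ?_, ?_⟩
      · have h5 := hl d a b q fun r hr => h3 r (hr.trans hq)
        rw [h3 q hq, sub_self] at h5
        exact sub_eq_zero.1 h5
      · have h5 := hl d a b p h3
        linarith
  · have h1 : toLex (f a) ≤ toLex (f b) := h
    show toLex (f (a * d)) ≤ toLex (f (b * d))
    rcases h1.eq_or_lt with h2 | h2
    · rw [hinj h2]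
    · refine le_of_lt ((key _ _).2 ?_)
      obtain ⟨p, h3, h4⟩ := (key _ _).1 h2
      refine ⟨p, fun q hq => ?_, ?_⟩
      · have h5 := hr d a b q fun r hr => h3 r (hr.trans hq)
        rw [h3 q hq, sub_self] at h5
        exact sub_eq_zero.1 h5
      · have h5 := hr d a b p h3
        linarith

/-- the unitriangular representations -/
structure Rp (K : Type) [Group K] : Type where
  m : ℕ
  π : K →* (Matrix (Fin m) (Fin m) ℤ)ˣ
  ut : ∀ k, UT (π k).val

/-- the entries, diagonal by diagonal -/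
def ent (a : K) (p : Rp K ×ₗ (ℕ ×ₗ ℕ)) : ℤ :=
  if h : (ofLex (ofLex p).2).2 + (ofLex (ofLex p).2).1 < (ofLex p).1.m then
    ((ofLex p).1.π a).val ⟨(ofLex (ofLex p).2).2, by omega⟩ ⟨(ofLex (ofLex p).2).2 + (ofLex (ofLex p).2).1, h⟩ else 0

/-- a position -/
def pos (α : Rp K) (δ i : ℕ) : Rp K ×ₗ (ℕ ×ₗ ℕ) := toLex (α, toLex (δ, i))

theorem ent_pos (a : K) (α : Rp K) {δ i : ℕ} (h : i + δ < α.m) :
    ent a (pos α δ i) = (α.π a).val ⟨i, by omega⟩ ⟨i + δ, h⟩ := dif_pos h

theorem ent_pos_not (a : K) (α : Rp K) {δ i : ℕ} (h : ¬ i + δ < α.m) : ent a (pos α δ i) = 0 := dif_neg h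

theorem ent_fin (a : K) (α : Rp K) {i j : Fin α.m} (h : i ≤ j) :
    ent a (pos α (j.1 - i.1) i.1) = (α.π a).val i j := by
  have h1 : i.1 + (j.1 - i.1) = j.1 := by
    have : i.1 ≤ j.1 := h
    omega
  have h2 : i.1 + (j.1 - i.1) < α.m := by
    rw [h1]
    exact j.2
  have h3 : (⟨i.1 + (j.1 - i.1), h2⟩ : Fin α.m) = j := Fin.ext h1
  rw [ent_pos a α h2, h3]

theorem pos_lt [LinearOrder (Rp K)] (α : Rp K) {δ δ' i i' : ℕ} (h : δ' < δ) : pos α δ' i' < pos α δ i := by
  refine Prod.Lex.lt_iff.2 (Or.inr ⟨rfl, Prod.Lex.lt_iff.2 (Or.inl h)⟩)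

theorem ent_inj (hK : ∀ h : K, h ≠ 1 → ∃ α : Rp K, α.π h ≠ 1) : Function.Injective (ent : K → _ → ℤ) := by
  intro a b hab
  by_contra hne
  have h1 : a⁻¹ * b ≠ 1 := fun h => hne (inv_mul_eq_one.1 h)
  obtain ⟨α, hα⟩ := hK _ h1
  refine hα ?_
  rw [map_mul, map_inv, inv_mul_eq_one]
  refine Units.ext (Matrix.ext fun i j => ?_)
  rcases le_or_gt i j with h2 | h2
  · rw [← ent_fin a α h2, hab, ent_fin b α h2]
  · rw [(α.ut a).low _ _ h2, (α.ut b).low _ _ h2]

/-- groups which are residually unitriangular over the integers -/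
theorem biOrd_of_rp (hK : ∀ h : K, h ≠ 1 → ∃ α : Rp K, α.π h ≠ 1) : BiOrd K := by
  obtain ⟨_, hwf⟩ := exists_wellFoundedLT (Rp K)
  refine biOrd_of (ι := Rp K ×ₗ (ℕ ×ₗ ℕ)) ent (ent_inj hK) ?_ ?_
  · rintro d a b ⟨α, δ, i⟩ h
    change ent (d * a) (pos α δ i) - ent (d * b) (pos α δ i) = ent a (pos α δ i) - ent b (pos α δ i)
    change ∀ q < pos α δ i, ent a q = ent b q at h
    by_cases hi : i + δ < α.m
    · rw [ent_pos _ _ hi, ent_pos _ _ hi, ent_pos _ _ hi, ent_pos _ _ hi, map_mul, map_mul, Units.val_mul, Units.val_mul]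
      refine left_entry (α.ut d) (α.ut a) (α.ut b) fun k hk1 hk2 => ?_
      rw [← ent_fin a α hk2, ← ent_fin b α hk2]
      refine h _ (pos_lt α ?_)
      have h3 : i < k.1 := hk1
      have h4 : k.1 ≤ i + δ := hk2
      show i + δ - k.1 < δ
      omega
    · rw [ent_pos_not _ _ hi, ent_pos_not _ _ hi, ent_pos_not _ _ hi, ent_pos_not _ _ hi]
  · rintro d a b ⟨α, δ, i⟩ h
    change ent (a * d) (pos α δ i) - ent (b * d) (pos α δ i) = ent a (pos α δ i) - ent b (pos α δ i)
    change ∀ q < pos α δ i, ent a q = ent b q at h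
    by_cases hi : i + δ < α.m
    · rw [ent_pos _ _ hi, ent_pos _ _ hi, ent_pos _ _ hi, ent_pos _ _ hi, map_mul, map_mul, Units.val_mul, Units.val_mul]
      refine right_entry (α.ut d) (α.ut a) (α.ut b) fun k hk1 hk2 => ?_
      rw [← ent_fin a α hk1, ← ent_fin b α hk1]
      refine h _ (pos_lt α ?_)
      have h3 : i ≤ k.1 := hk1
      have h4 : k.1 < i + δ := hk2
      show k.1 - i < δ
      omega
    · rw [ent_pos_not _ _ hi, ent_pos_not _ _ hi, ent_pos_not _ _ hi, ent_pos_not _ _ hi]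

/-- groups which are residually unitriangular over the integers have a bi-invariant order -/
theorem biOrd_of_resUT (hK : ∀ h : K, h ≠ 1 → ∃ (m : ℕ) (π : K →* (Matrix (Fin m) (Fin m) ℤ)ˣ),
    (∀ (k : K) (i j : Fin m), j < i → (π k).val i j = 0) ∧ (∀ (k : K) (i : Fin m), (π k).val i i = 1) ∧ π h ≠ 1) :
    BiOrd K :=
  biOrd_of_rp fun h hh => by
    obtain ⟨m, π, h1, h2, h3⟩ := hK h hh
    exact ⟨⟨m, π, fun k => ⟨h1 k, h2 k⟩⟩, h3⟩

end ord

end SQ.BO.Cor
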