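import Pool.Agent.SQ.BO.Adic
import Pool.Agent.SQ.BO.Defs

/-!
# The row BO1: the skew fields of a bi-ordered group and the 2-adic lift
-/

set_option autoImplicit false
set_option linter.unusedSectionVars false

noncomputable section

namespace SQ.BO

open SQ.T3 SQ.Ore OreLocalization nonZeroDivisors

namespace MN

section rs
variable {G R : Type} [Group G] [LinearOrder G] [MulLeftMono G] [MulRightMono G] [Ring R]

open Classical in
/-- the restriction of the support -/
def rs (S : Set G) : MN G R →+ MN G R where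
  toFun x := ⟨fun g => if g ∈ S then x.c g else 0, x.pwo.mono fun g hg h => hg (by
    show (if g ∈ S then x.c g else 0) = 0
    rw [h, ite_self])⟩
  map_zero' := MN.ext (funext fun g => by
    show (if g ∈ S then (0 : MN G R).c g else 0) = 0
    rw [zero_c, ite_self])
  map_add' x y := MN.ext (funext fun g => by
    show (if g ∈ S then (x + y).c g else 0) = (if g ∈ S then x.c g else 0) + if g ∈ S then y.c g else 0
    rw [add_c]
    split_ifs
    · rfl
    · rw [add_zero])

theorem rs_pos {S : Set G} {g : G} (h : g ∈ S) (x : MN G R) : (rs S x).c g = x.c g := if_pos h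

theorem rs_neg {S : Set G} {g : G} (h : g ∉ S) (x : MN G R) : (rs S x).c g = 0 := if_neg h

theorem rs_left (g : G) (S : Set G) (x : MN G R) :
    rs {h | g⁻¹ * h ∈ S} (((of g : (MN G R)ˣ) : MN G R) * x) = ((of g : (MN G R)ˣ) : MN G R) * rs S x := by
  refine MN.ext (funext fun h => ?_)
  rw [of_val, sg_mul_c, one_mul]
  by_cases hh : g⁻¹ * h ∈ S
  · rw [rs_pos (show h ∈ {h | g⁻¹ * h ∈ S} from hh), rs_pos hh, sg_mul_c, one_mul]
  · rw [rs_neg (show h ∉ {h | g⁻¹ * h ∈ S} from hh), rs_neg hh]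

theorem rs_right (g : G) (S : Set G) (x : MN G R) :
    rs {h | h * g⁻¹ ∈ S} (x * ((of g : (MN G R)ˣ) : MN G R)) = rs S x * ((of g : (MN G R)ˣ) : MN G R) := by
  refine MN.ext (funext fun h => ?_)
  rw [mul_of_c]
  by_cases hh : h * g⁻¹ ∈ S
  · rw [rs_pos (show h ∈ {h | h * g⁻¹ ∈ S} from hh), rs_pos hh, mul_of_c]
  · rw [rs_neg (show h ∉ {h | h * g⁻¹ ∈ S} from hh), rs_neg hh]

theorem rs_mem {S : Set G} {g : G} (h : g ∈ S) : rs S ((of g : (MN G R)ˣ) : MN G R) = ((of g : (MN G R)ˣ) : MN G R) := by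
  refine MN.ext (funext fun k => ?_)
  by_cases hk : k ∈ S
  · rw [rs_pos hk]
  · rw [rs_neg hk, of_val, sg_c, if_neg]
    rintro rfl
    exact hk h

theorem rs_not_mem {S : Set G} {g : G} (h : g ∉ S) : rs S ((of g : (MN G R)ˣ) : MN G R) = 0 := by
  refine MN.ext (funext fun k => ?_)
  rw [zero_c]
  by_cases hk : k ∈ S
  · rw [rs_pos hk, of_val, sg_c, if_neg]
    rintro rfl
    exact h hk
  · rw [rs_neg hk]

theorem rs_map {R' : Type} [Ring R'] (f : R →+* R') (S : Set G) (x : MN G R) : map f (rs S x) = rs S (map f x) := by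
  refine MN.ext (funext fun k => ?_)
  rw [map_c]
  by_cases hk : k ∈ S
  · rw [rs_pos hk, rs_pos hk, map_c]
  · rw [rs_neg hk, rs_neg hk, map_zero]

/-- the projections of the skew field -/
def proj {D : Type} [DivisionRing D] : Proj (of : G →* (MN G D)ˣ) where
  π := rs
  left := rs_left
  right := rs_right
  mem _ _ h := rs_mem h
  not_mem _ _ h := rs_not_mem h

end rs

end MN

open MN

/-! ### extension of additive maps to the ring of fractions -/

section ext
variable {R E₀ : Type} [Ring R] [DivisionRing E₀] [CharZero E₀] {j : R →+* E₀} (hj : Function.Injective j)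
  (hden : ∀ x : E₀, ∃ (m : ℕ) (y : R), 2 ^ m * x = j y)

/-- the extension, as a function -/
def extF (hden : ∀ x : E₀, ∃ (m : ℕ) (y : R), 2 ^ m * x = j y) (p : R →+ R) (x : E₀) : E₀ :=
  (2 ^ (hden x).choose)⁻¹ * j (p (hden x).choose_spec.choose)

theorem two_pow_ne (m : ℕ) : (2 : E₀) ^ m ≠ 0 := pow_ne_zero _ two_ne_zero

theorem two_pow_comm (m : ℕ) (x : E₀) : 2 ^ m * x = x * 2 ^ m := by
  have h := Nat.cast_commute (2 ^ m) x
  push_cast at h
  exact h.eq

theorem p_pow (p : R →+ R) (m : ℕ) (y : R) : p (2 ^ m * y) = 2 ^ m * p y := by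
  have h1 : ∀ z : R, 2 ^ m * z = (2 ^ m : ℕ) • z := by
    intro z
    rw [nsmul_eq_mul]
    push_cast
    rfl
  rw [h1, h1, map_nsmul]

include hj in
theorem extF_eq (p : R →+ R) {x : E₀} {m : ℕ} {y : R} (h : 2 ^ m * x = j y) :
    extF hden p x = (2 ^ m)⁻¹ * j (p y) := by
  have h1 := (hden x).choose_spec.choose_spec
  set m' := (hden x).choose with hm'
  set y' := (hden x).choose_spec.choose with hy'
  have h2 : (2 : R) ^ m' * y = 2 ^ m * y' := by
    apply hj
    rw [map_mul, map_mul, ← h, ← h1, map_pow, map_pow, map_ofNat, ← mul_assoc, ← mul_assoc, ← pow_add, ← pow_add, add_comm]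
  have h3 := congrArg p h2
  rw [p_pow, p_pow] at h3
  have h4 := congrArg j h3
  rw [map_mul, map_mul, map_pow, map_pow, map_ofNat] at h4
  show (2 ^ m')⁻¹ * j (p y') = (2 ^ m)⁻¹ * j (p y)
  rw [inv_mul_eq_iff_eq_mul₀ (two_pow_ne m'), ← mul_assoc, two_pow_comm, mul_assoc, h4, inv_mul_cancel_left₀ (two_pow_ne m)]

/-- the extension -/
def extA (p : R →+ R) : E₀ →+ E₀ where
  toFun := extF hden p
  map_zero' := by
    rw [extF_eq hj hden p (m := 0) (y := 0) (by rw [mul_zero, map_zero]), map_zero, map_zero, mul_zero]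
  map_add' x y := by
    obtain ⟨m, a, ha⟩ := hden x
    obtain ⟨n, b, hb⟩ := hden y
    have hx : 2 ^ (m + n) * x = j (2 ^ n * a) := by
      rw [map_mul, map_pow, map_ofNat, ← ha, ← mul_assoc, ← pow_add, add_comm]
    have hy : 2 ^ (m + n) * y = j (2 ^ m * b) := by
      rw [map_mul, map_pow, map_ofNat, ← hb, ← mul_assoc, ← pow_add]
    rw [extF_eq hj hden p hx, extF_eq hj hden p hy,
      extF_eq hj hden p (m := m + n) (y := 2 ^ n * a + 2 ^ m * b) (by rw [mul_add, map_add, hx, hy]), map_add, map_add, mul_add]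

theorem extA_eq (p : R →+ R) {x : E₀} {m : ℕ} {y : R} (h : 2 ^ m * x = j y) :
    extA hj hden p x = (2 ^ m)⁻¹ * j (p y) := extF_eq hj hden p h

end ext

namespace Lam

section
variable {G : Type} [Group G] [LinearOrder G] [MulLeftMono G] [MulRightMono G]

/-- the group elements -/
def of : G →* (Lam G)ˣ :=
  MonoidHom.toHomUnits
    { toFun := fun g => ⟨fun k => ((MN.of g : (MN G (ZMod (2 ^ (k + 1))))ˣ) : MN G (ZMod (2 ^ (k + 1)))), fun k => map_of _ g⟩
      map_one' := ext' fun k => by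
        show ((MN.of (1 : G) : (MN G (ZMod (2 ^ (k + 1))))ˣ) : MN G (ZMod (2 ^ (k + 1)))) = 1
        rw [map_one, Units.val_one]
      map_mul' := fun g h => ext' fun k => by
        show ((MN.of (g * h) : (MN G (ZMod (2 ^ (k + 1))))ˣ) : MN G (ZMod (2 ^ (k + 1)))) = _
        rw [map_mul, Units.val_mul]
        rfl }

theorem of_co (g : G) (k : ℕ) : co ((of g : (Lam G)ˣ) : Lam G) k = ((MN.of g : (MN G (ZMod (2 ^ (k + 1))))ˣ) : MN G (ZMod (2 ^ (k + 1)))) :=
  rfl

theorem red_of (g : G) : red ((of g : (Lam G)ˣ) : Lam G) = ((MN.of g : (MN G (ZMod 2))ˣ) : MN G (ZMod 2)) := by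
  rw [red_eq _ 0, of_co, map_of]

/-- the restriction of the support -/
def rs (S : Set G) : Lam G →+ Lam G where
  toFun x := ⟨fun k => MN.rs S (co x k), fun k => by
    show MN.map (rd k) (MN.rs S (co x (k + 1))) = MN.rs S (co x k)
    rw [rs_map, compat]⟩
  map_zero' := ext' fun k => map_zero (MN.rs S)
  map_add' x y := ext' fun k => map_add (MN.rs S) _ _

theorem rs_co (S : Set G) (x : Lam G) (k : ℕ) : co (rs S x) k = MN.rs S (co x k) := rfl

end

end Lam

/-! ### the ring of fractions -/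

section frac
variable {R E₀ D : Type} [Ring R] [DivisionRing E₀] [CharZero E₀] [DivisionRing D] {j : R →+* E₀}
  (hj : Function.Injective j) (hden : ∀ x : E₀, ∃ (m : ℕ) (y : R), 2 ^ m * x = j y)
  {G : Type} [Group G] (l : G →* Rˣ)

/-- the group elements in the skew field -/
def up (j : R →+* E₀) (l : G →* Rˣ) : G →* E₀ˣ := (Units.map (j : R →* E₀)).comp l

theorem up_val (j : R →+* E₀) (l : G →* Rˣ) (g : G) : ((up j l g : E₀ˣ) : E₀) = j ((l g : Rˣ) : R) := rfl

include hj in
theorem lift_of (ρ : G →* Dˣ) (red : R →+* D) (surj : Function.Surjective red) (unit : ∀ x : R, red x ≠ 0 → IsUnit x)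
    (hred : ∀ g, red ((l g : Rˣ) : R) = ((ρ g : Dˣ) : D)) : Nonempty (Lift ρ (up j l)) := by
  let e : R ≃+* j.range := RingEquiv.ofLeftInverse (Function.leftInverse_invFun hj)
  exact ⟨
    { Λ := j.range
      red := red.comp (e.symm : j.range →+* R)
      surj := fun y => by
        obtain ⟨x, hx⟩ := surj y
        refine ⟨e x, ?_⟩
        show red (e.symm (e x)) = y
        rw [e.symm_apply_apply, hx]
      unit := fun x hx => by
        obtain ⟨v, hv⟩ := unit (e.symm x) hx
        refine ⟨((v⁻¹ : Rˣ) : R), ?_⟩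
        have h1 : (x : E₀) = j (v : R) := by
          rw [hv]
          have h2 := congrArg Subtype.val (e.apply_symm_apply x)
          exact h2.symm
        rw [h1]
        refine (inv_eq_of_mul_eq_one_right ?_).symm
        rw [← map_mul, Units.mul_inv, map_one]
      mem := fun g => ⟨_, rfl⟩
      red_rho := fun g => by
        have h1 : (⟨((up j l g : E₀ˣ) : E₀), ⟨_, rfl⟩⟩ : j.range) = e ((l g : Rˣ) : R) := Subtype.ext rfl
        show red (e.symm ⟨((up j l g : E₀ˣ) : E₀), ⟨_, rfl⟩⟩) = _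
        rw [h1, e.symm_apply_apply, hred] }⟩

include hj hden in
theorem proj_of (π : Set G → R →+ R)
    (left : ∀ (g : G) (S : Set G) (x : R), π {h | g⁻¹ * h ∈ S} (((l g : Rˣ) : R) * x) = ((l g : Rˣ) : R) * π S x)
    (right : ∀ (g : G) (S : Set G) (x : R), π {h | h * g⁻¹ ∈ S} (x * ((l g : Rˣ) : R)) = π S x * ((l g : Rˣ) : R))
    (mem : ∀ (S : Set G) (g : G), g ∈ S → π S ((l g : Rˣ) : R) = ((l g : Rˣ) : R))
    (not_mem : ∀ (S : Set G) (g : G), g ∉ S → π S ((l g : Rˣ) : R) = 0) : Nonempty (Proj (up j l)) :=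
  ⟨{  π := fun S => extA hj hden (π S)
      left := fun g S x => by
        obtain ⟨m, y, hy⟩ := hden x
        rw [extA_eq hj hden _ hy, extA_eq hj hden (π {h | g⁻¹ * h ∈ S}) (m := m)
          (y := ((l g : Rˣ) : R) * y) (by
            rw [up_val, map_mul, ← hy, ← mul_assoc, two_pow_comm, mul_assoc]), left, map_mul, up_val, ← mul_assoc, ← mul_assoc]
        congr 1
        rw [inv_mul_eq_iff_eq_mul₀ (two_pow_ne m), ← mul_assoc, two_pow_comm, mul_assoc, mul_inv_cancel₀ (two_pow_ne m),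
          mul_one]
      right := fun g S x => by
        obtain ⟨m, y, hy⟩ := hden x
        rw [extA_eq hj hden _ hy, extA_eq hj hden (π {h | h * g⁻¹ ∈ S}) (m := m)
          (y := y * ((l g : Rˣ) : R)) (by
            rw [up_val, map_mul, ← hy, mul_assoc]), right, map_mul, up_val, mul_assoc]
      mem := fun S g hg => by
        rw [extA_eq hj hden _ (m := 0) (y := ((l g : Rˣ) : R)) (by rw [pow_zero, one_mul, up_val]), mem S g hg,
          pow_zero, inv_one, one_mul, up_val]
      not_mem := fun S g hg => by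
        rw [extA_eq hj hden _ (m := 0) (y := ((l g : Rˣ) : R)) (by rw [pow_zero, one_mul, up_val]), not_mem S g hg,
          map_zero, mul_zero] }⟩

/-- a ring in which every nonzero element is a power of 2 times a unit -/
theorem frac_of (hfrac : IsFrac j) (hpow : ∀ x : R, x ≠ 0 → ∃ (m : ℕ) (u : R), IsUnit u ∧ x = 2 ^ m * u) (x : E₀) :
    ∃ (m : ℕ) (y : R), 2 ^ m * x = j y := by
  obtain ⟨s, a, hs, hx⟩ := hfrac.gen x
  obtain ⟨m, u, ⟨v, rfl⟩, rfl⟩ := hpow s hs
  refine ⟨m, ((v⁻¹ : Rˣ) : R) * a, ?_⟩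
  have h2 : j (((v⁻¹ : Rˣ) : R)) = (j (v : R))⁻¹ := by
    refine (inv_eq_of_mul_eq_one_right ?_).symm
    rw [← map_mul, Units.mul_inv, map_one]
  rw [hx, map_mul, map_mul, map_pow, map_ofNat, h2, mul_inv_rev, ← mul_assoc, ← mul_assoc, two_pow_comm, mul_assoc (j (v : R))⁻¹,
    mul_inv_cancel₀ (two_pow_ne m), mul_one]

end frac

theorem charZero_of {R E₀ : Type} [Ring R] [DivisionRing E₀] {j : R →+* E₀} (hj : Function.Injective j)
    (h0 : ∀ n : ℕ, n ≠ 0 → (n : R) ≠ 0) : CharZero E₀ :=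
  ⟨fun m n hmn => by
    by_contra hne
    have h1 : ∀ a b : ℕ, a < b → (a : E₀) ≠ (b : E₀) := by
      intro a b hab h
      have h2 : ((b - a : ℕ) : E₀) = 0 := by
        rw [Nat.cast_sub hab.le, h, sub_self]
      have h3 : j ((b - a : ℕ) : R) = j 0 := by
        rw [map_natCast, map_zero, h2]
      exact h0 (b - a) (by omega) (hj h3)
    rcases lt_or_gt_of_ne hne with h | h
    · exact h1 m n h hmn
    · exact h1 n m h hmn.symm⟩

/-- the skew field of fractions of the 2-adic ring -/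
theorem exists_E {G : Type} [Group G] [LinearOrder G] [MulLeftMono G] [MulRightMono G] :
    ∃ (E₀ : Type) (_ : DivisionRing E₀) (j : Lam G →+* E₀), IsFrac j := by
  let _ : OreSet (nonZeroDivisors (Lam G)) := oreSet _ Lam.ore
  exact ⟨(Lam G)[(Lam G)⁰⁻¹], inferInstance, numeratorRingHom, isFrac_loc (Lam G)⟩

/-- **the row BO1** -/
theorem stmtMN : StmtMN := by
  intro G _ hG
  obtain ⟨lo, hl, hr⟩ := hG
  have : MulLeftMono G := ⟨fun d a b h => hl a b d h⟩
  have : MulRightMono G := ⟨fun d a b h => hr a b d h⟩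
  have : Fact (Nat.Prime 2) := ⟨Nat.prime_two⟩
  obtain ⟨E₀, iE, j, hfrac⟩ := exists_E (G := G)
  have hj : Function.Injective j := hfrac.inj
  have hchar : CharZero E₀ := charZero_of hj fun n hn => Lam.nat_ne hn
  have hden := frac_of hfrac fun x hx => Lam.exists_pow' hx
  exact ⟨MN G (ZMod 2), E₀, inferInstance, iE, inferInstance, hchar, MN.of, up j Lam.of,
    lift_of hj Lam.of MN.of Lam.red Lam.red_surj (fun x hx => Lam.isUnit hx) Lam.red_of, ⟨MN.proj⟩,
    proj_of hj hden Lam.of Lam.rs (fun g S x => Lam.ext' fun k => MN.rs_left g S (Lam.co x k))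
      (fun g S x => Lam.ext' fun k => MN.rs_right g S (Lam.co x k)) (fun S g hg => Lam.ext' fun k => MN.rs_mem hg)
      (fun S g hg => Lam.ext' fun k => MN.rs_not_mem hg)⟩

end SQ.BO
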