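import Pool.Agent.SQ.T5.Li
import Mathlib.Analysis.Subadditive

/-!
# Bi-ordered groups are locally indicable

`SQ.BO.li_of_biord`: a group with a linear order which is invariant under left and right multiplications is locally indicable.
The homomorphism of a finitely generated subgroup to `ℝ` is the limit of the integral parts of the powers.
-/

set_option autoImplicit false
set_option linter.unusedSectionVars false

noncomputable section

open Filter Topology

namespace SQ.BO

section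
variable {G : Type} [Group G] [LinearOrder G] [MulLeftMono G] [MulRightMono G]

theorem zpow_strictMono {g : G} (hg : 1 < g) : StrictMono fun n : ℤ => g ^ n := by
  refine strictMono_int_of_lt_succ fun n => ?_
  rw [zpow_add_one]
  exact lt_mul_of_one_lt_right' (g ^ n) hg

theorem pow_mono {x y : G} (h : x ≤ y) (n : ℕ) : x ^ n ≤ y ^ n := by
  induction n with
  | zero => rw [pow_zero, pow_zero]
  | succ n ih =>
    rw [pow_succ, pow_succ]
    exact mul_le_mul' ih h

/-- if `x * y ≤ y * x` then the powers of `x` and `y` have the same property -/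
theorem move {x y : G} (h : x * y ≤ y * x) (m n : ℕ) : x ^ m * y ^ n ≤ y ^ n * x ^ m := by
  have h1 : ∀ n : ℕ, x * y ^ n ≤ y ^ n * x := by
    intro n
    induction n with
    | zero => simp
    | succ n ih =>
      calc x * y ^ (n + 1) = x * y ^ n * y := by rw [pow_succ, mul_assoc]
        _ ≤ y ^ n * x * y := mul_le_mul_left ih _
        _ = y ^ n * (x * y) := mul_assoc _ _ _
        _ ≤ y ^ n * (y * x) := mul_le_mul_right h _
        _ = y ^ (n + 1) * x := by rw [pow_succ, mul_assoc]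
  induction m with
  | zero => simp
  | succ m ih =>
    calc x ^ (m + 1) * y ^ n = x ^ m * (x * y ^ n) := by rw [pow_succ, mul_assoc]
      _ ≤ x ^ m * (y ^ n * x) := mul_le_mul_right (h1 n) _
      _ = x ^ m * y ^ n * x := (mul_assoc _ _ _).symm
      _ ≤ y ^ n * x ^ m * x := mul_le_mul_left ih _
      _ = y ^ n * x ^ (m + 1) := by rw [pow_succ, mul_assoc]

theorem pow_bounds {x y : G} (h : x * y ≤ y * x) (n : ℕ) :
    x ^ n * y ^ n ≤ (x * y) ^ n ∧ (y * x) ^ n ≤ y ^ n * x ^ n := by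
  induction n with
  | zero => simp
  | succ n ih =>
    constructor
    · calc x ^ (n + 1) * y ^ (n + 1) = x ^ n * (x ^ 1 * y ^ n) * y := by
            rw [pow_one, pow_succ, pow_succ]
            simp only [mul_assoc]
        _ ≤ x ^ n * (y ^ n * x ^ 1) * y := mul_le_mul_left (mul_le_mul_right (move h 1 n) _) _
        _ = x ^ n * y ^ n * (x * y) := by
            rw [pow_one]
            simp only [mul_assoc]
        _ ≤ (x * y) ^ n * (x * y) := mul_le_mul_left ih.1 _
        _ = (x * y) ^ (n + 1) := (pow_succ _ _).symm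
    · calc (y * x) ^ (n + 1) = (y * x) ^ n * (y * x) := pow_succ _ _
        _ ≤ y ^ n * x ^ n * (y * x) := mul_le_mul_left ih.2 _
        _ = y ^ n * (x ^ n * y ^ 1) * x := by
            rw [pow_one]
            simp only [mul_assoc]
        _ ≤ y ^ n * (y ^ 1 * x ^ n) * x := mul_le_mul_left (mul_le_mul_right (move h n 1) _) _
        _ = y ^ (n + 1) * x ^ (n + 1) := by
            rw [pow_one, pow_succ, pow_succ]
            simp only [mul_assoc]

section floor
variable {g : G} (hg : 1 < g) (hcof : ∀ x : G, ∃ n : ℕ, x < g ^ n)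

include hg hcof

theorem exists_floor (x : G) : ∃ a : ℤ, g ^ a ≤ x ∧ x < g ^ (a + 1) := by
  obtain ⟨m, hm⟩ := hcof x
  obtain ⟨n, hn⟩ := hcof x⁻¹
  obtain ⟨a, ha, hmax⟩ := Int.exists_greatest_of_bdd (P := fun a : ℤ => g ^ a ≤ x) ⟨m, fun z hz => by
    by_contra hcon
    push Not at hcon
    have h1 := (zpow_strictMono hg) hcon
    simp only [zpow_natCast] at h1
    exact lt_irrefl _ ((h1.trans_le hz).trans hm)⟩ ⟨-n, by
    show g ^ (-(n : ℤ)) ≤ x
    rw [zpow_neg, zpow_natCast]
    exact (inv_lt_of_inv_lt' hn).le⟩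
  refine ⟨a, ha, ?_⟩
  by_contra hcon
  push Not at hcon
  have := hmax (a + 1) hcon
  omega

/-- the integral part -/
def fl (x : G) : ℤ := (exists_floor hg hcof x).choose

theorem fl_le (x : G) : g ^ fl hg hcof x ≤ x := (exists_floor hg hcof x).choose_spec.1

theorem lt_fl (x : G) : x < g ^ (fl hg hcof x + 1) := (exists_floor hg hcof x).choose_spec.2

theorem le_fl {x : G} {a : ℤ} (h : g ^ a ≤ x) : a ≤ fl hg hcof x := by
  have h1 := h.trans_lt (lt_fl hg hcof x)
  have h2 := (zpow_strictMono hg).lt_iff_lt.1 h1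
  omega

theorem fl_lt {x : G} {a : ℤ} (h : x < g ^ a) : fl hg hcof x < a :=
  (zpow_strictMono hg).lt_iff_lt.1 ((fl_le hg hcof x).trans_lt h)

theorem fl_mono {x y : G} (h : x ≤ y) : fl hg hcof x ≤ fl hg hcof y :=
  le_fl hg hcof ((fl_le hg hcof x).trans h)

theorem fl_mul_ge (x y : G) : fl hg hcof x + fl hg hcof y ≤ fl hg hcof (x * y) := by
  refine le_fl hg hcof ?_
  rw [zpow_add]
  exact mul_le_mul' (fl_le hg hcof x) (fl_le hg hcof y)

theorem fl_mul_le (x y : G) : fl hg hcof (x * y) ≤ fl hg hcof x + fl hg hcof y + 1 := by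
  have h := fl_lt hg hcof (x := x * y) (a := (fl hg hcof x + 1) + (fl hg hcof y + 1)) (by
    rw [zpow_add]
    exact mul_lt_mul_of_lt_of_lt (lt_fl hg hcof x) (lt_fl hg hcof y))
  omega

theorem fl_one : fl hg hcof 1 = 0 := by
  have h1 : fl hg hcof 1 < 1 := fl_lt hg hcof (by rw [zpow_one]; exact hg)
  have h2 : 0 ≤ fl hg hcof 1 := le_fl hg hcof (by rw [zpow_zero])
  omega

theorem fl_pow_ge (x : G) (n : ℕ) : n * fl hg hcof x ≤ fl hg hcof (x ^ n) := by
  induction n with
  | zero =>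
    rw [pow_zero, fl_one]
    simp
  | succ n ih =>
    have h := fl_mul_ge hg hcof (x ^ n) x
    rw [pow_succ]
    push_cast
    linarith

theorem fl_g : fl hg hcof g = 1 := by
  have h1 : fl hg hcof g < 2 := fl_lt hg hcof (by
    have := (zpow_strictMono hg) (show (1 : ℤ) < 2 by norm_num)
    simpa using this)
  have h2 : 1 ≤ fl hg hcof g := le_fl hg hcof (by rw [zpow_one])
  omega

theorem sub_fl (x : G) : Subadditive fun n : ℕ => ((fl hg hcof (x ^ n) : ℤ) : ℝ) + 1 := by
  intro m n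
  have h := fl_mul_le hg hcof (x ^ m) (x ^ n)
  rw [← pow_add] at h
  have h1 : ((fl hg hcof (x ^ (m + n)) : ℤ) : ℝ) ≤ (fl hg hcof (x ^ m) + fl hg hcof (x ^ n) + 1 : ℤ) := by exact_mod_cast h
  push_cast at h1
  show ((fl hg hcof (x ^ (m + n)) : ℤ) : ℝ) + 1 ≤ ((fl hg hcof (x ^ m) : ℤ) : ℝ) + 1 + (((fl hg hcof (x ^ n) : ℤ) : ℝ) + 1)
  linarith

theorem bdd_fl (x : G) : BddBelow (Set.range fun n : ℕ => (((fl hg hcof (x ^ n) : ℤ) : ℝ) + 1) / n) := by
  refine ⟨min 0 (fl hg hcof x : ℝ), ?_⟩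
  rintro _ ⟨n, rfl⟩
  show min 0 (fl hg hcof x : ℝ) ≤ (((fl hg hcof (x ^ n) : ℤ) : ℝ) + 1) / n
  rcases Nat.eq_zero_or_pos n with rfl | hn
  · rw [Nat.cast_zero, div_zero]
    exact min_le_left _ _
  · refine (min_le_right _ _).trans ?_
    have hn' : (0 : ℝ) < n := by exact_mod_cast hn
    rw [le_div_iff₀ hn']
    have h := fl_pow_ge hg hcof x n
    have h1 : ((n * fl hg hcof x : ℤ) : ℝ) ≤ (fl hg hcof (x ^ n) : ℤ) := by exact_mod_cast h
    push_cast at h1
    linarith

/-- the homomorphism to the real numbers -/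
def phi (x : G) : ℝ := (sub_fl hg hcof x).lim

theorem tendsto_phi (x : G) : Tendsto (fun n : ℕ => (((fl hg hcof (x ^ n) : ℤ) : ℝ) + 1) / n) atTop (𝓝 (phi hg hcof x)) :=
  (sub_fl hg hcof x).tendsto_lim (bdd_fl hg hcof x)

theorem fl_mul_pow (x y : G) (n : ℕ) : fl hg hcof (x ^ n) + fl hg hcof (y ^ n) ≤ fl hg hcof ((x * y) ^ n) ∧
    fl hg hcof ((x * y) ^ n) ≤ fl hg hcof (x ^ n) + fl hg hcof (y ^ n) + 1 := by
  rcases le_total (x * y) (y * x) with h | h
  · obtain ⟨h1, h2⟩ := pow_bounds h n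
    have h3 := pow_mono h n
    have h4 := fl_mono hg hcof h1
    have h5 := fl_mono hg hcof (h3.trans h2)
    have h6 := fl_mul_ge hg hcof (x ^ n) (y ^ n)
    have h7 := fl_mul_le hg hcof (y ^ n) (x ^ n)
    omega
  · obtain ⟨h1, h2⟩ := pow_bounds h n
    have h3 := pow_mono h n
    have h4 := fl_mono hg hcof (h1.trans h3)
    have h5 := fl_mono hg hcof h2
    have h6 := fl_mul_ge hg hcof (y ^ n) (x ^ n)
    have h7 := fl_mul_le hg hcof (x ^ n) (y ^ n)
    omega

theorem phi_mul (x y : G) : phi hg hcof (x * y) = phi hg hcof x + phi hg hcof y := by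
  have h1 := tendsto_phi hg hcof (x * y)
  have h2 := (tendsto_phi hg hcof x).add (tendsto_phi hg hcof y)
  have h3 : Tendsto (fun n : ℕ => 1 / (n : ℝ)) atTop (𝓝 0) := tendsto_one_div_atTop_nhds_zero_nat
  have h4 := h2.sub h3
  rw [sub_zero] at h4
  refine le_antisymm (le_of_tendsto_of_tendsto' h1 h2 fun n => ?_) (le_of_tendsto_of_tendsto' h4 h1 fun n => ?_)
  · show (((fl hg hcof ((x * y) ^ n) : ℤ) : ℝ) + 1) / n ≤
      (((fl hg hcof (x ^ n) : ℤ) : ℝ) + 1) / n + (((fl hg hcof (y ^ n) : ℤ) : ℝ) + 1) / n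
    rw [← add_div]
    refine div_le_div_of_nonneg_right ?_ (Nat.cast_nonneg n)
    have h5 : ((fl hg hcof ((x * y) ^ n) : ℤ) : ℝ) ≤ (fl hg hcof (x ^ n) + fl hg hcof (y ^ n) + 1 : ℤ) := by
      exact_mod_cast (fl_mul_pow hg hcof x y n).2
    push_cast at h5
    linarith
  · show (((fl hg hcof (x ^ n) : ℤ) : ℝ) + 1) / n + (((fl hg hcof (y ^ n) : ℤ) : ℝ) + 1) / n - 1 / n ≤
      (((fl hg hcof ((x * y) ^ n) : ℤ) : ℝ) + 1) / n
    rw [← add_div, ← sub_div]
    refine div_le_div_of_nonneg_right ?_ (Nat.cast_nonneg n)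
    have h5 : ((fl hg hcof (x ^ n) + fl hg hcof (y ^ n) : ℤ) : ℝ) ≤ (fl hg hcof ((x * y) ^ n) : ℤ) := by
      exact_mod_cast (fl_mul_pow hg hcof x y n).1
    push_cast at h5
    linarith

theorem phi_g : 1 ≤ phi hg hcof g := by
  have h1 : Tendsto (fun _ : ℕ => (1 : ℝ)) atTop (𝓝 1) := tendsto_const_nhds
  refine le_of_tendsto_of_tendsto h1 (tendsto_phi hg hcof g) ?_
  filter_upwards [eventually_gt_atTop 0] with n hn
  have hn' : (0 : ℝ) < n := by exact_mod_cast hn
  rw [le_div_iff₀ hn', one_mul]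
  have h := fl_pow_ge hg hcof g n
  rw [fl_g, mul_one] at h
  have h2 : ((n : ℤ) : ℝ) ≤ (fl hg hcof (g ^ n) : ℤ) := by exact_mod_cast h
  push_cast at h2
  linarith

end floor

end

/-- a homomorphism of a finitely generated group to the real numbers which is not zero gives one to the integers -/
theorem exists_int {G : Type} [Group G] (hG : Group.FG G) (φ : G → ℝ) (hφ : ∀ x y, φ (x * y) = φ x + φ y) (g : G)
    (hg : φ g ≠ 0) : ∃ χ : G →* Multiplicative ℤ, ∃ s, χ s ≠ 1 := by
  classical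
  obtain ⟨T, hT⟩ := hG.out
  have hφ1 : φ 1 = 0 := by
    have := hφ 1 1
    rw [mul_one] at this
    linarith
  have hφi : ∀ x, φ x⁻¹ = -φ x := by
    intro x
    have := hφ x x⁻¹
    rw [mul_inv_cancel, hφ1] at this
    linarith
  let M : Submodule ℤ ℝ := Submodule.span ℤ (φ '' (T : Set G))
  have hM : ∀ x, φ x ∈ M := by
    intro x
    have hx : x ∈ Subgroup.closure (T : Set G) := by
      rw [hT]
      exact Subgroup.mem_top x
    induction hx using Subgroup.closure_induction with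
    | mem x hx => exact Submodule.subset_span ⟨x, hx, rfl⟩
    | one =>
      rw [hφ1]
      exact M.zero_mem
    | mul x y _ _ h1 h2 =>
      rw [hφ]
      exact M.add_mem h1 h2
    | inv x _ h1 =>
      rw [hφi]
      exact M.neg_mem h1
  have hfin : Module.Finite ℤ M := Module.Finite.span_of_finite ℤ (T.finite_toSet.image φ)
  have hfree : Module.Free ℤ M := inferInstance
  let b := Module.Free.chooseBasis ℤ M
  have hne : (⟨φ g, hM g⟩ : M) ≠ 0 := fun h => hg (congrArg Subtype.val h)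
  obtain ⟨i, hi⟩ : ∃ i, b.repr ⟨φ g, hM g⟩ i ≠ 0 := by
    by_contra hcon
    push Not at hcon
    exact hne (b.repr.map_eq_zero_iff.1 (Finsupp.ext hcon))
  refine ⟨MonoidHom.mk' (fun x => Multiplicative.ofAdd (b.repr ⟨φ x, hM x⟩ i)) ?_, g, ?_⟩
  · intro x y
    have h : (⟨φ (x * y), hM (x * y)⟩ : M) = ⟨φ x, hM x⟩ + ⟨φ y, hM y⟩ := Subtype.ext (hφ x y)
    rw [h, map_add, Finsupp.add_apply, ofAdd_add]
  · intro h
    exact hi (Multiplicative.ofAdd.injective h)

/-- **bi-ordered groups are locally indicable** -/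
theorem li_of_biord {G : Type} [Group G] [LinearOrder G] (hl : ∀ a b d : G, a ≤ b → d * a ≤ d * b)
    (hr : ∀ a b d : G, a ≤ b → a * d ≤ b * d) : SQ.T5.LI G := by
  classical
  have : MulLeftMono G := ⟨fun d a b h => hl a b d h⟩
  have : MulRightMono G := ⟨fun d a b h => hr a b d h⟩
  intro S hS hne
  have : MulLeftMono S := ⟨fun d a b h => hl a b d h⟩
  have : MulRightMono S := ⟨fun d a b h => hr a b d h⟩
  have hfg : Group.FG S := (Group.fg_iff_subgroup_fg S).2 hS
  -- the largest absolute value of a generator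
  obtain ⟨T, hT⟩ := hfg.out
  let U : Finset S := insert 1 (T ∪ T.image (·⁻¹))
  obtain ⟨g, hgU, hmax⟩ := U.exists_max_image id ⟨1, Finset.mem_insert_self _ _⟩
  have hmax' : ∀ x ∈ U, x ≤ g := hmax
  have h1g : 1 ≤ g := hmax' 1 (Finset.mem_insert_self _ _)
  have hlt : 1 < g := by
    refine lt_of_le_of_ne h1g fun h => hne ?_
    have h2 : ∀ x ∈ T, x = 1 := by
      intro x hx
      have h3 := hmax' x (Finset.mem_insert_of_mem (Finset.mem_union_left _ hx))
      have h4 := hmax' x⁻¹ (Finset.mem_insert_of_mem (Finset.mem_union_right _ (Finset.mem_image_of_mem _ hx)))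
      rw [← h] at h3 h4
      exact le_antisymm h3 (inv_le_one'.1 h4)
    have h3 : (⊤ : Subgroup S) = ⊥ := by
      rw [← hT, Subgroup.closure_eq_bot_iff]
      intro x hx
      exact h2 x hx
    rw [Subgroup.eq_bot_iff_forall]
    intro x hx
    have h4 : (⟨x, hx⟩ : S) ∈ (⊤ : Subgroup S) := Subgroup.mem_top _
    rw [h3, Subgroup.mem_bot] at h4
    exact congrArg Subtype.val h4
  have hcof : ∀ x : S, ∃ n : ℕ, x < g ^ n := by
    intro x
    have h3 : ∃ n : ℕ, x ≤ g ^ n ∧ x⁻¹ ≤ g ^ n := by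
      have hx : x ∈ Subgroup.closure (T : Set S) := by
        rw [hT]
        exact Subgroup.mem_top x
      induction hx using Subgroup.closure_induction with
      | mem x hx =>
        refine ⟨1, ?_, ?_⟩
        · rw [pow_one]
          exact hmax' x (Finset.mem_insert_of_mem (Finset.mem_union_left _ hx))
        · rw [pow_one]
          exact hmax' x⁻¹ (Finset.mem_insert_of_mem (Finset.mem_union_right _ (Finset.mem_image_of_mem _ hx)))
      | one => exact ⟨0, by simp, by simp⟩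
      | mul x y _ _ h1 h2 =>
        obtain ⟨m, hm1, hm2⟩ := h1
        obtain ⟨n, hn1, hn2⟩ := h2
        refine ⟨m + n, ?_, ?_⟩
        · rw [pow_add]
          exact mul_le_mul' hm1 hn1
        · rw [mul_inv_rev, add_comm, pow_add]
          exact mul_le_mul' hn2 hm2
      | inv x _ h1 =>
        obtain ⟨m, hm1, hm2⟩ := h1
        exact ⟨m, hm2, by rw [inv_inv]; exact hm1⟩
    obtain ⟨n, hn, _⟩ := h3
    refine ⟨n + 1, lt_of_le_of_lt hn ?_⟩
    rw [pow_succ]
    exact lt_mul_of_one_lt_right' _ hlt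
  exact exists_int hfg (phi hlt hcof) (phi_mul hlt hcof) g (by
    have := phi_g hlt hcof
    linarith)

end SQ.BO
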