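import Pool.Agent.SQ.BO.Src

/-!
# Project MP_984acc_BO: `Loc` implies the independence of all cosets and `Fam` for all finite families
-/

set_option autoImplicit false

namespace SQ.BO

open SQ.T3 SQ.T3.StepX

variable {K : Type} [Group K] {E₁ E₂ : Type} [DivisionRing E₁] [DivisionRing E₂] {ρ₁ : K →* E₁ˣ} {ρ₂ : K →* E₂ˣ}

theorem loc_ph (hL : T5.Loc ρ₁ ρ₂) {S : Subgroup K} (fg : S.FG) (h0 : S ≠ ⊥) :
    ∃ (φ : K → ℤ) (t : K), Ph ρ₁ ρ₂ S φ ∧ φ t = 1 ∧ ZP S (kr S φ) t := by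
  obtain ⟨N, t, hz, h1, h2⟩ := hL S fg h0
  obtain ⟨φ, hφ, ht, rfl⟩ := exists_ph hz h1 h2
  exact ⟨φ, t, hφ, ht, hz⟩

/-! ### independence of the cosets -/

/-- the statement for a family -/
def CI (ρ₁ : K →* E₁ˣ) (H : Subgroup K) (X : Set E₁) : Prop :=
  ∀ (ι : Type) (s : Finset ι) (g : ι → K) (a : ι → E₁), (∀ i ∈ s, a i = 0 ∨ a i ∈ X) →
    (∀ i ∈ s, ∀ j ∈ s, g i * (g j)⁻¹ ∈ H → i = j) → ∑ i ∈ s, a i * ((ρ₁ (g i) : E₁ˣ) : E₁) = 0 → ∀ i ∈ s, a i = 0

open Classical in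
theorem core_ci (hL : T5.Loc ρ₁ ρ₂) {S H : Subgroup K} {A : Set E₁} (fg : S.FG) (hS : S ≤ H) (hA : ∀ a ∈ A, a ∈ cl ρ₁ S)
    (IH : ∀ φ, Ph ρ₁ ρ₂ S φ → ∀ T : Set K, T.Finite → T ⊆ S → CI ρ₁ (kr S φ) (cps ρ₁ S φ A T)) : CI ρ₁ H A := by
  intro ι s
  induction s using Finset.strongInduction with
  | H s ihs =>
    intro g a ha hg hsum
    rcases s.eq_empty_or_nonempty with hse | ⟨i0, hi0⟩
    · intro i hi
      rw [hse] at hi
      exact absurd hi (Finset.notMem_empty _)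
    -- translate
    set g' : ι → K := fun i => g i * (g i0)⁻¹ with hg'
    have hg'0 : g' i0 = 1 := mul_inv_cancel _
    have hsum' : ∑ i ∈ s, a i * ((ρ₁ (g' i) : E₁ˣ) : E₁) = 0 := by
      have h1 : ∑ i ∈ s, a i * ((ρ₁ (g' i) : E₁ˣ) : E₁) = (∑ i ∈ s, a i * ((ρ₁ (g i) : E₁ˣ) : E₁)) * ((ρ₁ (g i0)⁻¹ : E₁ˣ) : E₁) := by
        rw [Finset.sum_mul]
        exact Finset.sum_congr rfl fun i _ => by rw [mul_assoc, ← rho_mul]
      rw [h1, hsum, zero_mul]
    have hdist : ∀ i ∈ s, ∀ j ∈ s, g' i * (g' j)⁻¹ ∈ H → i = j := by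
      intro i hi j hj h
      refine hg i hi j hj ?_
      have e : g' i * (g' j)⁻¹ = g i * (g j)⁻¹ := by rw [hg']; group
      rwa [e] at h
    have haS : ∀ i ∈ s, a i ∈ cl ρ₁ S := by
      intro i hi
      rcases ha i hi with h | h
      · rw [h]; exact zero_mem _
      · exact hA _ h
    set T₀ : Subgroup K := S ⊔ Subgroup.closure ((s.image g' : Finset K) : Set K) with hT₀
    have hST : S ≤ T₀ := le_sup_left
    have hgT : ∀ i ∈ s, g' i ∈ T₀ := fun i hi =>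
      (le_sup_right : _ ≤ T₀) (Subgroup.subset_closure (by rw [Finset.coe_image]; exact ⟨i, hi, rfl⟩))
    have hfg : T₀.FG := sup_fg fg ⟨_, rfl⟩
    by_cases hbot : T₀ = ⊥
    · intro i hi
      have h1 : ∀ j ∈ s, g' j = 1 := fun j hj => by
        have := hgT j hj
        rwa [hbot, Subgroup.mem_bot] at this
      have h2 : ∀ j ∈ s, j = i := fun j hj => hdist j hj i hi (by rw [h1 j hj, h1 i hi, inv_one, mul_one]; exact H.one_mem)
      rw [Finset.sum_eq_single i (fun j hj hji => absurd (h2 j hj) hji) (fun h => absurd hi h), h1 i hi, rho_one, mul_one] at hsum'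
      exact hsum'
    obtain ⟨φ, t, hφ, -, -⟩ := loc_ph hL hfg hbot
    have hm := hφ.hm
    have hcomp : ∀ u : ℤ, ∑ i ∈ s, (cf ρ₁ T₀ φ (a i)).coeff (u - φ (g' i)) * ((ρ₁ (g' i) : E₁ˣ) : E₁) = 0 := by
      intro u
      have h1 : cf ρ₁ T₀ φ (∑ i ∈ s, a i * ((ρ₁ (g' i) : E₁ˣ) : E₁)) = ∑ i ∈ s, cf ρ₁ T₀ φ (a i * ((ρ₁ (g' i) : E₁ˣ) : E₁)) := by
        have h2 : ∀ r : Finset ι, r ⊆ s → (∑ i ∈ r, a i * ((ρ₁ (g' i) : E₁ˣ) : E₁)) ∈ cl ρ₁ T₀ ∧
            cf ρ₁ T₀ φ (∑ i ∈ r, a i * ((ρ₁ (g' i) : E₁ˣ) : E₁)) = ∑ i ∈ r, cf ρ₁ T₀ φ (a i * ((ρ₁ (g' i) : E₁ˣ) : E₁)) := by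
          intro r
          induction r using Finset.induction_on with
          | empty => intro _; exact ⟨by simp [zero_mem], by simp [cf_zero hm hφ.i1]⟩
          | insert j r hj ih =>
            intro hr
            have hjs := hr (Finset.mem_insert_self j r)
            obtain ⟨h3, h4⟩ := ih fun x hx => hr (Finset.mem_insert_of_mem hx)
            have h5 : a j * ((ρ₁ (g' j) : E₁ˣ) : E₁) ∈ cl ρ₁ T₀ := mul_mem (cl_mono ρ₁ hST (haS j hjs)) (mem_cl ρ₁ (hgT j hjs))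
            rw [Finset.sum_insert hj, Finset.sum_insert hj]
            exact ⟨add_mem h5 h3, by rw [cf_add hm hφ.i1 h5 h3, h4]⟩
        exact (h2 s subset_rfl).2
      rw [hsum', cf_zero hm hφ.i1] at h1
      have h2 := congrArg (fun y : LS E₁ => y.coeff u) h1
      simp only [HahnSeries.coeff_zero, HahnSeries.coeff_sum] at h2
      rw [h2]
      refine Finset.sum_congr rfl fun i hi => ?_
      rw [cf_mul hm hφ.i1 (cl_mono ρ₁ hST (haS i hi)) (mem_cl ρ₁ (hgT i hi)), cf_rho hm hφ.i1 (hgT i hi),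
        HahnSeries.coeff_mul_single]
    by_cases h0 : ∃ x ∈ S, φ x ≠ 0
    · -- the elements are cut
      have hP := hφ.mono hST h0
      intro i1 hi1
      have hz : ∀ v : ℤ, (cf ρ₁ S φ (a i1)).coeff v = 0 := by
        intro v
        set u := v + φ (g' i1) with hu
        have key : ∀ i : ι, ∃ σ : K, σ ∈ S ∧ ((∃ σ ∈ S, φ σ = u - φ (g' i)) → φ σ = u - φ (g' i)) := by
          intro i
          by_cases hs : ∃ σ ∈ S, φ σ = u - φ (g' i)
          · obtain ⟨σ, hσ, h1⟩ := hs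
            exact ⟨σ, hσ, fun _ => h1⟩
          · exact ⟨1, S.one_mem, fun h => absurd h hs⟩
        choose σ hσ using key
        have h1 := IH φ hP ((s.image σ : Finset K) : Set K) (Finset.finite_toSet _) (by
            rw [Finset.coe_image]
            rintro _ ⟨i, -, rfl⟩
            exact (hσ i).1) ι s (fun i => σ i * g' i)
          (fun i => (cf ρ₁ T₀ φ (a i)).coeff (u - φ (g' i)) * ((ρ₁ (σ i)⁻¹ : E₁ˣ) : E₁)) ?_ ?_ ?_ i1 hi1
        · have h2 := (mul_eq_zero.1 h1).resolve_right (rho_ne ρ₁ _)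
          rwa [hu, add_sub_cancel_right, cf_res hm hφ.i1 hST (haS i1 hi1)] at h2
        · intro i hi
          show (cf ρ₁ T₀ φ (a i)).coeff (u - φ (g' i)) * ((ρ₁ (σ i)⁻¹ : E₁ˣ) : E₁) = 0 ∨ _
          rw [cf_res hm hφ.i1 hST (haS i hi)]
          by_cases hs : ∃ σ ∈ S, φ σ = u - φ (g' i)
          · rcases ha i hi with h | h
            · left
              rw [h, cf_zero hP.hm hP.i1, HahnSeries.coeff_zero, zero_mul]
            · right
              exact ⟨a i, h, σ i, by rw [Finset.coe_image]; exact ⟨i, hi, rfl⟩, by rw [(hσ i).2 hs]⟩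
          · left
            push Not at hs
            rw [(cf_gd hP.hm hP.i1 (haS i hi) _).2 hs, zero_mul]
        · intro i hi j hj h
          refine hdist i hi j hj ?_
          have h3 := H.mul_mem (H.mul_mem (H.inv_mem (hS (hσ i).1)) (hS (kr_le h))) (hS (hσ j).1)
          have e : (σ i)⁻¹ * (σ i * g' i * (σ j * g' j)⁻¹) * σ j = g' i * (g' j)⁻¹ := by group
          rwa [e] at h3
        · rw [← hcomp u]
          refine Finset.sum_congr rfl fun i _ => ?_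
          rw [mul_assoc, ← rho_mul, inv_mul_cancel_left]
      by_contra hne
      exact cf_ne hP.hm hP.i1 (haS i1 hi1) hne (by ext v; rw [hz, HahnSeries.coeff_zero])
    · push Not at h0
      intro i1 hi1
      have hcomp2 : ∑ i ∈ s.filter (fun i => φ (g' i) = φ (g' i1)), a i * ((ρ₁ (g' i) : E₁ˣ) : E₁) = 0 := by
        rw [← hcomp (φ (g' i1)), Finset.sum_filter]
        refine Finset.sum_congr rfl fun i hi => ?_
        rw [cf_zero_hom hm hφ.i1 hST h0 (haS i hi), HahnSeries.coeff_single]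
        by_cases h1 : φ (g' i) = φ (g' i1)
        · rw [if_pos h1, if_pos (by rw [h1, sub_self])]
        · rw [if_neg h1, if_neg (fun h2 => h1 (by linarith)), zero_mul]
      have hss : s.filter (fun i => φ (g' i) = φ (g' i1)) ⊂ s := by
        refine Finset.filter_ssubset.2 ?_
        by_cases h1 : φ (g' i1) = 0
        · by_contra hc
          push Not at hc
          refine hφ.absurd (sup_le (fun x hx => (mem_kr hm).2 ⟨hST hx, h0 x hx⟩) ?_)
          rw [Subgroup.closure_le, Finset.coe_image]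
          rintro _ ⟨i, hi, rfl⟩
          exact (mem_kr hm).2 ⟨hgT i hi, by rw [hc i hi, h1]⟩
        · exact ⟨i0, hi0, by rw [hg'0, hm.one]; exact fun h => h1 h.symm⟩
      exact ihs _ hss g' a (fun i hi => ha i (Finset.filter_subset _ _ hi))
        (fun i hi j hj => hdist i (Finset.filter_subset _ _ hi) j (Finset.filter_subset _ _ hj)) hcomp2 i1
        (Finset.mem_filter.2 ⟨hi1, rfl⟩)

theorem ci_of_accL (hL : T5.Loc ρ₁ ρ₂) {H : Subgroup K} {X : Set E₁} (hX : AccL ρ₁ ρ₂ H X) : CI ρ₁ H X := by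
  induction hX with
  | mk H X γ S hg hS fg hx h ih =>
    have h1 := core_ci hL fg hS (A := (fun x => x * ((ρ₁ (γ x) : E₁ˣ) : E₁)) '' X) (by
      rintro _ ⟨x, hxX, rfl⟩
      exact hx x hxX) ih
    intro ι s g a ha hdist hsum i hi
    classical
    set c : ι → K := fun i => if a i = 0 then 1 else γ (a i) with hc
    have hcH : ∀ i ∈ s, c i ∈ H := by
      intro i hi
      by_cases h0 : a i = 0
      · simp only [hc, if_pos h0]; exact H.one_mem
      · simp only [hc, if_neg h0]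
        exact hg _ ((ha i hi).resolve_left h0)
    have h2 := h1 ι s (fun i => (c i)⁻¹ * g i) (fun i => a i * ((ρ₁ (c i) : E₁ˣ) : E₁)) ?_ ?_ ?_ i hi
    · exact (mul_eq_zero.1 h2).resolve_right (rho_ne ρ₁ _)
    · intro i hi
      by_cases h0 : a i = 0
      · left
        simp only [h0, zero_mul]
      · right
        refine ⟨a i, (ha i hi).resolve_left h0, ?_⟩
        simp only [hc, if_neg h0]
    · intro i hi j hj h3
      refine hdist i hi j hj ?_
      have h4 := H.mul_mem (H.mul_mem (hcH i hi) h3) (H.inv_mem (hcH j hj))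
      have e : c i * ((c i)⁻¹ * g i * ((c j)⁻¹ * g j)⁻¹) * (c j)⁻¹ = g i * (g j)⁻¹ := by group
      rwa [e] at h4
    · rw [← hsum]
      refine Finset.sum_congr rfl fun i _ => ?_
      rw [mul_assoc, ← rho_mul, mul_inv_cancel_left]

/-- **the cosets of every subgroup are independent** -/
theorem cosInd (hL : T5.Loc ρ₁ ρ₂) (H' H : Subgroup K) : CosInd ρ₁ H' H := by
  intro s a _ hdist ha hsum
  have h1 := ci_of_accL hL (accL_all (ρ₁ := ρ₁) (ρ₂ := ρ₂) (H := H') (X := a '' (s : Set K)) (s.finite_toSet.image a) (by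
    rintro _ ⟨g, hg, rfl⟩
    exact ha g hg))
  exact h1 K s (fun g => g) a (fun g hg => Or.inr ⟨g, hg, rfl⟩) hdist hsum

/-! ### `Fam` -/

/-- the prime field, up to integral denominators -/
theorem prime_den {x : E₁} (hx : x ∈ cl ρ₁ (⊥ : Subgroup K)) : ∃ n : ℕ, (n : E₁) ≠ 0 ∧ ∃ m : ℤ, (n : E₁) * x = m := by
  refine Subfield.closure_induction (p := fun x _ => ∃ n : ℕ, (n : E₁) ≠ 0 ∧ ∃ m : ℤ, (n : E₁) * x = m) ?_ ?_ ?_ ?_ ?_ ?_ hx
  · rintro _ ⟨g, hg, rfl⟩
    have hg1 : g = 1 := hg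
    refine ⟨1, by simp, 1, ?_⟩
    show _ * ((ρ₁ g : E₁ˣ) : E₁) = _
    rw [hg1, rho_one]
    simp
  · exact ⟨1, by simp, 1, by simp⟩
  · rintro x y _ _ ⟨n, hn, m, hm⟩ ⟨n', hn', m', hm'⟩
    refine ⟨n * n', by push_cast; exact mul_ne_zero hn hn', n' * m + n * m', ?_⟩
    push_cast
    have e1 : (n : E₁) * (n' : E₁) * x = (n' : E₁) * ((n : E₁) * x) := by rw [← mul_assoc, Nat.cast_comm n (n' : E₁)]
    rw [← hm, ← hm', mul_add, e1, mul_assoc]
  · rintro x _ ⟨n, hn, m, hm⟩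
    exact ⟨n, hn, -m, by rw [mul_neg, hm]; push_cast; rfl⟩
  · rintro x _ ⟨n, hn, m, hm⟩
    by_cases hx0 : x = 0
    · exact ⟨1, by simp, 0, by rw [hx0]; simp⟩
    have hm0 : (m : E₁) ≠ 0 := by rw [← hm]; exact mul_ne_zero hn hx0
    have hmx : (m : E₁) * x⁻¹ = n := by rw [← hm, mul_assoc, mul_inv_cancel₀ hx0, mul_one]
    rcases Int.natAbs_eq m with h1 | h1
    · have h2 : (m : E₁) = ((m.natAbs : ℕ) : E₁) := by
        conv_lhs => rw [h1]
        rw [Int.cast_natCast]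
      refine ⟨m.natAbs, by rw [← h2]; exact hm0, n, ?_⟩
      rw [← h2, hmx]; push_cast; rfl
    · have h2 : (m : E₁) = -((m.natAbs : ℕ) : E₁) := by
        conv_lhs => rw [h1]
        rw [Int.cast_neg, Int.cast_natCast]
      have h3 : ((m.natAbs : ℕ) : E₁) = -(m : E₁) := by rw [h2, neg_neg]
      refine ⟨m.natAbs, by rw [h3]; exact neg_ne_zero.2 hm0, -n, ?_⟩
      rw [h3, neg_mul, hmx]; push_cast; rfl
  · rintro x y _ _ ⟨n, hn, m, hm⟩ ⟨n', hn', m', hm'⟩
    refine ⟨n * n', by push_cast; exact mul_ne_zero hn hn', m * m', ?_⟩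
    push_cast
    rw [← hm, ← hm', mul_assoc, mul_assoc, ← mul_assoc (n' : E₁) x y, (Nat.cast_commute n' x).eq, mul_assoc]

/-- **every finite family is good** -/
theorem fam_of_loc (hL : T5.Loc ρ₁ ρ₂) {H : Subgroup K} {X : Set E₁} (hX : X.Finite) (h : ∀ x ∈ X, x ∈ cl ρ₁ H) :
    Fam ρ₁ ρ₂ H X := by
  have h1 := accL_all (ρ₁ := ρ₁) (ρ₂ := ρ₂) hX h
  clear hX h
  induction h1 with
  | mk H X γ S hg hS fg hx h ih =>
    set A : Set E₁ := (fun x => x * ((ρ₁ (γ x) : E₁ˣ) : E₁)) '' X with hA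
    have hAS : ∀ a ∈ A, a ∈ cl ρ₁ S := by
      rintro _ ⟨x, hxX, rfl⟩
      exact hx x hxX
    have hF : Fam ρ₁ ρ₂ S A := by
      by_cases hbot : S = ⊥
      · subst hbot
        refine Fam.base _ _ fun x hxA => ?_
        obtain ⟨n, hn, m, hm⟩ := prime_den (hAS x hxA)
        refine ⟨n, hn, ?_⟩
        rw [hm]
        have h2 : (1 : E₁) ∈ AddSubgroup.closure ((fun g : K => ((ρ₁ g : E₁ˣ) : E₁)) '' ((⊥ : Subgroup K) : Set K)) :=
          AddSubgroup.subset_closure ⟨1, Subgroup.one_mem _, by simp⟩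
        have h3 := zsmul_mem h2 m
        rwa [zsmul_one] at h3
      · obtain ⟨φ, t, hφ, ht1, hz⟩ := loc_ph hL fg hbot
        have hgen : ∀ g ∈ S, ∃ n : ℤ, φ g = n * φ t := fun g _ => ⟨φ g, by rw [ht1, mul_one]⟩
        obtain ⟨S1, hS1⟩ := exists_step hφ.hm hφ.i1 hz.mem (by rw [ht1]; exact one_pos) hgen
        obtain ⟨S2, -⟩ := exists_step hφ.hm hφ.i2 hz.mem (by rw [ht1]; exact one_pos) hgen
        refine Fam.step (kr S φ) S t A hz S1 S2 hAS fun Y hY hY' => ?_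
        choose! x hxA u hu using hY'
        refine Fam.mono (ih φ hφ ((fun y => t ^ u y) '' Y) (hY.image _) ?_) fun y hy => ?_
        · rintro _ ⟨y, -, rfl⟩
          exact S.zpow_mem hz.mem _
        · refine ⟨x y, hxA y hy, t ^ u y, ⟨y, hy, rfl⟩, ?_⟩
          conv_lhs => rw [hu y hy]
          rw [hS1 _ (hAS _ (hxA y hy)), hφ.hm.zpow hz.mem]
    refine Fam.up S H A X hS (cosInd hL S H) hAS hF fun x hxX => ?_
    refine ⟨_, ⟨x, hxX, rfl⟩, (γ x)⁻¹, H.inv_mem (hg x hxX), ?_⟩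
    show x = x * ((ρ₁ (γ x) : E₁ˣ) : E₁) * _
    rw [mul_assoc, rho_mul_inv, mul_one]

end SQ.BO
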