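import Pool.Agent.SQ.BO.Defs
import Pool.Agent.SQ.BO.FamLoc

/-!
# SQ/BO: row BO3
-/

set_option autoImplicit false

namespace SQ.BO

/-- **BO3** -/
theorem src : StmtSrc := fun _ _ _ _ _ _ _ _ hL _ _ X hX => fam_of_loc hL X.finite_toSet hX

/-- all cosets are independent -/
theorem allCos_of_loc {K : Type} [Group K] {E₁ E₂ : Type} [DivisionRing E₁] [DivisionRing E₂] {ρ₁ : K →* E₁ˣ} {ρ₂ : K →* E₂ˣ}
    (hL : T5.Loc ρ₁ ρ₂) : AllCos ρ₁ := fun H' H _ => cosInd hL H' H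

/-- all finite families are good -/
theorem allFam_of_loc {K : Type} [Group K] {E₁ E₂ : Type} [DivisionRing E₁] [DivisionRing E₂] {ρ₁ : K →* E₁ˣ} {ρ₂ : K →* E₂ˣ}
    (hL : T5.Loc ρ₁ ρ₂) : AllFam ρ₁ ρ₂ := fun _ X hX => fam_of_loc hL X.finite_toSet hX

end SQ.BO
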