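import Pool.Agent.SQ.BO.Prj
import Pool.Agent.SQ.BO.Hoelder
import Pool.Agent.SQ.T5.Apx
import Pool.Agent.SQ.HH.Two
import Pool.Agent.SQ.HH.Mono
import Pool.Agent.SQ.BO.SrcRow

/-!
# SQ/BO: the assembly for the bi-orderable groups, from the rows
-/

set_option autoImplicit false

open scoped TensorProduct

noncomputable section

namespace SQ.BO

open Singer Singer.Ord SQ.T3 SQ.HH Pool.Agent.Helper18.SQ Pool.Agent.Helper16.Cmp

/-- **BO2** -/
theorem stmtLI : StmtLI := by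
  intro K _ hK S hS hne
  obtain ⟨lo, hl, hr⟩ := hK
  obtain ⟨χ, h⟩ := li_of_biord hl hr S hS hne
  obtain ⟨t, ht⟩ := T5.zp_of_chi S χ h
  exact ⟨_, t, ht⟩

/-- local independence, if all pairs are independent -/
theorem loc_of_allInd {K : Type} [Group K] (hLI : ∀ S : Subgroup K, S.FG → S ≠ ⊥ → ∃ (N : Subgroup K) (t : K), ZP S N t)
    {E₁ E₂ : Type} [DivisionRing E₁] [DivisionRing E₂] {ρ₁ : K →* E₁ˣ} {ρ₂ : K →* E₂ˣ} (h1 : AllInd ρ₁) (h2 : AllInd ρ₂) :
    T5.Loc ρ₁ ρ₂ := by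
  intro S hS hne
  obtain ⟨N, t, ht⟩ := hLI S hS hne
  exact ⟨N, t, ht, h1 _ _ _ ht, h2 _ _ _ ht⟩

/-- the group elements are linearly independent -/
theorem AllCos.li {K : Type} [Group K] {E : Type} [DivisionRing E] [Algebra (ZMod 2) E] {ρ : K →* Eˣ} (h : AllCos ρ) :
    LinearIndependent (ZMod 2) fun g : K => ((ρ g : Eˣ) : E) := by
  rw [linearIndependent_iff']
  intro s c h0 g hg
  have h1 := h ⊥ ⊤ bot_le s (fun g => algebraMap (ZMod 2) E (c g)) (fun _ _ => Subgroup.mem_top _)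
    (fun a _ b _ hab => by
      rw [Subgroup.mem_bot, mul_inv_eq_one] at hab
      exact hab) (fun a _ => by
      obtain hc | hc : c a = 0 ∨ c a = 1 := by
        generalize c a = x
        revert x
        decide
      · show algebraMap (ZMod 2) E (c a) ∈ cl ρ ⊥
        rw [hc, map_zero]
        exact zero_mem _
      · show algebraMap (ZMod 2) E (c a) ∈ cl ρ ⊥
        rw [hc, map_one]
        exact one_mem _) (by
      rw [← h0]
      refine Finset.sum_congr rfl fun a _ => ?_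
      rw [Algebra.smul_def]) g hg
  exact (map_eq_zero_iff _ (algebraMap (ZMod 2) E).injective).1 h1

/-- **BO4** -/
theorem torF : StmtTorF := by
  intro Γ L _ _ l hl E₁ E₂ _ _ _ _ ρ₁ ρ₂ h1 h2 hF hC R j
  refine HH.Two.HV_of_Va l ρ₁ ρ₂ R h1 h2 (fun X hX => HH.Two.Va_fam l ρ₁ ρ₂ R hl hC.li ?_) j
  have h3 := hF ⊤ hX.toFinset (fun x _ => by rw [h1]; trivial)
  rwa [Set.Finite.coe_toFinset] at h3

/-- **BO6** squaring, Poincare duality and the duality of homology and cohomology, for the two opposite skew fields -/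
def StmtVan : Prop :=
  ∀ (K : Type) [Group K] (_ : ∀ h : K, h * h = 1 → h = 1) (D : Type) [DivisionRing D] [Algebra (ZMod 2) D] (ρ : K →* Dˣ)
    (n : ℕ) (_ : IsPD n K) (R : FinRes K), (∀ j, HV (MonoidHom.id K) (HH.Two.ten (opr ρ) ρ) R j) →
    (∀ j, HV (MonoidHom.id K) (HH.Two.ten (opr (opr ρ)) (opr ρ)) R j) → ∀ i, 2 * i ≠ n → Ex (lmul ρ) R i

theorem BiOrd.noInv {K : Type} [Group K] (hK : BiOrd K) : ∀ h : K, h * h = 1 → h = 1 := by
  obtain ⟨lo, hl, -⟩ := hK
  intro h hh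
  rcases le_total h 1 with h1 | h1
  · have h2 := hl _ _ h h1
    rw [hh, mul_one] at h2
    exact le_antisymm h1 h2
  · have h2 := hl _ _ h h1
    rw [hh, mul_one] at h2
    exact le_antisymm h2 h1

theorem cl_opr_top {K : Type} [Group K] {E : Type} [DivisionRing E] {ρ : K →* Eˣ} (h : cl ρ (⊤ : Subgroup K) = ⊤) :
    cl (opr ρ) (⊤ : Subgroup K) = ⊤ := by
  rw [eq_top_iff]
  intro x _
  have h1 : x.unop ∈ cl ρ (⊤ : Subgroup K) := by
    rw [h]
    trivial
  have key : ∀ y ∈ cl ρ (⊤ : Subgroup K), MulOpposite.op y ∈ cl (opr ρ) (⊤ : Subgroup K) := by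
    intro y hy
    refine Subfield.closure_induction (p := fun y _ => MulOpposite.op y ∈ cl (opr ρ) (⊤ : Subgroup K)) ?_ ?_ ?_ ?_ ?_ ?_ hy
    · rintro _ ⟨g, _, rfl⟩
      have h2 : MulOpposite.op ((ρ g : Eˣ) : E) = ((opr ρ g⁻¹ : (Eᵐᵒᵖ)ˣ) : Eᵐᵒᵖ) := by
        rw [opr_val, inv_inv]
      show MulOpposite.op ((ρ g : Eˣ) : E) ∈ cl (opr ρ) (⊤ : Subgroup K)
      rw [h2]
      exact Subfield.subset_closure ⟨g⁻¹, Subgroup.mem_top _, rfl⟩
    · rw [MulOpposite.op_one]
      exact one_mem _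
    · intro a b _ _ ha hb
      rw [MulOpposite.op_add]
      exact add_mem ha hb
    · intro a _ ha
      rw [MulOpposite.op_neg]
      exact neg_mem ha
    · intro a _ ha
      rw [MulOpposite.op_inv]
      exact inv_mem ha
    · intro a b _ _ ha hb
      rw [MulOpposite.op_mul]
      exact mul_mem hb ha
  exact key _ h1

/-- the vanishing for a skew field generated by the group -/
theorem ex_gen (hV : StmtVan) {K : Type} [Group K] (hK : BiOrd K) {D : Type} [DivisionRing D] [Algebra (ZMod 2) D]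
    (ρ : K →* Dˣ) (htop : cl ρ (⊤ : Subgroup K) = ⊤) (hI0 : AllInd ρ) (hI1 : AllInd (opr ρ))
    (hI2 : AllInd (opr (opr ρ))) {n : ℕ} (hn : IsPD n K) (R : FinRes K) (i : ℕ) (hi : 2 * i ≠ n) : Ex (lmul ρ) R i := by
  have hLI := stmtLI K hK
  have hid : Function.Injective (MonoidHom.id K) := Function.injective_id
  have hl1 : T5.Loc (opr ρ) ρ := loc_of_allInd hLI hI1 hI0
  have hl2 : T5.Loc (opr (opr ρ)) (opr ρ) := loc_of_allInd hLI hI2 hI1
  refine hV K hK.noInv D ρ n hn R (fun j => ?_) (fun j => ?_) i hi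
  · exact torF K K (MonoidHom.id K) hid _ _ (opr ρ) ρ (cl_opr_top htop) htop (allFam_of_loc hl1) (allCos_of_loc hl1) R j
  · exact torF K K (MonoidHom.id K) hid _ _ (opr (opr ρ)) (opr ρ) (cl_opr_top (cl_opr_top htop)) (cl_opr_top htop)
      (allFam_of_loc hl2) (allCos_of_loc hl2) R j

/-- the vanishing for a skew field with projections -/
theorem ex_proj (hV : StmtVan) {K : Type} [Group K] (hK : BiOrd K) {D : Type} [DivisionRing D] [Algebra (ZMod 2) D]
    (ρ : K →* Dˣ) (P : Proj ρ) {n : ℕ} (hn : IsPD n K) (R : FinRes K) (i : ℕ) (hi : 2 * i ≠ n) : Ex (lmul ρ) R i := by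
  have he : Emb (sρ ρ) ρ (MonoidHom.id K) (val ρ) := fun g => val_sρ ρ g
  have hid : Function.Injective (MonoidHom.id K) := Function.injective_id
  have hI0 : AllInd (sρ ρ) := he.allInd hid P.allInd
  have hI1 : AllInd (opr (sρ ρ)) := he.op.allInd hid P.op.allInd
  have hI2 : AllInd (opr (opr (sρ ρ))) := he.op.op.allInd hid P.op.op.allInd
  exact ex_base ρ R i (ex_gen hV hK (sρ ρ) (cl_top ρ) hI0 hI1 hI2 hn R i hi)

/-- **the vanishing theorem for the bi-orderable Poincare duality groups** (from the rows) -/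
theorem vanE_of (hMN : StmtMN) (hB : StmtBound) (hV : StmtVan) {K : Type} [Group K] (hK : BiOrd K)
    {n : ℕ} (hn : IsPD n K) (R : FinRes K) (i : ℕ) (hi : 2 * i ≠ n) : R.VanE i := by
  obtain ⟨D, E₀, iD, iE, iA, iC, ρ, ρ₀, hL, ⟨P⟩, ⟨P₀⟩⟩ := hMN K hK
  have hF0 : AllFam ρ₀ ρ₀ := allFam_of_loc (loc_of_allInd (stmtLI K hK) P₀.allInd P₀.allInd)
  have h5 : Ex (lmul ρ) R i := ex_proj hV hK ρ P hn R i hi
  have h6 := FinSt.coV_of_ex ρ R i h5
  refine van_of_bound (D := Dᵐᵒᵖ) (M := D) R (fun x => lm (((ρ x : Dˣ) : D))) ?_ i h6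
  intro κ ι J _ _ _ _ c s W hW
  exact hB K D E₀ ρ ρ₀ hL hF0 P₀.allCos c s W hW

/-- **the vanishing theorem for the Poincare duality groups with a bi-orderable subgroup of finite index** (from the rows) -/
theorem vanE_virtual_of (hMN : StmtMN) (hB : StmtBound) (hV : StmtVan) {Γ : Type} [Group Γ]
    (H : Subgroup Γ) [hH : H.FiniteIndex] (hT : BiOrd H) {n : ℕ} (hPD : IsPD n Γ ∨ IsPD n H) (R : FinRes Γ) (i : ℕ)
    (hi : 2 * i ≠ n) : R.VanE i :=
  FinRes.vanE_of_index H (fun R' => vanE_of hMN hB hV hT (hPD.elim (fun h => h.of_finiteIndex H) id) R' i hi) R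

end SQ.BO
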