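import Pool.Agent.SQ.BO.LinStep
import Pool.Agent.SQ.T2.Cmp
import Pool.Agent.Helper18.SQ.RankDual

/-!
# SQ/BO: from a skew field of characteristic zero to `ℓ²`, from the residue field to characteristic zero

`ev_injective`: independence of the group elements in characteristic zero.
`vdim_le_loc`: `Λ` a ring with a surjective homomorphism `π` onto a skew field `D` such that every `x` with `π x ≠ 0` is a unit, and a
homomorphism `j` to a skew field `E₀`. If `Lin` holds for all finite families of `E₀` then the von Neumann dimension of the space of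
solutions of a linear system is at most the dimension over `D` of the space of solutions in `D`.
-/

set_option autoImplicit false
set_option linter.unusedSectionVars false
set_option linter.unusedVariables false

open scoped Matrix

namespace SQ.BO

open SQ.T3 Singer Singer.Ord Pool.Agent.Helper16.Cmp Pool.Agent.Helper18.SQ

/-! ### injectivity on the group ring -/

theorem ev_injective {K : Type} [Group K] {E : Type} [DivisionRing E] [CharZero E] (ρ : K →* Eˣ) (h : CosInd ρ ⊥ ⊤) :
    Function.Injective (ev ρ) := by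
  rw [injective_iff_map_eq_zero]
  intro r hr
  rw [ev_apply] at hr
  have h1 := h r.coeff.support (fun g => (r.coeff g : E)) (fun g _ => Subgroup.mem_top g) (fun g _ g' _ hg => ?_)
    (fun g _ => intCast_mem _ _) hr
  · refine MonoidAlgebra.ext (Finsupp.ext fun g => ?_)
    by_cases hg : g ∈ r.coeff.support
    · have h2 := h1 g hg
      rw [Int.cast_eq_zero] at h2
      exact h2
    · exact Finsupp.notMem_support_iff.1 hg
  · exact mul_inv_eq_one.1 (Subgroup.mem_bot.1 hg)

/-! ### linear algebra -/

section la
variable {D : Type*} [DivisionRing D] {κ ι : Type} [Fintype κ] [Fintype ι]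

/-- a matrix without right kernel has a left inverse -/
theorem exists_leftInv {n : Type} [Fintype n] [DecidableEq n] (B : Matrix κ n D) (h : ∀ y : n → D, B *ᵥ y = 0 → y = 0) :
    ∃ Y : Matrix n κ D, Y * B = 1 := by
  classical
  have h1 : LinearMap.ker (mv B) = ⊥ := LinearMap.ker_eq_bot'.2 fun y hy => h y hy
  obtain ⟨g, hg⟩ := (mv B).exists_leftInverse_of_injective h1
  refine ⟨Matrix.of fun a k => g (Pi.single k 1) a, ?_⟩
  have h2 : ∀ v : κ → D, g v = (Matrix.of fun a k => g (Pi.single k 1) a) *ᵥ v := by
    intro v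
    have h3 : v = ∑ k, MulOpposite.op (v k) • (Pi.single k 1 : κ → D) := by
      funext k
      rw [Finset.sum_apply, Finset.sum_eq_single k]
      · simp
      · intro k' _ hk'
        rw [Pi.smul_apply, Pi.single_eq_of_ne (Ne.symm hk'), smul_zero]
      · intro hk
        exact absurd (Finset.mem_univ k) hk
    conv_lhs => rw [h3]
    rw [map_sum]
    funext a
    rw [Finset.sum_apply]
    refine Finset.sum_congr rfl fun k _ => ?_
    rw [map_smul]
    rfl
  ext a b
  have h4 : (Matrix.of fun a k => g (Pi.single k 1) a) *ᵥ (B *ᵥ Pi.single b 1) = Pi.single b 1 := by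
    rw [← h2]
    exact LinearMap.congr_fun hg (Pi.single b 1)
  rw [Matrix.mulVec_mulVec, Matrix.mulVec_single_one] at h4
  have h5 := congrFun h4 a
  rw [Matrix.col_apply] at h5
  rw [h5, Matrix.one_apply, Pi.single_apply]

/-- a maximal independent set of columns -/
theorem exists_cols (A : Matrix κ ι D) : ∃ (n : Type) (_ : Fintype n) (a : n → ι), Function.Injective a ∧
    Fintype.card n + Module.finrank Dᵐᵒᵖ (LinearMap.ker (mv A)) = Fintype.card ι ∧
    ∀ y : n → D, A.submatrix id a *ᵥ y = 0 → y = 0 := by
  classical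
  let v : ι → (κ → D) := fun i => A *ᵥ Pi.single i 1
  obtain ⟨n, a, ha, hsp, hli⟩ := exists_linearIndependent' Dᵐᵒᵖ v
  have : Fintype n := Fintype.ofInjective a ha
  refine ⟨n, inferInstance, a, ha, ?_, ?_⟩
  · have h1 : Submodule.span Dᵐᵒᵖ (Set.range v) = LinearMap.range (mv A) := by
      apply le_antisymm
      · rw [Submodule.span_le]
        rintro _ ⟨i, rfl⟩
        exact ⟨Pi.single i 1, rfl⟩
      · rintro _ ⟨y, rfl⟩
        have h3 : mv A y = ∑ i, MulOpposite.op (y i) • v i := by
          funext k
          rw [Finset.sum_apply]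
          show ∑ i, A k i * y i = _
          refine Finset.sum_congr rfl fun i _ => ?_
          show _ = (A *ᵥ Pi.single i 1) k * y i
          rw [Matrix.mulVec_single_one]
          rfl
        rw [h3]
        exact Submodule.sum_mem _ fun i _ => Submodule.smul_mem _ _ (Submodule.subset_span ⟨i, rfl⟩)
    have h2 := finrank_span_eq_card hli
    rw [hsp, h1] at h2
    have h3 := LinearMap.finrank_range_add_finrank_ker (mv A)
    rw [finrank_col] at h3
    omega
  · intro y hy
    have h1 := Fintype.linearIndependent_iff.1 hli (fun m => MulOpposite.op (y m)) (by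
      rw [← hy]
      funext k
      rw [Finset.sum_apply]
      show _ = ∑ m, A k (a m) * y m
      refine Finset.sum_congr rfl fun m _ => ?_
      show (A *ᵥ Pi.single (a m) 1) k * y m = _
      rw [Matrix.mulVec_single_one]
      rfl)
    funext m
    exact MulOpposite.op_injective (h1 m)

end la

/-! ### local rings -/

section loc
variable {L D F : Type} [Ring L] [DivisionRing D] [DivisionRing F] (π : L →+* D) (hπ : ∀ x, π x ≠ 0 → IsUnit x) (j : L →+* F)

include hπ in
theorem mem_jacobson {x : L} (hx : π x = 0) : x ∈ Ring.jacobson L := by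
  rw [← Ideal.jacobson_bot, Ideal.mem_jacobson_iff]
  intro y
  have h1 : IsUnit (y * x + 1) := hπ _ (by rw [map_add, map_mul, hx, mul_zero, zero_add, map_one]; exact one_ne_zero)
  obtain ⟨u, hu⟩ := h1
  refine ⟨((u⁻¹ : Lˣ) : L), ?_⟩
  have h2 : ((u⁻¹ : Lˣ) : L) * (y * x + 1) = 1 := by rw [← hu, Units.inv_mul]
  rw [mul_add, mul_one, ← mul_assoc] at h2
  rw [h2, sub_self]
  exact Submodule.zero_mem _

include hπ in
theorem nak {n : Type} [Fintype n] (P : Matrix n n L) (hP : ∀ a b, π (P a b) = 0) (y : n → F)
    (hy : P.map j *ᵥ y = y) : y = 0 := by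
  letI : Module L F := Module.compHom F j
  have h1 : Submodule.span L (Set.range y) ≤ Ring.jacobson L • Submodule.span L (Set.range y) := by
    rw [Submodule.span_le]
    rintro _ ⟨a, rfl⟩
    have h2 : y a = ∑ b, P a b • y b := by
      conv_lhs => rw [← hy]
      rfl
    rw [h2]
    exact Submodule.sum_mem _ fun b _ => Submodule.smul_mem_smul (mem_jacobson π hπ (hP a b)) (Submodule.subset_span ⟨b, rfl⟩)
  have h2 := Submodule.FG.eq_bot_of_le_jacobson_smul (Submodule.fg_span (Set.finite_range y)) h1
  funext a
  have h3 : y a ∈ Submodule.span L (Set.range y) := Submodule.subset_span ⟨a, rfl⟩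
  rw [h2] at h3
  exact (Submodule.mem_bot L).1 h3

include hπ in
/-- columns which are independent over the residue field are independent over `F` -/
theorem indep_lift (hs : Function.Surjective π) {κ n : Type} [Fintype κ] [Fintype n] (A : Matrix κ n L)
    (h : ∀ y : n → D, A.map π *ᵥ y = 0 → y = 0) (y : n → F) (hy : A.map j *ᵥ y = 0) : y = 0 := by
  classical
  obtain ⟨Y, hY⟩ := exists_leftInv (A.map π) h
  choose Z hZ using fun (a : n) (k : κ) => hs (Y a k)
  have hZ' : (Matrix.of Z).map π = Y := Matrix.ext fun a k => hZ a k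
  refine nak π hπ j (1 - Matrix.of Z * A) (fun a b => ?_) y ?_
  · have h1 : (Matrix.of Z * A).map π = 1 := by rw [Matrix.map_mul, hZ', hY]
    have h2 := congrFun (congrFun h1 a) b
    rw [Matrix.map_apply] at h2
    rw [Matrix.sub_apply, map_sub, h2, Matrix.one_apply, Matrix.one_apply]
    split_ifs <;> simp
  · have h1 : (1 - Matrix.of Z * A).map j = 1 - (Matrix.of Z).map j * A.map j := by
      rw [Matrix.map_sub j (map_sub j), Matrix.map_mul, Matrix.map_one j (map_zero j) (map_one j)]
    rw [h1, Matrix.sub_mulVec, Matrix.one_mulVec, ← Matrix.mulVec_mulVec, hy, Matrix.mulVec_zero, sub_zero]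

end loc

/-! ### the comparison -/

section cmpr
variable {K : Type} [Group K]

/-- the matrix of a linear system over the group ring -/
noncomputable def sysM {κ ι J : Type} [Fintype J] (c : κ → ι → J → ℤ) (s : J → K) : Matrix κ ι (MonoidAlgebra ℤ K) :=
  Matrix.of fun k i => ∑ j, MonoidAlgebra.single (s j) (c k i j)

/-- solutions in a skew field -/
theorem finrank_solD_eq {D : Type} [DivisionRing D] (σ : K →* Dˣ) {κ ι J : Type} [Fintype κ] [Fintype ι] [Fintype J]
    (c : κ → ι → J → ℤ) (s : J → K) :
    SolD c (fun j => lm ((σ (s j) : Dˣ) : D)) = LinearMap.ker (mv ((sysM c s).map (ev σ))) := by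
  ext y
  rw [mem_SolD, LinearMap.mem_ker, funext_iff]
  refine forall_congr' fun k => ?_
  have h : ∑ i, ∑ j, c k i j • (lm ((σ (s j) : Dˣ) : D)) (y i) = mv ((sysM c s).map (ev σ)) y k := by
    show _ = ∑ i, (ev σ) (∑ j, MonoidAlgebra.single (s j) (c k i j)) * y i
    refine Finset.sum_congr rfl fun i _ => ?_
    rw [map_sum, Finset.sum_mul]
    refine Finset.sum_congr rfl fun j _ => ?_
    rw [ev_single, lm_apply, zsmul_eq_mul, mul_assoc]
  rw [h]
  rfl

/-- **the comparison** of the solutions in `ℓ²` with the solutions in the residue field -/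
theorem vdim_le_loc {L D F : Type} [Ring L] [DivisionRing D] [DivisionRing F] (π : L →+* D) (hπ : ∀ x, π x ≠ 0 → IsUnit x)
    (hs : Function.Surjective π) (j : L →+* F) (lam₀ : K →* Lˣ) (σ : K →* Dˣ) (ρ : K →* Fˣ)
    (hσ : ∀ g, π (lam₀ g : Lˣ) = ((σ g : Dˣ) : D)) (hρ : ∀ g, j (lam₀ g : Lˣ) = ((ρ g : Fˣ) : F))
    (hLin : ∀ X : Set F, X.Finite → (∀ x ∈ X, x ∈ cl ρ ⊤) → Lin ρ ⊤ X)
    {κ ι J : Type} [Fintype κ] [Fintype ι] [Fintype J] (c : κ → ι → J → ℤ) (s : J → K)
    (W : Submodule ℂ (E K ι)) (hW : (W : Set (E K ι)) = SolL c s) :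
    vdim W ≤ Module.finrank Dᵐᵒᵖ (SolD c (fun j => lm ((σ (s j) : Dˣ) : D))) := by
  classical
  -- the matrices
  let evL : MonoidAlgebra ℤ K →ₐ[ℤ] L := MonoidAlgebra.lift ℤ L K ((Units.coeHom L).comp lam₀)
  have hπev : ∀ r, π (evL r) = ev σ r := by
    intro r
    have h : (π.comp evL.toRingHom) = (ev σ).toRingHom := by
      refine MonoidAlgebra.ringHom_ext' ?_ ?_
      · exact RingHom.ext_int _ _
      · ext g
        show π (evL (MonoidAlgebra.single g 1)) = ev σ (MonoidAlgebra.single g 1)
        rw [ev_single, MonoidAlgebra.lift_single, one_smul, Int.cast_one, one_mul]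
        exact hσ g
    exact RingHom.congr_fun h r
  have hjev : ∀ r, j (evL r) = ev ρ r := by
    intro r
    have h : (j.comp evL.toRingHom) = (ev ρ).toRingHom := by
      refine MonoidAlgebra.ringHom_ext' ?_ ?_
      · exact RingHom.ext_int _ _
      · ext g
        show j (evL (MonoidAlgebra.single g 1)) = ev ρ (MonoidAlgebra.single g 1)
        rw [ev_single, MonoidAlgebra.lift_single, one_smul, Int.cast_one, one_mul]
        exact hρ g
    exact RingHom.congr_fun h r
  rw [finrank_solD_eq σ c s]
  obtain ⟨n, _, a, ha, hcard, hker⟩ := exists_cols ((sysM c s).map (ev σ))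
  -- independence over `F`
  have hF : ∀ y : n → F, ((sysM c s).map (ev ρ)).submatrix id a *ᵥ y = 0 → y = 0 := by
    intro y hy
    refine indep_lift π hπ j hs (((sysM c s).map evL).submatrix id a) (fun z hz => hker z ?_) y ?_
    · rw [← hz]
      congr 1
      ext k m
      exact (hπev _).symm
    · rw [← hy]
      congr 1
      ext k m
      exact hjev _
  -- a left inverse over the division closure
  let B : Matrix κ n (cl ρ ⊤) := Matrix.of fun k m => ⟨ev ρ (sysM c s k (a m)), ev_mem ρ fun x _ => Subgroup.mem_top x⟩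
  obtain ⟨Y', hY'⟩ := exists_leftInv B fun y hy => by
    have h1 : (fun m => (y m : F)) = 0 := by
      apply hF
      funext k
      have h2 := congrArg (fun z : κ → cl ρ ⊤ => ((z k : cl ρ ⊤) : F)) hy
      simp only [Matrix.mulVec, dotProduct, Pi.zero_apply, ZeroMemClass.coe_zero] at h2
      rw [AddSubmonoidClass.coe_finsetSum] at h2
      exact h2
    funext m
    exact Subtype.ext (congrFun h1 m)
  set Y : Matrix n κ F := Matrix.of fun m k => (Y' m k : F) with hYdef
  have hY : Y * ((sysM c s).map (ev ρ)).submatrix id a = 1 := by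
    ext m m'
    have h2 := congrArg (fun z : Matrix n n (cl ρ ⊤) => ((z m m' : cl ρ ⊤) : F)) hY'
    simp only [Matrix.mul_apply] at h2
    rw [AddSubmonoidClass.coe_finsetSum] at h2
    rw [Matrix.mul_apply, Matrix.one_apply]
    refine Eq.trans ?_ (h2.trans ?_)
    · rfl
    · rw [Matrix.one_apply]
      split_ifs <;> rfl
  -- no solution in the chosen coordinates
  set T : Finset ι := Finset.univ \ Finset.univ.image a with hT
  have hbot : W ⊓ T2.off K T = ⊥ := by
    rw [eq_bot_iff]
    rintro f ⟨hf1, hf2⟩
    have hf1' : f ∈ SolL c s := by rw [← hW]; exact hf1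
    have hf2' : ∀ g, ∀ i ∉ Set.range a, f (g, i) = 0 := fun g i hi => hf2 g i (by
      rw [hT, Finset.mem_sdiff]
      refine ⟨Finset.mem_univ _, fun h => hi ?_⟩
      obtain ⟨m, _, rfl⟩ := Finset.mem_image.1 h
      exact ⟨m, rfl⟩)
    have key : ∀ m0 : n, (fun g => f (g, a m0)) = 0 := by
      intro m0
      have h1 := hLin (Set.range fun k => Y m0 k) (Set.finite_range _) (by rintro _ ⟨k, rfl⟩; exact (Y' m0 k).2) κ n (fun k => Y m0 k)
        (fun m => if m0 = m then 1 else 0) (fun m k => sysM c s k (a m)) (fun m g => f (g, a m)) (fun k => ⟨k, rfl⟩)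
        (fun m x _ => Subgroup.mem_top x) (fun m k x _ => Subgroup.mem_top x) (fun m => ?_) (fun m => ?_) (fun k => ?_)
      · rw [Finset.sum_eq_single m0] at h1
        · rw [if_pos rfl, map_one] at h1
          exact h1
        · intro m _ hm
          rw [if_neg (Ne.symm hm), map_zero]
          rfl
        · intro h
          exact absurd (Finset.mem_univ m0) h
      · have h2 := congrFun (congrFun hY m0) m
        rw [Matrix.one_apply] at h2
        have h3 : ev ρ (if m0 = m then 1 else 0) = if m0 = m then 1 else 0 := by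
          split_ifs
          · exact map_one _
          · exact map_zero _
        rw [h3, ← h2]
        rfl
      · exact (pull (fun g : K => (g, a m)) (col_inj (a m)) f).2
      · funext g
        rw [Finset.sum_apply, Pi.zero_apply]
        have h2 := hf1' g k
        have h3 : ∀ i, act (sysM c s k i) (fun g => f (g, i)) g = ∑ j, (c k i j : ℂ) * f (g * s j, i) := by
          intro i
          show act (∑ j, MonoidAlgebra.single (s j) (c k i j)) (fun g => f (g, i)) g = _
          rw [map_sum, LinearMap.sum_apply, Finset.sum_apply]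
          exact Finset.sum_congr rfl fun j _ => act_single _ _ _ _
        rw [← h2, Finset.sum_congr rfl fun m _ => h3 (a m),
          ← Finset.sum_image (s := Finset.univ) (g := a) (f := fun i => ∑ j, (c k i j : ℂ) * f (g * s j, i)) ha.injOn]
        refine Finset.sum_subset (Finset.subset_univ _) fun i _ hi => ?_
        refine Finset.sum_eq_zero fun j _ => ?_
        rw [hf2' _ i fun ⟨m, hm⟩ => hi (Finset.mem_image.2 ⟨m, Finset.mem_univ _, hm⟩), mul_zero]
    rw [Submodule.mem_bot]
    ext ⟨g, i⟩
    rw [lp.coeFn_zero, Pi.zero_apply]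
    by_cases hi : i ∈ Set.range a
    · obtain ⟨m, rfl⟩ := hi
      exact congrFun (key m) g
    · exact hf2' g i hi
  have mW := T2.mdl_solL c s W hW
  have mO := T2.mdl_off (Γ := K) T
  have h1 := vdim_sup_add_inf mW.inv mO.inv mW.cl mO.cl
  rw [hbot, vdim_bot, add_zero, T2.vdim_off] at h1
  have h2 : vdim (W ⊔ T2.off K T) ≤ Fintype.card ι := by
    rw [← vdim_top (Γ := K) (ι := ι)]
    exact vdim_mono le_top
  have h3 : (T.card : ℝ) = Fintype.card ι - Fintype.card n := by
    rw [hT, Finset.card_sdiff_of_subset (Finset.subset_univ _), Finset.card_univ, Finset.card_image_of_injective _ ha,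
      Finset.card_univ, Nat.cast_sub (Fintype.card_le_of_injective a ha)]
  have h4 : (Fintype.card n : ℝ) + Module.finrank Dᵐᵒᵖ (LinearMap.ker (mv ((sysM c s).map (ev σ)))) = Fintype.card ι := by
    exact_mod_cast hcard
  rw [h3] at h1
  linarith

end cmpr

end SQ.BO
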