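import Pool.Agent.SQ.BO.Bound
import Pool.Agent.SQ.Fin

/-!
# SQ/BO: from the coefficients in the residue field to the `ℓ²`-homology
-/

set_option autoImplicit false
set_option linter.unusedSectionVars false
set_option linter.unusedVariables false

namespace SQ.BO

open SQ.T3 Singer Singer.Ord Pool.Agent.Helper16.Cmp Pool.Agent.Helper18.SQ

/-- if the cohomology with coefficients in the residue field `D` vanishes in degree `i`, then so does the `ℓ²`-homology -/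
theorem vanE_of_loc {K : Type} [Group K] (R : FinRes K) (i : ℕ) {L D F : Type} [Ring L] [DivisionRing D] [Algebra (ZMod 2) D]
    [DivisionRing F] (π : L →+* D) (hπ : ∀ x, π x ≠ 0 → IsUnit x) (hs : Function.Surjective π) (j : L →+* F)
    (lam₀ : K →* Lˣ) (σ : K →* Dˣ) (ρ : K →* Fˣ)
    (hσ : ∀ g, π (lam₀ g : Lˣ) = ((σ g : Dˣ) : D)) (hρ : ∀ g, j (lam₀ g : Lˣ) = ((ρ g : Fˣ) : F))
    (hLin : ∀ X : Set F, X.Finite → (∀ x ∈ X, x ∈ cl ρ ⊤) → Lin ρ ⊤ X) (h5 : Ex (lmul σ) R i) : R.VanE i := by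
  classical
  have h6 : CoV R (fun x => lm ((σ x : Dˣ) : D)) i := FinSt.coV_of_ex σ R i h5
  refine van_of_bound (D := Dᵐᵒᵖ) (M := D) R _ ?_ i h6
  intro κ ι J _ _ _ _ c s W hW
  rw [finrank_op, Nat.cast_one, mul_one]
  exact vdim_le_loc π hπ hs j lam₀ σ ρ hσ hρ hLin c s W hW

/-- the same, from the good families of the skew field of characteristic zero -/
theorem vanE_of_fam {K : Type} [Group K] (R : FinRes K) (i : ℕ) {L D F E₂ : Type} [Ring L] [DivisionRing D] [Algebra (ZMod 2) D]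
    [DivisionRing F] [CharZero F] [DivisionRing E₂] (π : L →+* D) (hπ : ∀ x, π x ≠ 0 → IsUnit x)
    (hs : Function.Surjective π) (j : L →+* F) (lam₀ : K →* Lˣ) (σ : K →* Dˣ) (ρ : K →* Fˣ) (ρ₂ : K →* E₂ˣ)
    (hσ : ∀ g, π (lam₀ g : Lˣ) = ((σ g : Dˣ) : D)) (hρ : ∀ g, j (lam₀ g : Lˣ) = ((ρ g : Fˣ) : F))
    (hci : CosInd ρ ⊥ ⊤) (hFam : ∀ X : Set F, X.Finite → (∀ x ∈ X, x ∈ cl ρ ⊤) → Fam ρ ρ₂ ⊤ X) (h5 : Ex (lmul σ) R i) :
    R.VanE i :=
  vanE_of_loc R i π hπ hs j lam₀ σ ρ hσ hρ (fun X hX hX' => lin_of_fam (ev_injective ρ hci) (hFam X hX hX')) h5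

end SQ.BO
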