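import Pool.Agent.SQ.BO.Exp
import Pool.Agent.SQ.T5.Defs

/-!
# Project MP_984acc_BO: accessible elements

An element of the skew field is accessible if, after a right multiplication by a group element, it lies in the division closure of a
finitely generated subgroup `S`, and all the coefficients of its expansions along the admissible `φ : S → ℤ` are accessible.
The accessible elements are closed under `+`, `*`, `⁻¹` (double structural inductions).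
-/

set_option autoImplicit false

namespace SQ.BO

open SQ.T3 SQ.T3.StepX

variable {K : Type} [Group K] {E₁ E₂ : Type} [DivisionRing E₁] [DivisionRing E₂] (ρ₁ : K →* E₁ˣ) (ρ₂ : K →* E₂ˣ)

/-- the admissible `φ` -/
structure Ph (S : Subgroup K) (φ : K → ℤ) : Prop where
  hm : Hm S φ
  ne : ∃ g ∈ S, φ g ≠ 0
  i1 : IndF ρ₁ S φ
  i2 : IndF ρ₂ S φ

/-- accessible elements -/
inductive Acc : Subgroup K → E₁ → Prop
  | mk (H : Subgroup K) (x : E₁) (g : K) (S : Subgroup K) (hg : g ∈ H) (hS : S ≤ H) (fg : S.FG) (hx : x * ρ₁ g ∈ cl ρ₁ S)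
      (h : ∀ φ, Ph ρ₁ ρ₂ S φ → ∀ t ∈ S, Acc (kr S φ) ((cf ρ₁ S φ (x * ρ₁ g)).coeff (φ t) * ρ₁ t⁻¹)) : Acc H x

/-- the core of an accessible element -/
def Co (S : Subgroup K) (a : E₁) : Prop :=
  a ∈ cl ρ₁ S ∧ ∀ φ, Ph ρ₁ ρ₂ S φ → ∀ t ∈ S, Acc ρ₁ ρ₂ (kr S φ) ((cf ρ₁ S φ a).coeff (φ t) * ρ₁ t⁻¹)

variable {ρ₁ ρ₂}

theorem Ph.mono {S T : Subgroup K} {φ : K → ℤ} (h : Ph ρ₁ ρ₂ T φ) (hST : S ≤ T) (h0 : ∃ g ∈ S, φ g ≠ 0) : Ph ρ₁ ρ₂ S φ :=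
  ⟨h.hm.mono hST, h0, h.i1.mono hST, h.i2.mono hST⟩

theorem Ph.conj {S : Subgroup K} {φ : K → ℤ} {k : K} (h : Ph ρ₁ ρ₂ (cj k S) φ) : Ph ρ₁ ρ₂ S (fun s => φ (k * s * k⁻¹)) := by
  refine ⟨h.hm.conj, ?_, h.i1.conj h.hm, h.i2.conj h.hm⟩
  obtain ⟨g, hg, hg0⟩ := h.ne
  refine ⟨k⁻¹ * g * k, mem_cj.1 hg, ?_⟩
  have e : k * (k⁻¹ * g * k) * k⁻¹ = g := by group
  simp only [e]
  exact hg0

theorem Acc.mk' {H S : Subgroup K} {x a : E₁} {g : K} (fg : S.FG) (hS : S ≤ H) (hg : g ∈ H) (hx : x * ρ₁ g = a)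
    (h : Co ρ₁ ρ₂ S a) : Acc ρ₁ ρ₂ H x := by
  subst hx
  exact Acc.mk H x g S hg hS fg h.1 h.2

theorem Acc.core {H S : Subgroup K} {a : E₁} (fg : S.FG) (hS : S ≤ H) (h : Co ρ₁ ρ₂ S a) : Acc ρ₁ ρ₂ H a :=
  Acc.mk' fg hS H.one_mem (by rw [rho_one, mul_one]) h

theorem Acc.mono {H M : Subgroup K} {x : E₁} (h : Acc ρ₁ ρ₂ H x) (hM : H ≤ M) : Acc ρ₁ ρ₂ M x := by
  cases h with
  | mk _ _ g S hg hS fg hx h => exact Acc.mk M x g S (hM hg) (hS.trans hM) fg hx h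

theorem Acc.right {H : Subgroup K} {x : E₁} (h : Acc ρ₁ ρ₂ H x) {k : K} (hk : k ∈ H) : Acc ρ₁ ρ₂ H (x * ρ₁ k) := by
  cases h with
  | mk _ _ g S hg hS fg hx h =>
    refine Acc.mk' (g := k⁻¹ * g) (a := x * ρ₁ g) fg hS (H.mul_mem (H.inv_mem hk) hg) ?_ ⟨hx, h⟩
    rw [mul_assoc, ← rho_mul, mul_inv_cancel_left]

theorem not_ph_bot {φ : K → ℤ} (h : Ph ρ₁ ρ₂ ⊥ φ) : False := by
  obtain ⟨g, hg, hg0⟩ := h.ne
  rw [Subgroup.mem_bot] at hg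
  rw [hg] at hg0
  exact hg0 h.hm.one

theorem bot_fg : (⊥ : Subgroup K).FG := ⟨∅, by simp⟩

theorem co_bot {x : E₁} (hx : x ∈ cl ρ₁ (⊥ : Subgroup K)) : Co ρ₁ ρ₂ ⊥ x := ⟨hx, fun _ h => (not_ph_bot h).elim⟩

theorem Acc.bot {H : Subgroup K} {x : E₁} (hx : x ∈ cl ρ₁ (⊥ : Subgroup K)) : Acc ρ₁ ρ₂ H x :=
  Acc.core bot_fg bot_le (co_bot hx)

theorem Acc.zero {H : Subgroup K} : Acc ρ₁ ρ₂ H 0 := Acc.bot (zero_mem _)

theorem Acc.one {H : Subgroup K} : Acc ρ₁ ρ₂ H 1 := Acc.bot (one_mem _)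

theorem Acc.rho {H : Subgroup K} {k : K} (hk : k ∈ H) : Acc ρ₁ ρ₂ H (ρ₁ k) := by
  have := (Acc.one (ρ₁ := ρ₁) (ρ₂ := ρ₂) (H := H)).right hk
  rwa [one_mul] at this

/-! ### components of a core -/

theorem Co.comp {S T : Subgroup K} {a : E₁} (ha : Co ρ₁ ρ₂ S a) (fg : S.FG) (hST : S ≤ T) {φ : K → ℤ} (hφ : Ph ρ₁ ρ₂ T φ)
    {v : ℤ} {k : K} (hk : k ∈ T) (hv : φ k = -v) : Acc ρ₁ ρ₂ (kr T φ) ((cf ρ₁ T φ a).coeff v * ρ₁ k) := by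
  by_cases h0 : ∃ g ∈ S, φ g ≠ 0
  · have hP := hφ.mono hST h0
    rw [cf_res hφ.hm hφ.i1 hST ha.1]
    by_cases hs : ∃ s ∈ S, φ s = v
    · obtain ⟨s, hs, rfl⟩ := hs
      have h1 := ((ha.2 φ hP s hs).mono (kr_mono hST)).right (k := s * k) ((mem_kr hφ.hm).2 ⟨T.mul_mem (hST hs) hk, by
        rw [hφ.hm _ (hST hs) _ hk, hv]; ring⟩)
      rwa [mul_assoc, ← rho_mul, inv_mul_cancel_left] at h1
    · push Not at hs
      rw [(cf_gd hP.hm hP.i1 ha.1 v).2 hs, zero_mul]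
      exact Acc.zero
  · push Not at h0
    rw [cf_zero_hom hφ.hm hφ.i1 hST h0 ha.1, HahnSeries.coeff_single]
    split_ifs with hv0
    · rw [hv0, neg_zero] at hv
      exact (Acc.core fg (fun g hg => (mem_kr hφ.hm).2 ⟨hST hg, h0 g hg⟩) ha).right ((mem_kr hφ.hm).2 ⟨hk, hv⟩)
    · rw [zero_mul]
      exact Acc.zero

/-- `φ` cannot vanish on generators -/
theorem Ph.absurd {T : Subgroup K} {φ : K → ℤ} (hφ : Ph ρ₁ ρ₂ T φ) (h : T ≤ kr T φ) : False := by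
  obtain ⟨g, hg, hg0⟩ := hφ.ne
  exact hg0 ((mem_kr hφ.hm).1 (h hg)).2

/-! ### sums -/

theorem sup_fg {S T : Subgroup K} (hS : S.FG) (hT : T.FG) : (S ⊔ T).FG := by
  classical
  obtain ⟨A, hA⟩ := hS
  obtain ⟨B, hB⟩ := hT
  exact ⟨A ∪ B, by rw [Finset.coe_union, Subgroup.closure_union, hA, hB]⟩

theorem zpowers_fg (k : K) : (Subgroup.zpowers k).FG := ⟨{k}, by rw [Finset.coe_singleton, Subgroup.zpowers_eq_closure]⟩

theorem core_add {S : Subgroup K} {a : E₁} (fg : S.FG) (ha : Co ρ₁ ρ₂ S a)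
    (IH : ∀ φ, Ph ρ₁ ρ₂ S φ → ∀ t ∈ S, ∀ M, kr S φ ≤ M → ∀ y, Acc ρ₁ ρ₂ M y →
      Acc ρ₁ ρ₂ M ((cf ρ₁ S φ a).coeff (φ t) * ρ₁ t⁻¹ + y)) :
    ∀ (H' : Subgroup K) (x' : E₁), Acc ρ₁ ρ₂ H' x' → ∀ H, H' ≤ H → S ≤ H → ∀ h ∈ H, Acc ρ₁ ρ₂ H (a + x' * ρ₁ h) := by
  intro H' x' hx'
  induction hx' with
  | mk H' x' g' S' hg' hS' fg' hx' h' ih' =>
    intro H hH hSH h hh
    set b := x' * ((ρ₁ g' : E₁ˣ) : E₁) with hb
    have hb' : Co ρ₁ ρ₂ S' b := ⟨hx', h'⟩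
    set k := g'⁻¹ * h with hk
    set T : Subgroup K := S ⊔ S' ⊔ Subgroup.zpowers k with hT
    have hST : S ≤ T := le_sup_left.trans le_sup_left
    have hS'T : S' ≤ T := le_sup_right.trans le_sup_left
    have hkT : k ∈ T := (le_sup_right : Subgroup.zpowers k ≤ T) (Subgroup.mem_zpowers k)
    have hTH : T ≤ H := by
      refine sup_le (sup_le hSH (hS'.trans hH)) ?_
      rw [Subgroup.zpowers_le]
      exact H.mul_mem (H.inv_mem (hH hg')) hh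
    have hfg : T.FG := sup_fg (sup_fg fg fg') (zpowers_fg k)
    have e : a + x' * ((ρ₁ h : E₁ˣ) : E₁) = a + b * ((ρ₁ k : E₁ˣ) : E₁) := by
      rw [hb, hk, mul_assoc, ← rho_mul, mul_inv_cancel_left]
    rw [e]
    have haT : a ∈ cl ρ₁ T := cl_mono ρ₁ hST ha.1
    have hbT : b ∈ cl ρ₁ T := cl_mono ρ₁ hS'T hb'.1
    have hkE : ((ρ₁ k : E₁ˣ) : E₁) ∈ cl ρ₁ T := mem_cl ρ₁ hkT
    refine Acc.core hfg hTH ⟨add_mem haT (mul_mem hbT hkE), fun φ hφ t ht => ?_⟩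
    have hm := hφ.hm
    set M := kr T φ with hM
    rw [cf_add hm hφ.i1 haT (mul_mem hbT hkE), cf_mul hm hφ.i1 hbT hkE, cf_rho hm hφ.i1 hkT, HahnSeries.coeff_add,
      HahnSeries.coeff_mul_single, add_mul]
    have hB : ∀ s ∈ T, φ s = φ t → Acc ρ₁ ρ₂ M ((cf ρ₁ T φ b).coeff (φ t - φ k) * ((ρ₁ k : E₁ˣ) : E₁) * ((ρ₁ s⁻¹ : E₁ˣ) : E₁)) := by
      intro s hs hst
      rw [mul_assoc, ← rho_mul]
      refine hb'.comp fg' hS'T hφ (T.mul_mem hkT (T.inv_mem hs)) ?_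
      rw [hm _ hkT _ (T.inv_mem hs), hm.inv hs, hst]
      ring
    by_cases h0 : ∃ g ∈ S, φ g ≠ 0
    · have hP := hφ.mono hST h0
      by_cases hs : ∃ s ∈ S, φ s = φ t
      · obtain ⟨s, hs, hst⟩ := hs
        have h1 := IH φ hP s hs M (kr_mono hST) _ (hB s (hST hs) hst)
        have h2 := h1.right (k := s * t⁻¹) ((mem_kr hm).2 ⟨T.mul_mem (hST hs) (T.inv_mem ht), by
          rw [hm _ (hST hs) _ (T.inv_mem ht), hm.inv ht, hst]; ring⟩)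
        rw [add_mul, mul_assoc, ← rho_mul, inv_mul_cancel_left, mul_assoc ((cf ρ₁ T φ b).coeff (φ t - φ k) * _), ← rho_mul,
          inv_mul_cancel_left, hst, ← cf_res hm hφ.i1 hST ha.1] at h2
        exact h2
      · push Not at hs
        rw [cf_res hm hφ.i1 hST ha.1, (cf_gd hP.hm hP.i1 ha.1 (φ t)).2 hs, zero_mul, zero_add]
        exact hB t ht rfl
    · push Not at h0
      rw [cf_zero_hom hm hφ.i1 hST h0 ha.1, HahnSeries.coeff_single]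
      split_ifs with ht0
      · have hSM : S ≤ M := fun g hg => (mem_kr hm).2 ⟨hST hg, h0 g hg⟩
        have htM : t⁻¹ ∈ M := M.inv_mem ((mem_kr hm).2 ⟨ht, ht0⟩)
        rw [← add_mul]
        refine Acc.right ?_ htM
        rw [ht0, zero_sub]
        by_cases h1 : ∃ g ∈ S', φ g ≠ 0
        · have hP' := hφ.mono hS'T h1
          rw [cf_res hm hφ.i1 hS'T hb'.1]
          by_cases hs : ∃ s ∈ S', φ s = -φ k
          · obtain ⟨s, hs, hst⟩ := hs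
            have h2 := ih' φ hP' s hs M (kr_mono hS'T) hSM (s * k) ((mem_kr hm).2 ⟨T.mul_mem (hS'T hs) hkT, by
              rw [hm _ (hS'T hs) _ hkT, hst]; ring⟩)
            rw [mul_assoc, ← rho_mul, inv_mul_cancel_left, hst] at h2
            exact h2
          · push Not at hs
            rw [(cf_gd hP'.hm hP'.i1 hb'.1 (-φ k)).2 hs, zero_mul, add_zero]
            exact Acc.core fg hSM ha
        · push Not at h1
          have hk0 : φ k ≠ 0 := by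
            intro hk0
            refine hφ.absurd (sup_le (sup_le hSM fun g hg => (mem_kr hm).2 ⟨hS'T hg, h1 g hg⟩) ?_)
            rw [Subgroup.zpowers_le]
            exact (mem_kr hm).2 ⟨hkT, hk0⟩
          rw [cf_zero_hom hm hφ.i1 hS'T h1 hb'.1, HahnSeries.coeff_single, if_neg (neg_ne_zero.2 hk0), zero_mul, add_zero]
          exact Acc.core fg hSM ha
      · rw [zero_mul, zero_add]
        exact hB t ht rfl

theorem acc_add {H : Subgroup K} {x : E₁} (hx : Acc ρ₁ ρ₂ H x) :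
    ∀ M, H ≤ M → ∀ y, Acc ρ₁ ρ₂ M y → Acc ρ₁ ρ₂ M (x + y) := by
  induction hx with
  | mk H x g S hg hS fg hx h ih =>
    intro M hM y hy
    have h1 := core_add fg ⟨hx, h⟩ ih M y hy M le_rfl (hS.trans hM) g (hM hg)
    have h2 := h1.right (M.inv_mem (hM hg))
    rwa [← add_mul, mul_assoc, rho_mul_inv, mul_one] at h2

theorem Acc.add {H : Subgroup K} {x y : E₁} (hx : Acc ρ₁ ρ₂ H x) (hy : Acc ρ₁ ρ₂ H y) : Acc ρ₁ ρ₂ H (x + y) :=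
  acc_add hx H le_rfl y hy

/-! ### conjugation -/

theorem Acc.conj {H : Subgroup K} {x : E₁} (hx : Acc ρ₁ ρ₂ H x) : ∀ k : K, Acc ρ₁ ρ₂ (cj k H) (ρ₁ k * x * ρ₁ k⁻¹) := by
  induction hx with
  | mk H x g S hg hS fg hx h ih =>
    intro k
    refine Acc.mk' (g := k * g * k⁻¹) (a := ρ₁ k * (x * ρ₁ g) * ρ₁ k⁻¹) (cj_fg fg) (Subgroup.map_mono hS) (conj_mem_cj hg) ?_
      ⟨cl_conj ρ₁ (fun n hn => conj_mem_cj hn) hx, fun φ hφ t ht => ?_⟩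
    · rw [rho_mul, rho_mul]
      simp only [mul_assoc]
      rw [← mul_assoc ((ρ₁ k⁻¹ : E₁ˣ) : E₁) ((ρ₁ k : E₁ˣ) : E₁), rho_inv_mul, one_mul]
    · have h1 := ih _ hφ.conj (k⁻¹ * t * k) (mem_cj.1 ht) k
      have e : k * (k⁻¹ * t * k) * k⁻¹ = t := by group
      rw [← kr_cj hφ.hm] at h1
      simp only [e] at h1
      rw [cf_conj hφ.hm hφ.i1 hx]
      have e2 : (k⁻¹ * t * k)⁻¹ = k⁻¹ * t⁻¹ * k := by group
      have e3 : ((ρ₁ (k⁻¹ * t⁻¹ * k) : E₁ˣ) : E₁) * ((ρ₁ k⁻¹ : E₁ˣ) : E₁) = ((ρ₁ k⁻¹ : E₁ˣ) : E₁) * ((ρ₁ t⁻¹ : E₁ˣ) : E₁) := by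
        rw [← rho_mul, ← rho_mul]
        congr 2
        group
      rw [e2] at h1
      simp only [mul_assoc] at h1 e3 ⊢
      rwa [e3] at h1

theorem Co.conj {S : Subgroup K} {a : E₁} (ha : Co ρ₁ ρ₂ S a) (k : K) : Co ρ₁ ρ₂ (cj k S) (ρ₁ k * a * ρ₁ k⁻¹) := by
  refine ⟨cl_conj ρ₁ (fun n hn => conj_mem_cj hn) ha.1, fun φ hφ t ht => ?_⟩
  have h1 := (ha.2 _ hφ.conj (k⁻¹ * t * k) (mem_cj.1 ht)).conj k
  have e : k * (k⁻¹ * t * k) * k⁻¹ = t := by group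
  rw [← kr_cj hφ.hm] at h1
  simp only [e] at h1
  rw [cf_conj hφ.hm hφ.i1 ha.1]
  have e2 : (k⁻¹ * t * k)⁻¹ = k⁻¹ * t⁻¹ * k := by group
  have e3 : ((ρ₁ (k⁻¹ * t⁻¹ * k) : E₁ˣ) : E₁) * ((ρ₁ k⁻¹ : E₁ˣ) : E₁) = ((ρ₁ k⁻¹ : E₁ˣ) : E₁) * ((ρ₁ t⁻¹ : E₁ˣ) : E₁) := by
    rw [← rho_mul, ← rho_mul]
    congr 2
    group
  rw [e2] at h1
  simp only [mul_assoc] at h1 e3 ⊢
  rwa [e3] at h1

theorem cj_le_of_mem {H : Subgroup K} {k : K} (hk : k ∈ H) : cj k H ≤ H := fun g hg => by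
  have h1 := mem_cj.1 hg
  have h2 := H.mul_mem (H.mul_mem hk h1) (H.inv_mem hk)
  have e : k * (k⁻¹ * g * k) * k⁻¹ = g := by group
  rwa [e] at h2

theorem cj_kr_le {T : Subgroup K} {φ : K → ℤ} (hm : Hm T φ) {k : K} (hk : k ∈ T) : cj k (kr T φ) ≤ kr T φ := fun g hg => by
  have h1 := mem_cj.1 hg
  have h2 := kr_conj hm hk h1
  have e : k * (k⁻¹ * g * k) * k⁻¹ = g := by group
  rwa [e] at h2

theorem Co.comp2 {S T : Subgroup K} {a : E₁} (ha : Co ρ₁ ρ₂ S a) (fg : S.FG) (hST : S ≤ T) {φ : K → ℤ} (hφ : Ph ρ₁ ρ₂ T φ)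
    {v : ℤ} {s t : K} (hs : s ∈ T) (ht : t ∈ T) (hv : φ s + v = φ t) :
    Acc ρ₁ ρ₂ (kr T φ) (ρ₁ s * ((cf ρ₁ T φ a).coeff v * ρ₁ t⁻¹)) := by
  have h1 := (ha.comp fg hST hφ (v := v) (k := t⁻¹ * s) (T.mul_mem (T.inv_mem ht) hs) (by
    rw [hφ.hm _ (T.inv_mem ht) _ hs, hφ.hm.inv ht]; linarith)).conj s
  have h2 := h1.mono (cj_kr_le hφ.hm hs)
  rw [rho_mul] at h2
  simp only [mul_assoc] at h2
  rwa [rho_mul_inv, mul_one] at h2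

/-! ### products -/

theorem core_mul {S : Subgroup K} {a : E₁} (fg : S.FG) (ha : Co ρ₁ ρ₂ S a)
    (IH : ∀ φ, Ph ρ₁ ρ₂ S φ → ∀ t ∈ S, ∀ M, kr S φ ≤ M → ∀ y, Acc ρ₁ ρ₂ M y →
      Acc ρ₁ ρ₂ M ((cf ρ₁ S φ a).coeff (φ t) * ρ₁ t⁻¹ * y)) :
    ∀ (H' : Subgroup K) (x' : E₁), Acc ρ₁ ρ₂ H' x' → ∀ (k : K) (H : Subgroup K), cj k H' ≤ H → S ≤ H →
      Acc ρ₁ ρ₂ H (a * (ρ₁ k * x' * ρ₁ k⁻¹)) := by
  intro H' x' hx'
  induction hx' with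
  | mk H' x' g' S' hg' hS' fg' hx' h' ih' =>
    intro k H hH hSH
    set b := x' * ((ρ₁ g' : E₁ˣ) : E₁) with hb
    have hb0 : Co ρ₁ ρ₂ S' b := ⟨hx', h'⟩
    set b' := ((ρ₁ k : E₁ˣ) : E₁) * b * ((ρ₁ k⁻¹ : E₁ˣ) : E₁) with hbb
    have hb' : Co ρ₁ ρ₂ (cj k S') b' := hb0.conj k
    set T : Subgroup K := S ⊔ cj k S' with hT
    have hST : S ≤ T := le_sup_left
    have hS'T : cj k S' ≤ T := le_sup_right
    have hTH : T ≤ H := sup_le hSH ((Subgroup.map_mono hS').trans hH)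
    have hfg : T.FG := sup_fg fg (cj_fg fg')
    have haT : a ∈ cl ρ₁ T := cl_mono ρ₁ hST ha.1
    have hbT : b' ∈ cl ρ₁ T := cl_mono ρ₁ hS'T hb'.1
    refine Acc.mk' (g := k * g' * k⁻¹) (a := a * b') hfg hTH (hH (conj_mem_cj hg')) ?_ ⟨mul_mem haT hbT, fun φ hφ t ht => ?_⟩
    · rw [rho_mul, rho_mul, hbb, hb]
      simp only [mul_assoc]
      rw [← mul_assoc ((ρ₁ k⁻¹ : E₁ˣ) : E₁) ((ρ₁ k : E₁ˣ) : E₁), rho_inv_mul, one_mul]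
    have hm := hφ.hm
    set M := kr T φ with hM
    rw [cf_mul hm hφ.i1 haT hbT, LS.coeff_mul_finsum, finsum_mul]
    refine finsum_induction (fun z => Acc ρ₁ ρ₂ M z) Acc.zero (fun _ _ h1 h2 => h1.add h2) fun i => ?_
    by_cases h0 : ∃ g ∈ S, φ g ≠ 0
    · have hP := hφ.mono hST h0
      rw [cf_res hm hφ.i1 hST ha.1]
      by_cases hs : ∃ s ∈ S, φ s = i
      · obtain ⟨s, hs, hsi⟩ := hs
        have h1 := IH φ hP s hs M (kr_mono hST) _ (hb'.comp2 (cj_fg fg') hS'T hφ (v := φ t - i) (hST hs) ht (by rw [hsi]; ring))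
        rw [mul_assoc, ← mul_assoc ((ρ₁ s⁻¹ : E₁ˣ) : E₁), rho_inv_mul, one_mul, hsi, ← mul_assoc] at h1
        exact h1
      · push Not at hs
        rw [(cf_gd hP.hm hP.i1 ha.1 i).2 hs, zero_mul, zero_mul]
        exact Acc.zero
    · push Not at h0
      have hSM : S ≤ M := fun g hg => (mem_kr hm).2 ⟨hST hg, h0 g hg⟩
      rw [cf_zero_hom hm hφ.i1 hST h0 ha.1, HahnSeries.coeff_single]
      split_ifs with hi
      · rw [hi, sub_zero]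
        have h1 : ∃ g ∈ cj k S', φ g ≠ 0 := by
          by_contra h1
          push Not at h1
          exact hφ.absurd (sup_le hSM fun g hg => (mem_kr hm).2 ⟨hS'T hg, h1 g hg⟩)
        have hP' := hφ.mono hS'T h1
        rw [cf_res hm hφ.i1 hS'T hb'.1, hbb, cf_conj hP'.hm hP'.i1 hx']
        by_cases hs : ∃ s ∈ S', φ (k * s * k⁻¹) = φ t
        · obtain ⟨s, hs, hst⟩ := hs
          have h2 := ih' _ hP'.conj s hs k M (by rw [← kr_cj hP'.hm]; exact kr_mono hS'T) hSM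
          have hks : k * s * k⁻¹ ∈ T := hS'T (conj_mem_cj hs)
          have h3 := h2.right (k := k * s * k⁻¹ * t⁻¹) ((mem_kr hm).2 ⟨T.mul_mem hks (T.inv_mem ht), by
            rw [hm _ hks _ (T.inv_mem ht), hm.inv ht, hst]; ring⟩)
          have e3 : ((ρ₁ s⁻¹ : E₁ˣ) : E₁) * (((ρ₁ k⁻¹ : E₁ˣ) : E₁) * ((ρ₁ (k * s * k⁻¹ * t⁻¹) : E₁ˣ) : E₁)) =
              ((ρ₁ k⁻¹ : E₁ˣ) : E₁) * ((ρ₁ t⁻¹ : E₁ˣ) : E₁) := by
            rw [← rho_mul, ← rho_mul, ← rho_mul]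
            congr 2
            group
          simp only [hst] at h3
          simp only [mul_assoc] at h3 e3 ⊢
          rw [e3] at h3
          exact h3
        · push Not at hs
          rw [(cf_gd hP'.hm.conj (hP'.i1.conj hP'.hm) hx' (φ t)).2 hs, mul_zero, zero_mul, mul_zero, zero_mul]
          exact Acc.zero
      · rw [zero_mul, zero_mul]
        exact Acc.zero

theorem acc_mul {H : Subgroup K} {x : E₁} (hx : Acc ρ₁ ρ₂ H x) :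
    ∀ M, H ≤ M → ∀ y, Acc ρ₁ ρ₂ M y → Acc ρ₁ ρ₂ M (x * y) := by
  induction hx with
  | mk H x g S hg hS fg hx h ih =>
    intro M hM y hy
    have hgM := M.inv_mem (hM hg)
    have h1 := core_mul fg ⟨hx, h⟩ ih M y hy g⁻¹ M (cj_le_of_mem hgM) (hS.trans hM)
    have h2 := h1.right hgM
    have e : x * ((ρ₁ g : E₁ˣ) : E₁) * (((ρ₁ g⁻¹ : E₁ˣ) : E₁) * y * ((ρ₁ (g⁻¹)⁻¹ : E₁ˣ) : E₁)) * ((ρ₁ g⁻¹ : E₁ˣ) : E₁) = x * y := by
      simp only [mul_assoc]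
      rw [rho_inv_mul, mul_one, ← mul_assoc ((ρ₁ g : E₁ˣ) : E₁), rho_mul_inv, one_mul]
    rwa [e] at h2

theorem Acc.mul {H : Subgroup K} {x y : E₁} (hx : Acc ρ₁ ρ₂ H x) (hy : Acc ρ₁ ρ₂ H y) : Acc ρ₁ ρ₂ H (x * y) :=
  acc_mul hx H le_rfl y hy

theorem Acc.neg {H : Subgroup K} {x : E₁} (hx : Acc ρ₁ ρ₂ H x) : Acc ρ₁ ρ₂ H (-x) := by
  have := (Acc.bot (ρ₂ := ρ₂) (H := H) (neg_mem (one_mem (cl ρ₁ (⊥ : Subgroup K))))).mul hx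
  rwa [neg_one_mul] at this

theorem Acc.conj' {H : Subgroup K} {x : E₁} (hx : Acc ρ₁ ρ₂ H x) {k : K} (hk : cj k H ≤ H) : Acc ρ₁ ρ₂ H (ρ₁ k * x * ρ₁ k⁻¹) :=
  (hx.conj k).mono hk

/-! ### inverses -/

/-- the graded ring of the components -/
def AG (ρ₁ : K →* E₁ˣ) (ρ₂ : K →* E₂ˣ) (S : Subgroup K) (φ : K → ℤ) (u : ℤ) : AddSubgroup E₁ where
  carrier := {z | (∀ t ∈ S, φ t = u → Acc ρ₁ ρ₂ (kr S φ) (z * ρ₁ t⁻¹)) ∧ ((∀ t ∈ S, φ t ≠ u) → z = 0)}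
  zero_mem' := ⟨fun t _ _ => by rw [zero_mul]; exact Acc.zero, fun _ => rfl⟩
  add_mem' {x y} hx hy := ⟨fun t ht hu => by rw [add_mul]; exact (hx.1 t ht hu).add (hy.1 t ht hu),
    fun h => by rw [hx.2 h, hy.2 h, add_zero]⟩
  neg_mem' {x} hx := ⟨fun t ht hu => by rw [neg_mul]; exact (hx.1 t ht hu).neg, fun h => by rw [hx.2 h, neg_zero]⟩

theorem ag_mul {S : Subgroup K} {φ : K → ℤ} (h : Hm S φ) {u v : ℤ} {x y : E₁} (hx : x ∈ AG ρ₁ ρ₂ S φ u)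
    (hy : y ∈ AG ρ₁ ρ₂ S φ v) : x * y ∈ AG ρ₁ ρ₂ S φ (u + v) := by
  by_cases hu : ∃ g ∈ S, φ g = u
  · obtain ⟨s, hs, hu⟩ := hu
    refine ⟨fun t ht htu => ?_, fun h1 => ?_⟩
    · have h1 := hy.1 (s⁻¹ * t) (S.mul_mem (S.inv_mem hs) ht) (by rw [h _ (S.inv_mem hs) _ ht, h.inv hs, hu, htu]; ring)
      have h2 := (hx.1 s hs hu).mul (h1.conj' (cj_kr_le h hs))
      have e : x * ((ρ₁ s⁻¹ : E₁ˣ) : E₁) * (((ρ₁ s : E₁ˣ) : E₁) * (y * ((ρ₁ (s⁻¹ * t)⁻¹ : E₁ˣ) : E₁)) * ((ρ₁ s⁻¹ : E₁ˣ) : E₁)) =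
          x * y * ((ρ₁ t⁻¹ : E₁ˣ) : E₁) := by
        rw [mul_inv_rev, inv_inv, rho_mul]
        simp only [mul_assoc]
        rw [rho_mul_inv, mul_one, ← mul_assoc ((ρ₁ s⁻¹ : E₁ˣ) : E₁), rho_inv_mul, one_mul]
      rwa [e] at h2
    · have h0 : y = 0 := hy.2 fun g hg hgv => h1 (s * g) (S.mul_mem hs hg) (by rw [h _ hs _ hg, hu, hgv])
      rw [h0, mul_zero]
  · have h0 : x = 0 := hx.2 fun g hg h1 => hu ⟨g, hg, h1⟩
    rw [h0, zero_mul]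
    exact zero_mem _

theorem ag_one {S : Subgroup K} {φ : K → ℤ} (h : Hm S φ) : (1 : E₁) ∈ AG ρ₁ ρ₂ S φ 0 := by
  refine ⟨fun t ht ht0 => ?_, fun h1 => absurd h.one (h1 1 S.one_mem)⟩
  rw [one_mul]
  exact Acc.rho ((mem_kr h).2 ⟨S.inv_mem ht, by rw [h.inv ht, ht0, neg_zero]⟩)

theorem Acc.inv {H : Subgroup K} {x : E₁} (hx : Acc ρ₁ ρ₂ H x) : Acc ρ₁ ρ₂ H x⁻¹ := by
  induction hx with
  | mk H x g S hg hS fg hx h ih =>
    by_cases hx0 : x = 0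
    · rw [hx0, inv_zero]
      exact Acc.zero
    set a := x * ((ρ₁ g : E₁ˣ) : E₁) with ha
    have ha0 : a ≠ 0 := mul_ne_zero hx0 (rho_ne ρ₁ g)
    have hc : Co ρ₁ ρ₂ S a⁻¹ := by
      refine ⟨inv_mem hx, fun φ hφ t ht => ?_⟩
      have hm := hφ.hm
      have h1 : ∀ u, (cf ρ₁ S φ a).coeff u ∈ AG ρ₁ ρ₂ S φ u := fun u =>
        ⟨fun t ht hu => by rw [← hu]; exact h φ hφ t ht, fun hu => (cf_gd hm hφ.i1 hx u).2 hu⟩
      have hne := cf_ne hm hφ.i1 hx ha0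
      set o := (cf ρ₁ S φ a).order with ho
      have hz : (cf ρ₁ S φ a).coeff o ≠ 0 := fun h0 => hne (HahnSeries.coeff_order_eq_zero.1 h0)
      obtain ⟨s, hs, hso⟩ : ∃ s ∈ S, φ s = o := by
        by_contra hc
        push Not at hc
        exact hz ((cf_gd hm hφ.i1 hx o).2 hc)
      have h2 : ((cf ρ₁ S φ a).coeff o)⁻¹ ∈ AG ρ₁ ρ₂ S φ (-o) := by
        refine ⟨fun t ht hto => ?_, fun h3 => absurd (by rw [hm.inv hs, hso]) (h3 s⁻¹ (S.inv_mem hs))⟩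
        have h3 := (ih φ hφ t⁻¹ (S.inv_mem ht)).conj' (cj_kr_le hm ht)
        rw [hm.inv ht, hto, neg_neg, inv_inv, mul_inv_rev, ← rho_inv, ← mul_assoc, rho_mul_inv, one_mul] at h3
        exact h3
      exact (coeff_inv_mem (AG ρ₁ ρ₂ S φ) (ag_one hm) (fun _ _ _ _ => ag_mul hm) h1 (cf_inv hm hφ.i1 hx ha0) h2 (φ t)).1 t ht rfl
    have h1 : Acc ρ₁ ρ₂ H a⁻¹ := Acc.core fg hS hc
    have h2 := (h1.conj' (cj_le_of_mem hg)).right hg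
    have e : ((ρ₁ g : E₁ˣ) : E₁) * a⁻¹ * ((ρ₁ g⁻¹ : E₁ˣ) : E₁) * ((ρ₁ g : E₁ˣ) : E₁) = x⁻¹ := by
      rw [mul_assoc _ ((ρ₁ g⁻¹ : E₁ˣ) : E₁), rho_inv_mul, mul_one, ha, mul_inv_rev, ← mul_assoc, mul_inv_cancel₀ (rho_ne ρ₁ g), one_mul]
    rwa [e] at h2

/-- every element is accessible -/
theorem acc_all {H : Subgroup K} {x : E₁} (hx : x ∈ cl ρ₁ H) : Acc ρ₁ ρ₂ H x := by
  refine Subfield.closure_induction (p := fun x _ => Acc ρ₁ ρ₂ H x) ?_ Acc.one (fun _ _ _ _ h1 h2 => h1.add h2)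
    (fun _ _ h1 => h1.neg) (fun _ _ h1 => h1.inv) (fun _ _ _ _ h1 h2 => h1.mul h2) hx
  rintro _ ⟨g, hg, rfl⟩
  exact Acc.rho hg

end SQ.BO
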