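import Pool.Agent.SQ.BO.MN2

/-!
# The 2-adic Malcev-Neumann ring of a bi-ordered group

`Lam G`: the compatible sequences of Malcev-Neumann series over `ℤ / 2 ^ (k + 1)`.  An element which is not zero modulo 2 is a
unit; every nonzero element is `2 ^ m` times a unit.
-/

set_option autoImplicit false
set_option linter.unusedSectionVars false

noncomputable section

namespace SQ.BO

namespace MN

section adic
variable {G : Type} [Group G] [LinearOrder G] [MulLeftMono G] [MulRightMono G]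

/-- reduction -/
def rd (k : ℕ) : ZMod (2 ^ (k + 1 + 1)) →+* ZMod (2 ^ (k + 1)) :=
  ZMod.castHom (pow_dvd_pow 2 (Nat.le_succ _)) _

/-- reduction modulo 2 -/
def r0 (k : ℕ) : ZMod (2 ^ (k + 1)) →+* ZMod 2 := ZMod.castHom (dvd_pow_self 2 (Nat.succ_ne_zero k)) _

theorem rd_nat (k n : ℕ) : rd k (n : ZMod (2 ^ (k + 1 + 1))) = (n : ZMod (2 ^ (k + 1))) := map_natCast _ _

theorem r0_nat (k n : ℕ) : r0 k (n : ZMod (2 ^ (k + 1))) = (n : ZMod 2) := map_natCast _ _

theorem r0_rd (k : ℕ) : (r0 k).comp (rd k) = r0 (k + 1) := RingHom.ext_zmod _ _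

theorem nat_val {k : ℕ} (a : ZMod (2 ^ (k + 1))) : ((a.val : ℕ) : ZMod (2 ^ (k + 1))) = a := ZMod.natCast_zmod_val a

theorem val_even {k : ℕ} {a : ZMod (2 ^ (k + 1))} (h : r0 k a = 0) : 2 ∣ a.val := by
  rw [← nat_val a, r0_nat] at h
  exact (ZMod.natCast_eq_zero_iff _ _).1 h

theorem rd_val {k : ℕ} (a : ZMod (2 ^ (k + 1 + 1))) : (rd k a).val = a.val % 2 ^ (k + 1) := by
  conv_lhs => rw [← nat_val a, rd_nat]
  exact ZMod.val_natCast _ _

/-- the coefficients given by functions of the values -/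
def ofVal {k m : ℕ} (x : MN G (ZMod (2 ^ (k + 1)))) (f : ℕ → ℕ) (hf : f 0 = 0) : MN G (ZMod (2 ^ (m + 1))) :=
  ⟨fun g => ((f (x.c g).val : ℕ) : ZMod (2 ^ (m + 1))), x.pwo.mono fun g hg h => hg (by
    show ((f (x.c g).val : ℕ) : ZMod (2 ^ (m + 1))) = 0
    rw [h, ZMod.val_zero, hf, Nat.cast_zero])⟩

theorem ofVal_c {k m : ℕ} (x : MN G (ZMod (2 ^ (k + 1)))) (f : ℕ → ℕ) (hf : f 0 = 0) (g : G) :
    (ofVal x f hf : MN G (ZMod (2 ^ (m + 1)))).c g = ((f (x.c g).val : ℕ) : ZMod (2 ^ (m + 1))) := rfl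

/-- the lift of a series modulo 2 -/
def lft (k : ℕ) (x : MN G (ZMod 2)) : MN G (ZMod (2 ^ (k + 1))) :=
  ⟨fun g => (((x.c g).val : ℕ) : ZMod (2 ^ (k + 1))), x.pwo.mono fun g hg h => hg (by
    show (((x.c g).val : ℕ) : ZMod (2 ^ (k + 1))) = 0
    rw [h, ZMod.val_zero, Nat.cast_zero])⟩

theorem map_r0_lft (k : ℕ) (x : MN G (ZMod 2)) : map (r0 k) (lft k x) = x := by
  refine MN.ext (funext fun g => ?_)
  show r0 k (((x.c g).val : ℕ) : ZMod (2 ^ (k + 1))) = x.c g
  rw [r0_nat, ZMod.natCast_zmod_val]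

theorem map_rd_lft (k : ℕ) (x : MN G (ZMod 2)) : map (rd k) (lft (k + 1) x) = lft k x := by
  refine MN.ext (funext fun g => ?_)
  exact rd_nat k _

/-- the series which vanish modulo 2 are nilpotent -/
theorem nilp {k : ℕ} {n : MN G (ZMod (2 ^ (k + 1)))} (h : map (r0 k) n = 0) : IsNilpotent n := by
  let w : MN G (ZMod (2 ^ (k + 1))) := ofVal n (fun v => v / 2) rfl
  have h1 : n = (2 : ℕ) • w := by
    refine MN.ext (funext fun g => ?_)
    rw [nsmul_c]
    show n.c g = 2 • (((n.c g).val / 2 : ℕ) : ZMod (2 ^ (k + 1)))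
    have h2 : r0 k (n.c g) = 0 := congrArg (fun z : MN G (ZMod 2) => z.c g) h
    have h3 := val_even h2
    rw [nsmul_eq_mul, ← Nat.cast_mul, Nat.mul_div_cancel' h3, nat_val]
  refine ⟨k + 1, ?_⟩
  have h4 : ∀ m : ℕ, n ^ m = (2 ^ m : ℕ) • w ^ m := by
    intro m
    rw [h1, nsmul_eq_mul, (Nat.cast_commute _ _).mul_pow, nsmul_eq_mul]
    push_cast
    rfl
  rw [h4]
  refine MN.ext (funext fun g => ?_)
  rw [nsmul_c, zero_c, nsmul_eq_mul]
  have h5 : ((2 ^ (k + 1) : ℕ) : ZMod (2 ^ (k + 1))) = 0 := ZMod.natCast_self _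
  rw [h5, zero_mul]

/-- units modulo `2 ^ (k + 1)` -/
theorem isUnit_mod {k : ℕ} {x : MN G (ZMod (2 ^ (k + 1)))} (h : map (r0 k) x ≠ 0) : IsUnit x := by
  have : Fact (Nat.Prime 2) := ⟨Nat.prime_two⟩
  obtain ⟨y, hy1, hy2, _⟩ := exists_inv h
  have h1 : IsUnit (x * lft k y) := by
    have h2 : IsNilpotent (x * lft k y - 1) := nilp (by
      rw [map_sub, map_mul, map_r0_lft, hy1, map_one, sub_self])
    have h3 := h2.isUnit_one_add
    rwa [add_sub_cancel] at h3
  have h1' : IsUnit (lft k y * x) := by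
    have h2 : IsNilpotent (lft k y * x - 1) := nilp (by
      rw [map_sub, map_mul, map_r0_lft, hy2, map_one, sub_self])
    have h3 := h2.isUnit_one_add
    rwa [add_sub_cancel] at h3
  obtain ⟨a, ha⟩ := h1
  obtain ⟨b, hb⟩ := h1'
  have h4 : x * (lft k y * ((a⁻¹ : (MN G (ZMod (2 ^ (k + 1))))ˣ) : MN G (ZMod (2 ^ (k + 1))))) = 1 := by
    rw [← mul_assoc, ← ha, Units.mul_inv]
  have h5 : ((b⁻¹ : (MN G (ZMod (2 ^ (k + 1))))ˣ) : MN G (ZMod (2 ^ (k + 1)))) * lft k y * x = 1 := by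
    rw [mul_assoc, ← hb, Units.inv_mul]
  have h6 := left_inv_eq_right_inv h5 h4
  exact ⟨⟨x, _, h4, by rw [← h6]; exact h5⟩, rfl⟩

end adic

end MN

open MN

/-! ### the ring -/

section lam
variable (G : Type) [Group G] [LinearOrder G] [MulLeftMono G] [MulRightMono G]

/-- the compatible sequences -/
def Lam : Subring (∀ k : ℕ, MN G (ZMod (2 ^ (k + 1)))) where
  carrier := {x | ∀ k, MN.map (rd k) (x (k + 1)) = x k}
  one_mem' k := map_one _
  zero_mem' k := map_zero _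
  mul_mem' {x y} hx hy k := by
    show MN.map (rd k) (x (k + 1) * y (k + 1)) = x k * y k
    rw [map_mul, hx k, hy k]
  add_mem' {x y} hx hy k := by
    show MN.map (rd k) (x (k + 1) + y (k + 1)) = x k + y k
    rw [map_add, hx k, hy k]
  neg_mem' {x} hx k := by
    show MN.map (rd k) (-x (k + 1)) = -x k
    rw [map_neg, hx k]

variable {G}

namespace Lam

/-- the components -/
def co (x : Lam G) (k : ℕ) : MN G (ZMod (2 ^ (k + 1))) := x.1 k

theorem compat (x : Lam G) (k : ℕ) : MN.map (rd k) (co x (k + 1)) = co x k := x.2 k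

theorem ext' {x y : Lam G} (h : ∀ k, co x k = co y k) : x = y := Subtype.ext (funext h)

theorem mul_co (x y : Lam G) (k : ℕ) : co (x * y) k = co x k * co y k := rfl
theorem add_co (x y : Lam G) (k : ℕ) : co (x + y) k = co x k + co y k := rfl
theorem one_co (k : ℕ) : co (1 : Lam G) k = 1 := rfl
theorem zero_co (k : ℕ) : co (0 : Lam G) k = 0 := rfl

/-- the component as a ring homomorphism -/
def coH (k : ℕ) : Lam G →+* MN G (ZMod (2 ^ (k + 1))) :=
  (Pi.evalRingHom (fun k : ℕ => MN G (ZMod (2 ^ (k + 1)))) k).comp (Lam G).subtype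

theorem coH_apply (k : ℕ) (x : Lam G) : coH k x = co x k := rfl

/-- the reduction modulo 2 -/
def red : Lam G →+* MN G (ZMod 2) := (MN.map (r0 0)).comp (coH 0)

theorem red_eq (x : Lam G) (k : ℕ) : red x = MN.map (r0 k) (co x k) := by
  induction k with
  | zero => rfl
  | succ k ih =>
    rw [ih]
    refine MN.ext (funext fun g => ?_)
    rw [map_c, map_c, ← compat x k, map_c, ← RingHom.comp_apply, r0_rd]

theorem red_surj : Function.Surjective (red : Lam G → MN G (ZMod 2)) := by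
  intro y
  refine ⟨⟨fun k => lft k y, fun k => map_rd_lft k y⟩, ?_⟩
  exact map_r0_lft 0 y

/-- **units** -/
theorem isUnit {x : Lam G} (h : red x ≠ 0) : IsUnit x := by
  have h1 : ∀ k, IsUnit (co x k) := fun k => isUnit_mod (by rw [← red_eq]; exact h)
  choose u hu using h1
  have h2 : ∀ k, MN.map (rd k) (((u (k + 1))⁻¹ : (MN G (ZMod (2 ^ (k + 1 + 1))))ˣ) : MN G (ZMod (2 ^ (k + 1 + 1)))) =
      (((u k)⁻¹ : (MN G (ZMod (2 ^ (k + 1))))ˣ) : MN G (ZMod (2 ^ (k + 1)))) := by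
    intro k
    refine (Units.inv_eq_of_mul_eq_one_right ?_).symm
    rw [hu, ← compat x k, ← map_mul, ← hu (k + 1), Units.mul_inv, map_one]
  let y : Lam G := ⟨fun k => (((u k)⁻¹ : (MN G (ZMod (2 ^ (k + 1))))ˣ) : MN G (ZMod (2 ^ (k + 1)))), h2⟩
  have hy : ∀ k, co y k = (((u k)⁻¹ : (MN G (ZMod (2 ^ (k + 1))))ˣ) : MN G (ZMod (2 ^ (k + 1)))) := fun k => rfl
  refine ⟨⟨x, y, ext' fun k => ?_, ext' fun k => ?_⟩, rfl⟩
  · rw [mul_co, hy, ← hu k, Units.mul_inv, one_co]
  · rw [mul_co, hy, ← hu k, Units.inv_mul, one_co]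

/-- division by 2 -/
theorem exists_half {x : Lam G} (h : red x = 0) : ∃ y : Lam G, x = 2 * y := by
  have hev : ∀ k g, 2 ∣ ((co x k).c g).val := by
    intro k g
    apply val_even
    have h1 := h
    rw [red_eq x k] at h1
    exact congrArg (fun z : MN G (ZMod 2) => z.c g) h1
  have hval : ∀ k g, ((co x k).c g).val = ((co x (k + 1)).c g).val % 2 ^ (k + 1) := by
    intro k g
    rw [← rd_val, ← map_c, compat]
  let y : ∀ k : ℕ, MN G (ZMod (2 ^ (k + 1))) := fun k => ofVal (co x (k + 1)) (fun v => v / 2) rfl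
  have hy : ∀ k g, (y k).c g = ((((co x (k + 1)).c g).val / 2 : ℕ) : ZMod (2 ^ (k + 1))) := fun k g => rfl
  have hyL : y ∈ Lam G := by
    intro k
    refine MN.ext (funext fun g => ?_)
    rw [map_c, hy, hy, rd_nat, hval (k + 1) g]
    set v := ((co x (k + 1 + 1)).c g).val
    have h1 : v % 2 ^ (k + 1 + 1) / 2 = v / 2 % 2 ^ (k + 1) := by
      rw [pow_succ' 2 (k + 1), Nat.mod_mul_right_div_self]
    rw [h1]
    exact (ZMod.natCast_mod _ _).symm
  refine ⟨⟨y, hyL⟩, ext' fun k => MN.ext (funext fun g => ?_)⟩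
  have h2 : co (2 * (⟨y, hyL⟩ : Lam G)) k = 2 * y k := by
    rw [mul_co]
    rfl
  rw [h2, two_mul, add_c, hy]
  have h3 := hev (k + 1) g
  obtain ⟨w, hw⟩ := h3
  rw [hw, Nat.mul_div_cancel_left _ (by norm_num), ← Nat.cast_add, ← two_mul, ← hw, ← rd_nat, nat_val, ← map_c, compat]

/-- **every nonzero element is a power of 2 times a unit** -/
theorem exists_pow (k : ℕ) : ∀ x : Lam G, co x k ≠ 0 → ∃ (m : ℕ) (u : Lam G), IsUnit u ∧ x = 2 ^ m * u := by
  induction k with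
  | zero =>
    intro x hx
    have h1 : red x ≠ 0 := by
      intro h0
      apply hx
      refine MN.ext (funext fun g => ?_)
      have h2 := congrArg (fun z : MN G (ZMod 2) => z.c g) h0
      have h3 : r0 0 ((co x 0).c g) = 0 := h2
      have h4 := val_even h3
      have h5 : ((co x 0).c g).val < 2 ^ (0 + 1) := ZMod.val_lt _
      have h6 : ((co x 0).c g).val = 0 := by
        norm_num at h5
        omega
      exact (ZMod.val_eq_zero _).1 h6
    exact ⟨0, x, isUnit h1, by rw [pow_zero, one_mul]⟩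
  | succ k ih =>
    intro x hx
    by_cases h : red x = 0
    · obtain ⟨y, hy⟩ := exists_half h
      have h1 : co y k ≠ 0 := by
        intro h0
        apply hx
        rw [hy, mul_co]
        show 2 * co y (k + 1) = 0
        refine MN.ext (funext fun g => ?_)
        rw [two_mul, add_c, zero_c]
        have h2 : rd k ((co y (k + 1)).c g) = 0 := by
          rw [← map_c, compat, h0, zero_c]
        have h3 : ((co y (k + 1)).c g).val % 2 ^ (k + 1) = 0 := by
          rw [← rd_val, h2, ZMod.val_zero]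
        obtain ⟨w, hw⟩ := Nat.dvd_of_mod_eq_zero h3
        rw [← nat_val ((co y (k + 1)).c g), hw, ← Nat.cast_add, ← two_mul, ← mul_assoc, ← pow_succ' 2 (k + 1), Nat.cast_mul,
          ZMod.natCast_self, zero_mul]
      obtain ⟨m, u, hu, hm⟩ := ih y h1
      exact ⟨m + 1, u, hu, by rw [hy, hm, pow_succ', mul_assoc]⟩
    · exact ⟨0, x, isUnit h, by rw [pow_zero, one_mul]⟩

theorem exists_pow' {x : Lam G} (hx : x ≠ 0) : ∃ (m : ℕ) (u : Lam G), IsUnit u ∧ x = 2 ^ m * u := by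
  obtain ⟨k, hk⟩ : ∃ k, co x k ≠ 0 := by
    by_contra hcon
    push Not at hcon
    exact hx (ext' hcon)
  exact exists_pow k x hk

theorem nat_ne {n : ℕ} (hn : n ≠ 0) : (n : Lam G) ≠ 0 := by
  intro h
  have h1 : ((coH n (n : Lam G)) : MN G (ZMod (2 ^ (n + 1)))) = 0 := by rw [h, map_zero]
  rw [map_natCast] at h1
  have h2 := congrArg (fun z : MN G (ZMod (2 ^ (n + 1))) => z.c 1) h1
  simp only [natCast_c, if_true, zero_c] at h2
  have h3 := (ZMod.natCast_eq_zero_iff _ _).1 h2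
  have h4 := Nat.le_of_dvd (Nat.pos_of_ne_zero hn) h3
  have h5 : n < 2 ^ (n + 1) := lt_of_lt_of_le (Nat.lt_two_pow_self) (Nat.pow_le_pow_right (by norm_num) (Nat.le_succ n))
  omega

theorem pow_ne (m : ℕ) : (2 : Lam G) ^ m ≠ 0 := by
  have := nat_ne (G := G) (n := 2 ^ m) (by positivity)
  push_cast at this
  exact this

instance : Nontrivial (Lam G) := ⟨0, 1, fun h => by
  have := nat_ne (G := G) (n := 1) one_ne_zero
  rw [Nat.cast_one] at this
  exact this h.symm⟩

theorem commute_pow (m : ℕ) (x : Lam G) : 2 ^ m * x = x * 2 ^ m := by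
  have h := Nat.cast_commute (2 ^ m) x
  push_cast at h
  exact h.eq

instance : NoZeroDivisors (Lam G) where
  eq_zero_or_eq_zero_of_mul_eq_zero := by
    intro x y hxy
    by_contra hcon
    push Not at hcon
    obtain ⟨m, u, ⟨u', hu⟩, rfl⟩ := exists_pow' hcon.1
    obtain ⟨n, v, ⟨v', hv⟩, rfl⟩ := exists_pow' hcon.2
    have h1 : (2 : Lam G) ^ (m + n) = 0 := by
      have h2 : (2 : Lam G) ^ m * u * (2 ^ n * v) = 2 ^ (m + n) * (u * v) := by
        rw [pow_add, mul_assoc, ← mul_assoc u, ← commute_pow n u]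
        simp only [mul_assoc]
      rw [h2, ← hu, ← hv, ← Units.val_mul] at hxy
      exact (Units.mul_left_eq_zero _).1 hxy
    exact pow_ne _ h1

theorem ore (a s : Lam G) (hs : s ≠ 0) : ∃ a' s' : Lam G, s' ≠ 0 ∧ s' * a = a' * s := by
  obtain ⟨m, u, ⟨v, rfl⟩, rfl⟩ := exists_pow' hs
  refine ⟨a * ((v⁻¹ : (Lam G)ˣ) : Lam G), 2 ^ m, pow_ne m, ?_⟩
  rw [commute_pow, commute_pow m (v : Lam G), mul_assoc, ← mul_assoc ((v⁻¹ : (Lam G)ˣ) : Lam G), Units.inv_mul, one_mul]

end Lam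

end lam

end SQ.BO
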