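import Pool.Agent.SQ.BO.Final
import Pool.Agent.SQ.HH.NoInv

/-!
# SQ/BO: bi-orderable subgroups of Poincare duality groups
-/

set_option autoImplicit false

open scoped TensorProduct

noncomputable section

namespace SQ.BO

open Singer Singer.Ord SQ.T3 SQ.HH Pool.Agent.Helper18.SQ Pool.Agent.Helper16.Cmp

/-- a group which embeds in a bi-orderable group is bi-orderable -/
theorem BiOrd.of_injective {K L : Type} [Group K] [Group L] (hK : BiOrd K) (a : L →* K) (ha : Function.Injective a) :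
    BiOrd L := by
  obtain ⟨lo, hl, hr⟩ := hK
  refine ⟨LinearOrder.lift' a ha, fun x y d h => ?_, fun x y d h => ?_⟩
  · show a (d * x) ≤ a (d * y)
    rw [map_mul, map_mul]
    exact hl _ _ _ h
  · show a (x * d) ≤ a (y * d)
    rw [map_mul, map_mul]
    exact hr _ _ _ h

/-- two embeddings in a bi-orderable group: the tensor product of the two modules has no homology -/
theorem pair_biord {K : Type} [Group K] (hK : BiOrd K) {D : Type} [DivisionRing D] [Algebra (ZMod 2) D] (σ : K →* Dˣ)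
    (P : Proj σ) {L : Type} [Group L] (a b : L →* K) (ha : Function.Injective a) (hb : Function.Injective b)
    {Γ : Type} [Group Γ] (l : L →* Γ) (hl : Function.Injective l) (R : FinRes Γ) (j : ℕ) :
    HV l ((lmul (σ.comp a)).tprod (lmul (σ.comp b))) R j := by
  have h1 : AllInd (opr (sρ (σ.comp a))) := (emb_val σ a).op.allInd ha P.op.allInd
  have h2 : AllInd (sρ (σ.comp b)) := (emb_val σ b).allInd hb P.allInd
  have hloc : T5.Loc (opr (sρ (σ.comp a))) (sρ (σ.comp b)) := loc_of_allInd (stmtLI L (hK.of_injective a ha)) h1 h2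
  refine HV_SF l (σ.comp a) (σ.comp b) R j (HV_ten l _ _ R j ?_)
  exact torF Γ L l hl _ _ (opr (sρ (σ.comp a))) (sρ (σ.comp b)) (cl_opr_top (cl_top _)) (cl_top _) (allFam_of_loc hloc)
    (allCos_of_loc hloc) R j

/-- **Theorem H for bi-orderable groups**: a bi-orderable subgroup of type `FP_∞` of a Poincare duality group of
dimension `n` has no `ℓ²`-homology in the degrees `i` with `2 * i > n` -/
theorem vanE_sub_biord {Γ : Type} [Group Γ] {n : ℕ} (hn : IsPD n Γ) (K : Subgroup Γ) (hK : BiOrd K) (R : FinRes K) (i : ℕ)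
    (hi : n < 2 * i) : R.VanE i := by
  obtain ⟨D, E₀, iD, iE, iA, iC, ρ, ρ₀, hL, ⟨P⟩, ⟨P₀⟩⟩ := stmtMN K hK
  have hF0 : AllFam ρ₀ ρ₀ := allFam_of_loc (loc_of_allInd (stmtLI K hK) P₀.allInd P₀.allInd)
  obtain ⟨S⟩ := exists_finRes_of_isPD hn
  have h1 : ∀ j, HV (MonoidHom.id Γ) ((indr (lmul (opr ρ))).tprod (indr (lmul (opr ρ)))) S j := by
    intro j
    refine mackey Γ K _ _ S j fun L a b ha hb => ?_
    exact pair_biord hK (opr ρ) P.op a b ha hb L.subtype L.subtype_injective S j
  have h2 : ∀ j, j < n → Ex ((indr (lmul (opr ρ))).tprod (indr (lmul (opr ρ)))) S j := by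
    intro j hj
    refine (pd _ n hn S).1 j hj.le ?_
    obtain ⟨k, hk⟩ : ∃ k, n - j = k + 1 := ⟨n - j - 1, by omega⟩
    rw [hk]
    exact (hv_iff_exH Γ _ _ S k).1 (h1 k)
  have h3 : ∀ m, 2 * m < n → Ex (indr (lmul (opr ρ))) S m := fun m hm =>
    lem Γ (noInv Γ n hn) S _ _ m fun j hj => h2 j (by omega)
  have h4 : ExH (indr (lmul (opr ρ))) S i := by
    by_cases hin : i ≤ n
    · have h5 := ((pd_iff (indr (lmul (opr ρ))) n hn S).1 (n - i) (by omega)).1 (h3 (n - i) (by omega))
      rwa [show n - (n - i) = i by omega] at h5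
    · exact (pd_iff (indr (lmul (opr ρ))) n hn S).2.2 i (by omega)
  have h5 : Ex (lmul ρ) R i := by
    refine (dua_op ρ R i).1.1 ?_
    obtain ⟨k, hk⟩ : ∃ k, i = k + 1 := ⟨i - 1, by omega⟩
    rw [hk] at h4 ⊢
    refine (hv_iff_exH K _ _ R k).1 (SQ.HH.cmp Γ K K.subtype K.subtype_injective _ _ S R k (shapiro Γ K _ _ S k ?_))
    exact (hv_iff_exH Γ _ _ S k).2 h4
  have h6 := FinSt.coV_of_ex ρ R i h5
  refine van_of_bound (D := Dᵐᵒᵖ) (M := D) R (fun x => lm (((ρ x : Dˣ) : D))) ?_ i h6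
  intro κ ι J _ _ _ _ c s W hW
  exact bound K D E₀ ρ ρ₀ hL hF0 P₀.allCos c s W hW

/-- the same for virtually bi-orderable subgroups -/
theorem vanE_sub_virtual_biord {Γ : Type} [Group Γ] {n : ℕ} (hn : IsPD n Γ) (K : Subgroup Γ) (H : Subgroup K)
    [hf : H.FiniteIndex] (hH : BiOrd H) (R : FinRes K) (i : ℕ) (hi : n < 2 * i) : R.VanE i := by
  let e : H ≃* H.map K.subtype := H.equivMapOfInjective K.subtype K.subtype_injective
  have hB : BiOrd (H.map K.subtype) := hH.of_injective e.symm.toMonoidHom e.symm.injective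
  have hr : (H.subtype.comp e.symm.toMonoidHom).range = H := by
    rw [MonoidHom.range_comp, MonoidHom.range_eq_top.2 e.symm.surjective, ← MonoidHom.range_eq_map, H.range_subtype]
  exact FinRes.vanE_of_hom (H.subtype.comp e.symm.toMonoidHom) (H.subtype_injective.comp e.symm.injective)
    (by rw [hr]; exact hf) (fun R' => vanE_sub_biord hn (H.map K.subtype) hB R' i hi) R

end SQ.BO
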