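import Pool.Agent.SQ.BO.Defs
import Pool.Agent.SQ.BO.Bound

/-!
# SQ/BO: row BO5
-/

set_option autoImplicit false

noncomputable section

namespace SQ.BO

open Singer Singer.Ord SQ.T3 Pool.Agent.Helper18.SQ Pool.Agent.Helper16.Cmp

/-- the group in the units of `Λ` -/
def Lift.hom {K : Type} [Group K] {D E₀ : Type} [DivisionRing D] [DivisionRing E₀] {ρ : K →* Dˣ} {ρ₀ : K →* E₀ˣ}
    (l : Lift ρ ρ₀) : K →* l.Λˣ where
  toFun g := ⟨⟨((ρ₀ g : E₀ˣ) : E₀), l.mem g⟩, ⟨((ρ₀ g⁻¹ : E₀ˣ) : E₀), l.mem g⁻¹⟩, Subtype.ext (by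
      show ((ρ₀ g : E₀ˣ) : E₀) * ((ρ₀ g⁻¹ : E₀ˣ) : E₀) = 1
      rw [← Units.val_mul, ← map_mul, mul_inv_cancel, map_one, Units.val_one]), Subtype.ext (by
      show ((ρ₀ g⁻¹ : E₀ˣ) : E₀) * ((ρ₀ g : E₀ˣ) : E₀) = 1
      rw [← Units.val_mul, ← map_mul, inv_mul_cancel, map_one, Units.val_one])⟩
  map_one' := Units.ext (Subtype.ext (by
    show ((ρ₀ 1 : E₀ˣ) : E₀) = 1
    rw [map_one, Units.val_one]))
  map_mul' a b := Units.ext (Subtype.ext (by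
    show ((ρ₀ (a * b) : E₀ˣ) : E₀) = ((ρ₀ a : E₀ˣ) : E₀) * ((ρ₀ b : E₀ˣ) : E₀)
    rw [map_mul, Units.val_mul]))

theorem Lift.isUnit {K : Type} [Group K] {D E₀ : Type} [DivisionRing D] [DivisionRing E₀] {ρ : K →* Dˣ} {ρ₀ : K →* E₀ˣ}
    (l : Lift ρ ρ₀) (x : l.Λ) (hx : l.red x ≠ 0) : IsUnit x := by
  have h0 : (x : E₀) ≠ 0 := fun h => hx (by
    have h1 : x = 0 := Subtype.ext h
    rw [h1, map_zero])
  exact ⟨⟨x, ⟨(x : E₀)⁻¹, l.unit x hx⟩, Subtype.ext (mul_inv_cancel₀ h0), Subtype.ext (inv_mul_cancel₀ h0)⟩, rfl⟩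

/-- **BO5** -/
theorem bound : StmtBound := by
  intro K _ D E₀ _ _ _ ρ ρ₀ hl hfam hcos κ ι J _ _ _ _ c s W hW
  obtain ⟨l⟩ := hl
  rw [finrank_op, Nat.cast_one, mul_one]
  refine vdim_le_loc l.red l.isUnit l.surj l.Λ.subtype l.hom ρ ρ₀ (fun g => l.red_rho g) (fun g => rfl) (fun X hX hX' => ?_) c s W hW
  have h1 := hfam ⊤ hX.toFinset fun x hx => hX' x ((Set.Finite.mem_toFinset hX).1 hx)
  rw [Set.Finite.coe_toFinset] at h1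
  exact lin_of_fam (ev_injective ρ₀ (hcos ⊥ ⊤ bot_le)) h1

end SQ.BO
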