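import Pool.Agent.SQ.T3.StepX

/-!
# Project MP_984acc_BO: the expansion of the elements of a skew field along a homomorphism to `ℤ`

`φ : K → ℤ` is additive on the subgroup `S`. The graph `gr0 ρ S φ` is spanned by the pairs `(f ρ(g), f ρ(g) z ^ φ(g))`, where `g ∈ S`
and `f` is in the division closure of the kernel. `cf ρ S φ x` is the expansion of `x`.
-/

set_option autoImplicit false

namespace SQ.BO

open SQ.T3 SQ.T3.StepX

/-! ### fractions of a graph -/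

section graph
variable {E : Type} [DivisionRing E]

/-- a graph with the left Ore condition -/
structure Gr (R : AddSubgroup (E × LS E)) : Prop where
  one : 1 ∈ R
  mul : ∀ a ∈ R, ∀ b ∈ R, a * b ∈ R
  i1 : ∀ p ∈ R, p.1 = 0 → p.2 = 0
  i2 : ∀ p ∈ R, p.2 = 0 → p.1 = 0
  ore : ∀ a ∈ R, ∀ s ∈ R, s.1 ≠ 0 → ∃ u ∈ R, ∃ v ∈ R, u.1 ≠ 0 ∧ u * a = v * s

/-- the fractions -/
def Fr (R : AddSubgroup (E × LS E)) : Set (E × LS E) := {p | ∃ s ∈ R, s.1 ≠ 0 ∧ s * p ∈ R}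

variable {R : AddSubgroup (E × LS E)}

theorem Fr.mono {R' : AddSubgroup (E × LS E)} (h : R ≤ R') {p : E × LS E} (hp : p ∈ Fr R) : p ∈ Fr R' := by
  obtain ⟨s, hs, hs0, hsp⟩ := hp
  exact ⟨s, h hs, hs0, h hsp⟩

namespace Gr

theorem of (h : Gr R) {p : E × LS E} (hp : p ∈ R) : p ∈ Fr R := ⟨1, h.one, one_ne_zero, by rwa [one_mul]⟩

theorem add (h : Gr R) {p q : E × LS E} (hp : p ∈ Fr R) (hq : q ∈ Fr R) : p + q ∈ Fr R := by
  obtain ⟨s, hs, hs0, hsp⟩ := hp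
  obtain ⟨r, hr, hr0, hrq⟩ := hq
  obtain ⟨u, hu, v, hv, hu0, huv⟩ := h.ore s hs r hr hr0
  refine ⟨u * s, h.mul _ hu _ hs, mul_ne_zero hu0 hs0, ?_⟩
  rw [mul_add, mul_assoc u s p, huv, mul_assoc v r q]
  exact add_mem (h.mul _ hu _ hsp) (h.mul _ hv _ hrq)

theorem neg {p : E × LS E} (hp : p ∈ Fr R) : -p ∈ Fr R := by
  obtain ⟨s, hs, hs0, hsp⟩ := hp
  exact ⟨s, hs, hs0, by rw [mul_neg]; exact neg_mem hsp⟩

theorem mul' (h : Gr R) {p q : E × LS E} (hp : p ∈ Fr R) (hq : q ∈ Fr R) : p * q ∈ Fr R := by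
  obtain ⟨s, hs, hs0, hsp⟩ := hp
  obtain ⟨r, hr, hr0, hrq⟩ := hq
  obtain ⟨u, hu, v, hv, hu0, huv⟩ := h.ore _ hsp r hr hr0
  refine ⟨u * s, h.mul _ hu _ hs, mul_ne_zero hu0 hs0, ?_⟩
  rw [show u * s * (p * q) = u * (s * p) * q by simp only [mul_assoc], huv, mul_assoc]
  exact h.mul _ hv _ hrq

theorem iff (h : Gr R) {p : E × LS E} (hp : p ∈ Fr R) : p.1 = 0 ↔ p.2 = 0 := by
  obtain ⟨s, hs, hs0, hsp⟩ := hp
  have h2 : s.2 ≠ 0 := fun h0 => hs0 (h.i2 _ hs h0)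
  constructor
  · intro h0
    have h1 := h.i1 _ hsp (by rw [Prod.fst_mul, h0, mul_zero])
    rw [Prod.snd_mul] at h1
    exact ((LS.isUnit h2).mul_right_eq_zero).1 h1
  · intro h0
    have h1 := h.i2 _ hsp (by rw [Prod.snd_mul, h0, mul_zero])
    rw [Prod.fst_mul] at h1
    exact (mul_eq_zero.1 h1).resolve_left hs0

theorem unique (h : Gr R) {x : E} {y z : LS E} (hy : (x, y) ∈ Fr R) (hz : (x, z) ∈ Fr R) : y = z := by
  have h1 : (x, y) + -(x, z) ∈ Fr R := h.add hy (neg hz)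
  have h2 := (h.iff h1).1 (add_neg_cancel x)
  exact sub_eq_zero.1 ((sub_eq_add_neg y z).trans h2)

theorem inv (h : Gr R) {x : E} {y : LS E} (hp : (x, y) ∈ Fr R) (hx : x ≠ 0) :
    ∃ z : LS E, y * z = 1 ∧ z * y = 1 ∧ (x⁻¹, z) ∈ Fr R := by
  have hy : y ≠ 0 := fun h0 => hx ((h.iff hp).2 h0)
  obtain ⟨w, hw⟩ := LS.isUnit hy
  obtain ⟨s, hs, hs0, hsp⟩ := hp
  refine ⟨((w⁻¹ : (LS E)ˣ) : LS E), by rw [← hw, Units.mul_inv], by rw [← hw, Units.inv_mul], s * (x, y), hsp, ?_, ?_⟩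
  · exact mul_ne_zero hs0 hx
  · have e0 : (x, y) * (x⁻¹, ((w⁻¹ : (LS E)ˣ) : LS E)) = 1 :=
      Prod.ext (mul_inv_cancel₀ hx) (by show y * _ = 1; rw [← hw, Units.mul_inv])
    rw [mul_assoc, e0, mul_one]
    exact hs

end Gr

/-! ### graded parts -/

/-- the coefficients of the inverse of a series whose coefficients are in a graded ring -/
theorem coeff_inv_mem (G : ℤ → AddSubgroup E) (h1 : (1 : E) ∈ G 0) (hm : ∀ u v x y, x ∈ G u → y ∈ G v → x * y ∈ G (u + v))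
    {y z : LS E} (hy : ∀ u, y.coeff u ∈ G u) (hyz : y * z = 1) (hi : (y.coeff y.order)⁻¹ ∈ G (-y.order)) (u : ℤ) :
    z.coeff u ∈ G u := by
  have hy0 : y ≠ 0 := by
    rintro rfl
    rw [zero_mul] at hyz
    exact zero_ne_one hyz
  set m := y.order with hm'
  have key : ∀ k : ℕ, ∀ u : ℤ, u < z.order + k → z.coeff u ∈ G u := by
    intro k
    induction k with
    | zero =>
      intro u hu
      rw [HahnSeries.coeff_eq_zero_of_lt_order (by simpa using hu)]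
      exact zero_mem _
    | succ k ih =>
      intro u hu
      rcases lt_or_eq_of_le (show u ≤ z.order + k by push_cast at hu; linarith) with hu' | hu'
      · exact ih u hu'
      have h1' : (y * z).coeff (m + u) ∈ G (m + u) := by
        rw [hyz, HahnSeries.coeff_one]
        split_ifs with h0
        · rw [h0]; exact h1
        · exact zero_mem _
      rw [LS.coeff_mul_finsum] at h1'
      have hfin : (Function.support fun i : ℤ => y.coeff i * z.coeff (m + u - i)).Finite := by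
        refine (Set.finite_Icc m (m + u - z.order)).subset ?_
        intro i hi
        rw [Function.mem_support] at hi
        constructor
        · by_contra hc
          exact left_ne_zero_of_mul hi (HahnSeries.coeff_eq_zero_of_lt_order (not_le.1 hc))
        · by_contra hc
          exact right_ne_zero_of_mul hi (HahnSeries.coeff_eq_zero_of_lt_order (by linarith))
      have h2 : (∑ᶠ i : ℤ, y.coeff i * z.coeff (m + u - i)) =
          y.coeff m * z.coeff u + ∑ i ∈ hfin.toFinset.erase m, y.coeff i * z.coeff (m + u - i) := by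
        by_cases hmm : m ∈ hfin.toFinset
        · rw [finsum_eq_sum _ hfin, ← Finset.add_sum_erase _ _ hmm, show m + u - m = u by ring]
        · rw [finsum_eq_sum _ hfin, Finset.erase_eq_of_notMem hmm]
          have : y.coeff m * z.coeff (m + u - m) = 0 := by
            by_contra hc
            exact hmm (hfin.mem_toFinset.2 hc)
          rw [show m + u - m = u by ring] at this
          rw [this, zero_add]
      have h3 : (∑ i ∈ hfin.toFinset.erase m, y.coeff i * z.coeff (m + u - i)) ∈ G (m + u) := by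
        refine sum_mem fun i hi => ?_
        rw [Finset.mem_erase, hfin.mem_toFinset, Function.mem_support] at hi
        have him : m < i := by
          refine lt_of_le_of_ne ?_ (Ne.symm hi.1)
          by_contra hc
          exact left_ne_zero_of_mul hi.2 (HahnSeries.coeff_eq_zero_of_lt_order (not_le.1 hc))
        have h5 := hm _ _ _ _ (hy i) (ih (m + u - i) (by linarith))
        rwa [show i + (m + u - i) = m + u by ring] at h5
      rw [h2] at h1'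
      have h4 := sub_mem h1' h3
      rw [add_sub_cancel_right] at h4
      have hne : y.coeff m ≠ 0 := fun h0 => hy0 (HahnSeries.coeff_order_eq_zero.1 h0)
      have h5 := hm _ _ _ _ hi h4
      rwa [inv_mul_cancel_left₀ hne, show -m + (m + u) = u by ring] at h5
  exact key (u - z.order + 1).toNat u (by
    have := Int.self_le_toNat (u - z.order + 1)
    linarith)

end graph

/-! ### homomorphisms to `ℤ` on a subgroup -/

section hom
variable {K : Type} [Group K]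

/-- `φ` is additive on `S` -/
def Hm (S : Subgroup K) (φ : K → ℤ) : Prop := ∀ a ∈ S, ∀ b ∈ S, φ (a * b) = φ a + φ b

theorem Hm.mono {S T : Subgroup K} {φ : K → ℤ} (h : Hm T φ) (hST : S ≤ T) : Hm S φ :=
  fun a ha b hb => h a (hST ha) b (hST hb)

theorem Hm.one {S : Subgroup K} {φ : K → ℤ} (h : Hm S φ) : φ 1 = 0 := by
  have := h 1 S.one_mem 1 S.one_mem
  rw [mul_one] at this
  linarith

theorem Hm.inv {S : Subgroup K} {φ : K → ℤ} (h : Hm S φ) {a : K} (ha : a ∈ S) : φ a⁻¹ = -φ a := by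
  have := h a ha a⁻¹ (S.inv_mem ha)
  rw [mul_inv_cancel, h.one] at this
  linarith

theorem Hm.zpow {S : Subgroup K} {φ : K → ℤ} (h : Hm S φ) {a : K} (ha : a ∈ S) (n : ℤ) : φ (a ^ n) = n * φ a := by
  induction n with
  | zero => rw [zpow_zero, h.one, zero_mul]
  | succ n ih =>
    rw [zpow_add_one, h _ (S.zpow_mem ha _) _ ha, ih]
    ring
  | pred n ih =>
    rw [zpow_sub_one, h _ (S.zpow_mem ha _) _ (S.inv_mem ha), ih, h.inv ha]
    ring

/-- the kernel of `φ` on `S` -/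
def kr (S : Subgroup K) (φ : K → ℤ) : Subgroup K := Subgroup.closure {g | g ∈ S ∧ φ g = 0}

theorem mem_kr {S : Subgroup K} {φ : K → ℤ} (h : Hm S φ) {g : K} : g ∈ kr S φ ↔ g ∈ S ∧ φ g = 0 := by
  constructor
  · intro hg
    refine Subgroup.closure_induction (p := fun g _ => g ∈ S ∧ φ g = 0) (fun x hx => hx) ⟨S.one_mem, h.one⟩ ?_ ?_ hg
    · rintro x y - - ⟨hx, hx0⟩ ⟨hy, hy0⟩
      exact ⟨S.mul_mem hx hy, by rw [h x hx y hy, hx0, hy0, add_zero]⟩
    · rintro x - ⟨hx, hx0⟩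
      exact ⟨S.inv_mem hx, by rw [h.inv hx, hx0, neg_zero]⟩
  · intro hg
    exact Subgroup.subset_closure hg

theorem kr_le {S : Subgroup K} {φ : K → ℤ} : kr S φ ≤ S := (Subgroup.closure_le S).2 fun _ hg => hg.1

theorem kr_mono {S T : Subgroup K} {φ : K → ℤ} (hST : S ≤ T) : kr S φ ≤ kr T φ :=
  Subgroup.closure_mono fun _ hg => ⟨hST hg.1, hg.2⟩

theorem kr_eq_self {S : Subgroup K} {φ : K → ℤ} (h : ∀ g ∈ S, φ g = 0) : kr S φ = S :=
  le_antisymm kr_le fun g hg => Subgroup.subset_closure ⟨hg, h g hg⟩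

theorem kr_conj {S : Subgroup K} {φ : K → ℤ} (h : Hm S φ) {g n : K} (hg : g ∈ S) (hn : n ∈ kr S φ) :
    g * n * g⁻¹ ∈ kr S φ := by
  rw [mem_kr h] at hn ⊢
  refine ⟨S.mul_mem (S.mul_mem hg hn.1) (S.inv_mem hg), ?_⟩
  rw [h _ (S.mul_mem hg hn.1) _ (S.inv_mem hg), h _ hg _ hn.1, h.inv hg, hn.2]
  ring

end hom

/-! ### the graph of the expansion -/

section exp
variable {K : Type} [Group K] {E : Type} [DivisionRing E] (ρ : K →* Eˣ)

theorem cl_mono {S T : Subgroup K} (h : S ≤ T) : cl ρ S ≤ cl ρ T := Subfield.closure_mono (Set.image_mono h)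

theorem mem_cl {S : Subgroup K} {g : K} (hg : g ∈ S) : ((ρ g : Eˣ) : E) ∈ cl ρ S := Subfield.subset_closure ⟨g, hg, rfl⟩

theorem rho_inv (g : K) : ((ρ g⁻¹ : Eˣ) : E) = ((ρ g : Eˣ) : E)⁻¹ := by rw [map_inv, Units.val_inv_eq_inv_val]

theorem rho_ne (g : K) : ((ρ g : Eˣ) : E) ≠ 0 := (ρ g).ne_zero

theorem rho_mul (g h : K) : ((ρ (g * h) : Eˣ) : E) = ((ρ g : Eˣ) : E) * ((ρ h : Eˣ) : E) := by rw [map_mul, Units.val_mul]

theorem rho_mul_inv (g : K) : ((ρ g : Eˣ) : E) * ((ρ g⁻¹ : Eˣ) : E) = 1 := by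
  rw [← rho_mul, mul_inv_cancel, map_one, Units.val_one]

theorem rho_inv_mul (g : K) : ((ρ g⁻¹ : Eˣ) : E) * ((ρ g : Eˣ) : E) = 1 := by
  rw [← rho_mul, inv_mul_cancel, map_one, Units.val_one]

theorem rho_one : ((ρ (1 : K) : Eˣ) : E) = 1 := by rw [map_one, Units.val_one]

/-- conjugation -/
theorem cl_conj {S T : Subgroup K} {g : K} (h : ∀ n ∈ S, g * n * g⁻¹ ∈ T) {x : E} (hx : x ∈ cl ρ S) :
    ((ρ g : Eˣ) : E) * x * ((ρ g⁻¹ : Eˣ) : E) ∈ cl ρ T := by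
  have hg := rho_ne ρ g
  rw [rho_inv]
  refine Subfield.closure_induction
    (p := fun x _ => ((ρ g : Eˣ) : E) * x * ((ρ g : Eˣ) : E)⁻¹ ∈ cl ρ T) ?_ ?_ ?_ ?_ ?_ ?_ hx
  · rintro _ ⟨n, hn, rfl⟩
    have h1 := mem_cl ρ (h n hn)
    rwa [rho_mul, rho_mul, rho_inv] at h1
  · rw [mul_one, mul_inv_cancel₀ hg]
    exact one_mem _
  · intro x y _ _ hx hy
    rw [mul_add, add_mul]
    exact add_mem hx hy
  · intro x _ hx
    rw [mul_neg, neg_mul]
    exact neg_mem hx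
  · intro x _ hx
    have e : ((ρ g : Eˣ) : E) * x⁻¹ * ((ρ g : Eˣ) : E)⁻¹ = (((ρ g : Eˣ) : E) * x * ((ρ g : Eˣ) : E)⁻¹)⁻¹ := by
      rw [mul_inv_rev, mul_inv_rev, inv_inv, mul_assoc]
    rw [e]
    exact inv_mem hx
  · intro x y _ _ hx hy
    have e : ((ρ g : Eˣ) : E) * (x * y) * ((ρ g : Eˣ) : E)⁻¹ =
        (((ρ g : Eˣ) : E) * x * ((ρ g : Eˣ) : E)⁻¹) * (((ρ g : Eˣ) : E) * y * ((ρ g : Eˣ) : E)⁻¹) := by
      simp only [mul_assoc]
      rw [inv_mul_cancel_left₀ hg]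
    rw [e]
    exact mul_mem hx hy

variable (S : Subgroup K) (φ : K → ℤ)

/-- the monomial pair -/
noncomputable def mo (f : E) (g : K) : E × LS E := (f * ρ g, HahnSeries.single (φ g) (f * ((ρ g : Eˣ) : E)))

/-- the graph on the skew Laurent polynomials -/
noncomputable def gr0 : AddSubgroup (E × LS E) := AddSubgroup.closure {p | ∃ f ∈ cl ρ (kr S φ), ∃ g ∈ S, p = mo ρ φ f g}

/-- independence -/
def IndF : Prop := ∀ p ∈ gr0 ρ S φ, p.1 = 0 → p.2 = 0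

variable {ρ S φ}

theorem mo_mem {f : E} (hf : f ∈ cl ρ (kr S φ)) {g : K} (hg : g ∈ S) : mo ρ φ f g ∈ gr0 ρ S φ :=
  AddSubgroup.subset_closure ⟨f, hf, g, hg, rfl⟩

theorem gr0_induction {p : E × LS E → Prop} (hm : ∀ f ∈ cl ρ (kr S φ), ∀ g ∈ S, p (mo ρ φ f g)) (h0 : p 0)
    (ha : ∀ x y, p x → p y → p (x + y)) (hn : ∀ x, p x → p (-x)) {x : E × LS E} (hx : x ∈ gr0 ρ S φ) : p x := by
  refine AddSubgroup.closure_induction (p := fun x _ => p x) ?_ h0 (fun x y _ _ => ha x y) (fun x _ => hn x) hx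
  rintro x ⟨f, hf, g, hg, rfl⟩
  exact hm f hf g hg

theorem gr0_mono {T : Subgroup K} (hST : S ≤ T) : gr0 ρ S φ ≤ gr0 ρ T φ :=
  AddSubgroup.closure_mono fun _ ⟨f, hf, g, hg, e⟩ => ⟨f, cl_mono ρ (kr_mono hST) hf, g, hST hg, e⟩

theorem IndF.mono {T : Subgroup K} (h : IndF ρ T φ) (hST : S ≤ T) : IndF ρ S φ := fun p hp => h p (gr0_mono hST hp)

theorem gr0_one (h : Hm S φ) : (1 : E × LS E) ∈ gr0 ρ S φ := by
  have := mo_mem (one_mem (cl ρ (kr S φ))) S.one_mem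
  rw [mo, rho_one, mul_one, h.one] at this
  exact this

theorem gr0_mul (h : Hm S φ) {x y : E × LS E} (hx : x ∈ gr0 ρ S φ) (hy : y ∈ gr0 ρ S φ) : x * y ∈ gr0 ρ S φ := by
  refine gr0_induction (p := fun x => x * y ∈ gr0 ρ S φ) (fun f hf n hn => ?_) (by simp [zero_mem])
    (fun a b ha hb => by simpa [add_mul] using add_mem ha hb) (fun a ha => by simpa using ha) hx
  refine gr0_induction (p := fun y => mo ρ φ f n * y ∈ gr0 ρ S φ) (fun g hg m hm => ?_)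
    (by simp [zero_mem]) (fun a b ha hb => by simpa [mul_add] using add_mem ha hb) (fun a ha => by simpa using ha) hy
  have e : f * ((ρ n : Eˣ) : E) * (g * ((ρ m : Eˣ) : E)) =
      f * (((ρ n : Eˣ) : E) * g * ((ρ n⁻¹ : Eˣ) : E)) * ((ρ (n * m) : Eˣ) : E) := by
    rw [rho_mul]
    simp only [mul_assoc]
    rw [← mul_assoc ((ρ n⁻¹ : Eˣ) : E), rho_inv_mul, one_mul]
  have e2 : mo ρ φ f n * mo ρ φ g m = mo ρ φ (f * (((ρ n : Eˣ) : E) * g * ((ρ n⁻¹ : Eˣ) : E))) (n * m) := by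
    rw [mo, mo, mo, Prod.mk_mul_mk, HahnSeries.single_mul_single, e, h n hn m hm]
  rw [e2]
  exact mo_mem (mul_mem hf (cl_conj ρ (fun k hk => kr_conj h hn hk) hg)) (S.mul_mem hn hm)

open Classical in
theorem gr0_fin {p : E × LS E} (hp : p ∈ gr0 ρ S φ) :
    ∃ U : Finset ℤ, (∀ u, u ∉ U → p.2.coeff u = 0) ∧ p.1 = ∑ u ∈ U, p.2.coeff u := by
  refine gr0_induction (p := fun p => ∃ U : Finset ℤ, (∀ u, u ∉ U → p.2.coeff u = 0) ∧ p.1 = ∑ u ∈ U, p.2.coeff u) ?_ ?_ ?_ ?_ hp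
  · intro f hf g hg
    refine ⟨{φ g}, fun u hu => ?_, ?_⟩
    · rw [Finset.mem_singleton] at hu
      rw [mo, HahnSeries.coeff_single, if_neg hu]
    · rw [mo, Finset.sum_singleton, HahnSeries.coeff_single_same]
  · exact ⟨∅, fun u _ => by simp, by simp⟩
  · rintro x y ⟨U, hU, hU1⟩ ⟨V, hV, hV1⟩
    refine ⟨U ∪ V, fun u hu => ?_, ?_⟩
    · rw [Finset.mem_union, not_or] at hu
      rw [Prod.snd_add, HahnSeries.coeff_add, hU u hu.1, hV u hu.2, add_zero]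
    · rw [Prod.fst_add, hU1, hV1, Finset.sum_subset Finset.subset_union_left (fun u _ hu => hU u hu),
        Finset.sum_subset Finset.subset_union_right (fun u _ hu => hV u hu), ← Finset.sum_add_distrib]
      exact Finset.sum_congr rfl fun u _ => by rw [Prod.snd_add, HahnSeries.coeff_add]
  · rintro x ⟨U, hU, hU1⟩
    refine ⟨U, fun u hu => ?_, ?_⟩
    · rw [Prod.snd_neg, HahnSeries.coeff_neg, hU u hu, neg_zero]
    · rw [Prod.fst_neg, hU1, ← Finset.sum_neg_distrib]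
      exact Finset.sum_congr rfl fun u _ => by rw [Prod.snd_neg, HahnSeries.coeff_neg]

theorem gr0_i2 {p : E × LS E} (hp : p ∈ gr0 ρ S φ) (h0 : p.2 = 0) : p.1 = 0 := by
  obtain ⟨U, -, h1⟩ := gr0_fin hp
  rw [h1]
  exact Finset.sum_eq_zero fun u _ => by rw [h0, HahnSeries.coeff_zero]

/-- the graded pieces -/
def gd (ρ : K →* Eˣ) (S : Subgroup K) (φ : K → ℤ) (u : ℤ) : AddSubgroup E where
  carrier := {x | (∀ g ∈ S, φ g = u → x * ρ g⁻¹ ∈ cl ρ (kr S φ)) ∧ ((∀ g ∈ S, φ g ≠ u) → x = 0)}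
  zero_mem' := ⟨fun g _ _ => by rw [zero_mul]; exact zero_mem _, fun _ => rfl⟩
  add_mem' {x y} hx hy := ⟨fun g hg hu => by rw [add_mul]; exact add_mem (hx.1 g hg hu) (hy.1 g hg hu),
    fun h => by rw [hx.2 h, hy.2 h, add_zero]⟩
  neg_mem' {x} hx := ⟨fun g hg hu => by rw [neg_mul]; exact neg_mem (hx.1 g hg hu), fun h => by rw [hx.2 h, neg_zero]⟩

theorem mem_gd {u : ℤ} {x : E} : x ∈ gd ρ S φ u ↔
    (∀ g ∈ S, φ g = u → x * ρ g⁻¹ ∈ cl ρ (kr S φ)) ∧ ((∀ g ∈ S, φ g ≠ u) → x = 0) := Iff.rfl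

theorem gd_mono (h : Hm S φ) {g : K} (hg : g ∈ S) {f : E} (hf : f ∈ cl ρ (kr S φ)) : f * ρ g ∈ gd ρ S φ (φ g) := by
  refine ⟨fun k hk hu => ?_, fun h1 => absurd rfl (h1 g hg)⟩
  rw [mul_assoc, ← rho_mul]
  refine mul_mem hf (mem_cl ρ ((mem_kr h).2 ⟨S.mul_mem hg (S.inv_mem hk), ?_⟩))
  rw [h _ hg _ (S.inv_mem hk), h.inv hk, hu]
  ring

theorem gd_mul (h : Hm S φ) {u v : ℤ} {x y : E} (hx : x ∈ gd ρ S φ u) (hy : y ∈ gd ρ S φ v) : x * y ∈ gd ρ S φ (u + v) := by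
  by_cases hu : ∃ g ∈ S, φ g = u
  · obtain ⟨g, hg, hu⟩ := hu
    by_cases hv : ∃ g ∈ S, φ g = v
    · obtain ⟨k, hk, hv⟩ := hv
      have e : x * y = (x * ρ g⁻¹) * (((ρ g : Eˣ) : E) * (y * ρ k⁻¹) * ρ g⁻¹) * ρ (g * k) := by
        rw [rho_mul]
        simp only [mul_assoc]
        rw [← mul_assoc ((ρ g⁻¹ : Eˣ) : E) ((ρ g : Eˣ) : E) ((ρ k : Eˣ) : E), rho_inv_mul, one_mul,
          rho_inv_mul, mul_one, ← mul_assoc ((ρ g⁻¹ : Eˣ) : E), rho_inv_mul, one_mul]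
      have h1 := gd_mono (ρ := ρ) h (S.mul_mem hg hk) (mul_mem (hx.1 g hg hu)
        (cl_conj ρ (fun n hn => kr_conj h hg hn) (hy.1 k hk hv)))
      rw [e, ← hu, ← hv, ← h g hg k hk]
      exact h1
    · have h0 : y = 0 := hy.2 fun g hg h1 => hv ⟨g, hg, h1⟩
      rw [h0, mul_zero]
      exact zero_mem _
  · have h0 : x = 0 := hx.2 fun g hg h1 => hu ⟨g, hg, h1⟩
    rw [h0, zero_mul]
    exact zero_mem _

theorem gd_one (h : Hm S φ) : (1 : E) ∈ gd ρ S φ 0 := by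
  have := gd_mono (ρ := ρ) h S.one_mem (one_mem (cl ρ (kr S φ)))
  rwa [rho_one, mul_one, h.one] at this

theorem gd_inv (h : Hm S φ) {u : ℤ} {x : E} (hx : x ∈ gd ρ S φ u) : x⁻¹ ∈ gd ρ S φ (-u) := by
  by_cases hu : ∃ g ∈ S, φ g = u
  · obtain ⟨g, hg, hu⟩ := hu
    have h1 := gd_mono (ρ := ρ) h (S.inv_mem hg) (f := ((ρ g⁻¹ : Eˣ) : E) * (x * ρ g⁻¹)⁻¹ * ρ (g⁻¹)⁻¹)
      (cl_conj ρ (fun n hn => kr_conj h (S.inv_mem hg) hn) (inv_mem (hx.1 g hg hu)))
    rw [h.inv hg, hu] at h1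
    have e : ((ρ g⁻¹ : Eˣ) : E) * (x * ρ g⁻¹)⁻¹ * ρ (g⁻¹)⁻¹ * ((ρ g⁻¹ : Eˣ) : E) = x⁻¹ := by
      rw [mul_assoc _ ((ρ (g⁻¹)⁻¹ : Eˣ) : E), rho_inv_mul, mul_one, mul_inv_rev, ← mul_assoc, mul_inv_cancel₀ (rho_ne ρ _), one_mul]
    rwa [e] at h1
  · have h0 : x = 0 := hx.2 fun g hg h1 => hu ⟨g, hg, h1⟩
    rw [h0, inv_zero]
    exact zero_mem _

theorem gr0_gd (h : Hm S φ) {p : E × LS E} (hp : p ∈ gr0 ρ S φ) (u : ℤ) : p.2.coeff u ∈ gd ρ S φ u := by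
  refine gr0_induction (p := fun p => p.2.coeff u ∈ gd ρ S φ u) ?_ ?_ ?_ ?_ hp
  · intro f hf g hg
    rw [mo, HahnSeries.coeff_single]
    split_ifs with hu
    · rw [hu]
      exact gd_mono h hg hf
    · exact zero_mem _
  · rw [Prod.snd_zero, HahnSeries.coeff_zero]
    exact zero_mem _
  · intro x y hx hy
    rw [Prod.snd_add, HahnSeries.coeff_add]
    exact add_mem hx hy
  · intro x hx
    rw [Prod.snd_neg, HahnSeries.coeff_neg]
    exact neg_mem hx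

/-! ### the Ore condition -/

/-- a generator of the image of `φ` -/
theorem exists_gen (h : Hm S φ) (h0 : ∃ g ∈ S, φ g ≠ 0) :
    ∃ t ∈ S, 0 < φ t ∧ ∀ g ∈ S, ∃ n : ℤ, φ g = n * φ t := by
  let I : AddSubgroup ℤ :=
    { carrier := {n | ∃ g ∈ S, φ g = n}
      zero_mem' := ⟨1, S.one_mem, h.one⟩
      add_mem' := by
        rintro a b ⟨g, hg, rfl⟩ ⟨k, hk, rfl⟩
        exact ⟨g * k, S.mul_mem hg hk, h g hg k hk⟩
      neg_mem' := by
        rintro a ⟨g, hg, rfl⟩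
        exact ⟨g⁻¹, S.inv_mem hg, h.inv hg⟩ }
  obtain ⟨d, hd⟩ := Int.subgroup_cyclic I
  have hdI : d ∈ I := by rw [hd]; exact AddSubgroup.subset_closure rfl
  obtain ⟨t, ht, htd⟩ := hdI
  have hgen : ∀ g ∈ S, ∃ n : ℤ, φ g = n * d := by
    intro g hg
    have h1 : φ g ∈ I := ⟨g, hg, rfl⟩
    rw [hd, AddSubgroup.mem_closure_singleton] at h1
    obtain ⟨n, hn⟩ := h1
    exact ⟨n, by rw [← hn, smul_eq_mul]⟩
  have hd0 : d ≠ 0 := by
    rintro rfl
    obtain ⟨g, hg, hg0⟩ := h0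
    obtain ⟨n, hn⟩ := hgen g hg
    exact hg0 (by rw [hn, mul_zero])
  rcases lt_or_gt_of_ne hd0 with hlt | hgt
  · refine ⟨t⁻¹, S.inv_mem ht, by rw [h.inv ht, htd]; linarith, fun g hg => ?_⟩
    obtain ⟨n, hn⟩ := hgen g hg
    exact ⟨-n, by rw [hn, h.inv ht, htd]; ring⟩
  · refine ⟨t, ht, by rw [htd]; exact hgt, fun g hg => ?_⟩
    obtain ⟨n, hn⟩ := hgen g hg
    exact ⟨n, by rw [hn, htd]⟩

theorem T_rho (t : K) (n : ℤ) : T (ρ t) n = ρ (t ^ n) := by rw [T, map_zpow]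

/-- the first coordinates are the skew Laurent polynomials -/
theorem gr0_lau (h : Hm S φ) {t : K} (ht : t ∈ S) (hgen : ∀ g ∈ S, ∃ n : ℤ, φ g = n * φ t) {p : E × LS E}
    (hp : p ∈ gr0 ρ S φ) : p.1 ∈ Lau (cl ρ (kr S φ)) (ρ t) := by
  refine gr0_induction (p := fun p => p.1 ∈ Lau (cl ρ (kr S φ)) (ρ t)) ?_ (zero_mem _) (fun x y hx hy => add_mem hx hy)
    (fun x hx => neg_mem hx) hp
  intro f hf g hg
  obtain ⟨n, hn⟩ := hgen g hg
  have e : f * ((ρ g : Eˣ) : E) = f * ρ (g * t ^ (-n)) * T (ρ t) n := by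
    rw [T_rho, mul_assoc, ← rho_mul, mul_assoc, ← zpow_add, neg_add_cancel, zpow_zero, mul_one]
  rw [mo, e]
  refine lau_mono (mul_mem hf (mem_cl ρ ((mem_kr h).2 ⟨S.mul_mem hg (S.zpow_mem ht _), ?_⟩))) n
  rw [h _ hg _ (S.zpow_mem ht _), h.zpow ht, hn]
  ring

theorem gr0_lift {t : K} (ht : t ∈ S) {x : E} (hx : x ∈ Lau (cl ρ (kr S φ)) (ρ t)) :
    ∃ y : LS E, (x, y) ∈ gr0 ρ S φ := by
  refine lau_induction (p := fun x => ∃ y : LS E, (x, y) ∈ gr0 ρ S φ) (fun f hf n => ?_) ⟨0, zero_mem _⟩ ?_ ?_ hx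
  · rw [T_rho]
    exact ⟨_, mo_mem hf (S.zpow_mem ht n)⟩
  · rintro x y ⟨a, ha⟩ ⟨b, hb⟩
    exact ⟨a + b, add_mem ha hb⟩
  · rintro x ⟨a, ha⟩
    exact ⟨-a, neg_mem ha⟩

/-- the hypotheses of the step -/
theorem hyp_of (h : Hm S φ) (hI : IndF ρ S φ) {t : K} (ht : t ∈ S) (ht0 : 0 < φ t) : Hyp (cl ρ (kr S φ)) (ρ t) where
  c1 f hf := by
    rw [← map_inv]
    exact cl_conj ρ (fun k hk => kr_conj h ht hk) hf
  c2 f hf := by
    have h1 := cl_conj ρ (fun k hk => kr_conj h (S.inv_mem ht) hk) hf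
    rw [inv_inv] at h1
    rw [← map_inv]
    exact h1
  ind c hc hs := by
    classical
    set p : E × LS E := ∑ u ∈ c.support, mo ρ φ (c u) (t ^ u) with hp
    have hpm : p ∈ gr0 ρ S φ := sum_mem fun u _ => mo_mem (hc u) (S.zpow_mem ht u)
    have hp1 : p.1 = 0 := by
      rw [hp, Prod.fst_sum, ← hs, Finsupp.sum]
      exact Finset.sum_congr rfl fun u _ => by rw [mo, T_rho]
    have hp2 := hI p hpm hp1
    ext u
    rw [Finsupp.zero_apply]
    by_contra hu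
    have h3 : p.2.coeff (u * φ t) = c u * ρ (t ^ u) := by
      rw [hp, Prod.snd_sum, HahnSeries.coeff_sum, Finset.sum_eq_single u]
      · rw [mo, h.zpow ht, HahnSeries.coeff_single_same]
      · intro v _ hv
        rw [mo, h.zpow ht, HahnSeries.coeff_single, if_neg]
        intro h4
        exact hv (mul_right_cancel₀ (ne_of_gt ht0) h4).symm
      · intro h4
        exact absurd (Finsupp.notMem_support_iff.1 h4) hu
    rw [hp2, HahnSeries.coeff_zero] at h3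
    exact hu ((mul_eq_zero.1 h3.symm).resolve_right (rho_ne ρ _))

/-- `φ` vanishes on `S` -/
theorem gr0_zero (h0 : ∀ g ∈ S, φ g = 0) {p : E × LS E} : p ∈ gr0 ρ S φ ↔ p.1 ∈ cl ρ S ∧ p.2 = HahnSeries.single 0 p.1 := by
  constructor
  · intro hp
    refine gr0_induction (p := fun p => p.1 ∈ cl ρ S ∧ p.2 = HahnSeries.single 0 p.1) ?_ ?_ ?_ ?_ hp
    · intro f hf g hg
      rw [kr_eq_self h0] at hf
      refine ⟨mul_mem hf (mem_cl ρ hg), ?_⟩
      rw [mo, h0 g hg]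
    · exact ⟨zero_mem _, by simp⟩
    · rintro x y ⟨hx, hx'⟩ ⟨hy, hy'⟩
      refine ⟨add_mem hx hy, ?_⟩
      rw [Prod.snd_add, hx', hy', Prod.fst_add]
      ext u
      rw [HahnSeries.coeff_add, HahnSeries.coeff_single, HahnSeries.coeff_single, HahnSeries.coeff_single]
      split_ifs <;> simp
    · rintro x ⟨hx, hx'⟩
      refine ⟨neg_mem hx, ?_⟩
      rw [Prod.snd_neg, hx', Prod.fst_neg]
      ext u
      rw [HahnSeries.coeff_neg, HahnSeries.coeff_single, HahnSeries.coeff_single]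
      split_ifs <;> simp
  · rintro ⟨h1, h2⟩
    have h3 := mo_mem (ρ := ρ) (S := S) (φ := φ) (f := p.1) (by rwa [kr_eq_self h0]) S.one_mem
    rw [mo, rho_one, mul_one, h0 1 S.one_mem, ← h2] at h3
    exact h3

theorem gr (h : Hm S φ) (hI : IndF ρ S φ) : Gr (gr0 ρ S φ) where
  one := gr0_one h
  mul _ ha _ hb := gr0_mul h ha hb
  i1 := hI
  i2 _ hp := gr0_i2 hp
  ore a ha s hs hs0 := by
    by_cases h0 : ∃ g ∈ S, φ g ≠ 0
    · obtain ⟨t, ht, ht0, hgen⟩ := exists_gen h h0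
      obtain ⟨u, hu, v, hv, hu0, huv⟩ := StepX.ore (hyp_of h hI ht ht0) (gr0_lau h ht hgen ha) (gr0_lau h ht hgen hs) hs0
      obtain ⟨u', hu'⟩ := gr0_lift ht hu
      obtain ⟨v', hv'⟩ := gr0_lift ht hv
      refine ⟨_, hu', _, hv', hu0, ?_⟩
      have h1 : (u, u') * a - (v, v') * s ∈ gr0 ρ S φ := sub_mem (gr0_mul h hu' ha) (gr0_mul h hv' hs)
      have h2 : ((u, u') * a - (v, v') * s).1 = 0 := by
        rw [Prod.fst_sub, Prod.fst_mul, Prod.fst_mul, huv, sub_self]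
      exact sub_eq_zero.1 (Prod.ext h2 (hI _ h1 h2))
    · push Not at h0
      rw [gr0_zero h0] at ha hs
      refine ⟨1, gr0_one h, (a.1 * s.1⁻¹, HahnSeries.single 0 (a.1 * s.1⁻¹)),
        (gr0_zero h0).2 ⟨mul_mem ha.1 (inv_mem hs.1), rfl⟩, one_ne_zero, ?_⟩
      refine Prod.ext ?_ ?_
      · rw [one_mul, Prod.fst_mul, inv_mul_cancel_right₀ hs0]
      · rw [one_mul, Prod.snd_mul, ha.2, hs.2, HahnSeries.single_mul_single, inv_mul_cancel_right₀ hs0, add_zero]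

/-! ### the expansion -/

variable (ρ S φ)

open Classical in
/-- the expansion of `x` -/
noncomputable def cf (x : E) : LS E := if h : ∃ y, (x, y) ∈ Fr (gr0 ρ S φ) then h.choose else 0

variable {ρ S φ}

theorem fr_exists (h : Hm S φ) (hI : IndF ρ S φ) {x : E} (hx : x ∈ cl ρ S) : ∃ y : LS E, (x, y) ∈ Fr (gr0 ρ S φ) := by
  have hG := gr h hI
  refine Subfield.closure_induction (p := fun x _ => ∃ y : LS E, (x, y) ∈ Fr (gr0 ρ S φ)) ?_ ?_ ?_ ?_ ?_ ?_ hx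
  · rintro _ ⟨g, hg, rfl⟩
    have h1 := mo_mem (φ := φ) (one_mem (cl ρ (kr S φ))) hg
    rw [mo, one_mul] at h1
    exact ⟨_, hG.of h1⟩
  · exact ⟨1, hG.of hG.one⟩
  · rintro x y _ _ ⟨a, ha⟩ ⟨b, hb⟩
    exact ⟨a + b, hG.add ha hb⟩
  · rintro x _ ⟨a, ha⟩
    exact ⟨-a, Gr.neg ha⟩
  · rintro x _ ⟨a, ha⟩
    by_cases h0 : x = 0
    · rw [h0, inv_zero]
      exact ⟨0, hG.of (zero_mem _)⟩
    · obtain ⟨z, -, -, hz⟩ := hG.inv ha h0
      exact ⟨z, hz⟩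
  · rintro x y _ _ ⟨a, ha⟩ ⟨b, hb⟩
    exact ⟨a * b, hG.mul' ha hb⟩

theorem cf_eq (h : Hm S φ) (hI : IndF ρ S φ) {x : E} {y : LS E} (hxy : (x, y) ∈ Fr (gr0 ρ S φ)) : cf ρ S φ x = y := by
  have h1 : ∃ y, (x, y) ∈ Fr (gr0 ρ S φ) := ⟨y, hxy⟩
  rw [cf, dif_pos h1]
  exact (gr h hI).unique h1.choose_spec hxy

theorem cf_mem (h : Hm S φ) (hI : IndF ρ S φ) {x : E} (hx : x ∈ cl ρ S) : (x, cf ρ S φ x) ∈ Fr (gr0 ρ S φ) := by
  obtain ⟨y, hy⟩ := fr_exists h hI hx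
  rw [cf_eq h hI hy]
  exact hy

theorem cf_add (h : Hm S φ) (hI : IndF ρ S φ) {x y : E} (hx : x ∈ cl ρ S) (hy : y ∈ cl ρ S) :
    cf ρ S φ (x + y) = cf ρ S φ x + cf ρ S φ y := cf_eq h hI ((gr h hI).add (cf_mem h hI hx) (cf_mem h hI hy))

theorem cf_mul (h : Hm S φ) (hI : IndF ρ S φ) {x y : E} (hx : x ∈ cl ρ S) (hy : y ∈ cl ρ S) :
    cf ρ S φ (x * y) = cf ρ S φ x * cf ρ S φ y := cf_eq h hI ((gr h hI).mul' (cf_mem h hI hx) (cf_mem h hI hy))

theorem cf_neg (h : Hm S φ) (hI : IndF ρ S φ) {x : E} (hx : x ∈ cl ρ S) : cf ρ S φ (-x) = -cf ρ S φ x :=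
  cf_eq h hI (Gr.neg (cf_mem h hI hx))

theorem cf_zero (h : Hm S φ) (hI : IndF ρ S φ) : cf ρ S φ 0 = 0 := cf_eq h hI ((gr h hI).of (zero_mem _))

theorem cf_inv (h : Hm S φ) (hI : IndF ρ S φ) {x : E} (hx : x ∈ cl ρ S) (h0 : x ≠ 0) : cf ρ S φ x * cf ρ S φ x⁻¹ = 1 := by
  obtain ⟨z, hz, -, hz'⟩ := (gr h hI).inv (cf_mem h hI hx) h0
  rw [cf_eq h hI hz', hz]

theorem cf_ne (h : Hm S φ) (hI : IndF ρ S φ) {x : E} (hx : x ∈ cl ρ S) (h0 : x ≠ 0) : cf ρ S φ x ≠ 0 :=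
  fun h1 => h0 (((gr h hI).iff (cf_mem h hI hx)).2 h1)

theorem cf_rho (h : Hm S φ) (hI : IndF ρ S φ) {g : K} (hg : g ∈ S) :
    cf ρ S φ (ρ g) = HahnSeries.single (φ g) ((ρ g : Eˣ) : E) := by
  have h1 := mo_mem (φ := φ) (one_mem (cl ρ (kr S φ))) hg
  rw [mo, one_mul] at h1
  exact cf_eq h hI ((gr h hI).of h1)

theorem cf_kr (h : Hm S φ) (hI : IndF ρ S φ) {f : E} (hf : f ∈ cl ρ (kr S φ)) : cf ρ S φ f = HahnSeries.single 0 f := by
  have h1 := mo_mem (φ := φ) hf S.one_mem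
  rw [mo, rho_one, mul_one, h.one] at h1
  exact cf_eq h hI ((gr h hI).of h1)

theorem cf_res (h : Hm S φ) (hI : IndF ρ S φ) {T : Subgroup K} (hT : T ≤ S) {x : E} (hx : x ∈ cl ρ T) :
    cf ρ S φ x = cf ρ T φ x :=
  cf_eq h hI (Fr.mono (gr0_mono hT) (cf_mem (h.mono hT) (hI.mono hT) hx))

theorem cf_gd (h : Hm S φ) (hI : IndF ρ S φ) {x : E} (hx : x ∈ cl ρ S) (u : ℤ) : (cf ρ S φ x).coeff u ∈ gd ρ S φ u := by
  suffices H : ∀ x ∈ cl ρ S, ∀ u, (cf ρ S φ x).coeff u ∈ gd ρ S φ u from H x hx u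
  clear hx u x
  intro x hx
  refine Subfield.closure_induction (p := fun x _ => ∀ u, (cf ρ S φ x).coeff u ∈ gd ρ S φ u) ?_ ?_ ?_ ?_ ?_ ?_ hx
  · rintro _ ⟨g, hg, rfl⟩ u
    rw [cf_rho h hI hg, HahnSeries.coeff_single]
    split_ifs with hu
    · rw [hu]
      have := gd_mono (ρ := ρ) h hg (one_mem (cl ρ (kr S φ)))
      rwa [one_mul] at this
    · exact zero_mem _
  · intro u
    rw [cf_kr h hI (one_mem _), HahnSeries.coeff_single]
    split_ifs with hu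
    · rw [hu]; exact gd_one h
    · exact zero_mem _
  · intro x y hx hy h1 h2 u
    rw [cf_add h hI hx hy, HahnSeries.coeff_add]
    exact add_mem (h1 u) (h2 u)
  · intro x hx h1 u
    rw [cf_neg h hI hx, HahnSeries.coeff_neg]
    exact neg_mem (h1 u)
  · intro x hx h1 u
    by_cases h0 : x = 0
    · rw [h0, inv_zero, cf_zero h hI, HahnSeries.coeff_zero]
      exact zero_mem _
    · exact coeff_inv_mem (gd ρ S φ) (gd_one h) (fun _ _ _ _ => gd_mul h) h1 (cf_inv h hI hx h0) (gd_inv h (h1 _)) u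
  · intro x y hx hy h1 h2 u
    rw [cf_mul h hI hx hy, LS.coeff_mul_finsum]
    refine finsum_induction (fun x => x ∈ gd ρ S φ u) (zero_mem _) (fun _ _ => add_mem) fun i => ?_
    have := gd_mul h (h1 i) (h2 (u - i))
    rwa [show i + (u - i) = u by ring] at this

theorem cf_zero_hom (h : Hm S φ) (hI : IndF ρ S φ) {T : Subgroup K} (hT : T ≤ S) (h0 : ∀ g ∈ T, φ g = 0) {x : E}
    (hx : x ∈ cl ρ T) : cf ρ S φ x = HahnSeries.single 0 x := by
  refine cf_kr h hI (cl_mono ρ (fun g hg => ?_) hx)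
  exact (mem_kr h).2 ⟨hT hg, h0 g hg⟩

/-! ### conjugation -/

/-- the conjugate subgroup `k S k⁻¹` -/
def cj (k : K) (S : Subgroup K) : Subgroup K := S.map (MulAut.conj k).toMonoidHom

theorem mem_cj {k : K} {S : Subgroup K} {g : K} : g ∈ cj k S ↔ k⁻¹ * g * k ∈ S := by
  rw [cj, Subgroup.mem_map]
  constructor
  · rintro ⟨s, hs, rfl⟩
    have e : k⁻¹ * (MulAut.conj k).toMonoidHom s * k = s := by simp [MulAut.conj_apply, mul_assoc]
    rw [e]
    exact hs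
  · intro h
    exact ⟨_, h, by simp [MulAut.conj_apply, mul_assoc]⟩

theorem conj_mem_cj {k : K} {S : Subgroup K} {g : K} (hg : g ∈ S) : k * g * k⁻¹ ∈ cj k S := by
  rw [mem_cj]
  have e : k⁻¹ * (k * g * k⁻¹) * k = g := by group
  rwa [e]

open Classical in
theorem cj_fg {k : K} {S : Subgroup K} (hS : S.FG) : (cj k S).FG := by
  obtain ⟨T, hT⟩ := hS
  exact ⟨T.image (MulAut.conj k).toMonoidHom, by rw [Finset.coe_image, ← MonoidHom.map_closure, hT]; rfl⟩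

theorem Hm.conj {k : K} {S : Subgroup K} {φ : K → ℤ} (h : Hm (cj k S) φ) : Hm S (fun s => φ (k * s * k⁻¹)) := by
  intro a ha b hb
  have := h _ (conj_mem_cj (k := k) ha) _ (conj_mem_cj (k := k) hb)
  rw [← this]
  have e : k * (a * b) * k⁻¹ = k * a * k⁻¹ * (k * b * k⁻¹) := by group
  simp only [e]

theorem kr_cj {k : K} {S : Subgroup K} {φ : K → ℤ} (h : Hm (cj k S) φ) : kr (cj k S) φ = cj k (kr S fun s => φ (k * s * k⁻¹)) := by
  ext g
  have e : k * (k⁻¹ * g * k) * k⁻¹ = g := by group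
  rw [mem_kr h, mem_cj, mem_cj, mem_kr h.conj]
  simp only [e]

/-- the constant pair -/
noncomputable def kp (ρ : K →* Eˣ) (k : K) : E × LS E := (((ρ k : Eˣ) : E), HahnSeries.single 0 ((ρ k : Eˣ) : E))

/-- conjugation of the pairs -/
noncomputable def cjp (ρ : K →* Eˣ) (k : K) (p : E × LS E) : E × LS E := kp ρ k * p * kp ρ k⁻¹

theorem kp_inv_mul (k : K) : kp ρ k⁻¹ * kp ρ k = 1 := by
  rw [kp, kp, Prod.mk_mul_mk, rho_inv_mul, HahnSeries.single_mul_single, rho_inv_mul, add_zero]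
  rfl

theorem cjp_add (k : K) (p q : E × LS E) : cjp ρ k (p + q) = cjp ρ k p + cjp ρ k q := by
  simp only [cjp, mul_add, add_mul]

theorem cjp_neg (k : K) (p : E × LS E) : cjp ρ k (-p) = -cjp ρ k p := by
  simp only [cjp, mul_neg, neg_mul]

theorem cjp_mul (k : K) (p q : E × LS E) : cjp ρ k (p * q) = cjp ρ k p * cjp ρ k q := by
  simp only [cjp, mul_assoc]
  rw [← mul_assoc (kp ρ k⁻¹) (kp ρ k) (q * kp ρ k⁻¹), kp_inv_mul, one_mul]

theorem cjp_mk (k : K) (x : E) (y : LS E) :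
    cjp ρ k (x, y) = (((ρ k : Eˣ) : E) * x * ((ρ k⁻¹ : Eˣ) : E),
      HahnSeries.single 0 ((ρ k : Eˣ) : E) * y * HahnSeries.single 0 ((ρ k⁻¹ : Eˣ) : E)) := rfl

theorem cjp_fst (k : K) (p : E × LS E) : (cjp ρ k p).1 = ((ρ k : Eˣ) : E) * p.1 * ((ρ k⁻¹ : Eˣ) : E) := rfl

theorem cjp_snd (k : K) (p : E × LS E) : (cjp ρ k p).2 =
    HahnSeries.single 0 ((ρ k : Eˣ) : E) * p.2 * HahnSeries.single 0 ((ρ k⁻¹ : Eˣ) : E) := rfl

theorem cjp_gr0 {k : K} (h : Hm (cj k S) φ) {p : E × LS E} (hp : p ∈ gr0 ρ S fun s => φ (k * s * k⁻¹)) :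
    cjp ρ k p ∈ gr0 ρ (cj k S) φ := by
  refine gr0_induction (p := fun p => cjp ρ k p ∈ gr0 ρ (cj k S) φ) ?_ ?_ ?_ ?_ hp
  · intro f hf g hg
    have e : ((ρ k : Eˣ) : E) * (f * ((ρ g : Eˣ) : E)) * ((ρ k⁻¹ : Eˣ) : E) =
        (((ρ k : Eˣ) : E) * f * ((ρ k⁻¹ : Eˣ) : E)) * ((ρ (k * g * k⁻¹) : Eˣ) : E) := by
      rw [rho_mul, rho_mul]
      simp only [mul_assoc]
      rw [← mul_assoc ((ρ k⁻¹ : Eˣ) : E) ((ρ k : Eˣ) : E), rho_inv_mul, one_mul]
    rw [mo, cjp_mk, HahnSeries.single_mul_single, HahnSeries.single_mul_single, e, zero_add, add_zero]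
    refine mo_mem ?_ (conj_mem_cj hg)
    refine cl_conj ρ (fun n hn => ?_) hf
    rw [kr_cj h]
    exact conj_mem_cj hn
  · rw [cjp, mul_zero, zero_mul]
    exact zero_mem _
  · intro x y hx hy
    rw [cjp_add]
    exact add_mem hx hy
  · intro x hx
    rw [cjp_neg]
    exact neg_mem hx

theorem cjp_fr {k : K} (h : Hm (cj k S) φ) {p : E × LS E} (hp : p ∈ Fr (gr0 ρ S fun s => φ (k * s * k⁻¹))) :
    cjp ρ k p ∈ Fr (gr0 ρ (cj k S) φ) := by
  obtain ⟨s, hs, hs0, hsp⟩ := hp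
  refine ⟨cjp ρ k s, cjp_gr0 h hs, ?_, ?_⟩
  · rw [cjp_fst]
    exact mul_ne_zero (mul_ne_zero (rho_ne ρ _) hs0) (rho_ne ρ _)
  · rw [← cjp_mul]
    exact cjp_gr0 h hsp

theorem IndF.conj {k : K} (h : Hm (cj k S) φ) (hI : IndF ρ (cj k S) φ) : IndF ρ S (fun s => φ (k * s * k⁻¹)) := by
  intro p hp h0
  have h1 := hI _ (cjp_gr0 h hp) (by
    rw [cjp_fst, h0, mul_zero, zero_mul])
  ext u
  have h2 := congrArg (fun y : LS E => y.coeff u) h1
  rw [cjp_snd] at h2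
  simp only [HahnSeries.coeff_mul_single_zero, HahnSeries.coeff_single_zero_mul, HahnSeries.coeff_zero] at h2
  rw [HahnSeries.coeff_zero]
  exact (mul_eq_zero.1 ((mul_eq_zero.1 h2).resolve_right (rho_ne ρ _))).resolve_left (rho_ne ρ _)

theorem cf_conj {k : K} (h : Hm (cj k S) φ) (hI : IndF ρ (cj k S) φ) {x : E} (hx : x ∈ cl ρ S) (u : ℤ) :
    (cf ρ (cj k S) φ (ρ k * x * ρ k⁻¹)).coeff u = ρ k * (cf ρ S (fun s => φ (k * s * k⁻¹)) x).coeff u * ρ k⁻¹ := by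
  have h1 := cjp_fr h (cf_mem h.conj (hI.conj h) hx)
  rw [cjp_mk] at h1
  rw [cf_eq h hI h1, HahnSeries.coeff_mul_single_zero, HahnSeries.coeff_single_zero_mul]

/-! ### the step -/

theorem closure_eq (h : Hm S φ) {t : K} (ht : t ∈ S) (hgen : ∀ g ∈ S, ∃ n : ℤ, φ g = n * φ t) :
    Subfield.closure ((cl ρ (kr S φ) : Set E) ∪ {((ρ t : Eˣ) : E)}) = cl ρ S := by
  refine le_antisymm ?_ ?_
  · rw [Subfield.closure_le]
    rintro x (hx | hx)
    · exact cl_mono ρ kr_le hx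
    · rw [Set.mem_singleton_iff] at hx
      rw [hx]
      exact mem_cl ρ ht
  · rw [cl, Subfield.closure_le]
    rintro _ ⟨g, hg, rfl⟩
    obtain ⟨n, hn⟩ := hgen g hg
    have e : ((ρ g : Eˣ) : E) = ρ (g * t ^ (-n)) * T (ρ t) n := by
      rw [T_rho, ← rho_mul, mul_assoc, ← zpow_add, neg_add_cancel, zpow_zero, mul_one]
    show ((ρ g : Eˣ) : E) ∈ _
    rw [e]
    refine mul_mem (Subfield.subset_closure (Or.inl (mem_cl ρ ((mem_kr h).2 ⟨S.mul_mem hg (S.zpow_mem ht _), ?_⟩)))) ?_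
    · rw [h _ hg _ (S.zpow_mem ht _), h.zpow ht, hn]
      ring
    · have : T (ρ t) n = ((ρ t : Eˣ) : E) ^ n := by simp [T]
      have h5 : ((ρ t : Eˣ) : E) ∈ Subfield.closure ((cl ρ (kr S φ) : Set E) ∪ {((ρ t : Eˣ) : E)}) :=
        Subfield.subset_closure (Or.inr rfl)
      rw [this]
      exact zpow_mem h5 n

/-- an additive retraction onto a subfield -/
theorem exists_retr (L : Subfield E) : ∃ π : E →+ E, (∀ x, π x ∈ L) ∧ ∀ x ∈ L, π x = x := by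
  obtain ⟨f, hf⟩ := LinearMap.exists_leftInverse_of_injective (K := L)
    ({ toFun := fun x => (x : E), map_add' := fun _ _ => rfl, map_smul' := fun _ _ => rfl } : L →ₗ[L] E)
    (by
      rw [LinearMap.ker_eq_bot]
      exact Subtype.val_injective)
  refine ⟨{ toFun := fun x => ((f x : L) : E), map_zero' := by simp, map_add' := fun x y => by simp }, fun x => (f x).2, ?_⟩
  intro x hx
  have := LinearMap.congr_fun hf (⟨x, hx⟩ : L)
  exact congrArg Subtype.val this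

theorem exists_step (h : Hm S φ) (hI : IndF ρ S φ) {t : K} (ht : t ∈ S) (ht0 : 0 < φ t) (hgen : ∀ g ∈ S, ∃ n : ℤ, φ g = n * φ t) :
    ∃ st : Step (cl ρ (kr S φ)) (cl ρ S) (ρ t), ∀ x ∈ cl ρ S, ∀ u, st.κ x u = (cf ρ S φ x).coeff (u * φ t) * ρ (t ^ u)⁻¹ := by
  obtain ⟨π, hπ, hπ'⟩ := exists_retr (cl ρ S)
  have hH := hyp_of h hI ht ht0
  have hcl := closure_eq (ρ := ρ) h ht hgen
  have htL : ((ρ t : Eˣ) : E) ∈ cl ρ S := mem_cl ρ ht
  have hFL : ∀ f ∈ cl ρ (kr S φ), f ∈ cl ρ S := fun f hf => cl_mono ρ kr_le hf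
  have hpow : ∀ n : ℤ, T (ρ t) n ∈ cl ρ S := fun n => by rw [T_rho]; exact mem_cl ρ (S.zpow_mem ht n)
  have hcfT : ∀ n : ℤ, cf ρ S φ (T (ρ t) n) = HahnSeries.single (n * φ t) (T (ρ t) n) := fun n => by
    rw [T_rho, cf_rho h hI (S.zpow_mem ht n), h.zpow ht]
  have hsup : ∀ x ∈ cl ρ S, ∀ j : ℤ, (∀ u : ℤ, j ≠ u * φ t) → (cf ρ S φ x).coeff j = 0 := fun x hx j hj =>
    (cf_gd h hI hx j).2 fun g hg h1 => by
      obtain ⟨n, hn⟩ := hgen g hg
      exact hj n (h1.symm.trans hn)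
  have hinj : Function.Injective fun u : ℤ => u * φ t := fun a b hab => mul_right_cancel₀ (ne_of_gt ht0) hab
  refine ⟨{
    κ := { toFun := fun x u => (cf ρ S φ (π x)).coeff (u * φ t) * T (ρ t) (-u)
           map_zero' := by ext u; rw [map_zero, cf_zero h hI]; simp
           map_add' := fun x y => by
            ext u
            rw [map_add, cf_add h hI (hπ x) (hπ y)]
            simp [add_mul] }
    bdd := fun x => ?_
    mem := fun x hx u => ?_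
    mon := fun f hf n u => ?_
    inj := fun x hx h0 => ?_
    mul := fun x hx y hy n => ?_
    left_F := fun f hf x hx u => ?_
    left_t := fun x hx u => ?_
    right_F := fun f hf x hx u => ?_
    right_t := fun x hx u => ?_
    left := fun X hX => left_all hH X fun x hx => by rw [hcl]; exact hX x hx
    right := fun X hX => right_all hH X fun x hx => by rw [hcl]; exact hX x hx }, ?_⟩
  · refine ⟨-|(cf ρ S φ (π x)).order|, fun u hu => ?_⟩
    change (cf ρ S φ (π x)).coeff (u * φ t) * T (ρ t) (-u) = 0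
    have h1 : u * φ t < (cf ρ S φ (π x)).order := by
      have h2 := neg_abs_le (cf ρ S φ (π x)).order
      have h3 := abs_nonneg (cf ρ S φ (π x)).order
      nlinarith
    rw [HahnSeries.coeff_eq_zero_of_lt_order h1, zero_mul]
  · change (cf ρ S φ (π x)).coeff (u * φ t) * T (ρ t) (-u) ∈ _
    rw [hπ' x hx, T_rho, zpow_neg]
    exact (cf_gd h hI hx (u * φ t)).1 (t ^ u) (S.zpow_mem ht u) (h.zpow ht u)
  · change (cf ρ S φ (π (f * T (ρ t) n))).coeff (u * φ t) * T (ρ t) (-u) = _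
    rw [hπ' _ (mul_mem (hFL f hf) (hpow n)), cf_mul h hI (hFL f hf) (hpow n), cf_kr h hI hf, hcfT, HahnSeries.single_mul_single,
      zero_add, HahnSeries.coeff_single]
    by_cases hu : u = n
    · rw [hu, if_pos rfl, if_pos rfl, mul_assoc, T_mul_neg, mul_one]
    · rw [if_neg fun h1 => hu (hinj h1), if_neg hu, zero_mul]
  · have h1 : cf ρ S φ x = 0 := by
      ext j
      rw [HahnSeries.coeff_zero]
      by_cases hj : ∃ u : ℤ, j = u * φ t
      · obtain ⟨u, rfl⟩ := hj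
        have := h0 u
        change (cf ρ S φ (π x)).coeff (u * φ t) * T (ρ t) (-u) = 0 at this
        rw [hπ' x hx] at this
        exact (mul_eq_zero.1 this).resolve_right (T_ne _ _)
      · push Not at hj
        exact hsup x hx j hj
    by_contra hx0
    exact cf_ne h hI hx hx0 h1
  · change (cf ρ S φ (π (x * y))).coeff (n * φ t) * T (ρ t) (-n) = ∑ᶠ i : ℤ, (cf ρ S φ (π x)).coeff (i * φ t) * T (ρ t) (-i) *
      (T (ρ t) i * ((cf ρ S φ (π y)).coeff ((n - i) * φ t) * T (ρ t) (-(n - i))) * T (ρ t) (-i))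
    rw [hπ' _ (mul_mem hx hy), hπ' x hx, hπ' y hy, cf_mul h hI hx hy, LS.coeff_mul_finsum]
    have h1 : (∑ᶠ j : ℤ, (cf ρ S φ x).coeff j * (cf ρ S φ y).coeff (n * φ t - j)) =
        ∑ᶠ i : ℤ, (cf ρ S φ x).coeff (i * φ t) * (cf ρ S φ y).coeff (n * φ t - i * φ t) := by
      rw [← finsum_mem_univ, ← finsum_mem_range (f := fun j => (cf ρ S φ x).coeff j * (cf ρ S φ y).coeff (n * φ t - j)) hinj]
      refine finsum_mem_inter_support_eq' _ _ _ fun j hj => ?_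
      simp only [Set.mem_univ, true_iff]
      rw [Function.mem_support] at hj
      by_contra hc
      refine left_ne_zero_of_mul hj (hsup x hx j fun u hu => hc ⟨u, hu.symm⟩)
    rw [h1, finsum_mul]
    refine finsum_congr fun i => ?_
    have : T (ρ t) (-n) = T (ρ t) (-(n - i)) * T (ρ t) (-i) := by
      rw [← T_add]
      congr 1
      ring
    rw [this, ← sub_mul]
    simp only [mul_assoc]
    rw [T_neg_mul_cancel]
  · change (cf ρ S φ (π (f * x))).coeff (u * φ t) * T (ρ t) (-u) = f * ((cf ρ S φ (π x)).coeff (u * φ t) * T (ρ t) (-u))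
    rw [hπ' _ (mul_mem (hFL f hf) hx), hπ' x hx, cf_mul h hI (hFL f hf) hx, cf_kr h hI hf, HahnSeries.coeff_single_zero_mul,
      mul_assoc]
  · change (cf ρ S φ (π (((ρ t : Eˣ) : E) * x))).coeff (u * φ t) * T (ρ t) (-u) =
      ((ρ t : Eˣ) : E) * ((cf ρ S φ (π x)).coeff ((u - 1) * φ t) * T (ρ t) (-(u - 1))) * (((ρ t)⁻¹ : Eˣ) : E)
    rw [hπ' _ (mul_mem htL hx), hπ' x hx, cf_mul h hI htL hx, cf_rho h hI ht, ← T_neg_one, show -u = -(u - 1) + -1 by ring, T_add,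
      show u * φ t = (u - 1) * φ t + φ t by ring, HahnSeries.coeff_single_mul_add]
    simp only [mul_assoc]
  · change (cf ρ S φ (π (x * f))).coeff (u * φ t) * T (ρ t) (-u) = (cf ρ S φ (π x)).coeff (u * φ t) * T (ρ t) (-u) *
      (T (ρ t) u * f * T (ρ t) (-u))
    rw [hπ' _ (mul_mem hx (hFL f hf)), hπ' x hx, cf_mul h hI hx (hFL f hf), cf_kr h hI hf, HahnSeries.coeff_mul_single_zero]
    simp only [mul_assoc]
    rw [T_neg_mul_cancel]
  · change (cf ρ S φ (π (x * ((ρ t : Eˣ) : E)))).coeff (u * φ t) * T (ρ t) (-u) =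
      (cf ρ S φ (π x)).coeff ((u - 1) * φ t) * T (ρ t) (-(u - 1))
    rw [hπ' _ (mul_mem hx htL), hπ' x hx, cf_mul h hI hx htL, cf_rho h hI ht, show u * φ t = (u - 1) * φ t + φ t by ring,
      HahnSeries.coeff_mul_single_add, mul_assoc, ← T_one (ρ t), ← T_add]
    congr 2
    ring
  · intro x hx u
    change (cf ρ S φ (π x)).coeff (u * φ t) * T (ρ t) (-u) = _
    rw [hπ' x hx, T_rho, zpow_neg]

end exp

end SQ.BO
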