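import Pool.Agent.SQ.T3.Defs

/-!
# SQ/BO: good families

Definitions for the stage `BO` (bi-orderable groups and residual versions). `E₁`, `E₂` are two skew fields with a homomorphism of
`K` into the units; `cl ρ N` is the division closure of `N`.

`ZP H N t`: `H = N ⋊ ⟨t⟩`, `N` normal in `H`, `t` of infinite order mod `N`.
`Ind ρ N t`: the powers of `t` are left independent over `cl ρ N`.
`CosInd ρ H' H`: the right cosets `H' g` in `H` are left independent over `cl ρ H'`.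
`Fam ρ₁ ρ₂ H X`: the family `X` of elements of `cl ρ₁ H` is built from the group ring by finitely many steps; the second field is
expanded in the same steps (for all its elements).
-/

set_option autoImplicit false

namespace SQ.BO

open SQ.T3

section defs
variable {K : Type} [Group K]

/-- `H = N ⋊ ⟨t⟩` -/
structure ZP (H N : Subgroup K) (t : K) : Prop where
  le : N ≤ H
  mem : t ∈ H
  conj : ∀ g ∈ H, ∀ h ∈ N, g * h * g⁻¹ ∈ N
  gen : ∀ g ∈ H, ∃ n : ℤ, g * t ^ (-n) ∈ N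
  inf : ∀ n : ℤ, t ^ n ∈ N → n = 0

/-- the powers of `t` are left independent over `cl ρ N` -/
def Ind {E : Type} [DivisionRing E] (ρ : K →* Eˣ) (N : Subgroup K) (t : K) : Prop :=
  ∀ c : ℤ →₀ E, (∀ u, c u ∈ cl ρ N) → (c.sum fun u x => x * ((ρ t ^ u : Eˣ) : E)) = 0 → c = 0

/-- the right cosets of `H'` in `H` are left independent over `cl ρ H'` -/
def CosInd {E : Type} [DivisionRing E] (ρ : K →* Eˣ) (H' H : Subgroup K) : Prop :=
  ∀ (s : Finset K) (a : K → E), (∀ g ∈ s, g ∈ H) → (∀ g ∈ s, ∀ g' ∈ s, g * g'⁻¹ ∈ H' → g = g') →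
    (∀ g ∈ s, a g ∈ cl ρ H') → ∑ g ∈ s, a g * ((ρ g : Eˣ) : E) = 0 → ∀ g ∈ s, a g = 0

/-- good families -/
inductive Fam {E₁ E₂ : Type} [DivisionRing E₁] [DivisionRing E₂] (ρ₁ : K →* E₁ˣ) (ρ₂ : K →* E₂ˣ) :
    Subgroup K → Set E₁ → Prop
  /-- the group ring, up to integral denominators -/
  | base (H : Subgroup K) (X : Set E₁)
      (h : ∀ x ∈ X, ∃ n : ℕ, (n : E₁) ≠ 0 ∧ (n : E₁) * x ∈ AddSubgroup.closure ((fun g : K => ((ρ₁ g : E₁ˣ) : E₁)) '' (H : Set K))) :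
      Fam ρ₁ ρ₂ H X
  /-- induction from a subgroup with independent cosets -/
  | up (H' H : Subgroup K) (X' X : Set E₁) (le : H' ≤ H) (ci : CosInd ρ₁ H' H) (mem : ∀ x ∈ X', x ∈ cl ρ₁ H')
      (fam : Fam ρ₁ ρ₂ H' X') (h : ∀ x ∈ X, ∃ x' ∈ X', ∃ g ∈ H, x = x' * ((ρ₁ g : E₁ˣ) : E₁)) : Fam ρ₁ ρ₂ H X
  /-- one step: the coefficients of the expansions are simpler -/
  | step (N H : Subgroup K) (t : K) (X : Set E₁) (zp : ZP H N t) (S1 : Step (cl ρ₁ N) (cl ρ₁ H) (ρ₁ t))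
      (S2 : Step (cl ρ₂ N) (cl ρ₂ H) (ρ₂ t)) (mem : ∀ x ∈ X, x ∈ cl ρ₁ H)
      (fam : ∀ Y : Set E₁, Y.Finite → (∀ y ∈ Y, ∃ x ∈ X, ∃ u : ℤ, y = S1.κ x u) → Fam ρ₁ ρ₂ N Y) : Fam ρ₁ ρ₂ H X

variable {E₁ E₂ : Type} [DivisionRing E₁] [DivisionRing E₂] {ρ₁ : K →* E₁ˣ} {ρ₂ : K →* E₂ˣ}

theorem Fam.mono {H : Subgroup K} {X Y : Set E₁} (hX : Fam ρ₁ ρ₂ H X) (h : Y ⊆ X) : Fam ρ₁ ρ₂ H Y := by
  cases hX with
  | base _ _ hb => exact Fam.base _ _ fun x hx => hb x (h hx)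
  | up H' _ X' _ le ci mem fam hb => exact Fam.up H' _ X' _ le ci mem fam fun x hx => hb x (h hx)
  | step N _ t _ zp S1 S2 mem fam =>
    exact Fam.step N _ t _ zp S1 S2 (fun x hx => mem x (h hx)) fun Z hZ hZ' =>
      fam Z hZ fun y hy => by
        obtain ⟨x, hx, u, hu⟩ := hZ' y hy
        exact ⟨x, h hx, u, hu⟩

/-- the members of a family lie in the division closure -/
theorem Fam.mem {H : Subgroup K} {X : Set E₁} (hX : Fam ρ₁ ρ₂ H X) : ∀ x ∈ X, x ∈ cl ρ₁ H := by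
  cases hX with
  | base _ _ hb =>
    intro x hx
    obtain ⟨n, hn, h1⟩ := hb x hx
    have h2 : (n : E₁) * x ∈ cl ρ₁ H := by
      have h3 : AddSubgroup.closure ((fun g : K => ((ρ₁ g : E₁ˣ) : E₁)) '' (H : Set K)) ≤ (cl ρ₁ H).toSubring.toAddSubgroup := by
        rw [AddSubgroup.closure_le]
        exact Subfield.subset_closure
      exact h3 h1
    have h3 : (n : E₁)⁻¹ ∈ cl ρ₁ H := (cl ρ₁ H).inv_mem (natCast_mem _ n)
    have h4 := (cl ρ₁ H).mul_mem h3 h2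
    rwa [← mul_assoc, inv_mul_cancel₀ hn, one_mul] at h4
  | up H' _ X' _ le ci mem fam hb =>
    intro x hx
    obtain ⟨x', hx', g, hg, rfl⟩ := hb x hx
    refine (cl ρ₁ H).mul_mem ?_ (Subfield.subset_closure ⟨g, hg, rfl⟩)
    exact Subfield.closure_mono (Set.image_mono le) (mem x' hx')
  | step N _ t _ zp S1 S2 mem fam => exact mem

end defs

end SQ.BO
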