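import Pool.Agent.SQ.Dua
import Pool.Agent.SQ.BO.Defs
import Pool.Agent.SQ.HH.Two

/-!
# SQ/BO: homology and cohomology with coefficients in a skew field and in its opposite

* `dua_op`: `Ex (lmul ρ) R j ↔ ExH (lmul (opr ρ)) R j` and the same with `ρ` and `opr ρ` exchanged (no involution);
* `half`, `vanish2`: the squaring argument for both skew fields together;
* `HV_ten`: from the form `Tor(E₁, E₂)` with `E₁` the opposite of a skew field to the diagonal action.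
-/

set_option autoImplicit false
set_option linter.unusedSectionVars false
set_option linter.unusedVariables false

open scoped Matrix TensorProduct

namespace SQ.BO

open Singer Pool.Agent.Helper18.SQ SQ.Dua

section adj
variable {D₁ D₂ : Type} [DivisionRing D₁] [DivisionRing D₂] (s : D₁ ≃+* D₂ᵐᵒᵖ)
  {κ ι μ : Type*} [Fintype κ] [Fintype ι] [Fintype μ]

/-- the additive map of an anti-isomorphism -/
def sA : D₁ →+ D₂ where
  toFun x := (s x).unop
  map_zero' := by rw [map_zero, MulOpposite.unop_zero]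
  map_add' x y := by rw [map_add, MulOpposite.unop_add]

theorem sA_apply (x : D₁) : sA s x = (s x).unop := rfl

theorem sA_mul (x y : D₁) : sA s (x * y) = sA s y * sA s x := by
  rw [sA_apply, map_mul, MulOpposite.unop_mul]
  rfl

/-- the transposed matrix over the opposite skew field -/
def adj (A : Matrix κ ι D₁) : Matrix ι κ D₂ := fun i k => sA s (A k i)

theorem adj_mul (A : Matrix κ μ D₁) (B : Matrix μ ι D₁) : adj s (A * B) = adj s B * adj s A := by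
  ext i k
  show sA s ((A * B) k i) = ∑ j, sA s (B j i) * sA s (A k j)
  rw [Matrix.mul_apply, map_sum]
  refine Finset.sum_congr rfl fun j _ => ?_
  rw [sA_mul]

theorem adj_zero : adj s (0 : Matrix κ ι D₁) = 0 := by
  ext i k
  exact map_zero (sA s)

/-- the inverse anti-isomorphism -/
def sinv : D₂ ≃+* D₁ᵐᵒᵖ := (RingEquiv.opOp D₂).trans (RingEquiv.op s).symm

theorem sinv_apply (x : D₁) : sinv s (s x).unop = MulOpposite.op x := by
  show (RingEquiv.op s).symm (MulOpposite.op (MulOpposite.op (s x).unop)) = MulOpposite.op x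
  rw [MulOpposite.op_unop]
  exact (RingEquiv.op s).symm_apply_apply (MulOpposite.op x)

theorem adj_adj (A : Matrix κ ι D₁) : adj (sinv s) (adj s A) = A := by
  ext k i
  show (sinv s (s (A k i)).unop).unop = A k i
  rw [sinv_apply, MulOpposite.unop_op]

theorem rank_adj_le (A : Matrix κ ι D₁) : Module.finrank D₂ᵐᵒᵖ (LinearMap.range (mv (adj s A))) ≤
    Module.finrank D₁ᵐᵒᵖ (LinearMap.range (mv A)) := by
  obtain ⟨B, C, h⟩ := Pool.Agent.Helper18.SQ.exists_factor A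
  have h1 : adj s A = adj s C * adj s B := by
    conv_lhs => rw [h]
    rw [adj_mul]
  rw [h1]
  refine (rank_le_of_mul (adj s C) (adj s B)).trans ?_
  rw [Fintype.card_fin]

/-- the rank of the transposed matrix -/
theorem rank_adj (A : Matrix κ ι D₁) : Module.finrank D₂ᵐᵒᵖ (LinearMap.range (mv (adj s A))) =
    Module.finrank D₁ᵐᵒᵖ (LinearMap.range (mv A)) := by
  refine le_antisymm (rank_adj_le s A) ?_
  have h := rank_adj_le (sinv s) (adj s A)
  rwa [adj_adj] at h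

theorem exact_iff_rk {D : Type} [DivisionRing D] (A : Matrix κ ι D) (B : Matrix μ κ D) (h : B * A = 0) :
    (∀ y : κ → D, B *ᵥ y = 0 → ∃ z : ι → D, A *ᵥ z = y) ↔
      Module.finrank Dᵐᵒᵖ (LinearMap.range (mv A)) + Module.finrank Dᵐᵒᵖ (LinearMap.range (mv B)) = Fintype.card κ := by
  have h1 := LinearMap.finrank_range_add_finrank_ker (mv B)
  rw [finrank_col] at h1
  have h2 : LinearMap.range (mv A) ≤ LinearMap.ker (mv B) := by
    rintro _ ⟨z, rfl⟩
    show mv B (mv A z) = 0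
    rw [← LinearMap.comp_apply, ← mv_mul, h]
    show (0 : Matrix μ ι D) *ᵥ z = 0
    rw [Matrix.zero_mulVec]
  constructor
  · intro h3
    have h4 : LinearMap.range (mv A) = LinearMap.ker (mv B) := by
      refine le_antisymm h2 fun y hy => ?_
      obtain ⟨z, hz⟩ := h3 y hy
      exact ⟨z, hz⟩
    rw [h4]
    omega
  · intro h3 y hy
    have h4 : LinearMap.range (mv A) = LinearMap.ker (mv B) :=
      Submodule.eq_of_le_of_finrank_eq h2 (by omega)
    have h5 : y ∈ LinearMap.range (mv A) := by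
      rw [h4]
      exact hy
    obtain ⟨z, hz⟩ := h5
    exact ⟨z, hz⟩

/-- exactness of the transposed complex -/
theorem exact_iff_adj2 (A : Matrix κ ι D₁) (B : Matrix μ κ D₁) (h : B * A = 0) :
    (∀ y : κ → D₁, B *ᵥ y = 0 → ∃ z : ι → D₁, A *ᵥ z = y) ↔
      ∀ x : κ → D₂, adj s A *ᵥ x = 0 → ∃ z : μ → D₂, adj s B *ᵥ z = x := by
  have h' : adj s A * adj s B = 0 := by
    rw [← adj_mul, h, adj_zero]
  rw [exact_iff_rk A B h, exact_iff_rk (adj s B) (adj s A) h', rank_adj, rank_adj, add_comm]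

/-- injectivity and surjectivity of the transposed matrix -/
theorem inj_iff_adj2 (A : Matrix κ ι D₁) :
    (∀ y : ι → D₁, A *ᵥ y = 0 → y = 0) ↔ ∀ x : ι → D₂, ∃ z : κ → D₂, adj s A *ᵥ z = x := by
  have h := exact_iff_adj2 s (0 : Matrix ι Empty D₁) A (Matrix.mul_zero A)
  constructor
  · intro h1 x
    refine h.1 ?_ x ?_
    · intro y hy
      refine ⟨0, ?_⟩
      rw [h1 y hy, Matrix.mulVec_zero]
    · rw [adj_zero, Matrix.zero_mulVec]
  · intro h1 y hy
    obtain ⟨z, hz⟩ := h.2 (fun x _ => h1 x) y hy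
    rw [← hz, Matrix.zero_mulVec]

end adj

section dua
variable {H : Type} [Group H] {D₁ D₂ : Type} [DivisionRing D₁] [DivisionRing D₂] [Algebra (ZMod 2) D₁] [Algebra (ZMod 2) D₂]
  (s : D₁ ≃+* D₂ᵐᵒᵖ) (ρ₁ : H →* D₁ˣ) (ρ₂ : H →* D₂ˣ)

theorem bdry_eq2 {α β : Type} [Fintype α]
    (hs : ∀ g, (s ((ρ₁ g : D₁ˣ) : D₁)).unop = ((ρ₂ g⁻¹ : D₂ˣ) : D₂)) (P : Matrix α β (MonoidAlgebra ℤ H)) (f : α → D₂) :
    bdry (lmul ρ₂) P f = adj s (P.map (ev ρ₁)) *ᵥ f := by
  funext b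
  show ∑ a, ∑ g ∈ (P a b).coeff.support, ((P a b).coeff g : ZMod 2) • (((ρ₂ g⁻¹ : D₂ˣ) : D₂) * f a) =
    ∑ a, sA s (ev ρ₁ (P a b)) * f a
  refine Finset.sum_congr rfl fun a _ => ?_
  rw [ev_apply, map_sum, Finset.sum_mul]
  refine Finset.sum_congr rfl fun g _ => ?_
  rw [Int.cast_smul_eq_zsmul, map_zsmul, smul_mul_assoc, sA_apply, hs]

/-- cohomology with coefficients in `D₁`, homology with coefficients in the opposite skew field `D₂` -/
theorem dua2 (R : FinRes H) (hs : ∀ g, (s ((ρ₁ g : D₁ˣ) : D₁)).unop = ((ρ₂ g⁻¹ : D₂ˣ) : D₂)) (j : ℕ) :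
    Ex (lmul ρ₁) R j ↔ ExH (lmul ρ₂) R j := by
  cases j with
  | zero =>
    have h := inj_iff_adj2 s ((R.d 0).map (ev ρ₁))
    constructor
    · intro h1 f
      obtain ⟨z, hz⟩ := h.1 (fun y hy => h1 y ((cobd_eq ρ₁ (R.d 0) y).trans hy)) f
      exact ⟨z, (bdry_eq2 s ρ₁ ρ₂ hs (R.d 0) z).trans hz⟩
    · intro h1 f hf
      refine h.2 (fun x => ?_) f ((cobd_eq ρ₁ (R.d 0) f).symm.trans hf)
      obtain ⟨z, hz⟩ := h1 x
      exact ⟨z, (bdry_eq2 s ρ₁ ρ₂ hs (R.d 0) z).symm.trans hz⟩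
  | succ j =>
    have h := exact_iff_adj2 s ((R.d j).map (ev ρ₁)) ((R.d (j + 1)).map (ev ρ₁)) (ev_comp_zero ρ₁ R j)
    constructor
    · intro h1 f hf
      obtain ⟨z, hz⟩ := h.1 (fun y hy => by
        obtain ⟨e, he⟩ := h1 y ((cobd_eq ρ₁ (R.d (j + 1)) y).trans hy)
        exact ⟨e, (cobd_eq ρ₁ (R.d j) e).symm.trans he⟩) f ((bdry_eq2 s ρ₁ ρ₂ hs (R.d j) f).symm.trans hf)
      exact ⟨z, (bdry_eq2 s ρ₁ ρ₂ hs (R.d (j + 1)) z).trans hz⟩
    · intro h1 f hf
      obtain ⟨z, hz⟩ := h.2 (fun y hy => by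
        obtain ⟨e, he⟩ := h1 y ((bdry_eq2 s ρ₁ ρ₂ hs (R.d j) y).trans hy)
        exact ⟨e, (bdry_eq2 s ρ₁ ρ₂ hs (R.d (j + 1)) e).symm.trans he⟩) f ((cobd_eq ρ₁ (R.d (j + 1)) f).symm.trans hf)
      exact ⟨z, (cobd_eq ρ₁ (R.d j) z).trans hz⟩

end dua

section op
variable {K : Type} [Group K] {D : Type} [DivisionRing D] [Algebra (ZMod 2) D] (ρ : K →* Dˣ)

/-- **duality between a skew field and its opposite** -/
theorem dua_op (R : FinRes K) (j : ℕ) :
    (ExH (lmul (opr ρ)) R j ↔ Ex (lmul ρ) R j) ∧ (ExH (lmul ρ) R j ↔ Ex (lmul (opr ρ)) R j) := by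
  refine ⟨(dua2 (RingEquiv.opOp D) ρ (opr ρ) R (fun g => ?_) j).symm,
    (dua2 (RingEquiv.refl Dᵐᵒᵖ) (opr ρ) ρ R (fun g => rfl) j).symm⟩
  show MulOpposite.op ((ρ g : Dˣ) : D) = MulOpposite.op ((ρ (g⁻¹)⁻¹ : Dˣ) : D)
  rw [inv_inv]

/-- below the middle dimension -/
theorem half (hLEM : StmtLEM) (hinv : ∀ h : K, h * h = 1 → h = 1) {n : ℕ} (hn : IsPD n K) (R : FinRes K)
    (h1 : ∀ j, ExH (diag ρ) R (j + 1)) (m : ℕ) (hm : 2 * m < n) : Ex (lmul ρ) R m := by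
  refine hLEM K hinv R _ (lmul ρ) m fun j hj => ?_
  refine (pd (τ := diag ρ) n hn R).1 j (by omega) ?_
  obtain ⟨k, hk⟩ : ∃ k, n - j = k + 1 := ⟨n - j - 1, by omega⟩
  rw [hk]
  exact h1 k

/-- **the vanishing outside of the middle dimension**, from the acyclicity of `D ⊗ D` for `D` and for the opposite skew field -/
theorem vanish2 (hLEM : StmtLEM) (hinv : ∀ h : K, h * h = 1 → h = 1) {n : ℕ} (hn : IsPD n K) (R : FinRes K)
    (h1 : ∀ j, ExH (diag ρ) R (j + 1)) (h1' : ∀ j, ExH (diag (opr ρ)) R (j + 1)) (i : ℕ) (hi : 2 * i ≠ n) :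
    Ex (lmul ρ) R i := by
  rcases lt_or_gt_of_ne hi with h | h
  · exact half ρ hLEM hinv hn R h1 i h
  · by_cases hin : i ≤ n
    · refine (pd (τ := lmul ρ) n hn R).1 i hin ?_
      exact (dua_op ρ R (n - i)).2.2 (half (opr ρ) hLEM hinv hn R h1' (n - i) (by omega))
    · exact (pd (τ := lmul ρ) n hn R).2 i (by omega)

end op

section bridge
variable {Γ L : Type} [Group Γ] [Group L] (l : L →* Γ) {D E₂ : Type} [DivisionRing D] [DivisionRing E₂]
  [Algebra (ZMod 2) D] [Algebra (ZMod 2) E₂]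

/-- the identification of a skew field with its opposite, on the first factor -/
noncomputable def opl (D E₂ : Type) [DivisionRing D] [DivisionRing E₂] [Algebra (ZMod 2) D] [Algebra (ZMod 2) E₂] :
    Dᵐᵒᵖ ⊗[ZMod 2] E₂ ≃ₗ[ZMod 2] D ⊗[ZMod 2] E₂ :=
  TensorProduct.congr (MulOpposite.opLinearEquiv (ZMod 2)).symm (LinearEquiv.refl _ _)

theorem opl_ten (ρ₁ : L →* Dˣ) (ρ₂ : L →* E₂ˣ) (g : L) (z : Dᵐᵒᵖ ⊗[ZMod 2] E₂) :
    opl D E₂ (HH.Two.ten (opr ρ₁) ρ₂ g z) = ((lmul ρ₁).tprod (lmul ρ₂)) g (opl D E₂ z) := by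
  induction z using TensorProduct.induction_on with
  | zero => simp only [map_zero]
  | add x y hx hy => simp only [map_add, hx, hy]
  | tmul x y =>
    show (MulOpposite.unop (x * MulOpposite.op ((ρ₁ (g⁻¹)⁻¹ : Dˣ) : D))) ⊗ₜ[ZMod 2] (((ρ₂ g : E₂ˣ) : E₂) * y) =
      (((ρ₁ g : Dˣ) : D) * MulOpposite.unop x) ⊗ₜ[ZMod 2] (((ρ₂ g : E₂ˣ) : E₂) * y)
    rw [inv_inv, MulOpposite.unop_mul, MulOpposite.unop_op]

/-- from the form `Tor` (left factor in the opposite skew field) to the diagonal action -/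
theorem HV_ten (ρ₁ : L →* Dˣ) (ρ₂ : L →* E₂ˣ) (R : FinRes Γ) (j : ℕ) (h : HH.HV l (HH.Two.ten (opr ρ₁) ρ₂) R j) :
    HH.HV l ((lmul ρ₁).tprod (lmul ρ₂)) R j :=
  HH.HV_equiv l _ _ (opl D E₂) (opl_ten ρ₁ ρ₂) R j h

end bridge

end SQ.BO
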