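import Pool.Agent.SQ.BO.Asm
import Pool.Agent.SQ.BO.Two
import Pool.Agent.SQ.BO.MNRow
import Pool.Agent.SQ.BO.BoundRow

/-!
# SQ/BO: the vanishing theorem for the bi-orderable groups
-/

set_option autoImplicit false

noncomputable section

namespace SQ.BO

open Singer SQ.HH

/-- **BO6** -/
theorem stmtVan : StmtVan := by
  intro K _ hinv D _ _ ρ n hn R h1 h2 i hi
  refine vanish2 ρ lem hinv hn R (fun j => ?_) (fun j => ?_) i hi
  · exact (hv_iff_exH K _ (diag ρ) R j).1 (HV_ten (MonoidHom.id K) ρ ρ R j (h1 j))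
  · exact (hv_iff_exH K _ (diag (opr ρ)) R j).1 (HV_ten (MonoidHom.id K) (opr ρ) (opr ρ) R j (h2 j))

/-- **the vanishing theorem for the bi-orderable Poincare duality groups** -/
theorem vanE_biord {K : Type} [Group K] (hK : BiOrd K) {n : ℕ} (hn : IsPD n K) (R : FinRes K) (i : ℕ)
    (hi : 2 * i ≠ n) : R.VanE i :=
  vanE_of stmtMN bound stmtVan hK hn R i hi

/-- **the vanishing theorem for the Poincare duality groups with a bi-orderable subgroup of finite index** -/
theorem vanE_virtual_biord {Γ : Type} [Group Γ] (H : Subgroup Γ) [H.FiniteIndex] (h : BiOrd H) {n : ℕ}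
    (hPD : IsPD n Γ ∨ IsPD n H) (R : FinRes Γ) (i : ℕ) (hi : 2 * i ≠ n) : R.VanE i :=
  vanE_virtual_of stmtMN bound stmtVan H h hPD R i hi

end SQ.BO
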