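import Pool.Agent.Singer.Rank

/-!
# SQ/BO: windows

`G = ker φ ⋊ ⟨t⟩`. For equivariant operators `A`, `B` on `ℓ²` of `G` with finite propagation in the direction of `t`: if
`ker A ⊆ ker B` for the vectors with finitely many degrees, then `ker A ⊆ ker B` (`win`).
The proof compares the dimensions over `ker φ` of long windows.
-/

set_option autoImplicit false
set_option linter.unusedSectionVars false
set_option linter.unusedVariables false

open scoped ComplexConjugate InnerProductSpace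
open Filter Topology

namespace SQ.BO

open Singer

variable {G : Type*} [Group G] {ι κ μ : Type*} [Fintype ι] [Fintype κ] [Fintype μ]

/-- the degree -/
def dg (φ : G →* Multiplicative ℤ) (g : G) : ℤ := Multiplicative.toAdd (φ g)

lemma dg_mul (φ : G →* Multiplicative ℤ) (g h : G) : dg φ (g * h) = dg φ g + dg φ h := by
  simp [dg]

lemma dg_inv (φ : G →* Multiplicative ℤ) (g : G) : dg φ g⁻¹ = - dg φ g := by
  simp [dg]

lemma dg_one (φ : G →* Multiplicative ℤ) : dg φ 1 = 0 := by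
  simp [dg]

lemma dg_zpow (φ : G →* Multiplicative ℤ) (g : G) (n : ℤ) : dg φ (g ^ n) = n * dg φ g := by
  simp [dg]

lemma mem_ker_dg (φ : G →* Multiplicative ℤ) (g : G) : g ∈ φ.ker ↔ dg φ g = 0 := by
  rw [MonoidHom.mem_ker]
  exact (toAdd_eq_zero (α := ℤ)).symm

/-- finite propagation -/
def FP (φ : G →* Multiplicative ℤ) (d : ℤ) (T : E G ι →L[ℂ] E G κ) : Prop :=
  ∀ (f : E G ι) (g : G) (k : κ), (∀ h i, |dg φ h - dg φ g| ≤ d → f (h, i) = 0) → T f (g, k) = 0

lemma FP.congr {φ : G →* Multiplicative ℤ} {d : ℤ} {T : E G ι →L[ℂ] E G κ} (hT : FP φ d T) (f f' : E G ι) (g : G) (k : κ)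
    (h : ∀ h i, |dg φ h - dg φ g| ≤ d → f (h, i) = f' (h, i)) : T f (g, k) = T f' (g, k) := by
  have h1 := hT (f - f') g k (fun x i hx => by
    rw [lp.coeFn_sub, Pi.sub_apply, h x i hx, sub_self])
  rw [map_sub, lp.coeFn_sub, Pi.sub_apply] at h1
  exact sub_eq_zero.1 h1

section win
variable (φ : G →* Multiplicative ℤ) (t : G)

/-- the window -/
def posn (Z : Finset ℤ) (p : φ.ker × (Z × ι)) : G × ι := ((p.1 : G) * t ^ (p.2.1 : ℤ), p.2.2)

variable (ht : dg φ t = 1)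
include ht

lemma dg_posn (Z : Finset ℤ) (p : φ.ker × (Z × ι)) : dg φ (posn φ t Z p).1 = p.2.1 := by
  have h := (mem_ker_dg φ _).1 p.1.2
  simp only [posn]
  rw [dg_mul, h, zero_add, dg_zpow, ht, mul_one]

lemma posn_inj (Z : Finset ℤ) : Function.Injective (posn (ι := ι) φ t Z) := by
  rintro ⟨n, k, i⟩ ⟨n', k', i'⟩ h
  have h1 : (k : ℤ) = k' := by
    have h0 : dg φ (posn φ t Z (n, k, i)).1 = dg φ (posn φ t Z (n', k', i')).1 := by rw [h]
    rw [dg_posn φ t ht, dg_posn φ t ht] at h0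
    exact h0
  have h2 : k = k' := Subtype.ext h1
  subst h2
  have h3 := congrArg Prod.fst h
  have h4 := congrArg Prod.snd h
  simp only [posn] at h3 h4
  have h5 : n = n' := Subtype.ext (mul_right_cancel h3)
  subst h5
  subst h4
  rfl

lemma posn_surj (Z : Finset ℤ) (g : G) (i : ι) (hg : dg φ g ∈ Z) : ∃ p, posn (ι := ι) φ t Z p = (g, i) := by
  refine ⟨⟨⟨g * t ^ (-dg φ g), ?_⟩, ⟨⟨dg φ g, hg⟩, i⟩⟩, ?_⟩
  · rw [mem_ker_dg, dg_mul, dg_zpow, ht]
    ring
  · simp [posn]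

/-- restriction to the window -/
noncomputable def wp (Z : Finset ℤ) : E G ι →L[ℂ] E φ.ker (Z × ι) := pull (posn φ t Z) (posn_inj φ t ht Z)

/-- extension by zero -/
noncomputable def wq (Z : Finset ℤ) : E φ.ker (Z × ι) →L[ℂ] E G ι := push (posn φ t Z) (posn_inj φ t ht Z)

lemma wp_apply (Z : Finset ℤ) (f : E G ι) (p : φ.ker × (Z × ι)) : wp φ t ht Z f p = f (posn φ t Z p) := rfl

lemma wq_posn (Z : Finset ℤ) (f : E φ.ker (Z × ι)) (p : φ.ker × (Z × ι)) : wq φ t ht Z f (posn φ t Z p) = f p :=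
  push_apply _ _ f p

lemma wq_notMem (Z : Finset ℤ) (f : E φ.ker (Z × ι)) (g : G) (i : ι) (hg : dg φ g ∉ Z) : wq φ t ht Z f (g, i) = 0 := by
  refine push_apply_of_notMem _ _ f ?_
  rintro ⟨p, hp⟩
  have h := dg_posn φ t ht Z p
  rw [hp] at h
  exact hg (h ▸ p.2.1.2)

lemma wq_wp (Z : Finset ℤ) (f : E G ι) (g : G) (i : ι) (hg : dg φ g ∈ Z) : wq φ t ht Z (wp φ t ht Z f) (g, i) = f (g, i) := by
  obtain ⟨p, hp⟩ := posn_surj φ t ht Z g i hg
  rw [← hp, wq_posn, wp_apply]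

lemma posn_lam (Z : Finset ℤ) (h : φ.ker) (p : φ.ker × (Z × ι)) :
    posn φ t Z (h⁻¹ * p.1, p.2) = ((h : G)⁻¹ * (posn φ t Z p).1, (posn φ t Z p).2) := by
  simp [posn, mul_assoc]

lemma wp_lam (Z : Finset ℤ) (h : φ.ker) (f : E G ι) : wp φ t ht Z (lam (h : G) f) = lam h (wp φ t ht Z f) := by
  ext p
  rw [wp_apply, lam_apply, lam_apply, wp_apply, posn_lam φ t ht]

lemma wq_lam (Z : Finset ℤ) (h : φ.ker) (f : E φ.ker (Z × ι)) : wq φ t ht Z (lam h f) = lam (h : G) (wq φ t ht Z f) := by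
  ext x
  obtain ⟨g, i⟩ := x
  rw [lam_apply]
  by_cases hg : dg φ g ∈ Z
  · obtain ⟨p, hp⟩ := posn_surj φ t ht Z g i hg
    have h1 := posn_lam φ t ht Z h p
    rw [hp] at h1
    rw [← hp, wq_posn, lam_apply, hp]
    simp only at h1 ⊢
    rw [← h1, wq_posn]
  · have h0 := (mem_ker_dg φ _).1 h.2
    rw [wq_notMem φ t ht Z _ g i hg, wq_notMem φ t ht Z _ _ i]
    simp only
    rw [dg_mul, dg_inv, h0, neg_zero, zero_add]
    exact hg

lemma norm_wp_le (Z : Finset ℤ) (f : E G ι) : ‖wp φ t ht Z f‖ ≤ ‖f‖ := by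
  rw [← one_mul ‖f‖]
  apply norm_le_of_sq zero_le_one
  rw [norm_sq_eq, norm_sq_eq, one_pow, one_mul]
  exact tsum_comp_le_tsum_of_inj (summable_sq f) (fun _ => by positivity) (posn_inj φ t ht Z)

lemma equi_win (Z Z' : Finset ℤ) {T : E G ι →L[ℂ] E G κ} (hT : Equi T) :
    Equi ((wp φ t ht Z').comp (T.comp (wq φ t ht Z))) := by
  intro g f
  rw [ContinuousLinearMap.comp_apply, ContinuousLinearMap.comp_apply, ContinuousLinearMap.comp_apply,
    ContinuousLinearMap.comp_apply, wq_lam, hT, wp_lam]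

/-- the dimension of a window of an invariant subspace -/
lemma card_mul_vdim_le (Z : Finset ℤ) {V : Submodule ℂ (E G μ)} (hV : Singer.Inv V) :
    (Z.card : ℝ) * vdim V ≤ vdim (V.map ((wp φ t ht Z : E G μ →L[ℂ] E φ.ker (Z × μ)) : E G μ →ₗ[ℂ] E φ.ker (Z × μ))) := by
  classical
  set V' := V.map ((wp φ t ht Z : E G μ →L[ℂ] E φ.ker (Z × μ)) : E G μ →ₗ[ℂ] E φ.ker (Z × μ)) with hV'
  have key : ∀ (k : Z) (m : μ), ‖prj V (del (1 : G) m)‖ ^ 2 ≤ ‖prj V' (del (1 : φ.ker) (k, m))‖ ^ 2 := by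
    intro k m
    set x := prj V (del (t ^ (k : ℤ)) m) with hx
    have hn : ‖x‖ = ‖prj V (del (1 : G) m)‖ := by
      have h1 : (del (t ^ (k : ℤ)) m : E G μ) = lam (t ^ (k : ℤ)) (del 1 m) := by rw [lam_del, mul_one]
      rw [hx, h1, equi_prj hV, norm_lam]
    rw [← hn]
    set y := wp φ t ht Z x with hy
    have hyV : y ∈ V'.topologicalClosure := by
      have h1 : x ∈ V.topologicalClosure := prj_mem V _
      have h2 : Set.MapsTo (wp φ t ht Z : E G μ → E φ.ker (Z × μ)) (V : Set (E G μ)) (V' : Set (E φ.ker (Z × μ))) :=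
        fun v hv => ⟨v, hv, rfl⟩
      exact map_mem_closure (wp φ t ht Z).continuous h1 h2
    have h1 : ⟪prj V' (del (1 : φ.ker) (k, m)), y⟫_ℂ = y (1, (k, m)) := by
      rw [prj_inner, prj_eq_of_mem hyV, inner_del_left]
    have h2 : y (1, (k, m)) = x (t ^ (k : ℤ), m) := by
      rw [hy, wp_apply]
      simp [posn]
    have h3 : x (t ^ (k : ℤ), m) = ⟪x, x⟫_ℂ := by
      have h4 : ⟪x, x⟫_ℂ = ⟪del (t ^ (k : ℤ)) m, x⟫_ℂ := by
        conv_lhs => rw [hx]
        rw [prj_inner]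
        congr 1
        exact prj_eq_of_mem (prj_mem V _)
      rw [h4, inner_del_left]
    have h5 : ‖x‖ ^ 2 ≤ ‖prj V' (del (1 : φ.ker) (k, m))‖ * ‖x‖ := by
      have h6 : ‖⟪x, x⟫_ℂ‖ = ‖x‖ ^ 2 := by
        rw [inner_self_eq_norm_sq_to_K]
        simp
      rw [← h6, ← h3, ← h2, ← h1]
      refine (norm_inner_le_norm _ _).trans ?_
      exact mul_le_mul_of_nonneg_left (norm_wp_le φ t ht Z x) (norm_nonneg _)
    have h7 : ‖x‖ ≤ ‖prj V' (del (1 : φ.ker) (k, m))‖ := by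
      rcases (norm_nonneg x).eq_or_lt with h | h
      · rw [← h]; exact norm_nonneg _
      · rw [sq] at h5
        exact le_of_mul_le_mul_right h5 h
    exact pow_le_pow_left₀ (norm_nonneg _) h7 2
  unfold vdim
  rw [Fintype.sum_prod_type]
  calc (Z.card : ℝ) * ∑ j, ‖prj V (del (1 : G) j)‖ ^ 2 = ∑ k : Z, ∑ j, ‖prj V (del (1 : G) j)‖ ^ 2 := by
        rw [Finset.sum_const, Finset.card_univ, Fintype.card_coe, nsmul_eq_mul]
    _ ≤ _ := Finset.sum_le_sum fun k _ => Finset.sum_le_sum fun m _ => key k m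

/-- **windows** -/
theorem win (A : E G ι →L[ℂ] E G κ) (B : E G ι →L[ℂ] E G μ) (hA : Equi A) (hB : Equi B) (d : ℕ) (pA : FP φ d A) (pB : FP φ d B)
    (h : ∀ f : E G ι, (∃ Z : Finset ℤ, ∀ g i, dg φ g ∉ Z → f (g, i) = 0) → A f = 0 → B f = 0) (f : E G ι) (hf : A f = 0) :
    B f = 0 := by
  classical
  by_contra hBf
  set V := (LinearMap.ker (A : E G ι →ₗ[ℂ] E G κ)).map (B : E G ι →ₗ[ℂ] E G μ) with hV
  have hI : Singer.Inv V := (inv_ker hA).map hB
  have hpos : 0 < vdim V := by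
    by_contra h1
    have h2 := eq_bot_of_vdim hI (not_lt.1 h1)
    have h3 : B f ∈ V := ⟨f, hf, rfl⟩
    rw [h2] at h3
    exact hBf ((Submodule.mem_bot ℂ).1 h3)
  have main : ∀ L : ℕ, (L : ℝ) * vdim V ≤ (4 * d * Fintype.card κ : ℕ) := by
    intro L
    set Zw : Finset ℤ := Finset.Ico (-(d : ℤ)) (L + d) with hZw
    set Zm : Finset ℤ := Finset.Ico 0 (L : ℤ) with hZm
    set Zb : Finset ℤ := Finset.Ico (-(2 * d : ℤ)) 0 ∪ Finset.Ico (L : ℤ) (L + 2 * d) with hZb
    set A1 := (wp φ t ht Zm).comp (A.comp (wq φ t ht Zw)) with hA1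
    set T1 := (wp φ t ht Zb).comp (A.comp (wq φ t ht Zw)) with hT1
    set T0 := (wp φ t ht Zm).comp (B.comp (wq φ t ht Zw)) with hT0
    have eA1 : Equi A1 := equi_win φ t ht _ _ hA
    have eT1 : Equi T1 := equi_win φ t ht _ _ hA
    have eT0 : Equi T0 := equi_win φ t ht _ _ hB
    set U := LinearMap.ker (A1 : E φ.ker (Zw × ι) →ₗ[ℂ] E φ.ker (Zm × κ)) with hU
    have hUI : Singer.Inv U := inv_ker eA1
    have hUc : IsClosed (U : Set (E φ.ker (Zw × ι))) := A1.isClosed_ker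
    have hle : U ⊓ LinearMap.ker (T1 : E φ.ker (Zw × ι) →ₗ[ℂ] E φ.ker (Zb × κ)) ≤
        U ⊓ LinearMap.ker (T0 : E φ.ker (Zw × ι) →ₗ[ℂ] E φ.ker (Zm × μ)) := by
      rintro w ⟨hw1, hw2⟩
      refine ⟨hw1, ?_⟩
      have hw1' : A1 w = 0 := hw1
      have hw2' : T1 w = 0 := hw2
      have h0 : A (wq φ t ht Zw w) = 0 := by
        ext x
        obtain ⟨g, k⟩ := x
        rw [lp.coeFn_zero, Pi.zero_apply]
        by_cases h1 : dg φ g ∈ Zm
        · obtain ⟨p, hp⟩ := posn_surj φ t ht Zm g k h1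
          have h2 := congrArg (fun z : E φ.ker (Zm × κ) => z p) hw1'
          rw [← hp]
          exact h2
        by_cases h2 : dg φ g ∈ Zb
        · obtain ⟨p, hp⟩ := posn_surj φ t ht Zb g k h2
          have h3 := congrArg (fun z : E φ.ker (Zb × κ) => z p) hw2'
          rw [← hp]
          exact h3
        refine pA _ g k fun x i hx => wq_notMem φ t ht Zw w x i fun h3 => ?_
        rw [hZw, Finset.mem_Ico] at h3
        rw [hZm, Finset.mem_Ico] at h1
        rw [hZb, Finset.mem_union, Finset.mem_Ico, Finset.mem_Ico] at h2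
        rw [abs_le] at hx
        omega
      have h1 := h (wq φ t ht Zw w) ⟨Zw, fun g i hg => wq_notMem φ t ht Zw w g i hg⟩ h0
      show (wp φ t ht Zm) (B (wq φ t ht Zw w)) = 0
      rw [h1, map_zero]
    have d1 := vdim_map_add eT1 hUI hUc
    have d0 := vdim_map_add eT0 hUI hUc
    have d2 := vdim_mono hle
    have d3 : vdim (U.map (T1 : E φ.ker (Zw × ι) →ₗ[ℂ] E φ.ker (Zb × κ))) ≤ (Fintype.card (Zb × κ) : ℝ) := by
      rw [← vdim_top (Γ := φ.ker) (ι := Zb × κ)]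
      exact vdim_mono le_top
    have d4 : (Fintype.card (Zb × κ) : ℝ) ≤ (4 * d * Fintype.card κ : ℕ) := by
      rw [Fintype.card_prod, Fintype.card_coe]
      have h1 : Zb.card ≤ 4 * d := by
        refine (Finset.card_union_le _ _).trans ?_
        rw [Int.card_Ico, Int.card_Ico]
        omega
      exact_mod_cast Nat.mul_le_mul_right _ h1
    have d5 : vdim (V.map ((wp φ t ht Zm : E G μ →L[ℂ] E φ.ker (Zm × μ)) : E G μ →ₗ[ℂ] E φ.ker (Zm × μ))) ≤
        vdim (U.map (T0 : E φ.ker (Zw × ι) →ₗ[ℂ] E φ.ker (Zm × μ))) := by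
      refine vdim_mono ?_
      rintro _ ⟨_, ⟨f, hf, rfl⟩, rfl⟩
      have hf' : A f = 0 := hf
      have hcong : ∀ g, dg φ g ∈ Zm → ∀ (h : G) (i : ι), |dg φ h - dg φ g| ≤ d →
          wq φ t ht Zw (wp φ t ht Zw f) (h, i) = f (h, i) := by
        intro g hg x i hx
        refine wq_wp φ t ht Zw f x i ?_
        rw [hZm, Finset.mem_Ico] at hg
        rw [hZw, Finset.mem_Ico]
        rw [abs_le] at hx
        omega
      refine ⟨wp φ t ht Zw f, ?_, ?_⟩
      · show A1 (wp φ t ht Zw f) = 0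
        ext p
        rw [hA1, ContinuousLinearMap.comp_apply, ContinuousLinearMap.comp_apply, wp_apply]
        rcases hx : posn φ t Zm p with ⟨x1, x2⟩
        have hp : dg φ x1 ∈ Zm := by
          have := dg_posn φ t ht Zm p
          rw [hx] at this
          exact this ▸ p.2.1.2
        rw [pA.congr _ f x1 x2 (hcong x1 hp), hf']
        rfl
      · show T0 (wp φ t ht Zw f) = wp φ t ht Zm (B f)
        ext p
        rw [hT0, ContinuousLinearMap.comp_apply, ContinuousLinearMap.comp_apply, wp_apply, wp_apply]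
        rcases hx : posn φ t Zm p with ⟨x1, x2⟩
        have hp : dg φ x1 ∈ Zm := by
          have := dg_posn φ t ht Zm p
          rw [hx] at this
          exact this ▸ p.2.1.2
        exact pB.congr _ f x1 x2 (hcong x1 hp)
    have d6 := card_mul_vdim_le φ t ht Zm hI
    have d7 : (Zm.card : ℝ) = L := by
      rw [hZm, Int.card_Ico]
      simp
    rw [d7] at d6
    linarith
  obtain ⟨L, hL⟩ := exists_nat_gt ((4 * d * Fintype.card κ : ℕ) / vdim V)
  rw [div_lt_iff₀ hpos] at hL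
  exact absurd (main L) (not_le.2 hL)

end win

end SQ.BO
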