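import Pool.Agent.SQ.BO.Fam
import Pool.Agent.SQ.BO.Win

/-!
# SQ/BO: linear relations over the group ring and `ℓ²`

`act r u`: the action of the group ring on functions; `ev ρ r`: the value of `r` in the skew field.
`Lin ρ H X`: if `r₀ⱼ = ∑ᵢ xᵢ rⱼᵢ` in the skew field (`xᵢ ∈ X`, `rⱼᵢ`, `r₀ⱼ` in the group ring of `H`) then every solution of
`∑ⱼ rⱼᵢ uⱼ = 0` in `ℓ²` satisfies `∑ⱼ r₀ⱼ uⱼ = 0`. In this file: the cases `base` and `up` of `Fam`.
-/

set_option autoImplicit false
set_option linter.unusedSectionVars false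
set_option linter.unusedVariables false

namespace SQ.BO

open SQ.T3 Singer

section defs
variable {K : Type} [Group K]

/-- right translations -/
noncomputable def trn : K →* Module.End ℤ (K → ℂ) where
  toFun x :=
    { toFun := fun u g => u (g * x)
      map_add' := fun u v => rfl
      map_smul' := fun n u => rfl }
  map_one' := by
    ext u g
    simp
  map_mul' x y := by
    refine LinearMap.ext fun u => funext fun g => ?_
    show u (g * (x * y)) = u (g * x * y)
    rw [mul_assoc]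

/-- the action of the group ring on functions -/
noncomputable def act : MonoidAlgebra ℤ K →ₐ[ℤ] Module.End ℤ (K → ℂ) := MonoidAlgebra.lift ℤ (Module.End ℤ (K → ℂ)) K trn

lemma act_single (x : K) (n : ℤ) (u : K → ℂ) (g : K) : act (MonoidAlgebra.single x n) u g = n * u (g * x) := by
  unfold act
  rw [MonoidAlgebra.lift_single]
  show (n • u (g * x)) = _
  rw [zsmul_eq_mul]

lemma act_apply (r : MonoidAlgebra ℤ K) (u : K → ℂ) (g : K) : act r u g = ∑ x ∈ r.coeff.support, (r.coeff x : ℂ) * u (g * x) := by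
  conv_lhs => rw [← MonoidAlgebra.sum_coeff_single r]
  rw [Finsupp.sum, map_sum, LinearMap.sum_apply, Finset.sum_apply]
  exact Finset.sum_congr rfl fun x _ => act_single x _ u g

/-- the value in a skew field -/
noncomputable def ev {E : Type} [DivisionRing E] (ρ : K →* Eˣ) : MonoidAlgebra ℤ K →ₐ[ℤ] E :=
  MonoidAlgebra.lift ℤ E K ((Units.coeHom E).comp ρ)

lemma ev_single {E : Type} [DivisionRing E] (ρ : K →* Eˣ) (x : K) (n : ℤ) :
    ev ρ (MonoidAlgebra.single x n) = n * ((ρ x : Eˣ) : E) := by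
  unfold ev
  rw [MonoidAlgebra.lift_single]
  show n • ((ρ x : Eˣ) : E) = _
  rw [zsmul_eq_mul]

lemma ev_apply {E : Type} [DivisionRing E] (ρ : K →* Eˣ) (r : MonoidAlgebra ℤ K) :
    ev ρ r = ∑ x ∈ r.coeff.support, (r.coeff x : E) * ((ρ x : Eˣ) : E) := by
  conv_lhs => rw [← MonoidAlgebra.sum_coeff_single r]
  rw [Finsupp.sum, map_sum]
  exact Finset.sum_congr rfl fun x _ => ev_single ρ x _

/-- support in a subgroup -/
def SupIn (H : Subgroup K) (r : MonoidAlgebra ℤ K) : Prop := ∀ x ∈ r.coeff.support, x ∈ H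

lemma SupIn.single {H : Subgroup K} {x : K} (hx : x ∈ H) (n : ℤ) : SupIn H (MonoidAlgebra.single x n) := by
  intro y hy
  rw [MonoidAlgebra.coeff_single] at hy
  have h1 := Finsupp.support_single_subset hy
  rw [Finset.mem_singleton] at h1
  rw [h1]
  exact hx

lemma SupIn.add {H : Subgroup K} {r s : MonoidAlgebra ℤ K} (hr : SupIn H r) (hs : SupIn H s) : SupIn H (r + s) := by
  classical
  intro x hx
  rw [MonoidAlgebra.coeff_add] at hx
  rcases Finset.mem_union.1 (Finsupp.support_add hx) with h | h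
  · exact hr x h
  · exact hs x h

lemma SupIn.zero (H : Subgroup K) : SupIn H (0 : MonoidAlgebra ℤ K) := by
  intro x hx
  simp at hx

lemma SupIn.sum {H : Subgroup K} {α : Type*} (s : Finset α) (r : α → MonoidAlgebra ℤ K) (h : ∀ a ∈ s, SupIn H (r a)) :
    SupIn H (∑ a ∈ s, r a) := by
  classical
  induction s using Finset.induction_on with
  | empty => simpa using SupIn.zero H
  | insert a s ha ih =>
    rw [Finset.sum_insert ha]
    exact (h a (Finset.mem_insert_self _ _)).add (ih fun b hb => h b (Finset.mem_insert_of_mem hb))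

lemma SupIn.mul {H : Subgroup K} {r s : MonoidAlgebra ℤ K} (hr : SupIn H r) (hs : SupIn H s) : SupIn H (r * s) := by
  rw [← MonoidAlgebra.sum_coeff_single r, ← MonoidAlgebra.sum_coeff_single s, Finsupp.sum, Finsupp.sum, Finset.sum_mul_sum]
  refine SupIn.sum _ _ fun x hx => SupIn.sum _ _ fun y hy => ?_
  rw [MonoidAlgebra.single_mul_single]
  exact SupIn.single (H.mul_mem (hr x hx) (hs y hy)) _

lemma ev_mem {E : Type} [DivisionRing E] (ρ : K →* Eˣ) {H : Subgroup K} {r : MonoidAlgebra ℤ K} (hr : SupIn H r) :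
    ev ρ r ∈ cl ρ H := by
  rw [ev_apply]
  exact (cl ρ H).sum_mem fun x hx => (cl ρ H).mul_mem (intCast_mem _ _) (Subfield.subset_closure ⟨x, hr x hx, rfl⟩)

/-- elements of the additive group generated by `H` -/
lemma exists_ev {E : Type} [DivisionRing E] (ρ : K →* Eˣ) {H : Subgroup K} {x : E}
    (hx : x ∈ AddSubgroup.closure ((fun g : K => ((ρ g : Eˣ) : E)) '' (H : Set K))) :
    ∃ r : MonoidAlgebra ℤ K, SupIn H r ∧ ev ρ r = x := by
  induction hx using AddSubgroup.closure_induction with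
  | mem x hx =>
    obtain ⟨g, hg, rfl⟩ := hx
    exact ⟨MonoidAlgebra.single g 1, SupIn.single hg 1, by rw [ev_single]; simp⟩
  | zero => exact ⟨0, SupIn.zero H, map_zero _⟩
  | add x y _ _ hx hy =>
    obtain ⟨r, hr, rfl⟩ := hx
    obtain ⟨s, hs, rfl⟩ := hy
    exact ⟨r + s, hr.add hs, map_add _ _ _⟩
  | neg x _ hx =>
    obtain ⟨r, hr, rfl⟩ := hx
    refine ⟨MonoidAlgebra.single 1 (-1) * r, (SupIn.single H.one_mem _).mul hr, ?_⟩
    rw [map_mul, ev_single]
    simp

/-- **linear relations** -/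
def Lin {E : Type} [DivisionRing E] (ρ : K →* Eˣ) (H : Subgroup K) (X : Set E) : Prop :=
  ∀ (I J : Type) [Fintype I] [Fintype J] (x : I → E) (r0 : J → MonoidAlgebra ℤ K) (r : J → I → MonoidAlgebra ℤ K)
    (u : J → K → ℂ), (∀ i, x i ∈ X) → (∀ j, SupIn H (r0 j)) → (∀ j i, SupIn H (r j i)) →
    (∀ j, ev ρ (r0 j) = ∑ i, x i * ev ρ (r j i)) → (∀ j, Memℓp (u j) 2) →
    (∀ i, ∑ j, act (r j i) (u j) = 0) → ∑ j, act (r0 j) (u j) = 0

end defs

section base
variable {K : Type} [Group K] {E : Type} [DivisionRing E]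

theorem lin_base (ρ : K →* Eˣ) (hinj : Function.Injective (ev ρ)) (H : Subgroup K) (X : Set E)
    (h : ∀ x ∈ X, ∃ n : ℕ, (n : E) ≠ 0 ∧ (n : E) * x ∈ AddSubgroup.closure ((fun g : K => ((ρ g : Eˣ) : E)) '' (H : Set K))) :
    Lin ρ H X := by
  classical
  intro I J _ _ x r0 r u hx hr0 hr hrel hu hsol
  choose n hn0 hn using fun i => h (x i) (hx i)
  choose a ha hea using fun i => exists_ev ρ (hn i)
  -- the common denominator
  set N : ℕ := ∏ i, n i with hN
  have hNi : ∀ i, ∃ m : ℕ, N = m * n i := fun i => by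
    obtain ⟨m, hm⟩ := Finset.dvd_prod_of_mem n (Finset.mem_univ i)
    exact ⟨m, by rw [hN, hm, mul_comm]⟩
  choose m hm using hNi
  have hNx : ∀ i, (N : E) * x i = ev ρ ((m i : MonoidAlgebra ℤ K) * a i) := fun i => by
    rw [map_mul, map_natCast, hea, ← mul_assoc, ← Nat.cast_mul, ← hm i]
  have key : ∀ j, (N : MonoidAlgebra ℤ K) * r0 j = ∑ i, (m i : MonoidAlgebra ℤ K) * a i * r j i := fun j => by
    apply hinj
    rw [map_mul, map_natCast, hrel j, Finset.mul_sum, map_sum]
    refine Finset.sum_congr rfl fun i _ => ?_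
    rw [← mul_assoc, hNx, ← map_mul]
  have h1 : ∑ j, act ((N : MonoidAlgebra ℤ K) * r0 j) (u j) = 0 := by
    calc ∑ j, act ((N : MonoidAlgebra ℤ K) * r0 j) (u j)
        = ∑ j, ∑ i, act ((m i : MonoidAlgebra ℤ K) * a i) (act (r j i) (u j)) := by
          refine Finset.sum_congr rfl fun j _ => ?_
          rw [key j, map_sum, LinearMap.sum_apply]
          refine Finset.sum_congr rfl fun i _ => ?_
          rw [map_mul]
          rfl
      _ = ∑ i, act ((m i : MonoidAlgebra ℤ K) * a i) (∑ j, act (r j i) (u j)) := by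
          rw [Finset.sum_comm]
          refine Finset.sum_congr rfl fun i _ => ?_
          rw [map_sum]
      _ = 0 := by
          refine Finset.sum_eq_zero fun i _ => ?_
          rw [hsol i, map_zero]
  have h2 : ∑ j, act ((N : MonoidAlgebra ℤ K) * r0 j) (u j) = N • ∑ j, act (r0 j) (u j) := by
    rw [Finset.smul_sum]
    refine Finset.sum_congr rfl fun j _ => ?_
    rw [map_mul, map_natCast]
    show (N : Module.End ℤ (K → ℂ)) (act (r0 j) (u j)) = _
    rw [Module.End.natCast_apply]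
  rw [h2] at h1
  have hN0 : N ≠ 0 := by
    rw [hN]
    refine Finset.prod_ne_zero_iff.2 fun i _ h0 => hn0 i ?_
    rw [h0, Nat.cast_zero]
  exact (smul_eq_zero.1 h1).resolve_left hN0

end base

/-! ### decomposition by cosets -/

section dec
variable {K : Type} [Group K] {C : Type} [DecidableEq C] (T : K → C) (γ : C → K)

/-- the component of degree `c` -/
noncomputable def cmp (c : C) (r : MonoidAlgebra ℤ K) : MonoidAlgebra ℤ K :=
  ∑ x ∈ r.coeff.support with T x = c, MonoidAlgebra.single (x * (γ c)⁻¹) (r.coeff x)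

lemma cmp_supIn {H : Subgroup K} {c : C} {r : MonoidAlgebra ℤ K} (h : ∀ x ∈ r.coeff.support, T x = c → x * (γ c)⁻¹ ∈ H) :
    SupIn H (cmp T γ c r) := by
  refine SupIn.sum _ _ fun x hx => ?_
  rw [Finset.mem_filter] at hx
  exact SupIn.single (h x hx.1 hx.2) _

lemma sum_cmp (s : Finset C) (r : MonoidAlgebra ℤ K) (hs : ∀ x ∈ r.coeff.support, T x ∈ s) :
    ∑ c ∈ s, cmp T γ c r * MonoidAlgebra.single (γ c) 1 = r := by
  classical
  calc ∑ c ∈ s, cmp T γ c r * MonoidAlgebra.single (γ c) 1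
      = ∑ c ∈ s, ∑ x ∈ r.coeff.support with T x = c, MonoidAlgebra.single x (r.coeff x) := by
        refine Finset.sum_congr rfl fun c _ => ?_
        rw [cmp, Finset.sum_mul]
        refine Finset.sum_congr rfl fun x _ => ?_
        rw [MonoidAlgebra.single_mul_single, inv_mul_cancel_right, mul_one]
    _ = ∑ x ∈ r.coeff.support, MonoidAlgebra.single x (r.coeff x) := Finset.sum_fiberwise_of_maps_to hs _
    _ = r := MonoidAlgebra.sum_coeff_single r

lemma cmp_eq_zero (c : C) (r : MonoidAlgebra ℤ K) (h : ∀ x ∈ r.coeff.support, T x ≠ c) : cmp T γ c r = 0 := by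
  rw [cmp, Finset.filter_false_of_mem h, Finset.sum_empty]

end dec

section up
variable {K : Type} [Group K] {E : Type} [DivisionRing E]

lemma memlp_act {r : MonoidAlgebra ℤ K} {u : K → ℂ} (hu : Memℓp u 2) : Memℓp (act r u) 2 := by
  let f : L2 K := ⟨u, hu⟩
  let F : L2 K := ∑ x ∈ r.coeff.support, (r.coeff x : ℂ) • pull (fun g : K => g * x) (mul_left_injective x) f
  have h : act r u = (F : K → ℂ) := by
    funext g
    rw [act_apply, lp.coeFn_sum, Finset.sum_apply]
    rfl
  rw [h]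
  exact F.2

theorem lin_up (ρ : K →* Eˣ) (H' H : Subgroup K) (X' X : Set E) (le : H' ≤ H) (ci : CosInd ρ H' H)
    (mem : ∀ x ∈ X', x ∈ cl ρ H') (hL : Lin ρ H' X')
    (h : ∀ x ∈ X, ∃ x' ∈ X', ∃ g ∈ H, x = x' * ((ρ g : Eˣ) : E)) : Lin ρ H X := by
  classical
  intro I J _ _ x r0 r u hx hr0 hr hrel hu hsol
  choose x' hx' q hq hxq using fun i => h (x i) (hx i)
  -- absorb the group elements
  set r' : J → I → MonoidAlgebra ℤ K := fun j i => MonoidAlgebra.single (q i) 1 * r j i with hr'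
  have hr'H : ∀ j i, SupIn H (r' j i) := fun j i => (SupIn.single (hq i) 1).mul (hr j i)
  have hrel' : ∀ j, ev ρ (r0 j) = ∑ i, x' i * ev ρ (r' j i) := fun j => by
    rw [hrel j]
    refine Finset.sum_congr rfl fun i _ => ?_
    rw [hxq i, hr', map_mul, ev_single, Int.cast_one, one_mul, mul_assoc]
  have hsol' : ∀ i, ∑ j, act (r' j i) (u j) = 0 := fun i => by
    have h1 : ∑ j, act (r' j i) (u j) = act (MonoidAlgebra.single (q i) 1) (∑ j, act (r j i) (u j)) := by
      rw [map_sum]
      refine Finset.sum_congr rfl fun j _ => ?_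
      rw [hr', map_mul]
      rfl
    rw [h1, hsol i, map_zero]
  -- representatives of the right cosets
  let st : Setoid K := QuotientGroup.rightRel H'
  let T : K → K := fun y => (Quotient.mk st y).out
  have hT : ∀ y, y * (T y)⁻¹ ∈ H' := fun y => by
    have h1 : st.r (T y) y := Quotient.exact (Quotient.out_eq (Quotient.mk st y))
    exact QuotientGroup.rightRel_apply.1 h1
  have hTT : ∀ y z, y * z⁻¹ ∈ H' → T y = T z := fun y z hyz => by
    have h1 : st.r z y := QuotientGroup.rightRel_apply.2 hyz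
    show (Quotient.mk st y).out = (Quotient.mk st z).out
    rw [Quotient.sound h1]
  have hTH : ∀ y ∈ H, T y ∈ H := fun y hy => by
    have h1 := H.mul_mem (H.inv_mem (le (hT y))) hy
    have h2 : (y * (T y)⁻¹)⁻¹ * y = T y := by group
    rwa [h2] at h1
  -- the finite set of representatives
  let s : Finset K := (Finset.univ.biUnion fun j => (r0 j).coeff.support.image T) ∪
    (Finset.univ.biUnion fun p : J × I => (r' p.1 p.2).coeff.support.image T)
  have hs0 : ∀ j, ∀ y ∈ (r0 j).coeff.support, T y ∈ s := fun j y hy =>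
    Finset.mem_union_left _ (Finset.mem_biUnion.2 ⟨j, Finset.mem_univ _, Finset.mem_image_of_mem _ hy⟩)
  have hs1 : ∀ j i, ∀ y ∈ (r' j i).coeff.support, T y ∈ s := fun j i y hy =>
    Finset.mem_union_right _ (Finset.mem_biUnion.2 ⟨(j, i), Finset.mem_univ _, Finset.mem_image_of_mem _ hy⟩)
  have hsH : ∀ g ∈ s, g ∈ H := fun g hg => by
    rcases Finset.mem_union.1 hg with h1 | h1
    · obtain ⟨j, _, h2⟩ := Finset.mem_biUnion.1 h1
      obtain ⟨y, hy, rfl⟩ := Finset.mem_image.1 h2
      exact hTH y (hr0 j y hy)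
    · obtain ⟨p, _, h2⟩ := Finset.mem_biUnion.1 h1
      obtain ⟨y, hy, rfl⟩ := Finset.mem_image.1 h2
      exact hTH y (hr'H p.1 p.2 y hy)
  have hTid : ∀ g ∈ s, T g = g := fun g hg => by
    have h0 : ∀ y, T (T y) = T y := fun y => (hTT y (T y) (hT y)).symm
    rcases Finset.mem_union.1 hg with h1 | h1
    · obtain ⟨j, _, h2⟩ := Finset.mem_biUnion.1 h1
      obtain ⟨y, hy, rfl⟩ := Finset.mem_image.1 h2
      exact h0 y
    · obtain ⟨p, _, h2⟩ := Finset.mem_biUnion.1 h1
      obtain ⟨y, hy, rfl⟩ := Finset.mem_image.1 h2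
      exact h0 y
  have hsd : ∀ g ∈ s, ∀ g' ∈ s, g * g'⁻¹ ∈ H' → g = g' := fun g hg g' hg' hgg => by
    rw [← hTid g hg, ← hTid g' hg']
    exact hTT g g' hgg
  have hc0 : ∀ j c, SupIn H' (cmp T id c (r0 j)) := fun j c => cmp_supIn T id fun y _ hyc => by
    rw [← hyc]
    exact hT y
  have hc1 : ∀ j i c, SupIn H' (cmp T id c (r' j i)) := fun j i c => cmp_supIn T id fun y _ hyc => by
    rw [← hyc]
    exact hT y
  -- the relations over `H'`
  have hcomp : ∀ j, ∀ c ∈ s, ev ρ (cmp T id c (r0 j)) = ∑ i, x' i * ev ρ (cmp T id c (r' j i)) := fun j => by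
    have h1 := ci s (fun c => ev ρ (cmp T id c (r0 j)) - ∑ i, x' i * ev ρ (cmp T id c (r' j i))) hsH hsd (fun g _ => ?_) ?_
    · intro c hc
      exact sub_eq_zero.1 (h1 c hc)
    · exact (cl ρ H').sub_mem (ev_mem ρ (hc0 j g)) ((cl ρ H').sum_mem fun i _ =>
        (cl ρ H').mul_mem (mem _ (hx' i)) (ev_mem ρ (hc1 j i g)))
    · have e1 : ∀ (w : MonoidAlgebra ℤ K), (∀ y ∈ w.coeff.support, T y ∈ s) →
          ∑ g ∈ s, ev ρ (cmp T id g w) * ((ρ g : Eˣ) : E) = ev ρ w := by
        intro w hw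
        conv_rhs => rw [← sum_cmp T id s w hw]
        rw [map_sum]
        refine Finset.sum_congr rfl fun g _ => ?_
        rw [map_mul, ev_single, Int.cast_one, one_mul]
        rfl
      simp only [sub_mul]
      rw [Finset.sum_sub_distrib, e1 _ (hs0 j), sub_eq_zero, hrel' j]
      simp only [Finset.sum_mul]
      rw [Finset.sum_comm]
      refine Finset.sum_congr rfl fun i _ => ?_
      rw [← e1 _ (hs1 j i), Finset.mul_sum]
      refine Finset.sum_congr rfl fun g _ => ?_
      rw [mul_assoc]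
  -- apply the hypothesis
  have e2 : ∀ (w : MonoidAlgebra ℤ K) (v : K → ℂ), (∀ y ∈ w.coeff.support, T y ∈ s) →
      act w v = ∑ c : s, act (cmp T id (c : K) w) (act (MonoidAlgebra.single (c : K) 1) v) := by
    intro w v hw
    conv_lhs => rw [← sum_cmp T id s w hw]
    rw [map_sum, LinearMap.sum_apply, ← Finset.sum_coe_sort]
    refine Finset.sum_congr rfl fun c _ => ?_
    rw [map_mul]
    rfl
  have h3 := hL I (J × s) x' (fun p => cmp T id (p.2 : K) (r0 p.1)) (fun p i => cmp T id (p.2 : K) (r' p.1 i))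
    (fun p => act (MonoidAlgebra.single (p.2 : K) 1) (u p.1)) hx' (fun p => hc0 _ _) (fun p i => hc1 _ _ _)
    (fun p => hcomp p.1 _ p.2.2) (fun p => memlp_act (hu p.1)) (fun i => ?_)
  · rw [Fintype.sum_prod_type] at h3
    rw [← h3]
    exact Finset.sum_congr rfl fun j _ => e2 _ _ (hs0 j)
  · rw [Fintype.sum_prod_type, ← hsol' i]
    exact Finset.sum_congr rfl fun j _ => (e2 (r' j i) (u j) (hs1 j i)).symm

end up

end SQ.BO
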