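import Pool.Agent.SQ.BO.Lin

/-!
# SQ/BO: linear relations over the group ring and `ℓ²`: one step

`lin_step`: the case `step` of `Fam`; `lin_of_fam`: **Theorem L**, every good family satisfies `Lin`.
-/

set_option autoImplicit false
set_option linter.unusedSectionVars false
set_option linter.unusedVariables false

namespace SQ.BO

open SQ.T3 Singer

/-! ### the degree homomorphism -/

section hom
variable {K : Type} [Group K]

lemma ZP.uniq {H N : Subgroup K} {t : K} (z : ZP H N t) {g : K} {m n : ℤ} (hm : g * t ^ (-m) ∈ N) (hn : g * t ^ (-n) ∈ N) :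
    m = n := by
  have h1 := N.mul_mem (N.inv_mem hm) hn
  have h2 : (g * t ^ (-m))⁻¹ * (g * t ^ (-n)) = t ^ (m - n) := by
    rw [mul_inv_rev, ← zpow_neg, neg_neg, mul_assoc, inv_mul_cancel_left, ← zpow_add, ← sub_eq_add_neg]
  rw [h2] at h1
  have h3 := z.inf _ h1
  omega

lemma ZP.hom {H N : Subgroup K} {t : K} (z : ZP H N t) :
    ∃ φ : H →* Multiplicative ℤ, (∀ g : H, (g : K) * t ^ (-dg φ g) ∈ N) ∧ dg φ ⟨t, z.mem⟩ = 1 := by
  choose n hn using fun g : H => z.gen g g.2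
  have hmul : ∀ g h : H, n (g * h) = n g + n h := by
    intro g h
    refine z.uniq (hn (g * h)) ?_
    have h1 := z.conj (t ^ n g) (H.zpow_mem z.mem _) _ (hn h)
    have h2 := N.mul_mem (hn g) h1
    have h3 : (g : K) * t ^ (-n g) * (t ^ n g * ((h : K) * t ^ (-n h)) * (t ^ n g)⁻¹) = ((g * h : H) : K) * t ^ (-(n g + n h)) := by
      rw [Subgroup.coe_mul, neg_add, zpow_add, zpow_neg, zpow_neg]
      group
    rwa [h3] at h2
  refine ⟨⟨⟨fun g => Multiplicative.ofAdd (n g), ?_⟩, fun g h => ?_⟩, hn, ?_⟩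
  · have h1 := hmul 1 1
    rw [one_mul] at h1
    have h2 : n 1 = 0 := by omega
    rw [h2]
    rfl
  · show Multiplicative.ofAdd (n (g * h)) = Multiplicative.ofAdd (n g) * Multiplicative.ofAdd (n h)
    rw [hmul]
    rfl
  · show n ⟨t, z.mem⟩ = 1
    refine z.uniq (hn ⟨t, z.mem⟩) ?_
    rw [zpow_neg, zpow_one, mul_inv_cancel]
    exact N.one_mem

end hom

/-! ### the operator of a matrix over the group ring of `H` -/

section op
variable {K : Type} [Group K] {H : Subgroup K} {I J : Type} [Fintype I] [Fintype J]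

/-- the support in `H` -/
noncomputable def supH (H : Subgroup K) (r : MonoidAlgebra ℤ K) : Finset H :=
  r.coeff.support.preimage (fun x : H => (x : K)) Subtype.val_injective.injOn

lemma sum_supH {M : Type*} [AddCommMonoid M] {r : MonoidAlgebra ℤ K} (hr : SupIn H r) (F : K → M) :
    ∑ x ∈ supH H r, F x = ∑ x ∈ r.coeff.support, F x := by
  unfold supH
  rw [Finset.sum_preimage (fun x : H => (x : K)) r.coeff.support Subtype.val_injective.injOn F]
  intro x hx hx'
  exact absurd ⟨⟨x, hr x hx⟩, rfl⟩ hx'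

/-- the operator `f ↦ (∑ⱼ rⱼᵢ fⱼ)ᵢ` -/
noncomputable def opH (H : Subgroup K) (r : J → I → MonoidAlgebra ℤ K) : E H J →L[ℂ] E H I :=
  ∑ i, ∑ j, ∑ x ∈ supH H (r j i), ((r j i).coeff (x : K) : ℂ) • (rt x).comp (col j i)

lemma equi_opH (r : J → I → MonoidAlgebra ℤ K) : Equi (opH H r) :=
  Equi.sum fun _ _ => Equi.sum fun _ _ => Equi.sum fun _ _ => ((equi_rt _).comp (equi_col _ _)).smul _

lemma opH_apply (r : J → I → MonoidAlgebra ℤ K) (f : E H J) (g : H) (i : I) :
    opH H r f (g, i) = ∑ j, ∑ x ∈ supH H (r j i), ((r j i).coeff (x : K) : ℂ) * f (g * x, j) := by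
  classical
  unfold opH
  simp only [sum_apply, lp.coeFn_sum, Finset.sum_apply, smul_apply, lp.coeFn_smul,
    Pi.smul_apply, smul_eq_mul, ContinuousLinearMap.comp_apply, rt_apply, col_apply]
  rw [Finset.sum_eq_single i]
  · simp
  · intro i' _ hi'
    refine Finset.sum_eq_zero fun j _ => Finset.sum_eq_zero fun x _ => ?_
    rw [if_neg (Ne.symm hi'), mul_zero]
  · intro h
    exact absurd (Finset.mem_univ i) h

lemma opH_eq_act {r : J → I → MonoidAlgebra ℤ K} (hr : ∀ j i, SupIn H (r j i)) (f : E H J) (u : J → K → ℂ) (g : K) (h : H)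
    (hfu : ∀ (j : J) (x : H), f (h * x, j) = u j (g * x)) (i : I) :
    opH H r f (h, i) = (∑ j, act (r j i) (u j)) g := by
  rw [opH_apply, Finset.sum_apply]
  refine Finset.sum_congr rfl fun j _ => ?_
  rw [act_apply, ← sum_supH (hr j i)]
  refine Finset.sum_congr rfl fun x _ => ?_
  rw [hfu]

lemma fp_opH (φ : H →* Multiplicative ℤ) (r : J → I → MonoidAlgebra ℤ K) (d : ℤ)
    (hd : ∀ j i, ∀ x ∈ supH H (r j i), |dg φ x| ≤ d) : FP φ d (opH H r) := by
  intro f g i hf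
  rw [opH_apply]
  refine Finset.sum_eq_zero fun j _ => Finset.sum_eq_zero fun x hx => ?_
  rw [hf, mul_zero]
  rw [dg_mul, add_sub_cancel_left]
  exact hd j i x hx

lemma exists_bound (φ : H →* Multiplicative ℤ) (r : J → I → MonoidAlgebra ℤ K) :
    ∃ d : ℕ, ∀ j i, ∀ x ∈ supH H (r j i), |dg φ x| ≤ d := by
  classical
  refine ⟨∑ j, ∑ i, ∑ x ∈ supH H (r j i), (dg φ x).natAbs, fun j i x hx => ?_⟩
  rw [Int.abs_eq_natAbs]
  have h1 : (dg φ x).natAbs ≤ ∑ x ∈ supH H (r j i), (dg φ x).natAbs :=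
    Finset.single_le_sum (f := fun x : H => (dg φ x).natAbs) (fun _ _ => Nat.zero_le _) hx
  have h2 : ∑ x ∈ supH H (r j i), (dg φ x).natAbs ≤ ∑ i, ∑ x ∈ supH H (r j i), (dg φ x).natAbs :=
    Finset.single_le_sum (f := fun i => ∑ x ∈ supH H (r j i), (dg φ x).natAbs) (fun _ _ => Nat.zero_le _) (Finset.mem_univ i)
  have h3 : ∑ i, ∑ x ∈ supH H (r j i), (dg φ x).natAbs ≤ ∑ j, ∑ i, ∑ x ∈ supH H (r j i), (dg φ x).natAbs :=
    Finset.single_le_sum (f := fun j => ∑ i, ∑ x ∈ supH H (r j i), (dg φ x).natAbs) (fun _ _ => Nat.zero_le _)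
      (Finset.mem_univ j)
  exact_mod_cast (h1.trans h2).trans h3

/-- a finite family of `ℓ²` functions -/
noncomputable def bun (v : J → L2 H) : E H J := ∑ j, push (fun g : H => (g, j)) (col_inj j) (v j)

lemma bun_apply (v : J → L2 H) (g : H) (j : J) : bun v (g, j) = v j g := by
  classical
  unfold bun
  rw [lp.coeFn_sum, Finset.sum_apply, Finset.sum_eq_single j]
  · exact push_apply (fun g : H => (g, j)) (col_inj j) (v j) g
  · intro j' _ hj'
    refine push_apply_of_notMem _ _ _ ?_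
    rintro ⟨x, hx⟩
    exact hj' (congrArg Prod.snd hx)
  · intro h
    exact absurd (Finset.mem_univ j) h

end op

/-! ### one step -/

section step
variable {K : Type} [Group K] {E' : Type} [DivisionRing E']

open Classical in
/-- the degree on `K` (zero outside of `H`) -/
noncomputable def dgK {H : Subgroup K} (φ : H →* Multiplicative ℤ) (x : K) : ℤ := if h : x ∈ H then dg φ ⟨x, h⟩ else 0

lemma dgK_mem {H : Subgroup K} (φ : H →* Multiplicative ℤ) {x : K} (h : x ∈ H) : dgK φ x = dg φ ⟨x, h⟩ := dif_pos h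

variable (ρ : K →* E'ˣ) {H N : Subgroup K} {t : K}

/-- conjugation by `t ^ p` -/
noncomputable def cnj (t : K) (p : ℤ) (r : MonoidAlgebra ℤ K) : MonoidAlgebra ℤ K :=
  MonoidAlgebra.single (t ^ p) 1 * r * MonoidAlgebra.single (t ^ (-p)) 1

lemma cnj_supIn (z : ZP H N t) (p : ℤ) {r : MonoidAlgebra ℤ K} (hr : SupIn N r) : SupIn N (cnj t p r) := by
  unfold cnj
  rw [← MonoidAlgebra.sum_coeff_single r, Finsupp.sum, Finset.mul_sum, Finset.sum_mul]
  refine SupIn.sum _ _ fun x hx => ?_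
  rw [MonoidAlgebra.single_mul_single, MonoidAlgebra.single_mul_single, zpow_neg]
  exact SupIn.single (z.conj _ (H.zpow_mem z.mem _) x (hr x hx)) _

lemma ev_cnj (p : ℤ) (r : MonoidAlgebra ℤ K) :
    ev ρ (cnj t p r) = ((ρ t ^ p : E'ˣ) : E') * ev ρ r * ((ρ t ^ (-p) : E'ˣ) : E') := by
  unfold cnj
  rw [map_mul, map_mul, ev_single, ev_single, Int.cast_one, one_mul, one_mul, map_zpow, map_zpow]

variable (φ : H →* Multiplicative ℤ)

lemma cmp_N (hφ : ∀ g : H, (g : K) * t ^ (-dg φ g) ∈ N) {r : MonoidAlgebra ℤ K} (hr : SupIn H r) (b : ℤ) :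
    SupIn N (cmp (dgK φ) (fun n : ℤ => t ^ n) b r) := by
  refine cmp_supIn _ _ fun x hx hxb => ?_
  rw [← hxb, dgK_mem φ (hr x hx), ← zpow_neg]
  exact hφ ⟨x, hr x hx⟩

variable (S : Step (cl ρ N) (cl ρ H) (ρ t))

/-- the coefficients of an element of the group ring -/
lemma kappa_ev (hφ : ∀ g : H, (g : K) * t ^ (-dg φ g) ∈ N) {r : MonoidAlgebra ℤ K} (hr : SupIn H r) (n : ℤ) :
    S.κ (ev ρ r) n = ev ρ (cmp (dgK φ) (fun n : ℤ => t ^ n) n r) := by
  classical
  set s : Finset ℤ := insert n (r.coeff.support.image (dgK φ)) with hs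
  have h1 : ev ρ r = ∑ b ∈ s, ev ρ (cmp (dgK φ) (fun n : ℤ => t ^ n) b r) * ((ρ t ^ b : E'ˣ) : E') := by
    conv_lhs => rw [← sum_cmp (dgK φ) (fun n : ℤ => t ^ n) s r fun x hx => Finset.mem_insert_of_mem (Finset.mem_image_of_mem _ hx)]
    rw [map_sum]
    refine Finset.sum_congr rfl fun b _ => ?_
    rw [map_mul, ev_single, Int.cast_one, one_mul, map_zpow]
  rw [h1, map_sum, Finset.sum_apply, Finset.sum_eq_single_of_mem n (Finset.mem_insert_self _ _)]
  · rw [S.mon _ (ev_mem ρ (cmp_N φ hφ hr n)), if_pos rfl]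
  · intro b _ hb
    rw [S.mon _ (ev_mem ρ (cmp_N φ hφ hr b)), if_neg (Ne.symm hb)]

lemma kappa_mul_mon {x : E'} (hx : x ∈ cl ρ H) (hNH : cl ρ N ≤ cl ρ H) (htH : ((ρ t : E'ˣ) : E') ∈ cl ρ H) {f : E'}
    (hf : f ∈ cl ρ N) (b n : ℤ) :
    S.κ (x * (f * ((ρ t ^ b : E'ˣ) : E'))) n =
      S.κ x (n - b) * (((ρ t ^ (n - b) : E'ˣ) : E') * f * ((ρ t ^ (-(n - b)) : E'ˣ) : E')) := by
  have h0 : ((ρ t ^ b : E'ˣ) : E') ∈ cl ρ H := by
    rw [Units.val_zpow_eq_zpow_val]
    exact (cl ρ H).zpow_mem htH b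
  rw [S.mul x hx _ ((cl ρ H).mul_mem (hNH hf) h0), finsum_eq_single _ (n - b)]
  · rw [S.mon f hf, if_pos (by ring)]
  · intro i hi
    rw [S.mon f hf, if_neg (by intro h; apply hi; omega), mul_zero, zero_mul, mul_zero]

/-- the coefficients of a product -/
lemma kappa_mul_ev (z : ZP H N t) (hφ : ∀ g : H, (g : K) * t ^ (-dg φ g) ∈ N) {x : E'} (hx : x ∈ cl ρ H)
    {r : MonoidAlgebra ℤ K} (hr : SupIn H r) (s : Finset ℤ) (hs : ∀ y ∈ r.coeff.support, dgK φ y ∈ s) (n : ℤ) :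
    S.κ (x * ev ρ r) n = ∑ b ∈ s, S.κ x (n - b) * ev ρ (cnj t (n - b) (cmp (dgK φ) (fun n : ℤ => t ^ n) b r)) := by
  classical
  have hNH : cl ρ N ≤ cl ρ H := Subfield.closure_mono (Set.image_mono z.le)
  have htH : ((ρ t : E'ˣ) : E') ∈ cl ρ H := Subfield.subset_closure ⟨t, z.mem, rfl⟩
  have h1 : ev ρ r = ∑ b ∈ s, ev ρ (cmp (dgK φ) (fun n : ℤ => t ^ n) b r) * ((ρ t ^ b : E'ˣ) : E') := by
    conv_lhs => rw [← sum_cmp (dgK φ) (fun n : ℤ => t ^ n) s r hs]
    rw [map_sum]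
    refine Finset.sum_congr rfl fun b _ => ?_
    rw [map_mul, ev_single, Int.cast_one, one_mul, map_zpow]
  rw [h1, Finset.mul_sum, map_sum, Finset.sum_apply]
  refine Finset.sum_congr rfl fun b _ => ?_
  rw [kappa_mul_mon ρ S hx hNH htH (ev_mem ρ (cmp_N φ hφ hr b)), ev_cnj]

/-- the vectors with finitely many degrees -/
lemma core (z : ZP H N t) (hφ : ∀ g : H, (g : K) * t ^ (-dg φ g) ∈ N) (X : Set E')
    (hX : ∀ x ∈ X, x ∈ cl ρ H) (hY : ∀ Y : Set E', Y.Finite → (∀ y ∈ Y, ∃ x ∈ X, ∃ u : ℤ, y = S.κ x u) → Lin ρ N Y)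
    {I J : Type} [Fintype I] [Fintype J] (x : I → E') (r0 : J → MonoidAlgebra ℤ K) (r : J → I → MonoidAlgebra ℤ K)
    (hx : ∀ i, x i ∈ X) (hr0 : ∀ j, SupIn H (r0 j)) (hr : ∀ j i, SupIn H (r j i))
    (hrel : ∀ j, ev ρ (r0 j) = ∑ i, x i * ev ρ (r j i)) (f : E H J) (Z : Finset ℤ) (hZ : ∀ g j, dg φ g ∉ Z → f (g, j) = 0)
    (hf : opH H r f = 0) : opH H (fun j (_ : Unit) => r0 j) f (1, ()) = 0 := by
  classical
  -- enlarge the window
  wlog hZ0 : ∀ j, ∀ y ∈ (r0 j).coeff.support, dgK φ y ∈ Z generalizing Z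
  · refine this (Z ∪ Finset.univ.biUnion fun j => (r0 j).coeff.support.image (dgK φ)) (fun g j hg => hZ g j fun h => hg ?_) ?_
    · exact Finset.mem_union_left _ h
    · intro j y hy
      exact Finset.mem_union_right _ (Finset.mem_biUnion.2 ⟨j, Finset.mem_univ _, Finset.mem_image_of_mem _ hy⟩)
  set γ : ℤ → K := fun n => t ^ n with hγ
  set s : Finset ℤ := Finset.univ.biUnion fun q : J × I => (r q.1 q.2).coeff.support.image (dgK φ) with hs
  have hs1 : ∀ j i, ∀ y ∈ (r j i).coeff.support, dgK φ y ∈ s := fun j i y hy =>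
    Finset.mem_biUnion.2 ⟨(j, i), Finset.mem_univ _, Finset.mem_image_of_mem _ hy⟩
  set P : Finset ℤ := Finset.image₂ (fun n b => n - b) Z s with hP
  -- the extension of `f`
  let w : J → K → ℂ := fun j y => if h : y ∈ H then f (⟨y, h⟩, j) else 0
  have hw : ∀ j (y : H), w j y = f (y, j) := fun j y => dif_pos y.2
  have hwZ : ∀ j (y : K), y ∈ H → dgK φ y ∉ Z → w j y = 0 := fun j y hy hyZ => by
    rw [dgK_mem φ hy] at hyZ
    exact (hw j ⟨y, hy⟩).trans (hZ _ _ hyZ)
  have hNH : N ≤ H := z.le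
  have htH : ∀ b : ℤ, t ^ b ∈ H := fun b => H.zpow_mem z.mem b
  -- the windows
  let v : J × Z → K → ℂ := fun q y => if y ∈ N then w q.1 (y * t ^ (q.2 : ℤ)) else 0
  have hv : ∀ q, Memℓp (v q) 2 := by
    rintro ⟨j, b⟩
    have inj1 : Function.Injective fun y : N => ((⟨(y : K) * t ^ (b : ℤ), H.mul_mem (hNH y.2) (htH b)⟩ : H), j) := by
      intro y y' h
      have h1 := congrArg (fun q : H × J => (q.1 : K)) h
      exact Subtype.ext (mul_right_cancel h1)
    have h1 : v (j, b) = (push (fun y : N => (y : K)) Subtype.val_injective (pull _ inj1 f) : K → ℂ) := by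
      funext y
      by_cases hy : y ∈ N
      · have h2 := push_apply (fun y : N => (y : K)) Subtype.val_injective (pull _ inj1 f) ⟨y, hy⟩
        simp only at h2
        rw [h2, pull_apply]
        show (if y ∈ N then w j (y * t ^ (b : ℤ)) else 0) = _
        rw [if_pos hy]
        exact hw j ⟨y * t ^ (b : ℤ), H.mul_mem (hNH hy) (htH b)⟩
      · rw [push_apply_of_notMem _ _ _ (by rintro ⟨y', rfl⟩; exact hy y'.2)]
        exact if_neg hy
    rw [h1]
    exact (push (fun y : N => (y : K)) Subtype.val_injective (pull _ inj1 f)).2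
  have hact : ∀ (q : J × Z) (a : MonoidAlgebra ℤ K), SupIn N a → ∀ y ∈ N,
      act a (v q) y = act (a * MonoidAlgebra.single (t ^ (q.2 : ℤ)) 1) (w q.1) y := by
    rintro q a ha y hy
    have h1 : act (a * MonoidAlgebra.single (t ^ (q.2 : ℤ)) 1) (w q.1) y = act a (act (MonoidAlgebra.single (t ^ (q.2 : ℤ)) 1) (w q.1)) y := by
      rw [map_mul]
      rfl
    rw [h1, act_apply, act_apply]
    refine Finset.sum_congr rfl fun x hx => ?_
    rw [act_single, Int.cast_one, one_mul]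
    show _ * (if y * x ∈ N then w q.1 (y * x * t ^ (q.2 : ℤ)) else 0) = _
    rw [if_pos (N.mul_mem hy (ha x hx))]
  have hact0 : ∀ (q : J × Z) (a : MonoidAlgebra ℤ K), SupIn N a → ∀ y, y ∉ N → act a (v q) y = 0 := by
    rintro q a ha y hy
    rw [act_apply]
    refine Finset.sum_eq_zero fun x hx => ?_
    show _ * (if y * x ∈ N then w q.1 (y * x * t ^ (q.2 : ℤ)) else 0) = _
    rw [if_neg, mul_zero]
    intro h
    exact hy ((N.mul_mem_cancel_right (ha x hx)).1 h)
  -- the relations over `N`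
  have hL := hY ((fun q : I × ℤ => S.κ (x q.1) q.2) '' ((Finset.univ ×ˢ P : Finset (I × ℤ)) : Set (I × ℤ)))
    ((Finset.finite_toSet _).image _) (by
      rintro _ ⟨q, _, rfl⟩
      exact ⟨x q.1, hx q.1, q.2, rfl⟩)
    (I × P) (J × Z) (fun q => S.κ (x q.1) q.2) (fun q => cmp (dgK φ) γ (q.2 : ℤ) (r0 q.1))
    (fun q q' => cnj t q'.2 (cmp (dgK φ) γ ((q.2 : ℤ) - q'.2) (r q.1 q'.1))) v
    (fun q => ⟨(q.1, (q.2 : ℤ)), by simp, rfl⟩) (fun q => cmp_N φ hφ (hr0 q.1) _)
    (fun q q' => cnj_supIn z _ (cmp_N φ hφ (hr q.1 q'.1) _)) ?_ hv ?_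
  · -- evaluate at `1`
    have h1 := congrFun hL 1
    rw [Finset.sum_apply, Pi.zero_apply, Fintype.sum_prod_type] at h1
    have h2 : opH H (fun j (_ : Unit) => r0 j) f (1, ()) = (∑ j, act (r0 j) (w j)) 1 := by
      refine opH_eq_act (fun j _ => hr0 j) f w 1 1 (fun j x => ?_) ()
      rw [one_mul, one_mul, hw]
    rw [h2, ← h1, Finset.sum_apply]
    refine Finset.sum_congr rfl fun j _ => ?_
    conv_lhs => rw [← sum_cmp (dgK φ) γ Z (r0 j) (hZ0 j)]
    rw [map_sum, LinearMap.sum_apply, Finset.sum_apply, ← Finset.sum_coe_sort]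
    refine Finset.sum_congr rfl fun b _ => ?_
    exact (hact (j, b) _ (cmp_N φ hφ (hr0 j) _) 1 N.one_mem).symm
  · -- the relations
    rintro ⟨j, n⟩
    have h1 : S.κ (ev ρ (r0 j)) n = S.κ (∑ i, x i * ev ρ (r j i)) n := by rw [hrel j]
    rw [kappa_ev ρ φ S hφ (hr0 j), map_sum, Finset.sum_apply] at h1
    simp only
    rw [h1, Fintype.sum_prod_type]
    refine Finset.sum_congr rfl fun i _ => ?_
    rw [kappa_mul_ev ρ φ S z hφ (hX _ (hx i)) (hr j i) s (hs1 j i) n]
    simp only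
    rw [Finset.sum_coe_sort P fun p : ℤ => S.κ (x i) p * ev ρ (cnj t p (cmp (dgK φ) γ ((n : ℤ) - p) (r j i)))]
    have h2 : s.image (fun b => (n : ℤ) - b) ⊆ P := by
      intro p hp
      obtain ⟨b, hb, rfl⟩ := Finset.mem_image.1 hp
      exact Finset.mem_image₂.2 ⟨n, n.2, b, hb, rfl⟩
    rw [← Finset.sum_subset h2]
    · rw [Finset.sum_image fun a _ b _ hab => by simpa using hab]
      refine Finset.sum_congr rfl fun b _ => ?_
      rw [sub_sub_cancel]
    · intro p _ hp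
      rw [cmp_eq_zero, cnj, mul_zero, zero_mul, map_zero, mul_zero]
      intro y hy hyp
      refine hp (Finset.mem_image.2 ⟨dgK φ y, hs1 j i y hy, ?_⟩)
      rw [hyp, sub_sub_cancel]
  · -- the equations
    rintro ⟨i, p⟩
    funext y
    rw [Finset.sum_apply, Pi.zero_apply]
    simp only
    by_cases hy : y ∈ N
    · have hsum : (∑ j, act (r j i) (w j)) (y * t ^ (p : ℤ)) = 0 := by
        have hy2 : y * t ^ (p : ℤ) ∈ H := H.mul_mem (hNH hy) (htH _)
        rw [← opH_eq_act hr f w (y * t ^ (p : ℤ)) ⟨y * t ^ (p : ℤ), hy2⟩ (fun j x => by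
          rw [← hw]; rfl) i, hf]
        rfl
      rw [← hsum, Finset.sum_apply, Fintype.sum_prod_type]
      refine Finset.sum_congr rfl fun j _ => ?_
      have h1 : ∀ b : Z, act (cnj t p (cmp (dgK φ) γ ((b : ℤ) - p) (r j i))) (v (j, b)) y =
          act (cmp (dgK φ) γ ((b : ℤ) - p) (r j i) * MonoidAlgebra.single (γ ((b : ℤ) - p)) 1) (w j) (y * t ^ (p : ℤ)) := by
        intro b
        rw [hact (j, b) _ (cnj_supIn z _ (cmp_N φ hφ (hr j i) _)) y hy]
        have h2 : cnj t p (cmp (dgK φ) γ ((b : ℤ) - p) (r j i)) * MonoidAlgebra.single (t ^ (b : ℤ)) 1 =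
            MonoidAlgebra.single (t ^ (p : ℤ)) 1 *
              (cmp (dgK φ) γ ((b : ℤ) - p) (r j i) * MonoidAlgebra.single (γ ((b : ℤ) - p)) 1) := by
          unfold cnj
          have h0 : t ^ (-(p : ℤ)) * t ^ (b : ℤ) = γ ((b : ℤ) - p) := by
            rw [← zpow_add, neg_add_eq_sub]
          rw [mul_assoc, mul_assoc, MonoidAlgebra.single_mul_single, h0, one_mul]
        rw [h2]
        have h3 : act (MonoidAlgebra.single (t ^ (p : ℤ)) 1 *
              (cmp (dgK φ) γ ((b : ℤ) - p) (r j i) * MonoidAlgebra.single (γ ((b : ℤ) - p)) 1)) (w j) y =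
            act (MonoidAlgebra.single (t ^ (p : ℤ)) 1)
              (act (cmp (dgK φ) γ ((b : ℤ) - p) (r j i) * MonoidAlgebra.single (γ ((b : ℤ) - p)) 1) (w j)) y := by
          rw [map_mul]
          rfl
        rw [h3, act_single, Int.cast_one, one_mul]
      simp only [h1]
      rw [Finset.sum_coe_sort Z fun b : ℤ =>
        act (cmp (dgK φ) γ (b - p) (r j i) * MonoidAlgebra.single (γ (b - p)) 1) (w j) (y * t ^ (p : ℤ))]
      set sp : Finset ℤ := Z.image (fun b => b - (p : ℤ)) ∪ s with hsp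
      conv_rhs => rw [← sum_cmp (dgK φ) γ sp (r j i) fun x hx => Finset.mem_union_right _ (hs1 j i x hx)]
      rw [map_sum, LinearMap.sum_apply, Finset.sum_apply, ← Finset.sum_subset (Finset.subset_union_left (s₂ := s))]
      · rw [Finset.sum_image fun a _ b _ hab => by simpa using hab]
      · intro c _ hc
        have h4 : ∀ a : MonoidAlgebra ℤ K, act (a * MonoidAlgebra.single (γ c) 1) (w j) (y * t ^ (p : ℤ)) =
            act a (act (MonoidAlgebra.single (γ c) 1) (w j)) (y * t ^ (p : ℤ)) := by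
          intro a
          rw [map_mul]
          rfl
        rw [h4, act_apply]
        refine Finset.sum_eq_zero fun x' hx' => ?_
        rw [act_single, Int.cast_one, one_mul]
        have hxN : x' ∈ N := cmp_N φ hφ (hr j i) c x' hx'
        have hmem : y * t ^ (p : ℤ) * x' * γ c ∈ H :=
          H.mul_mem (H.mul_mem (H.mul_mem (hNH hy) (htH _)) (hNH hxN)) (htH _)
        rw [hwZ j _ hmem, mul_zero]
        intro hZ'
        refine hc (Finset.mem_image.2 ⟨_, hZ', ?_⟩)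
        -- the degree
        have h5 : dgK φ (y * t ^ (p : ℤ) * x' * γ c) = p + c := by
          rw [dgK_mem φ hmem]
          refine z.uniq (hφ ⟨_, hmem⟩) ?_
          show y * t ^ (p : ℤ) * x' * t ^ c * t ^ (-((p : ℤ) + c)) ∈ N
          have h6 : y * t ^ (p : ℤ) * x' * t ^ c * t ^ (-((p : ℤ) + c)) = y * (t ^ (p : ℤ) * x' * (t ^ (p : ℤ))⁻¹) := by
            rw [neg_add_rev, zpow_add, zpow_neg, zpow_neg]
            group
          rw [h6]
          exact N.mul_mem hy (z.conj _ (htH _) x' hxN)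
        rw [h5]
        ring
    · refine Finset.sum_eq_zero fun q _ => ?_
      exact hact0 q _ (cnj_supIn z _ (cmp_N φ hφ (hr _ _) _)) y hy

theorem lin_step (z : ZP H N t) (X : Set E') (hX : ∀ x ∈ X, x ∈ cl ρ H)
    (hY : ∀ Y : Set E', Y.Finite → (∀ y ∈ Y, ∃ x ∈ X, ∃ u : ℤ, y = S.κ x u) → Lin ρ N Y) : Lin ρ H X := by
  classical
  intro I J _ _ x r0 r u hx hr0 hr hrel hu hsol
  obtain ⟨φ, hφ, hφt⟩ := z.hom
  obtain ⟨d1, hd1⟩ := exists_bound φ r
  obtain ⟨d2, hd2⟩ := exists_bound φ (fun j (_ : Unit) => r0 j)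
  funext g0
  let F : E H J := bun fun j => pull (fun h : H => g0 * h) (fun a b hab => Subtype.ext (mul_left_cancel hab)) (⟨u j, hu j⟩ : L2 K)
  have hF : ∀ (j : J) (x : H), F (1 * x, j) = u j (g0 * x) := fun j x => by
    rw [one_mul]
    exact bun_apply _ x j
  have h1 := win φ ⟨t, z.mem⟩ hφt (opH H r) (opH H (fun j (_ : Unit) => r0 j)) (equi_opH _) (equi_opH _) (max d1 d2)
    (fp_opH φ r _ fun j i x hx => (hd1 j i x hx).trans (by exact_mod_cast le_max_left d1 d2))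
    (fp_opH φ _ _ fun j i x hx => (hd2 j i x hx).trans (by exact_mod_cast le_max_right d1 d2)) ?_ F ?_
  · have h2 := opH_eq_act (fun j (_ : Unit) => hr0 j) F u g0 1 hF ()
    rw [h1] at h2
    exact h2.symm
  · rintro f ⟨Z, hZ⟩ hf
    ext ⟨g, i⟩
    have h3 := core ρ φ S z hφ X hX hY x r0 r hx hr0 hr hrel (lam g⁻¹ f) (Z.image fun b => b - dg φ g) (fun h j hh => ?_) ?_
    · rw [equi_opH, lam_apply, inv_inv] at h3
      simp only [mul_one] at h3
      exact h3
    · rw [lam_apply, inv_inv]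
      refine hZ _ _ fun h4 => hh (Finset.mem_image.2 ⟨_, h4, ?_⟩)
      rw [dg_mul]
      ring
    · rw [equi_opH, hf, map_zero]
  · ext ⟨h, i⟩
    have h5 : ∀ (j : J) (x : H), F (h * x, j) = u j (g0 * h * x) := fun j x => by
      rw [mul_assoc]
      exact bun_apply _ (h * x) j
    rw [opH_eq_act hr F u (g0 * h) h h5 i, hsol i]
    rfl

end step

/-- **Theorem L** -/
theorem lin_of_fam {K : Type} [Group K] {E₁ E₂ : Type} [DivisionRing E₁] [DivisionRing E₂] {ρ₁ : K →* E₁ˣ} {ρ₂ : K →* E₂ˣ}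
    (hinj : Function.Injective (ev ρ₁)) {H : Subgroup K} {X : Set E₁} (h : Fam ρ₁ ρ₂ H X) : Lin ρ₁ H X := by
  induction h with
  | base H X h => exact lin_base ρ₁ hinj H X h
  | up H' H X' X le ci mem _ h ih => exact lin_up ρ₁ H' H X' X le ci mem ih h
  | step N H t X zp S1 S2 mem _ ih => exact lin_step ρ₁ S1 zp X mem ih

end SQ.BO
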