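import Pool.Agent.SQ.BO.MN
import Pool.Agent.SQ.BO.Fam
import Pool.Agent.SQ.BO.Hoelder
import Pool.Agent.SQ.T5.Apx

/-!
# The Malcev-Neumann skew field of a bi-ordered group

Functoriality in the coefficients, the skew field, independence of the cosets of all subgroups, the opposite order.
-/

set_option autoImplicit false
set_option linter.unusedSectionVars false

noncomputable section

namespace SQ.BO

open SQ.T3

namespace MN

/-! ### functoriality -/

section map
variable {G R R' : Type} [Group G] [LinearOrder G] [MulLeftMono G] [MulRightMono G] [Ring R] [Ring R']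

/-- functoriality in the coefficients -/
def map (f : R →+* R') : MN G R →+* MN G R' where
  toFun x := ⟨fun g => f (x.c g), x.pwo.mono fun g hg => fun h => hg (by
    show f (x.c g) = 0
    rw [h, map_zero])⟩
  map_one' := MN.ext (funext fun g => by
    show f ((1 : MN G R).c g) = (1 : MN G R').c g
    rw [one_c, one_c]
    split_ifs
    · exact map_one f
    · exact map_zero f)
  map_mul' x y := MN.ext (funext fun g => by
    show f ((x * y).c g) = ∑ᶠ a, f (x.c a) * f (y.c (a⁻¹ * g))
    rw [mul_c, map_finsum f (supp_fin x y g)]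
    exact finsum_congr fun a => map_mul f _ _)
  map_zero' := MN.ext (funext fun g => map_zero f)
  map_add' x y := MN.ext (funext fun g => map_add f _ _)

theorem map_c (f : R →+* R') (x : MN G R) (g : G) : (map f x).c g = f (x.c g) := rfl

theorem map_sg (f : R →+* R') (g : G) (r : R) : map f (sg g r) = sg g (f r) := by
  refine MN.ext (funext fun h => ?_)
  rw [map_c, sg_c, sg_c]
  split_ifs
  · rfl
  · exact map_zero f

theorem map_of (f : R →+* R') (g : G) : map f ((of g : (MN G R)ˣ) : MN G R) = ((of g : (MN G R')ˣ) : MN G R') := by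
  rw [of_val, of_val, map_sg, map_one]

end map

/-! ### the skew field -/

section div
variable {G D : Type} [Group G] [LinearOrder G] [MulLeftMono G] [MulRightMono G] [DivisionRing D]

instance : Nontrivial (MN G D) := ⟨0, 1, fun h => by
  have h1 := congrArg (fun x : MN G D => x.c 1) h
  simp only [zero_c, one_c, if_true] at h1
  exact zero_ne_one h1⟩

/-- the smallest element of the support -/
theorem exists_lead {R : Type} [Ring R] {x : MN G R} (hx : x ≠ 0) : ∃ g, x.c g ≠ 0 ∧ ∀ h, h < g → x.c h = 0 := by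
  obtain ⟨g, hg⟩ : ∃ g, x.c g ≠ 0 := by
    by_contra hcon
    push Not at hcon
    exact hx (MN.ext (funext hcon))
  obtain ⟨m, hm⟩ := x.pwo.exists_minimal ⟨g, hg⟩
  refine ⟨m, hm.1, fun h hh => ?_⟩
  by_contra hne
  exact absurd (hm.2 hne hh.le) (not_le.2 hh)

theorem exists_inv {x : MN G D} (hx : x ≠ 0) : ∃ y, x * y = 1 ∧ y * x = 1 ∧ ∀ N : Subgroup G, In N x → In N y := by
  obtain ⟨g, hg, hmin⟩ := exists_lead hx
  obtain ⟨y, h1, h2, h3⟩ := unit_of_lead (isUnit_iff_ne_zero.2 hg) hmin
  exact ⟨y, h1, h2, fun N hN => h3 N (hN g hg) hN⟩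

instance divisionRing : DivisionRing (MN G D) :=
  DivisionRing.ofIsUnitOrEqZero (R := MN G D) fun x => by
    by_cases h : x = 0
    · exact Or.inr h
    · obtain ⟨y, h1, h2, _⟩ := exists_inv h
      exact Or.inl ⟨⟨x, y, h1, h2⟩, rfl⟩

instance algebra2 [Algebra (ZMod 2) D] : Algebra (ZMod 2) (MN G D) :=
  RingHom.toAlgebra' ({
    toFun := fun r => sg 1 (algebraMap (ZMod 2) D r)
    map_one' := by
      rw [map_one]
      rfl
    map_mul' := fun a b => by rw [sg_mul_sg, one_mul, map_mul]
    map_zero' := by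
      refine MN.ext (funext fun h => ?_)
      rw [sg_c, map_zero, ite_self]
      rfl
    map_add' := fun a b => by
      refine MN.ext (funext fun h => ?_)
      rw [add_c, sg_c, sg_c, sg_c, map_add]
      split_ifs
      · rfl
      · rw [add_zero] } : ZMod 2 →+* MN G D) fun r x => by
    show sg 1 (algebraMap (ZMod 2) D r) * x = x * sg 1 (algebraMap (ZMod 2) D r)
    refine MN.ext (funext fun h => ?_)
    rw [sg_mul_c, mul_sg_c, inv_one, one_mul, mul_one]
    exact Algebra.commutes r _

/-- the series with support in a subgroup -/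
def sub (N : Subgroup G) : Subfield (MN G D) where
  carrier := {x | In N x}
  one_mem' := In.one N
  zero_mem' := In.zero N
  mul_mem' hx hy := In.mul hx hy
  add_mem' hx hy := In.add hx hy
  neg_mem' hx := In.neg hx
  inv_mem' x hx := by
    by_cases h : x = 0
    · show In N x⁻¹
      rw [h, inv_zero]
      exact In.zero N
    · obtain ⟨y, h1, _, h3⟩ := exists_inv h
      have h4 : x⁻¹ = y := inv_eq_of_mul_eq_one_right h1
      show In N x⁻¹
      rw [h4]
      exact h3 N hx

theorem cl_le (N : Subgroup G) : cl (of : G →* (MN G D)ˣ) N ≤ sub N := by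
  rw [cl, Subfield.closure_le]
  rintro _ ⟨g, hg, rfl⟩
  exact In.sg hg 1

/-- independence for series with disjoint supports -/
theorem indep {R : Type} [Ring R] (N : Subgroup G) (s : Finset G) (a : G → MN G R)
    (hs : ∀ g ∈ s, ∀ g' ∈ s, g * g'⁻¹ ∈ N → g = g') (ha : ∀ g ∈ s, In N (a g))
    (h0 : ∑ g ∈ s, a g * ((of g : (MN G R)ˣ) : MN G R) = 0) : ∀ g ∈ s, a g = 0 := by
  intro g hg
  refine MN.ext (funext fun h => ?_)
  rw [zero_c]
  by_cases hh : h ∈ N
  · have h1 := congrArg (fun x : MN G R => x.c (h * g)) h0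
    simp only [sum_c, zero_c] at h1
    rw [Finset.sum_eq_single g] at h1
    · rw [mul_of_c, mul_inv_cancel_right] at h1
      exact h1
    · intro g' hg' hne
      rw [mul_of_c]
      by_contra h2
      have h3 := ha g' hg' _ h2
      rw [mul_assoc] at h3
      exact hne (hs g hg g' hg' ((N.mul_mem_cancel_left hh).1 h3)).symm
    · intro h2
      exact absurd hg h2
  · by_contra h2
    exact hh (ha g hg h h2)

/-- **independence of the cosets of all subgroups** -/
theorem cosInd (N H : Subgroup G) : CosInd (of : G →* (MN G D)ˣ) N H := by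
  intro s a _ hs ha h0
  exact indep N s a hs (fun g hg => cl_le N (ha g hg)) h0

end div

end MN

/-- independence of the powers from the independence of the cosets -/
theorem ind_of_cosInd {K E : Type} [Group K] [DivisionRing E] {ρ : K →* Eˣ} {S N : Subgroup K} {t : K} (h : ZP S N t)
    (hc : CosInd ρ N S) : BO.Ind ρ N t := by
  classical
  intro c hcN h0
  have hinj : Function.Injective fun u : ℤ => t ^ u := by
    intro u v huv
    have h1 : t ^ (u - v) = 1 := by
      rw [zpow_sub]
      show (fun u : ℤ => t ^ u) u * (t ^ v)⁻¹ = 1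
      rw [huv, mul_inv_cancel]
    have := h.inf (u - v) (by rw [h1]; exact N.one_mem)
    omega
  let e : ℤ ↪ K := ⟨fun u => t ^ u, hinj⟩
  let a : K → E := fun g => if hg : ∃ u : ℤ, t ^ u = g then c hg.choose else 0
  have ha : ∀ u : ℤ, a (t ^ u) = c u := by
    intro u
    have hex : ∃ v : ℤ, t ^ v = t ^ u := ⟨u, rfl⟩
    have h1 : hex.choose = u := hinj hex.choose_spec
    show (if hg : ∃ v : ℤ, t ^ v = t ^ u then c hg.choose else 0) = c u
    rw [dif_pos hex, h1]
  have h2 := hc (c.support.map e) a (fun g hg => by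
      obtain ⟨u, _, rfl⟩ := Finset.mem_map.1 hg
      exact S.zpow_mem h.mem u) (fun g hg g' hg' hN => by
      obtain ⟨u, _, rfl⟩ := Finset.mem_map.1 hg
      obtain ⟨v, _, rfl⟩ := Finset.mem_map.1 hg'
      have h3 : t ^ (u - v) ∈ N := by
        rw [zpow_sub]
        exact hN
      have := h.inf _ h3
      have h4 : u = v := by omega
      rw [h4]) (fun g hg => by
      obtain ⟨u, _, rfl⟩ := Finset.mem_map.1 hg
      show a (t ^ u) ∈ cl ρ N
      rw [ha]
      exact hcN u) (by
      rw [Finset.sum_map, ← h0, Finsupp.sum]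
      refine Finset.sum_congr rfl fun u _ => ?_
      show a (t ^ u) * ((ρ (t ^ u) : Eˣ) : E) = _
      rw [ha, map_zpow])
  ext u
  rw [Finsupp.coe_zero, Pi.zero_apply]
  by_cases hu : u ∈ c.support
  · rw [← ha]
    exact h2 _ (Finset.mem_map.2 ⟨u, hu, rfl⟩)
  · exact Finsupp.notMem_support_iff.1 hu

/-- the local independence from the local indicability and the independence of the cosets of all subgroups -/
theorem loc_of_li {K E₁ E₂ : Type} [Group K] [DivisionRing E₁] [DivisionRing E₂] {ρ₁ : K →* E₁ˣ} {ρ₂ : K →* E₂ˣ}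
    (hL : SQ.T5.LI K) (h1 : ∀ N H : Subgroup K, CosInd ρ₁ N H) (h2 : ∀ N H : Subgroup K, CosInd ρ₂ N H) :
    SQ.T5.Loc ρ₁ ρ₂ := by
  intro S hS hne
  obtain ⟨χ, hχ⟩ := hL S hS hne
  obtain ⟨t, ht⟩ := SQ.T5.zp_of_chi S χ hχ
  exact ⟨_, t, ht, ind_of_cosInd ht (h1 _ _), ind_of_cosInd ht (h2 _ _)⟩

end SQ.BO
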