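import Pool.Agent.SQ.BO.MN2

/-!
# The two Malcev-Neumann skew fields of a bi-ordered group

`BOrd G`: the bi-invariant linear orders of `G`; `MF o R`: the Malcev-Neumann ring of the order `o`; `o.op`: the opposite order;
`flip`: the anti-isomorphism `f ↦ (g ↦ f g⁻¹)` of `MF o R` and `MF o.op R`.
-/

set_option autoImplicit false
set_option linter.unusedSectionVars false

noncomputable section

namespace SQ.BO

open SQ.T3

/-- bi-invariant linear orders -/
structure BOrd (G : Type) [Group G] where
  lo : LinearOrder G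
  left : ∀ a b d : G, lo.le a b → lo.le (d * a) (d * b)
  right : ∀ a b d : G, lo.le a b → lo.le (a * d) (b * d)

namespace BOrd

variable {G : Type} [Group G]

theorem mulLeftMono (o : BOrd G) : letI := o.lo; MulLeftMono G := ⟨fun d a b h => o.left a b d h⟩

theorem mulRightMono (o : BOrd G) : letI := o.lo; MulRightMono G := ⟨fun d a b h => o.right a b d h⟩

/-- the opposite order -/
def op (o : BOrd G) : BOrd G where
  lo := letI := o.lo; (inferInstance : LinearOrder Gᵒᵈ)
  left a b d h := o.left b a d h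
  right a b d h := o.right b a d h

theorem li (o : BOrd G) : SQ.T5.LI G :=
  letI := o.lo
  li_of_biord o.left o.right

end BOrd

section MF
variable {G : Type} [Group G] (o : BOrd G) (R : Type) [Ring R]

/-- the Malcev-Neumann ring of the order `o` -/
def MF : Type := letI := o.lo; MN G R

instance ringMF : Ring (MF o R) :=
  letI := o.lo
  haveI := o.mulLeftMono
  haveI := o.mulRightMono
  (inferInstance : Ring (MN G R))

instance divMF (D : Type) [DivisionRing D] : DivisionRing (MF o D) :=
  letI := o.lo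
  haveI := o.mulLeftMono
  haveI := o.mulRightMono
  (inferInstance : DivisionRing (MN G D))

instance algMF (D : Type) [DivisionRing D] [Algebra (ZMod 2) D] : Algebra (ZMod 2) (MF o D) :=
  letI := o.lo
  haveI := o.mulLeftMono
  haveI := o.mulRightMono
  (inferInstance : Algebra (ZMod 2) (MN G D))

/-- the group elements -/
def rho : G →* (MF o R)ˣ :=
  letI := o.lo
  haveI := o.mulLeftMono
  haveI := o.mulRightMono
  (MN.of : G →* (MN G R)ˣ)

theorem cosInd_rho (D : Type) [DivisionRing D] (N H : Subgroup G) : CosInd (rho o D) N H :=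
  letI := o.lo
  haveI := o.mulLeftMono
  haveI := o.mulRightMono
  MN.cosInd N H

variable {R}

/-- the coefficients -/
def MF.c (x : MF o R) : G → R :=
  letI := o.lo
  MN.c x

variable {o}

theorem MF.ext {x y : MF o R} (h : ∀ g, MF.c o x g = MF.c o y g) : x = y :=
  letI := o.lo
  MN.ext (funext h)

theorem MF.mul_c (x y : MF o R) (g : G) : MF.c o (x * y) g = ∑ᶠ a, MF.c o x a * MF.c o y (a⁻¹ * g) := rfl

theorem MF.rho_self (g : G) : MF.c o ((rho o R g : (MF o R)ˣ) : MF o R) g = 1 :=
  letI := o.lo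
  haveI := o.mulLeftMono
  haveI := o.mulRightMono
  ((MN.sg_c (R := R) g 1 g).trans (if_pos rfl))

theorem MF.rho_ne {g h : G} (hgh : h ≠ g) : MF.c o ((rho o R g : (MF o R)ˣ) : MF o R) h = 0 :=
  letI := o.lo
  haveI := o.mulLeftMono
  haveI := o.mulRightMono
  ((MN.sg_c (R := R) g 1 h).trans (if_neg hgh))

end MF

section flip
variable {G : Type} [Group G] (o : BOrd G) {R : Type} [CommRing R]

theorem BOrd.inv_op (a b : G) (h : o.lo.le a b) : o.op.lo.le a⁻¹ b⁻¹ :=
  letI := o.lo
  haveI := o.mulLeftMono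
  haveI := o.mulRightMono
  show b⁻¹ ≤ a⁻¹ from inv_le_inv_iff.2 h

theorem BOrd.op_inv (a b : G) (h : o.op.lo.le a b) : o.lo.le a⁻¹ b⁻¹ :=
  letI := o.lo
  haveI := o.mulLeftMono
  haveI := o.mulRightMono
  show a⁻¹ ≤ b⁻¹ from inv_le_inv_iff.2 h

/-- inversion of the argument, for two orders -/
def flipG (o o' : BOrd G) (h : ∀ a b : G, o.lo.le a b → o'.lo.le a⁻¹ b⁻¹) (x : MF o R) : MF o' R :=
  @MN.mk G R (@PartialOrder.toPreorder G o'.lo.toPartialOrder) _ (fun g => MF.c o x g⁻¹) (by
    have h1 := @Set.IsPWO.image_of_monotone G G (@PartialOrder.toPreorder G o.lo.toPartialOrder)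
      (@PartialOrder.toPreorder G o'.lo.toPartialOrder) _
      (@MN.pwo G R (@PartialOrder.toPreorder G o.lo.toPartialOrder) _ x) (fun g => g⁻¹) h
    refine @Set.IsPWO.mono G (@PartialOrder.toPreorder G o'.lo.toPartialOrder) _ _ h1 fun g hg => ⟨g⁻¹, hg, inv_inv g⟩)

/-- inversion of the argument -/
def flip (x : MF o R) : MF o.op R := flipG o o.op o.inv_op x

theorem flip_c (x : MF o R) (g : G) : MF.c o.op (flip o x) g = MF.c o x g⁻¹ := rfl

theorem flip_mul (x y : MF o R) : flip o (x * y) = flip o y * flip o x := by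
  refine MF.ext fun g => ?_
  rw [flip_c, MF.mul_c, MF.mul_c, ← finsum_comp_equiv (Equiv.mulLeft g⁻¹)]
  refine finsum_congr fun a => ?_
  rw [flip_c, flip_c, Equiv.coe_mulLeft, mul_comm]
  congr 2
  · rw [mul_inv_rev, inv_inv, mul_assoc, mul_inv_cancel, mul_one]
  · rw [mul_inv_rev, inv_inv]

theorem flip_add (x y : MF o R) : flip o (x + y) = flip o x + flip o y := rfl

theorem flip_rho (g : G) : flip o ((rho o R g : (MF o R)ˣ) : MF o R) = ((rho o.op R g⁻¹ : (MF o.op R)ˣ) : MF o.op R) := by
  refine MF.ext fun h => ?_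
  rw [flip_c]
  by_cases hh : h = g⁻¹
  · rw [hh, inv_inv, MF.rho_self, MF.rho_self]
  · rw [MF.rho_ne hh, MF.rho_ne]
    intro h1
    exact hh (by rw [← h1, inv_inv])

theorem flip_inj : Function.Injective (flip o : MF o R → MF o.op R) := by
  intro x y hxy
  refine MF.ext fun g => ?_
  have h1 := congrArg (fun z => MF.c o.op z g⁻¹) hxy
  simp only [flip_c, inv_inv] at h1
  exact h1

/-- inversion of the argument, backwards -/
def unflip (y : MF o.op R) : MF o R := flipG o.op o o.op_inv y

theorem unflip_c (y : MF o.op R) (g : G) : MF.c o (unflip o y) g = MF.c o.op y g⁻¹ := rfl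

/-- **the anti-isomorphism** -/
def flipEquiv : MF o R ≃+* (MF o.op R)ᵐᵒᵖ where
  toFun x := MulOpposite.op (flip o x)
  invFun y := unflip o (MulOpposite.unop y)
  left_inv x := MF.ext fun g => by
    rw [unflip_c, MulOpposite.unop_op, flip_c, inv_inv]
  right_inv y := MulOpposite.unop_injective (MF.ext fun g => by
    rw [MulOpposite.unop_op, flip_c, unflip_c, inv_inv])
  map_mul' x y := by rw [flip_mul, MulOpposite.op_mul]
  map_add' x y := by rw [flip_add, MulOpposite.op_add]

theorem flipEquiv_rho (g : G) : flipEquiv o ((rho o R g : (MF o R)ˣ) : MF o R) =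
    MulOpposite.op ((rho o.op R g⁻¹ : (MF o.op R)ˣ) : MF o.op R) := congrArg MulOpposite.op (flip_rho o g)

end flip

/-- **the local independence in the two skew fields** -/
theorem loc_MF {G : Type} [Group G] (o : BOrd G) (D : Type) [DivisionRing D] :
    SQ.T5.Loc (rho o D) (rho o.op D) :=
  loc_of_li o.li (cosInd_rho o D) (cosInd_rho o.op D)

end SQ.BO
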