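import Pool.Agent.SQ.BO.Defs

/-!
# SQ/BO: independence from the projections
-/

set_option autoImplicit false

noncomputable section

namespace SQ.BO

open SQ.T3

section prj
variable {K : Type} [Group K] {E : Type} [DivisionRing E] {ρ : K →* Eˣ}

/-- the projection to a right coset of `N` is linear over the division closure of `N` -/
theorem Proj.mul_left (P : Proj ρ) (N : Subgroup K) (g : K) {x : E} (hx : x ∈ cl ρ N) (y : E) :
    P.π {h | h * g⁻¹ ∈ N} (x * y) = x * P.π {h | h * g⁻¹ ∈ N} y := by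
  have key : ∀ x ∈ cl ρ N, ∀ y : E, P.π {h | h * g⁻¹ ∈ N} (x * y) = x * P.π {h | h * g⁻¹ ∈ N} y := by
    intro x hx
    refine Subfield.closure_induction (p := fun x _ => ∀ y : E,
      P.π {h | h * g⁻¹ ∈ N} (x * y) = x * P.π {h | h * g⁻¹ ∈ N} y) ?_ ?_ ?_ ?_ ?_ ?_ hx
    · rintro _ ⟨h, hh, rfl⟩ y
      have h1 := P.left h {h | h * g⁻¹ ∈ N} y
      have h2 : {k : K | h⁻¹ * k ∈ {h | h * g⁻¹ ∈ N}} = {h | h * g⁻¹ ∈ N} := by
        ext k
        show h⁻¹ * k * g⁻¹ ∈ N ↔ k * g⁻¹ ∈ N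
        rw [mul_assoc]
        exact Subgroup.mul_mem_cancel_left _ (inv_mem hh)
      rw [h2] at h1
      exact h1
    · intro y
      rw [one_mul, one_mul]
    · intro a b _ _ ha hb y
      rw [add_mul, map_add, ha, hb, add_mul]
    · intro a _ ha y
      rw [neg_mul, map_neg, ha, neg_mul]
    · intro a _ ha y
      by_cases h0 : a = 0
      · rw [h0, inv_zero, zero_mul, map_zero, zero_mul]
      · have h1 := ha (a⁻¹ * y)
        rw [← mul_assoc, mul_inv_cancel₀ h0, one_mul] at h1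
        rw [h1, ← mul_assoc, inv_mul_cancel₀ h0, one_mul]
    · intro a b _ _ ha hb y
      rw [mul_assoc, ha, hb, mul_assoc]
  exact key x hx y

/-- elements in different right cosets are left independent -/
theorem Proj.indep (P : Proj ρ) (N : Subgroup K) {ι : Type} (s : Finset ι) (g : ι → K) (a : ι → E)
    (ha : ∀ i ∈ s, a i ∈ cl ρ N) (hd : ∀ i ∈ s, ∀ j ∈ s, g i * (g j)⁻¹ ∈ N → i = j)
    (h0 : ∑ i ∈ s, a i * ((ρ (g i) : Eˣ) : E) = 0) : ∀ i ∈ s, a i = 0 := by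
  classical
  intro i hi
  have h1 := congrArg (P.π {h | h * (g i)⁻¹ ∈ N}) h0
  rw [map_sum, map_zero, Finset.sum_eq_single i] at h1
  · rw [P.mul_left N (g i) (ha i hi), P.mem {h | h * (g i)⁻¹ ∈ N} (g i) (by
      show g i * (g i)⁻¹ ∈ N
      rw [mul_inv_cancel]
      exact one_mem N)] at h1
    exact (mul_eq_zero.1 h1).resolve_right (Units.ne_zero _)
  · intro j hj hji
    rw [P.mul_left N (g i) (ha j hj), P.not_mem {h | h * (g i)⁻¹ ∈ N} (g j) (fun h => hji (hd j hj i hi h)), mul_zero]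
  · exact fun h => absurd hi h

theorem Proj.allCos (P : Proj ρ) : AllCos ρ := by
  intro H' H _ s a _ hd ha h0
  exact P.indep H' s (fun g => g) a ha hd h0

theorem Proj.allInd (P : Proj ρ) : AllInd ρ := by
  intro H N t h c hc h0
  classical
  have h1 := P.indep N c.support (fun u : ℤ => t ^ u) (fun u => c u) (fun u _ => hc u) (by
      intro i _ j _ hij
      have h2 : t ^ i * (t ^ j)⁻¹ = t ^ (i - j) := by rw [zpow_sub]
      rw [h2] at hij
      have := h.inf _ hij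
      omega) (by
      rw [← h0, Finsupp.sum]
      refine Finset.sum_congr rfl fun u _ => ?_
      rw [map_zpow])
  ext u
  by_cases hu : u ∈ c.support
  · exact h1 u hu
  · rw [Finsupp.coe_zero, Pi.zero_apply]
    exact Finsupp.notMem_support_iff.1 hu

/-- the projections of the opposite skew field -/
def Proj.op (P : Proj ρ) : Proj (opr ρ) where
  π S :=
    { toFun := fun x => MulOpposite.op (P.π {h | h⁻¹ ∈ S} x.unop)
      map_zero' := by rw [MulOpposite.unop_zero, map_zero, MulOpposite.op_zero]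
      map_add' := fun x y => by rw [MulOpposite.unop_add, map_add, MulOpposite.op_add] }
  left g S x := by
    show MulOpposite.op (P.π {h | h⁻¹ ∈ {h | g⁻¹ * h ∈ S}} (MulOpposite.unop (MulOpposite.op ((ρ g⁻¹ : Eˣ) : E) * x))) =
      MulOpposite.op ((ρ g⁻¹ : Eˣ) : E) * MulOpposite.op (P.π {h | h⁻¹ ∈ S} x.unop)
    rw [MulOpposite.unop_mul, MulOpposite.unop_op, ← MulOpposite.op_mul]
    have h1 := P.right g⁻¹ {h | h⁻¹ ∈ S} x.unop
    have h2 : {h : K | h * g⁻¹⁻¹ ∈ {h | h⁻¹ ∈ S}} = {h | h⁻¹ ∈ {h | g⁻¹ * h ∈ S}} := by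
      ext h
      show (h * g⁻¹⁻¹)⁻¹ ∈ S ↔ g⁻¹ * h⁻¹ ∈ S
      rw [mul_inv_rev, inv_inv]
    rw [h2] at h1
    rw [h1]
  right g S x := by
    show MulOpposite.op (P.π {h | h⁻¹ ∈ {h | h * g⁻¹ ∈ S}} (MulOpposite.unop (x * MulOpposite.op ((ρ g⁻¹ : Eˣ) : E)))) =
      MulOpposite.op (P.π {h | h⁻¹ ∈ S} x.unop) * MulOpposite.op ((ρ g⁻¹ : Eˣ) : E)
    rw [MulOpposite.unop_mul, MulOpposite.unop_op, ← MulOpposite.op_mul]
    have h1 := P.left g⁻¹ {h | h⁻¹ ∈ S} x.unop
    have h2 : {h : K | g⁻¹⁻¹ * h ∈ {h | h⁻¹ ∈ S}} = {h | h⁻¹ ∈ {h | h * g⁻¹ ∈ S}} := by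
      ext h
      show (g⁻¹⁻¹ * h)⁻¹ ∈ S ↔ h⁻¹ * g⁻¹ ∈ S
      rw [mul_inv_rev, inv_inv]
    rw [h2] at h1
    rw [h1]
  mem S g hg := by
    show MulOpposite.op (P.π {h | h⁻¹ ∈ S} ((ρ g⁻¹ : Eˣ) : E)) = MulOpposite.op ((ρ g⁻¹ : Eˣ) : E)
    rw [P.mem _ _ (by
      show g⁻¹⁻¹ ∈ S
      rwa [inv_inv])]
  not_mem S g hg := by
    show MulOpposite.op (P.π {h | h⁻¹ ∈ S} ((ρ g⁻¹ : Eˣ) : E)) = 0
    rw [P.not_mem _ _ (by
      show ¬ g⁻¹⁻¹ ∈ S
      rwa [inv_inv])]
    rfl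

end prj

/-! ### restriction to a smaller skew field and to another group -/

section hom
variable {K K' : Type} [Group K] [Group K'] {E E' : Type} [DivisionRing E] [DivisionRing E'] {ρ : K →* Eˣ} {ρ' : K' →* E'ˣ}

/-- an embedding of skew fields, compatible with a homomorphism of groups -/
def Emb (ρ' : K' →* E'ˣ) (ρ : K →* Eˣ) (a : K' →* K) (f : E' →+* E) : Prop :=
  ∀ g, f ((ρ' g : E'ˣ) : E') = ((ρ (a g) : Eˣ) : E)

variable {a : K' →* K} {f : E' →+* E}

theorem Emb.map_cl (h : Emb ρ' ρ a f) {N : Subgroup K'} {x : E'} (hx : x ∈ cl ρ' N) : f x ∈ cl ρ (N.map a) := by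
  have h1 : cl ρ' N ≤ (cl ρ (N.map a)).comap f := by
    refine (Subfield.closure_le).2 ?_
    rintro _ ⟨g, hg, rfl⟩
    show f ((ρ' g : E'ˣ) : E') ∈ cl ρ (N.map a)
    rw [h g]
    exact Subfield.subset_closure ⟨a g, ⟨g, hg, rfl⟩, rfl⟩
  exact h1 hx

theorem Emb.map_zpow (h : Emb ρ' ρ a f) (t : K') (u : ℤ) : f ((ρ' t ^ u : E'ˣ) : E') = ((ρ (a t) ^ u : Eˣ) : E) := by
  rw [← _root_.map_zpow, h, _root_.map_zpow, _root_.map_zpow]

theorem ZP.map (ha : Function.Injective a) {H N : Subgroup K'} {t : K'} (h : ZP H N t) :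
    ZP (H.map a) (N.map a) (a t) where
  le := Subgroup.map_mono h.le
  mem := ⟨t, h.mem, rfl⟩
  conj := by
    rintro _ ⟨g, hg, rfl⟩ _ ⟨k, hk, rfl⟩
    exact ⟨g * k * g⁻¹, h.conj g hg k hk, by rw [_root_.map_mul, _root_.map_mul, map_inv]⟩
  gen := by
    rintro _ ⟨g, hg, rfl⟩
    obtain ⟨n, hn⟩ := h.gen g hg
    exact ⟨n, ⟨_, hn, by rw [_root_.map_mul, _root_.map_zpow]⟩⟩
  inf := by
    rintro n ⟨x, hx, hxn⟩
    rw [← _root_.map_zpow] at hxn
    have h1 := ha hxn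
    subst h1
    exact h.inf n hx

theorem Emb.allInd (h : Emb ρ' ρ a f) (ha : Function.Injective a) (hI : AllInd ρ) : AllInd ρ' := by
  intro H N t hz c hc h0
  have h1 := hI _ _ _ (hz.map ha) (c.mapRange f (map_zero f)) (fun u => by
      rw [Finsupp.mapRange_apply]
      exact h.map_cl (hc u)) (by
      rw [Finsupp.sum_mapRange_index (fun u => zero_mul _)]
      have h2 := congrArg f h0
      rw [map_zero, Finsupp.sum, map_sum] at h2
      rw [← h2, Finsupp.sum]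
      refine Finset.sum_congr rfl fun u _ => ?_
      rw [_root_.map_mul, h.map_zpow])
  ext u
  have h2 := DFunLike.congr_fun h1 u
  rw [Finsupp.mapRange_apply, Finsupp.coe_zero, Pi.zero_apply] at h2
  rw [Finsupp.coe_zero, Pi.zero_apply]
  exact (map_eq_zero f).1 h2

theorem Emb.allCos (h : Emb ρ' ρ a f) (ha : Function.Injective a) (hC : AllCos ρ) : AllCos ρ' := by
  classical
  intro H' H hle s b hs hd hb h0 g hg
  obtain ⟨F, hF⟩ : ∃ F : K → E, ∀ g ∈ s, F (a g) = f (b g) := by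
    refine ⟨fun k => if hk : ∃ g ∈ s, a g = k then f (b hk.choose) else 0, fun g hg => ?_⟩
    have hk : ∃ g' ∈ s, a g' = a g := ⟨g, hg, rfl⟩
    show (if hk : ∃ g' ∈ s, a g' = a g then f (b hk.choose) else 0) = f (b g)
    rw [dif_pos hk, ha hk.choose_spec.2]
  have h2 := hC (H'.map a) (H.map a) (Subgroup.map_mono hle) (s.image a) F (by
      intro k hk
      obtain ⟨g, hg, rfl⟩ := Finset.mem_image.1 hk
      exact ⟨g, hs g hg, rfl⟩) (by
      intro k hk k' hk' hkk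
      obtain ⟨g, hg, rfl⟩ := Finset.mem_image.1 hk
      obtain ⟨g', hg', rfl⟩ := Finset.mem_image.1 hk'
      rw [← map_inv, ← _root_.map_mul] at hkk
      obtain ⟨x, hx, hxg⟩ := hkk
      have hx' : g * g'⁻¹ ∈ H' := by
        rw [← ha hxg]
        exact hx
      rw [hd g hg g' hg' hx']) (by
      intro k hk
      obtain ⟨g, hg, rfl⟩ := Finset.mem_image.1 hk
      rw [hF g hg]
      exact h.map_cl (hb g hg)) (by
      rw [Finset.sum_image fun x _ y _ hxy => ha hxy]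
      have h3 := congrArg f h0
      rw [map_zero, map_sum] at h3
      rw [← h3]
      refine Finset.sum_congr rfl fun x hx => ?_
      rw [hF x hx, _root_.map_mul, h]) (a g) (Finset.mem_image_of_mem a hg)
  rw [hF g hg] at h2
  exact (map_eq_zero f).1 h2

/-- the opposite embedding -/
theorem Emb.op (h : Emb ρ' ρ a f) : Emb (opr ρ') (opr ρ) a (RingHom.op f) := by
  intro g
  show MulOpposite.op (f ((ρ' g⁻¹ : E'ˣ) : E')) = MulOpposite.op ((ρ (a g)⁻¹ : Eˣ) : E)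
  rw [h, map_inv]

/-- the embedding of the generated skew field -/
theorem emb_val (ρ : K →* Eˣ) (a : K' →* K) : Emb (sρ (ρ.comp a)) ρ a (val (ρ.comp a)) := fun g => val_sρ (ρ.comp a) g

end hom

end SQ.BO
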