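import Pool.Agent.SQ.BO.Acc

/-!
# Project MP_984acc_BO: accessible families, independence of cosets, `Fam` for all finite families
-/

set_option autoImplicit false

namespace SQ.BO

open SQ.T3 SQ.T3.StepX

variable {K : Type} [Group K] {E₁ E₂ : Type} [DivisionRing E₁] [DivisionRing E₂] (ρ₁ : K →* E₁ˣ) (ρ₂ : K →* E₂ˣ)

/-- the components of a family in `cl ρ₁ S`, in the degrees of `T` -/
def cps (S : Subgroup K) (φ : K → ℤ) (A : Set E₁) (T : Set K) : Set E₁ :=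
  {z | ∃ a ∈ A, ∃ t ∈ T, z = (cf ρ₁ S φ a).coeff (φ t) * ((ρ₁ t⁻¹ : E₁ˣ) : E₁)}

/-- accessible families -/
inductive AccL : Subgroup K → Set E₁ → Prop
  | mk (H : Subgroup K) (X : Set E₁) (g : E₁ → K) (S : Subgroup K) (hg : ∀ x ∈ X, g x ∈ H) (hS : S ≤ H) (fg : S.FG)
      (hx : ∀ x ∈ X, x * ρ₁ (g x) ∈ cl ρ₁ S)
      (h : ∀ φ, Ph ρ₁ ρ₂ S φ → ∀ T : Set K, T.Finite → T ⊆ S →
        AccL (kr S φ) (cps ρ₁ S φ ((fun x => x * ((ρ₁ (g x) : E₁ˣ) : E₁)) '' X) T)) : AccL H X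

variable {ρ₁ ρ₂}

open Classical in
theorem AccL.sub {H : Subgroup K} {X : Set E₁} (hX : AccL ρ₁ ρ₂ H X) :
    ∀ M, H ≤ M → ∀ Y : Set E₁, (∀ y ∈ Y, y = 0 ∨ ∃ x ∈ X, ∃ k ∈ M, y = x * ((ρ₁ k : E₁ˣ) : E₁)) → AccL ρ₁ ρ₂ M Y := by
  induction hX with
  | mk H X g S hg hS fg hx h ih =>
    intro M hM Y hY
    have key : ∀ y : E₁, ∃ k' : K, y ∈ Y → k' ∈ M ∧ (y * ((ρ₁ k' : E₁ˣ) : E₁) = 0 ∨
        y * ((ρ₁ k' : E₁ˣ) : E₁) ∈ (fun x => x * ((ρ₁ (g x) : E₁ˣ) : E₁)) '' X) := by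
      intro y
      by_cases hy : y ∈ Y
      · rcases hY y hy with h0 | ⟨x, hxX, k, hk, rfl⟩
        · exact ⟨1, fun _ => ⟨M.one_mem, Or.inl (by rw [h0, zero_mul])⟩⟩
        · refine ⟨k⁻¹ * g x, fun _ => ⟨M.mul_mem (M.inv_mem hk) (hM (hg x hxX)), Or.inr ⟨x, hxX, ?_⟩⟩⟩
          show x * ((ρ₁ (g x) : E₁ˣ) : E₁) = _
          rw [mul_assoc, ← rho_mul, mul_inv_cancel_left]
      · exact ⟨1, fun h => absurd h hy⟩
    choose g' hg' using key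
    refine AccL.mk M Y g' S (fun y hy => (hg' y hy).1) (hS.trans hM) fg (fun y hy => ?_) fun φ hφ T hT hTS => ?_
    · rcases (hg' y hy).2 with h0 | ⟨x, hxX, h0⟩
      · rw [h0]; exact zero_mem _
      · rw [← h0]; exact hx x hxX
    · refine ih φ hφ T hT hTS _ le_rfl _ ?_
      rintro z ⟨_, ⟨y, hy, rfl⟩, t, ht, rfl⟩
      rcases (hg' y hy).2 with h0 | h0
      · left
        simp only [h0]
        rw [cf_zero hφ.hm hφ.i1, HahnSeries.coeff_zero, zero_mul]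
      · right
        refine ⟨_, ⟨_, h0, t, ht, rfl⟩, 1, Subgroup.one_mem _, ?_⟩
        rw [rho_one, mul_one]

theorem AccL.mono {H : Subgroup K} {X : Set E₁} (hX : AccL ρ₁ ρ₂ H X) {M : Subgroup K} (hM : H ≤ M) : AccL ρ₁ ρ₂ M X :=
  hX.sub M hM X fun y hy => Or.inr ⟨y, hy, 1, M.one_mem, by rw [rho_one, mul_one]⟩

/-- a family of cores -/
theorem AccL.core {H S : Subgroup K} {A : Set E₁} (fg : S.FG) (hS : S ≤ H) (hA : ∀ a ∈ A, a ∈ cl ρ₁ S)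
    (h : ∀ φ, Ph ρ₁ ρ₂ S φ → ∀ T : Set K, T.Finite → T ⊆ S → AccL ρ₁ ρ₂ (kr S φ) (cps ρ₁ S φ A T)) : AccL ρ₁ ρ₂ H A := by
  have e : (fun x => x * ((ρ₁ (1 : K) : E₁ˣ) : E₁)) '' A = A := by
    simp only [rho_one, mul_one, Set.image_id']
  refine AccL.mk H A (fun _ => 1) S (fun _ _ => H.one_mem) hS fg (fun x hx => ?_) fun φ hφ T hT hTS => ?_
  · rw [rho_one, mul_one]
    exact hA x hx
  · rw [e]
    exact h φ hφ T hT hTS

open Classical in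
/-- the components in a bigger group -/
theorem cps_big {S T₀ : Subgroup K} {A : Set E₁} (hA : ∀ a ∈ A, a ∈ cl ρ₁ S) (hST : S ≤ T₀) {φ : K → ℤ} (hφ : Ph ρ₁ ρ₂ T₀ φ)
    {T : Set K} (hT : T.Finite) (hTT : T ⊆ T₀) :
    ∃ W : Set E₁, ((∃ g ∈ S, φ g ≠ 0) → ∃ T' : Set K, T'.Finite ∧ T' ⊆ S ∧ W = cps ρ₁ S φ A T') ∧
      ((∀ g ∈ S, φ g = 0) → W = A) ∧ ∀ z ∈ cps ρ₁ T₀ φ A T, z = 0 ∨ ∃ w ∈ W, ∃ k ∈ kr T₀ φ, z = w * ((ρ₁ k : E₁ˣ) : E₁) := by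
  by_cases h0 : ∃ g ∈ S, φ g ≠ 0
  · have hP := hφ.mono hST h0
    have key : ∀ t : K, ∃ s : K, s ∈ S ∧ ((∃ s ∈ S, φ s = φ t) → φ s = φ t) := by
      intro t
      by_cases hs : ∃ s ∈ S, φ s = φ t
      · obtain ⟨s, hs, h1⟩ := hs
        exact ⟨s, hs, fun _ => h1⟩
      · exact ⟨1, S.one_mem, fun h => absurd h hs⟩
    choose σ hσ using key
    refine ⟨cps ρ₁ S φ A (σ '' T), fun _ => ⟨σ '' T, hT.image σ, ?_, rfl⟩, fun h1 => ?_, ?_⟩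
    · rintro _ ⟨t, -, rfl⟩
      exact (hσ t).1
    · obtain ⟨g, hg, hg0⟩ := h0
      exact absurd (h1 g hg) hg0
    · rintro z ⟨a, ha, t, ht, rfl⟩
      by_cases hs : ∃ s ∈ S, φ s = φ t
      · right
        have h1 := (hσ t).2 hs
        refine ⟨_, ⟨a, ha, σ t, ⟨t, ht, rfl⟩, rfl⟩, σ t * t⁻¹, (mem_kr hφ.hm).2 ⟨T₀.mul_mem (hST (hσ t).1) (T₀.inv_mem (hTT ht)), ?_⟩, ?_⟩
        · rw [hφ.hm _ (hST (hσ t).1) _ (T₀.inv_mem (hTT ht)), hφ.hm.inv (hTT ht), h1]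
          ring
        · rw [mul_assoc, ← rho_mul, inv_mul_cancel_left, h1, cf_res hφ.hm hφ.i1 hST (hA a ha)]
      · left
        push Not at hs
        rw [cf_res hφ.hm hφ.i1 hST (hA a ha), (cf_gd hP.hm hP.i1 (hA a ha) (φ t)).2 hs, zero_mul]
  · refine ⟨A, fun h => absurd h h0, fun _ => rfl, ?_⟩
    push Not at h0
    rintro z ⟨a, ha, t, ht, rfl⟩
    rw [cf_zero_hom hφ.hm hφ.i1 hST h0 (hA a ha), HahnSeries.coeff_single]
    split_ifs with h1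
    · right
      exact ⟨a, ha, t⁻¹, (mem_kr hφ.hm).2 ⟨T₀.inv_mem (hTT ht), by rw [hφ.hm.inv (hTT ht), h1, neg_zero]⟩, rfl⟩
    · left
      rw [zero_mul]

open Classical in
theorem corel_union {S : Subgroup K} {A : Set E₁} (fg : S.FG) (hA : ∀ a ∈ A, a ∈ cl ρ₁ S)
    (IH : ∀ φ, Ph ρ₁ ρ₂ S φ → ∀ T : Set K, T.Finite → T ⊆ S → ∀ M, kr S φ ≤ M → ∀ Y, AccL ρ₁ ρ₂ M Y →
      AccL ρ₁ ρ₂ M (cps ρ₁ S φ A T ∪ Y)) :
    ∀ (H' : Subgroup K) (X' : Set E₁), AccL ρ₁ ρ₂ H' X' → ∀ H, H' ≤ H → S ≤ H → AccL ρ₁ ρ₂ H (A ∪ X') := by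
  intro H' X' hX'
  induction hX' with
  | mk H' X' g' S' hg' hS' fg' hx' h' ih' =>
    intro H hH hSH
    set B : Set E₁ := (fun x => x * ((ρ₁ (g' x) : E₁ˣ) : E₁)) '' X' with hBdef
    have hB : ∀ b ∈ B, b ∈ cl ρ₁ S' := by
      rintro _ ⟨x, hx, rfl⟩
      exact hx' x hx
    set T₀ : Subgroup K := S ⊔ S' with hT₀
    have hST : S ≤ T₀ := le_sup_left
    have hS'T : S' ≤ T₀ := le_sup_right
    have hTH : T₀ ≤ H := sup_le hSH (hS'.trans hH)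
    have hfg : T₀.FG := sup_fg fg fg'
    have h1 : AccL ρ₁ ρ₂ H (A ∪ B) := by
      refine AccL.core hfg hTH ?_ fun φ hφ T hT hTT => ?_
      · rintro x (hx | hx)
        · exact cl_mono ρ₁ hST (hA x hx)
        · exact cl_mono ρ₁ hS'T (hB x hx)
      · obtain ⟨W, hW1, hW2, hW3⟩ := cps_big hA hST hφ hT hTT
        obtain ⟨V, hV1, hV2, hV3⟩ := cps_big hB hS'T hφ hT hTT
        have h2 : AccL ρ₁ ρ₂ (kr T₀ φ) (W ∪ V) := by
          by_cases h0 : ∃ g ∈ S, φ g ≠ 0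
          · obtain ⟨T1, hT1, hT1S, rfl⟩ := hW1 h0
            refine IH φ (hφ.mono hST h0) T1 hT1 hT1S _ (kr_mono hST) V ?_
            by_cases h0' : ∃ g ∈ S', φ g ≠ 0
            · obtain ⟨T2, hT2, hT2S, rfl⟩ := hV1 h0'
              exact (h' φ (hφ.mono hS'T h0') T2 hT2 hT2S).mono (kr_mono hS'T)
            · push Not at h0'
              rw [hV2 h0']
              exact AccL.core fg' (fun g hg => (mem_kr hφ.hm).2 ⟨hS'T hg, h0' g hg⟩) hB h'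
          · push Not at h0
            rw [hW2 h0]
            have hSM : S ≤ kr T₀ φ := fun g hg => (mem_kr hφ.hm).2 ⟨hST hg, h0 g hg⟩
            have h0' : ∃ g ∈ S', φ g ≠ 0 := by
              by_contra h1
              push Not at h1
              exact hφ.absurd (sup_le hSM fun g hg => (mem_kr hφ.hm).2 ⟨hS'T hg, h1 g hg⟩)
            obtain ⟨T2, hT2, hT2S, rfl⟩ := hV1 h0'
            exact ih' φ (hφ.mono hS'T h0') T2 hT2 hT2S _ (kr_mono hS'T) hSM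
        refine h2.sub _ le_rfl _ ?_
        rintro z ⟨a, ha, t, ht, hz⟩
        rcases ha with ha | ha
        · rcases hW3 z ⟨a, ha, t, ht, hz⟩ with h3 | ⟨w, hw, k, hk, h3⟩
          · exact Or.inl h3
          · exact Or.inr ⟨w, Or.inl hw, k, hk, h3⟩
        · rcases hV3 z ⟨a, ha, t, ht, hz⟩ with h3 | ⟨w, hw, k, hk, h3⟩
          · exact Or.inl h3
          · exact Or.inr ⟨w, Or.inr hw, k, hk, h3⟩
    refine h1.sub H le_rfl _ ?_
    rintro y (hy | hy)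
    · exact Or.inr ⟨y, Or.inl hy, 1, H.one_mem, by rw [rho_one, mul_one]⟩
    · refine Or.inr ⟨_, Or.inr ⟨y, hy, rfl⟩, (g' y)⁻¹, H.inv_mem (hH (hg' y hy)), ?_⟩
      rw [mul_assoc, rho_mul_inv, mul_one]

theorem accL_union' {H : Subgroup K} {X : Set E₁} (hX : AccL ρ₁ ρ₂ H X) :
    ∀ M, H ≤ M → ∀ Y, AccL ρ₁ ρ₂ M Y → AccL ρ₁ ρ₂ M (X ∪ Y) := by
  induction hX with
  | mk H X g S hg hS fg hx h ih =>
    intro M hM Y hY
    have h1 := corel_union fg (by rintro _ ⟨x, hxX, rfl⟩; exact hx x hxX) ih M Y hY M le_rfl (hS.trans hM)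
    refine h1.sub M le_rfl _ ?_
    rintro y (hy | hy)
    · refine Or.inr ⟨_, Or.inl ⟨y, hy, rfl⟩, (g y)⁻¹, M.inv_mem (hM (hg y hy)), ?_⟩
      rw [mul_assoc, rho_mul_inv, mul_one]
    · exact Or.inr ⟨y, Or.inr hy, 1, M.one_mem, by rw [rho_one, mul_one]⟩

theorem AccL.union {H : Subgroup K} {X Y : Set E₁} (hX : AccL ρ₁ ρ₂ H X) (hY : AccL ρ₁ ρ₂ H Y) : AccL ρ₁ ρ₂ H (X ∪ Y) :=
  accL_union' hX H le_rfl Y hY

theorem AccL.empty {H : Subgroup K} : AccL ρ₁ ρ₂ H ∅ :=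
  AccL.core bot_fg bot_le (fun _ h => h.elim) fun _ h => (not_ph_bot h).elim

theorem AccL.biUnion {H : Subgroup K} {ι : Type} {T : Set ι} (hT : T.Finite) {X : ι → Set E₁}
    (h : ∀ t ∈ T, AccL ρ₁ ρ₂ H (X t)) : AccL ρ₁ ρ₂ H (⋃ t ∈ T, X t) := by
  induction T, hT using Set.Finite.induction_on with
  | empty => simpa using AccL.empty
  | insert ha _ ih =>
    rw [Set.biUnion_insert]
    exact (h _ (Set.mem_insert _ _)).union (ih fun t ht => h t (Set.mem_insert_of_mem _ ht))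

theorem accL_single {H : Subgroup K} {x : E₁} (hx : Acc ρ₁ ρ₂ H x) : AccL ρ₁ ρ₂ H {x} := by
  induction hx with
  | mk H x g S hg hS fg hx h ih =>
    refine AccL.mk H {x} (fun _ => g) S (fun _ _ => hg) hS fg ?_ fun φ hφ T hT hTS => ?_
    · rintro _ rfl
      exact hx
    · have h1 := AccL.biUnion (H := kr S φ) hT (X := fun t => {(cf ρ₁ S φ (x * ρ₁ g)).coeff (φ t) * ((ρ₁ t⁻¹ : E₁ˣ) : E₁)})
        fun t ht => ih φ hφ t (hTS ht)
      refine h1.sub _ le_rfl _ ?_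
      rintro _ ⟨_, ⟨_, rfl, rfl⟩, t, ht, rfl⟩
      refine Or.inr ⟨_, ?_, 1, Subgroup.one_mem _, by rw [rho_one, mul_one]⟩
      rw [Set.mem_iUnion₂]
      exact ⟨t, ht, rfl⟩

/-- every finite family is accessible -/
theorem accL_all {H : Subgroup K} {X : Set E₁} (hX : X.Finite) (h : ∀ x ∈ X, x ∈ cl ρ₁ H) : AccL ρ₁ ρ₂ H X := by
  have h1 := AccL.biUnion (ρ₁ := ρ₁) (ρ₂ := ρ₂) (H := H) hX (X := fun x => {x}) fun x hx => accL_single (acc_all (h x hx))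
  refine h1.sub _ le_rfl _ fun x hx => Or.inr ⟨x, ?_, 1, H.one_mem, by rw [rho_one, mul_one]⟩
  rw [Set.mem_iUnion₂]
  exact ⟨x, hx, rfl⟩

/-! ### admissible homomorphisms -/

open Classical in
theorem indF_of {E : Type} [DivisionRing E] {ρ : K →* Eˣ} {S : Subgroup K} {φ : K → ℤ} (hm : Hm S φ) {t : K} (ht : t ∈ S)
    (ht1 : φ t = 1) (hI : Ind ρ (kr S φ) t) : IndF ρ S φ := by
  intro p hp h0
  obtain ⟨U, hU, hU1⟩ := gr0_fin hp
  have hc := hI (Finsupp.onFinset U (fun u => p.2.coeff u * ((ρ (t ^ u)⁻¹ : Eˣ) : E)) fun u hu => by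
      by_contra hu'
      exact hu (by rw [hU u hu', zero_mul]))
    (fun u => (gr0_gd hm hp u).1 _ (S.zpow_mem ht u) (by rw [hm.zpow ht, ht1, mul_one]))
    (by
      rw [Finsupp.onFinset_sum _ (by simp), ← h0, hU1]
      refine Finset.sum_congr rfl fun u _ => ?_
      rw [← map_zpow, mul_assoc, rho_inv_mul, mul_one])
  ext u
  have h1 := DFunLike.congr_fun hc u
  rw [Finsupp.onFinset_apply, Finsupp.zero_apply] at h1
  rw [HahnSeries.coeff_zero]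
  exact (mul_eq_zero.1 h1).resolve_right (rho_ne ρ _)

open Classical in
theorem exists_ph {E₁ E₂ : Type} [DivisionRing E₁] [DivisionRing E₂] {ρ₁ : K →* E₁ˣ} {ρ₂ : K →* E₂ˣ} {S N : Subgroup K} {t : K}
    (hz : ZP S N t) (h1 : Ind ρ₁ N t) (h2 : Ind ρ₂ N t) : ∃ φ, Ph ρ₁ ρ₂ S φ ∧ φ t = 1 ∧ kr S φ = N := by
  have key : ∀ g : K, ∃ n : ℤ, g ∈ S → g * t ^ (-n) ∈ N := by
    intro g
    by_cases hg : g ∈ S
    · obtain ⟨n, hn⟩ := hz.gen g hg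
      exact ⟨n, fun _ => hn⟩
    · exact ⟨0, fun h => absurd h hg⟩
  choose φ hφ using key
  have huniq : ∀ g ∈ S, ∀ n : ℤ, g * t ^ (-n) ∈ N → φ g = n := by
    intro g hg n hn
    have h3 := N.mul_mem (N.inv_mem (hφ g hg)) hn
    have e : (g * t ^ (-φ g))⁻¹ * (g * t ^ (-n)) = t ^ (φ g - n) := by
      rw [mul_inv_rev, mul_assoc, inv_mul_cancel_left, zpow_neg, inv_inv, ← zpow_add]
      congr 1
    rw [e] at h3
    have := hz.inf _ h3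
    omega
  have hm : Hm S φ := by
    intro a ha b hb
    refine huniq _ (S.mul_mem ha hb) _ ?_
    have h3 := hz.conj _ (S.mul_mem ha (S.mul_mem (S.zpow_mem hz.mem 0) (S.one_mem))) _ (hφ b hb)
    have h4 := hφ a ha
    have e : a * b * t ^ (-(φ a + φ b)) = a * (b * t ^ (-φ b)) * a⁻¹ * (a * t ^ (-φ a)) := by
      rw [neg_add_rev, zpow_add]
      group
    rw [e]
    exact N.mul_mem (hz.conj a ha _ (hφ b hb)) h4
  have ht1 : φ t = 1 := huniq t hz.mem 1 (by rw [zpow_neg, zpow_one, mul_inv_cancel]; exact N.one_mem)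
  have hkr : kr S φ = N := by
    ext g
    rw [mem_kr hm]
    constructor
    · rintro ⟨hg, hg0⟩
      have := hφ g hg
      rwa [hg0, neg_zero, zpow_zero, mul_one] at this
    · intro hg
      exact ⟨hz.le hg, huniq g (hz.le hg) 0 (by rwa [neg_zero, zpow_zero, mul_one])⟩
  refine ⟨φ, ⟨hm, ⟨t, hz.mem, by rw [ht1]; exact one_ne_zero⟩, indF_of hm hz.mem ht1 (by rwa [hkr]), indF_of hm hz.mem ht1 (by rwa [hkr])⟩,
    ht1, hkr⟩

end SQ.BO
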