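import Pool.Agent.SQ.BO.Two
import Pool.Agent.SQ.HH.Mono
import Pool.Agent.SQ.RowMain

/-!
# SQ/BO: the vanishing outside of the middle dimension, from the two-field form
-/

set_option autoImplicit false

open scoped TensorProduct

namespace SQ.BO

open Singer Pool.Agent.Helper18.SQ

/-- from the homology of a resolution in the form `HV` -/
theorem exH_of_ten {K : Type} [Group K] {D : Type} [DivisionRing D] [Algebra (ZMod 2) D] (ρ : K →* Dˣ) (R : FinRes K)
    (h : ∀ j, HH.HV (MonoidHom.id K) (HH.Two.ten (opr ρ) ρ) R j) (j : ℕ) : ExH (diag ρ) R (j + 1) :=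
  (HH.hv_iff_exH K _ (diag ρ) R j).1 (HV_ten (MonoidHom.id K) ρ ρ R j (h j))

/-- **the vanishing outside of the middle dimension** -/
theorem van2 (K : Type) [Group K] (hinv : ∀ h : K, h * h = 1 → h = 1) (D : Type) [DivisionRing D] [Algebra (ZMod 2) D]
    (ρ : K →* Dˣ) (n : ℕ) (hn : IsPD n K) (R : FinRes K)
    (h1 : ∀ j, HH.HV (MonoidHom.id K) (HH.Two.ten (opr ρ) ρ) R j)
    (h2 : ∀ j, HH.HV (MonoidHom.id K) (HH.Two.ten (opr (opr ρ)) (opr ρ)) R j) (i : ℕ) (hi : 2 * i ≠ n) :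
    Ex (lmul ρ) R i :=
  vanish2 ρ lem hinv hn R (exH_of_ten ρ R h1) (exH_of_ten (opr ρ) R h2) i hi

end SQ.BO
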